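import Pool.Agent.Lib.MP_5ffd28_gt.CR.Gen
import Pool.Agent.Lib.MP_23bd8d_gt.Real

/-! The regular open algebra of the forcing. -/

namespace Pool.Agent.Lib.MP_5ffd28_gt.CR

open Set Filter Topology MeasureTheory Pool.Agent.Shared.Forcing Pool.Agent.Lib.MP_23bd8d_gt
open Cardinal

/-- conditions -/
structure CU : Type 1 where
  s : Set Om
  c : Cond s

instance : Preorder CU := Preorder.lift CU.s

abbrev BB : Type 1 := RO CU

noncomputable abbrev ll : Cardinal.{1} := Cardinal.univ.{0, 1}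

instance : Fact ll.IsInaccessible := ⟨Cardinal.IsInaccessible.univ⟩

theorem ul_lt (ι : Type) : #(ULift.{1} ι) < ll := by
  rw [mk_uLift]; exact lift_lt_univ _

theorem BB_lt : #BB < ll := by
  have h1 : #CU < ll := (mk_le_of_injective (f := fun p : CU => ULift.up.{1} p.s) (by
    rintro ⟨_, _⟩ ⟨_, _⟩ h
    cases h; rfl)).trans_lt (ul_lt _)
  exact (mk_le_of_injective (f := fun b : BB => b.s) fun a b h => RO.ext' fun p => by
    rw [RO.mem_def, RO.mem_def, show a.s = b.s from h]).trans_lt (set_lt_l h1)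

theorem tame : Tame BB ll := tame_of_small BB_lt

/-- the truth value of a property of generic points -/
def tv (P : Ω → Prop) : BB := RO.hull {p | Fc p.s P}

theorem mem_tv {P : Ω → Prop} {p : CU} : p ∈ tv P ↔ Fc p.s P :=
  ⟨fun h => fc_of_dense fun u hu hs =>
    let ⟨r, a, t, b, c⟩ := h ⟨u, hu⟩ hs; ⟨r.s, a, r.c, Fc.anti b t.c c⟩,
    fun h => RO.mem_hull_of_mem h⟩

/-- `P` holds at the generic point described by `U` -/
def Ae (U : Ultra BB) (P : Ω → Prop) : Prop := tv P ∈ U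

instance (P : Ω → Prop) : Dec fun U => Ae U P := Dec.const _

variable {U : Ultra BB} {P Q : Ω → Prop}

theorem tv_mono (h : ∀ᶠ ω in gen, P ω → Q ω) : tv P ≤ tv Q := fun _ hp =>
  mem_tv.2 ((Eventually.and (mem_tv.1 hp) h).mono fun _ h hω => h.2 (h.1 hω))

theorem Ae.mono' (h : Ae U P) (h' : ∀ᶠ ω in gen, P ω → Q ω) : Ae U Q := Ultra.mono h (tv_mono h')

theorem Ae.mono (h : Ae U P) (h' : ∀ ω, P ω → Q ω) : Ae U Q := h.mono' (Eventually.of_forall h')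

theorem Ae.and (h : Ae U P) (h' : Ae U Q) : Ae U fun ω => P ω ∧ Q ω :=
  Ultra.mono (Ultra.inf_mem.2 ⟨h, h'⟩) fun _ hp =>
    mem_tv.2 ((mem_tv.1 (RO.mem_inf.1 hp).1).and (mem_tv.1 (RO.mem_inf.1 hp).2))

theorem Ae.of_ae (h : ∀ᶠ ω in gen, P ω) : Ae U P :=
  Ultra.mono U.top_mem fun _ _ => mem_tv.2 (h.mono fun _ h _ => h)

theorem Ae.of_all (h : ∀ ω, P ω) : Ae U P := Ae.of_ae (Eventually.of_forall h)

theorem Ae.exists (h : Ae U P) : ∃ ω, P ω := by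
  obtain ⟨p, hp⟩ := RO.ne_bot_iff.1 (Ultra.ne_bot h)
  exact ((mem_tv.1 hp).exists p.c).imp fun _ h => h.2

theorem Ae.elim (h : Ae U P) (h' : ∀ ω, ¬ P ω) : False := let ⟨ω, hω⟩ := h.exists; h' ω hω

theorem Fc.ae {p : CU} (h : Fc p.s P) (hU : RO.io p ∈ U) : Ae U P :=
  Ultra.mono hU (RO.io_le.2 (mem_tv.2 h))

theorem fc_of_ae {p : CU} (h : ∀ U, RO.io p ∈ U → Ae U P) : Fc p.s P := mem_tv.1 (mem_of_forces h)

/-- the density principle: it is enough to force `Φ` densely below conditions forcing `Ψ` -/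
theorem of_cond {Φ Ψ : Ultra BB → Prop} [Dec Φ] [Dec Ψ]
    (H : ∀ p : CU, (∀ U, RO.io p ∈ U → Ψ U) → ∃ q : CU, q.s ⊆ p.s ∧ ∀ U, RO.io q ∈ U → Φ U)
    (h : Ψ U) : Φ U :=
  bv_mem.1 (Ultra.mono (bv_mem.2 h) fun _ hp => RO.of_dense fun q hq =>
    let ⟨r, a, b⟩ := H q fun _ hU => bv_mem.1 (Ultra.mono hU (RO.io_le.2 (RO.mono hp hq)))
    ⟨r, a, mem_of_forces fun U hU => bv_mem.2 (b U hU)⟩)

theorem tv_exists_le {ι : Type} [Countable ι] {P : ι → Ω → Prop} (hP : ∀ i, Measurable (P i)) :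
    (tv fun ω => ∃ i, P i ω) ≤ ⨆ i, tv (P i) := by
  refine fun p hp => RO.mem_iSup.2 fun q hq => by_contra fun hn => ?_
  have h1 : Fc q.s fun g => ∀ i, ¬ P i g := Fc.forall fun i => fc_of_dense fun u hu hs => by
    obtain ⟨v, a, b, c⟩ := meas_iff.1 (hP i) u hu
    exact ⟨v, a, b, c.resolve_left fun c => hn ⟨⟨v, b⟩, a.trans hs, i, mem_tv.2 c⟩⟩
  obtain ⟨g, -, ⟨i, a⟩, b⟩ := ((mem_tv.1 (RO.mono hp hq)).and h1).exists q.c
  exact b i a

/-- a countable disjunction may be assumed to have a true member -/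
@[elab_as_elim]
theorem wlog_ex {Φ : Ultra BB → Prop} {ι : Type} [Countable ι] {P : ι → Ω → Prop}
    (hP : ∀ i, Measurable (P i)) (U : Ultra BB) (h : Ae U fun ω => ∃ i, P i ω) [Dec Φ]
    (H : ∀ U i, Ae U (P i) → Φ U) : Φ U :=
  wlog_sup _ U (Ultra.mono h (tv_exists_le hP)) H

theorem Ae.or (hP : Measurable P) (hQ : Measurable Q) (h : Ae U fun ω => P ω ∨ Q ω) :
    Ae U P ∨ Ae U Q := by
  refine wlog_ex (P := fun b : Bool => if b then P else Q)
    (fun b => by cases b <;> assumption) U (h.mono fun ω h => by simpa using h.symm) ?_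
  intro U b h
  cases b
  exacts [Or.inr h, Or.inl h]

theorem Ae.of_not (hP : Measurable P) (h : ¬ Ae U P) : Ae U fun ω => ¬ P ω :=
  (Ae.or hP hP.not (Ae.of_all fun _ => em _)).resolve_left h

theorem ae_of_forall (hP : Measurable P) (h : ∀ U, Ae U P → Ae U Q) : ∀ᶠ ω in gen, P ω → Q ω := by
  have : Fc univ fun g => P g → Q g := fc_of_dense fun u hu _ => by
    obtain ⟨v, a, b, c | c⟩ := meas_iff.1 hP u hu
    · exact ⟨v, a, b, (fc_of_ae (p := ⟨v, b⟩) fun U hU => h U (c.ae hU)).mono fun _ _ h _ => h⟩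
    · exact ⟨v, a, b, c.mono fun _ _ h h' => absurd h' h⟩
  exact (Eventually.and this (gen_mem cond_univ)).mono fun g h => h.1 (h.2 trivial)

theorem exists_tv (b : BB) : ∃ P, Measurable P ∧ ∀ U, Ae U P ↔ b ∈ U := by
  have h1 : ∀ p : CU, p ∈ bᶜ → Fc p.s fun g => ¬ ∃ q ∈ b, q.s ∈ g.G := fun p hp =>
    Eventually.of_forall fun g a ⟨q, c, e⟩ =>
      let ⟨W, w1, w2⟩ := g.dir _ a _ e
      hp ⟨W, g.cond W w1⟩ (w2.trans inter_subset_left) (RO.mono c (w2.trans inter_subset_right))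
  have h2 : ∀ p : CU, p ∈ b → Fc p.s fun g => ∃ q ∈ b, q.s ∈ g.G := fun p hp =>
    Eventually.of_forall fun g a => ⟨p, hp, a⟩
  refine ⟨fun g => ∃ q ∈ b, q.s ∈ g.G, meas_iff.2 fun p hp => ?_, fun U => ?_⟩
  · obtain ⟨q, a, c⟩ := RO.decide_dense b ⟨p, hp⟩
    exact ⟨q.s, a, q.c, c.imp (h2 q) (h1 q)⟩
  · suffices tv (fun g => ∃ q ∈ b, q.s ∈ g.G) = b by rw [Ae, this]
    refine le_antisymm (fun p hp => RO.of_dense fun q hq => ?_) fun p hp => mem_tv.2 (h2 p hp)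
    obtain ⟨r, a, c⟩ := RO.decide_dense b q
    refine ⟨r, a, c.resolve_right fun c => ?_⟩
    obtain ⟨g, -, e⟩ := ((mem_tv.1 (RO.mono hp (a.trans hq))).and (h1 r c)).exists r.c
    exact e.2 e.1

theorem exists_dec (Φ : Ultra BB → Prop) [Dec Φ] : ∃ P, Measurable P ∧ ∀ U, Ae U P ↔ Φ U :=
  (exists_tv (bv Φ)).imp fun _ h => ⟨h.1, fun U => (h.2 U).trans bv_mem⟩

theorem Ae.forall {Φ : Ultra BB → Prop} [Dec Φ] {ι : Type} [Countable ι] {P : ι → Ω → Prop}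
    (H : ∀ i U, Φ U → Ae U (P i)) (h : Φ U) : Ae U fun ω => ∀ i, P i ω := by
  obtain ⟨C, h1, h2⟩ := exists_dec Φ
  exact ((h2 U).2 h).mono' ((eventually_countable_forall.2 fun i =>
    ae_of_forall h1 fun U hU => H i U ((h2 U).1 hU)).mono fun ω h hω i => h i hω)

theorem ae_mem {p : CU} : RO.io p ∈ U ↔ Ae U fun g => g.ω ∈ p.s :=
  ⟨Fc.ae (Eventually.of_forall fun g => g.mem _), fun h => Ultra.mono h fun q hq r hr => by
    obtain ⟨g, a, b⟩ := exists_gen r.c (Eventually.and (mem_tv.1 (RO.mono hq hr)) (gen_mem p.c))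
    obtain ⟨W, w1, w2⟩ := g.dir _ a _ (b.2 (b.1 a))
    exact ⟨⟨W, g.cond W w1⟩, w2.trans inter_subset_left, p, rfl, w2.trans inter_subset_right⟩⟩

/-- jointly measurable families of real functions -/
def JM (φ : Ω → ℝ → ℝ) : Prop := Measurable fun u : Ω × ℝ => φ u.1 u.2

/-- names of reals -/
abbrev MF : Type := {x : Ω → ℝ // Measurable x}

def cst (r : ℝ) : MF := ⟨fun _ => r, measurable_const⟩

theorem measurable_sSup_lower {α : Type} [MeasurableSpace α] {S : α → Set ℝ}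
    (hl : ∀ x, IsLowerSet (S x))
    (hm : ∀ q : ℚ, Measurable fun x => (q : ℝ) ∈ S x) : Measurable fun x => sSup (S x) := by
  refine measurable_of_Ioi fun r => ?_
  have e : (fun x => sSup (S x)) ⁻¹' Ioi r = {x | ((∃ q : ℚ, (q : ℝ) ∉ S x) ∧
      (∃ q : ℚ, (q : ℝ) ∈ S x) ∧ ∃ q : ℚ, (q : ℝ) ∈ S x ∧ r < q) ∨
      (¬ ((∃ q : ℚ, (q : ℝ) ∉ S x) ∧ ∃ q : ℚ, (q : ℝ) ∈ S x) ∧ r < 0)} := by
    ext x
    simp only [mem_preimage, mem_Ioi, mem_ofPred_eq]
    by_cases h : (∃ q : ℚ, (q : ℝ) ∉ S x) ∧ ∃ q : ℚ, (q : ℝ) ∈ S x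
    · obtain ⟨⟨p, hp⟩, q, hq⟩ := h
      rw [lt_csSup_iff (s := S x) ⟨p, fun y hy => not_lt.1 fun h => hp (hl x h.le hy)⟩ ⟨q, hq⟩]
      refine ⟨fun ⟨y, h1, h2⟩ => ?_, fun h => h.elim (fun ⟨_, _, s, h⟩ => ⟨s, h⟩)
        fun h => absurd ⟨⟨p, hp⟩, q, hq⟩ h.1⟩
      obtain ⟨s, h3, h4⟩ := exists_rat_btwn h2
      exact Or.inl ⟨⟨p, hp⟩, ⟨q, hq⟩, s, hl x h4.le h1, h3⟩
    · have : sSup (S x) = 0 := by
        rcases not_and_or.1 h with h | h
        · refine Real.sSup_of_not_bddAbove fun ⟨b, hb⟩ => h ?_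
          obtain ⟨q, hq⟩ := exists_rat_gt b
          exact ⟨q, fun h => (hb h).not_gt hq⟩
        · rw [eq_empty_of_forall_notMem (s := S x) fun y hy => h ?_, Real.sSup_empty]
          obtain ⟨q, hq⟩ := exists_rat_lt y
          exact ⟨q, hl x hq.le hy⟩
      rw [this]
      tauto
  rw [e]
  have h1 := Measurable.exists fun q => (hm q).not
  have h2 := Measurable.exists hm
  exact ((h1.and (h2.and (Measurable.exists fun q => (hm q).and measurable_const))).or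
    ((h1.and h2).not.and measurable_const)).setOf

end Pool.Agent.Lib.MP_5ffd28_gt.CR
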