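import Pool.Agent.Lib.MP_5ffd28_gt.CR.Ram

/-! The space of branches and good trees. -/

namespace Pool.Agent.Lib.MP_5ffd28_gt.CR

open Set

noncomputable def lv (m : ℕ) : Finset (Finset ℕ) := (exists_level m).choose

/-- the number of slots at level `m` -/
noncomputable def ln (m : ℕ) : ℕ := (exists_level m).choose_spec.choose

theorem lv_nor (m : ℕ) : nor m (lv m : Set (Finset ℕ)) := (exists_level m).choose_spec.choose_spec.2

def K (m : ℕ) : Type := {x : Finset ℕ // x ∈ lv m}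

theorem K.odd {m : ℕ} (x : K m) : Odd x.1.card :=
  ((exists_level m).choose_spec.choose_spec.1 _ x.2).1

theorem K.lt {m k : ℕ} (x : K m) (h : k ∈ x.1) : k < ln m :=
  ((exists_level m).choose_spec.choose_spec.1 _ x.2).2 k h

theorem K.ext {m : ℕ} {x y : K m} (h : x.1 = y.1) : x = y := Subtype.ext h

instance (m : ℕ) : Finite (K m) := inferInstanceAs (Finite {x // x ∈ lv m})
instance (m : ℕ) : Nonempty (K m) := let ⟨y, h, _⟩ := nor_ne (lv_nor m) ∅; ⟨⟨y, h⟩⟩
instance (m : ℕ) : TopologicalSpace (K m) := ⊥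
instance (m : ℕ) : DiscreteTopology (K m) := ⟨rfl⟩
instance (m : ℕ) : MeasurableSpace (K m) := ⊤
instance (m : ℕ) : DiscreteMeasurableSpace (K m) := ⟨fun _ => trivial⟩
instance (m : ℕ) : BorelSpace (K m) := ⟨borel_eq_top_of_discrete.symm⟩

theorem ln_pos (m : ℕ) : 0 < ln m := by
  obtain ⟨x⟩ : Nonempty (K m) := inferInstance
  obtain ⟨k, hk⟩ := Finset.card_pos.1 x.odd.pos
  exact (Nat.zero_le k).trans_lt (x.lt hk)

/-- branches -/
abbrev Z : Type := ∀ m, K m

/-- successors in `F` of the node of `z` of length `m` -/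
def sc (F : Set Z) (z : Z) (m : ℕ) : Set (Finset ℕ) :=
  {y | ∃ z' ∈ F, (∀ i < m, z' i = z i) ∧ (z' m).1 = y}

/-- the norms are unbounded along every branch -/
def Good (F : Set Z) : Prop := ∀ z ∈ F, ∀ r, ∃ m, r ≤ m ∧ nor r (sc F z m)

/-- the node of `z` of length `n` belongs to `F` -/
def Nd (F : Set Z) (n : ℕ) (z : Z) : Prop := ∃ z' ∈ F, ∀ i < n, z' i = z i

theorem sc_mono {F F' : Set Z} (h : F ⊆ F') (z : Z) (m : ℕ) : sc F z m ⊆ sc F' z m :=
  fun _ ⟨z', a, b⟩ => ⟨z', h a, b⟩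

theorem sc_congr {F : Set Z} {z z' : Z} {m : ℕ} (h : ∀ i < m, z i = z' i) : sc F z m = sc F z' m :=
  Set.ext fun _ => ⟨fun ⟨u, a, b, c⟩ => ⟨u, a, fun i hi => (b i hi).trans (h i hi), c⟩,
    fun ⟨u, a, b, c⟩ => ⟨u, a, fun i hi => (b i hi).trans (h i hi).symm, c⟩⟩

theorem sc_finite (F : Set Z) (z : Z) (m : ℕ) : (sc F z m).Finite :=
  (lv m).finite_toSet.subset fun _ ⟨u, _, _, c⟩ => c ▸ (u m).2

theorem good_univ : Good univ := fun z _ r => ⟨r, le_rfl, nor_mono (lv_nor r) fun y hy =>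
  ⟨Function.update z r ⟨y, hy⟩, trivial, fun _ hi => Function.update_of_ne hi.ne _ _, by simp⟩⟩

/-- finite stems -/
abbrev St : Type := List (Finset ℕ)

instance : MeasurableSpace (Finset St) := ⊤
instance : DiscreteMeasurableSpace (Finset St) := ⟨fun _ => trivial⟩

def OnS (a : St) (z : Z) : Prop := ∀ i x, a[i]? = some x → (z i).1 = x

/-- `B` is the level after `A` of a skeleton of splitting nodes -/
structure Sk (n : ℕ) (A B : Finset St) : Prop where
  up : ∀ a ∈ A, ∃ b ∈ B, a <+: b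
  down : ∀ b ∈ B, ∃ a ∈ A, a <+: b
  big : ∀ b ∈ B, ∃ m, n ≤ m ∧ m < b.length ∧
    nor n {y | ∃ b' ∈ B, b'.take m = b.take m ∧ b'[m]? = some y}

/-- the branches through a skeleton -/
def star (T : ℕ → Finset St) : Set Z := {z | ∀ n, ∃ a ∈ T n, OnS a z}

end Pool.Agent.Lib.MP_5ffd28_gt.CR
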