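import Pool.Agent.Lib.MP_5ffd28_gt.CR.CondDefs

/-! The closing off argument. -/

namespace Pool.Agent.Lib.MP_5ffd28_gt.CR

open Set Filter Topology Cardinal

theorem mk_Iic_le (a : I) : #(Iic a) ≤ 𝔠 := by
  rw [← Iio_insert]
  exact mk_insert_le.trans (add_le_of_le aleph0_le_continuum (mk_Iio_le a)
    (one_le_aleph0.trans aleph0_le_continuum))

theorem mk_down_le {A : Set I} (h : #A ≤ 𝔠) : #{b : I | ∃ a ∈ A, b ≤ a} ≤ 𝔠 := by
  have e : {b : I | ∃ a ∈ A, b ≤ a} = ⋃ a : A, Iic (a : I) := by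
    ext b
    simp
  rw [e]
  exact (mk_iUnion_le _).trans (mul_le_of_le aleph0_le_continuum h
    (ciSup_le' fun a => mk_Iic_le _))

theorem exists_bound {A : Set I} (h : #A ≤ 𝔠) : ∃ b : I, A ⊆ Iio b := by
  by_contra hb
  have e : {b : I | ∃ a ∈ A, b ≤ a} = Set.univ := eq_univ_of_forall fun b => by
    by_contra h2
    exact hb ⟨b, fun a ha => not_le.1 fun h3 => h2 ⟨a, ha, h3⟩⟩
  have := mk_down_le h
  rw [e, mk_univ, mk_I] at this
  exact (Order.lt_succ _).not_ge this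

theorem mk_closed_le (X : Type) [TopologicalSpace X] [SecondCountableTopology X] :
    #{C : Set X | IsClosed C} ≤ 𝔠 := by
  have hc : #(TopologicalSpace.countableBasis X) ≤ ℵ₀ :=
    (TopologicalSpace.countable_countableBasis X).le_aleph0
  have key : ∀ C C' : Set X, IsClosed C' →
      (∀ b ∈ TopologicalSpace.countableBasis X, Disjoint b C' → Disjoint b C) → C ⊆ C' := by
    intro C C' h1 h2 x hx
    by_contra h3
    obtain ⟨b, hb, h4, h5⟩ := (TopologicalSpace.isBasis_countableBasis X).exists_subset_of_mem_open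
      (show x ∈ C'ᶜ from h3) h1.isOpen_compl
    exact disjoint_left.1 (h2 b hb (disjoint_left.2 fun y hy => h5 hy)) h4 hx
  have inj : Function.Injective fun C : {C : Set X | IsClosed C} =>
      {b : TopologicalSpace.countableBasis X | Disjoint b.1 C.1} := fun C C' h =>
    Subtype.ext ((key _ _ C'.2 fun b hb h1 => (Set.ext_iff.1 h ⟨b, hb⟩).2 h1).antisymm
      (key _ _ C.2 fun b hb h1 => (Set.ext_iff.1 h ⟨b, hb⟩).1 h1))
  refine (mk_le_of_injective inj).trans ?_
  rw [mk_set, ← two_power_aleph0]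
  exact power_le_power_left two_ne_zero hc

theorem exists_step (g : Set (Om × Z) → Set I) (hg : ∀ Γ, (g Γ).Countable) (s : ℕ → I) :
    ∃ b : I, ∀ (Γ : Set (Om × Z)) (e : ℕ → I), IsClosed Γ → (∀ n, ∃ m, e n ≤ s m) →
      (∀ ω ω' z, (∀ n, ω (e n) = ω' (e n)) → (ω, z) ∈ Γ → (ω', z) ∈ Γ) → g Γ ⊆ Iio b := by
  set D := {b : I | ∃ a ∈ range s, b ≤ a} with hD
  have h1 : #D ≤ 𝔠 := mk_down_le ((countable_range s).le_aleph0.trans aleph0_le_continuum)
  let pr : (ℕ → I) → Om × Z → (ℕ → Z) × Z := fun e u => (fun n => u.1 (e n), u.2)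
  let T := (ℕ → D) × {C : Set ((ℕ → Z) × Z) | IsClosed C}
  have h2 : #T ≤ 𝔠 := by
    rw [mk_prod, lift_id, lift_id]
    refine mul_le_of_le aleph0_le_continuum ?_ (mk_closed_le _)
    rw [← power_def, mk_nat, ← continuum_power_aleph0]
    exact power_le_power_right h1
  obtain ⟨b, hb⟩ := exists_bound (A := ⋃ t : T, g (pr (fun n => t.1 n) ⁻¹' t.2.1))
    ((mk_iUnion_le _).trans (mul_le_of_le aleph0_le_continuum h2
      (ciSup_le' fun t => (hg _).le_aleph0.trans aleph0_le_continuum)))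
  refine ⟨b, fun Γ e hΓ he hd => subset_trans ?_ hb⟩
  have hc : IsClosed (pr e '' Γ) := (hΓ.isCompact.image (by fun_prop)).isClosed
  have e1 : Γ = pr e ⁻¹' (pr e '' Γ) := by
    refine (subset_preimage_image _ _).antisymm ?_
    rintro ⟨ω, z⟩ ⟨⟨ω', z'⟩, h3, h4⟩
    obtain ⟨h5, h6⟩ := Prod.mk.inj h4
    obtain rfl : z' = z := h6
    exact hd ω' ω z' (fun n => congrFun h5 n) h3
  refine subset_iUnion_of_subset
    (⟨fun n => ⟨e n, (he n).elim fun m hm => ⟨_, mem_range_self m, hm⟩⟩, ⟨_, hc⟩⟩ : T) ?_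
  exact (congrArg g e1).le

theorem closing' (g : Set (Om × Z) → Set I) (hg : ∀ Γ, (g Γ).Countable) :
    ∃ α : I, ∀ Γ J, IsClosed Γ → J.Countable → J ⊆ Iio α →
      (∀ ω ω' z, (∀ β ∈ J, ω β = ω' β) → (ω, z) ∈ Γ → (ω', z) ∈ Γ) → g Γ ⊆ Iio α := by
  choose F hF using exists_step g hg
  obtain ⟨a₀⟩ : Nonempty I := inferInstance
  let B : Bool → Type := fun b => Bool.rec Empty ℕ b
  let val : WType B → I := WType.elim I fun u => Bool.rec (motive := fun b => (B b → I) → I)
    (fun _ => a₀) F u.1 u.2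
  have h1 : #(WType B) ≤ 𝔠 := by
    refine WType.cardinalMk_le_of_le ?_
    refine (sum_le_mk_mul_iSup _).trans (mul_le_of_le aleph0_le_continuum
      (mk_le_aleph0.trans aleph0_le_continuum) (ciSup_le' fun b => ?_))
    rw [← continuum_power_aleph0]
    conv_lhs => rw [continuum_power_aleph0]
    refine power_le_power_left continuum_ne_zero ?_
    cases b
    · exact mk_le_aleph0 (α := Empty)
    · exact mk_le_aleph0 (α := ℕ)
  have h2 := exists_bound (A := range val) (mk_range_le.trans h1)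
  let α := WellFounded.min wellFounded_lt {b : I | range val ⊆ Iio b} h2
  have h3 : range val ⊆ Iio α := WellFounded.min_mem wellFounded_lt {b : I | range val ⊆ Iio b} h2
  have h4 : ∀ β < α, ∃ t, β ≤ val t := fun β hβ => by
    by_contra h5
    refine WellFounded.not_lt_min wellFounded_lt {b : I | range val ⊆ Iio b} (x := β) ?_ hβ
    rintro _ ⟨t, rfl⟩
    exact not_le.1 fun h6 => h5 ⟨t, h6⟩
  refine ⟨α, fun Γ J hΓ hJ hα hd => ?_⟩
  have h0 : a₀ < α := h3 ⟨WType.mk false Empty.elim, rfl⟩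
  obtain ⟨e, he⟩ := (hJ.insert a₀).exists_eq_range (insert_nonempty _ _)
  have h5 : ∀ n, e n < α := fun n => by
    have : e n ∈ insert a₀ J := he ▸ mem_range_self n
    rcases this with h | h
    · exact h ▸ h0
    · exact hα h
  choose t ht using fun n => h4 _ (h5 n)
  refine (hF (fun n => val (t n)) Γ e hΓ (fun n => ⟨n, ht n⟩) fun ω ω' z h6 => hd ω ω' z
    fun β hβ => ?_).trans (Iio_subset_Iio (le_of_lt (h3 ⟨WType.mk true t, rfl⟩)))
  have : β ∈ range e := he ▸ mem_insert_of_mem _ hβ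
  obtain ⟨n, rfl⟩ := this
  exact h6 n

end Pool.Agent.Lib.MP_5ffd28_gt.CR
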