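import Pool.Agent.Lib.MP_5ffd28_gt.CR.Cond
import Pool.Agent.Lib.MP_5ffd28_gt.CR.Close2

/-! Tree valued maps and the closing off argument. -/

namespace Pool.Agent.Lib.MP_5ffd28_gt.CR

open Set Filter Topology

open Classical in
/-- `w` below `δ`, `u` from `δ` on -/
noncomputable def clGlue (δ : WithTop I) (u w : Om) : Om :=
  fun β => if (β : WithTop I) < δ then w β else u β

theorem clGlue_ag (δ : WithTop I) (u w : Om) : Ag δ w (clGlue δ u w) :=
  fun _ h => (if_pos h).symm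

theorem clGlue_eq {δ : WithTop I} {u w : Om} (h : Ag δ w u) : clGlue δ u w = u := by
  funext β
  unfold clGlue
  split_ifs with e
  exacts [h β e, rfl]

theorem clGlue_cont (δ : WithTop I) (u : Om) : Continuous (clGlue δ u) := by
  refine continuous_pi fun β => ?_
  unfold clGlue
  split_ifs
  exacts [continuous_apply β, continuous_const]

theorem cl_nhds_ag {δ : WithTop I} {S T : Set Om} {u w : Om} (h : Ag δ w u)
    (hS : proj δ S ∈ 𝓝[proj δ T] u) : proj δ S ∈ 𝓝[proj δ T] w := by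
  have h1 : Tendsto (clGlue δ u) (𝓝[proj δ T] w) (𝓝[proj δ T] u) := by
    refine tendsto_nhdsWithin_iff.2 ⟨?_, ?_⟩
    · exact ((clGlue_cont δ u).tendsto' w u (clGlue_eq h)).mono_left nhdsWithin_le_nhds
    · filter_upwards [self_mem_nhdsWithin] with v hv
      exact mem_proj_of_ag (clGlue_ag δ u v).symm hv
  filter_upwards [h1 hS] with v hv
  exact mem_proj_of_ag (clGlue_ag δ u v) hv

theorem cl_ag_update (α : I) (ω : Om) (z : Z) : Ag α ω (Function.update ω α z) :=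
  fun _ h => (Function.update_of_ne (WithTop.coe_lt_coe.1 h).ne _ _).symm

theorem cl_graph {X : Set Om} (h : IsClosed X) (α : I) :
    IsClosed {u : Om × Z | u.2 ∈ fib α X u.1} := by
  have e : {u : Om × Z | u.2 ∈ fib α X u.1} =
      (fun u : Om × Z => Function.update u.1 α u.2) ⁻¹' proj (sx α) X := by
    ext ⟨ω, z⟩
    constructor
    · rintro ⟨u, a, b, c⟩
      refine ⟨u, a, fun β hβ => ?_⟩
      rcases (lt_sx.1 hβ).eq_or_lt with rfl | hlt
      · exact (Function.update_self _ _ _).trans c.symm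
      · exact (Function.update_of_ne hlt.ne _ _).trans (b β (WithTop.coe_lt_coe.2 hlt))
    · rintro ⟨u, a, b⟩
      exact ⟨u, a, (cl_ag_update α ω z).trans (b.mono (coe_lt_sx α).le),
        (b α (coe_lt_sx α)).symm.trans (Function.update_self _ _ _)⟩
  rw [e]
  exact (isClosed_proj _ h).preimage (continuous_fst.update α continuous_snd)

theorem cl_clopen (α : I) (n : ℕ) (s : ∀ i : Fin n, K i) :
    IsClopen {u : Om | ∀ i : Fin n, u α i = s i} := by
  rw [ofPred_forall]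
  exact isClopen_iInter_of_finite fun i => (isClopen_discrete {s i}).preimage
    ((continuous_apply (i : ℕ)).comp (continuous_apply α))

theorem cl_nd_fib (α : I) (X : Set Om) (ω : Om) (n : ℕ) (z : Z) :
    Nd (fib α X ω) n z ↔ ω ∈ proj α (X ∩ {u : Om | ∀ i : Fin n, u α i = z i}) :=
  ⟨fun ⟨_, ⟨u, a, b, c⟩, e⟩ => ⟨u, ⟨a, fun i => c ▸ e i i.2⟩, b⟩,
    fun ⟨u, a, b⟩ => ⟨_, ⟨u, a.1, b, rfl⟩, fun i hi => a.2 ⟨i, hi⟩⟩⟩

theorem cl_mem_of_nd {F : Set Z} (h : IsClosed F) {z : Z} (hz : ∀ n, Nd F n z) : z ∈ F := by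
  choose u hu hu' using hz
  refine h.mem_of_tendsto (b := atTop) (f := u) (tendsto_pi_nhds.2 fun i => ?_)
    (Eventually.of_forall hu)
  refine tendsto_const_nhds.congr' ?_
  filter_upwards [eventually_gt_atTop i] with n hn
  exact (hu' n i hn).symm

theorem cl_basis {B : Set Z} {z : Z} (h : B ∈ 𝓝 z) :
    ∃ n, ∀ z' : Z, (∀ i < n, z' i = z i) → z' ∈ B := by
  rw [nhds_pi, Filter.mem_pi] at h
  obtain ⟨A, hA, t, ht, hs⟩ := h
  obtain ⟨n, hn⟩ := hA.bddAbove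
  refine ⟨n + 1, fun z' e => hs fun i hi => ?_⟩
  rw [e i (Nat.lt_succ_of_le (hn hi))]
  exact mem_of_mem_nhds (ht i)

theorem cl_near (α : I) (ω : Om) (n : ℕ) : ∀ᶠ w in 𝓝 ω, ∀ i < n, w α i = ω α i := by
  filter_upwards [(cl_clopen α n fun i => ω α i).2.mem_nhds fun _ => rfl] with w hw i hi
  exact hw ⟨i, hi⟩

theorem Cond.treeOn {X : Set Om} (h : Cond X) (α : I) : TreeOn (CR.proj α X) (fib α X) := by
  refine ⟨fun ω ⟨u, a, b⟩ => ⟨_, u, a, b, rfl⟩, fun ω _ => ?_, fun ω _ => h.goodFib α ω,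
    fun ω _ n => ?_⟩
  · exact (cl_graph h.cl α).preimage (Continuous.prodMk_right ω)
  · have key : ∀ s : ∀ i : Fin n, K i, ∀ᶠ w in 𝓝[CR.proj α X] ω,
        (w ∈ CR.proj α (X ∩ {u : Om | ∀ i : Fin n, u α i = s i}) ↔
          ω ∈ CR.proj α (X ∩ {u : Om | ∀ i : Fin n, u α i = s i})) := by
      intro s
      by_cases e : ω ∈ CR.proj α (X ∩ {u : Om | ∀ i : Fin n, u α i = s i})
      · obtain ⟨u, a, b⟩ := id e
        filter_upwards [cl_nhds_ag b (h.op α u a.1 _ ((cl_clopen α n s).2.mem_nhds a.2))] with w hw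
        exact iff_of_true hw e
      · filter_upwards [mem_nhdsWithin_of_mem_nhds
          ((isClosed_proj α (h.cl.inter (cl_clopen α n s).1)).isOpen_compl.mem_nhds e)] with w hw
        exact iff_of_false hw e
    filter_upwards [eventually_all.2 key] with w hw z
    rw [cl_nd_fib, cl_nd_fib]
    exact hw fun i => z i

theorem isClosed_fibGraph {X : Set Om} (h : IsClosed X) (α : I) :
    IsClosed {u : Om × Z | u.2 ∈ fib α X u.1} :=
  cl_graph h α

theorem fib_dep {X : Set Om} {J : Set I} (h : Dep J X) (α : I) {ω ω' : Om}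
    (e : ∀ β ∈ J ∩ Iio α, ω β = ω' β) : fib α X ω = fib α X ω' := by
  have key : ∀ ω ω' : Om, (∀ β ∈ J ∩ Iio α, ω β = ω' β) → fib α X ω ⊆ fib α X ω' := by
    rintro ω ω' e z ⟨u, a, b, c⟩
    refine ⟨clGlue α u ω', h u _ (fun β hβ => ?_) a, clGlue_ag _ _ _, ?_⟩
    · unfold clGlue
      split_ifs with hlt
      exacts [(b β hlt).symm.trans (e β ⟨hβ, WithTop.coe_lt_coe.1 hlt⟩), rfl]
    · unfold clGlue
      rw [if_neg (lt_irrefl _), c]
  exact (key ω ω' e).antisymm (key ω' ω fun β hβ => (e β hβ).symm)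

theorem cond_graph {q : Set Om} (hq : Cond q) {α : I} {J : Set I} (hJ : J.Countable)
    (hα : J ⊆ Iio α) (hd : Dep J q) {F : Om → Set Z} (hF : TreeOn q F) (hdF : DepF J q F) :
    Cond {ω ∈ q | ω α ∈ F ω} := by
  have up : ∀ ω ∈ q, ∀ ω', Ag α ω ω' → ω' α ∈ F ω → ω' ∈ {ω ∈ q | ω α ∈ F ω} := by
    intro ω hω ω' e hz
    have e' : ∀ β ∈ J, ω β = ω' β := fun β hβ => e β (WithTop.coe_lt_coe.2 (hα hβ))
    have h1 := hd ω ω' e' hω
    exact ⟨h1, hdF ω hω ω' h1 e' ▸ hz⟩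
  have upd : ∀ ω ∈ q, ∀ z ∈ F ω, Function.update ω α z ∈ {ω ∈ q | ω α ∈ F ω} :=
    fun ω hω z hz => up ω hω _ (cl_ag_update α ω z) (by rw [Function.update_self]; exact hz)
  refine ⟨?_, ?_, ⟨insert α J, hJ.insert α, fun ω ω' e hω => ?_⟩, fun β ω hω r => ?_,
    fun δ ω hω N hN => ?_⟩
  · refine isClosed_of_closure_subset fun ω hω => ?_
    have h1 : ω ∈ q := hq.cl.closure_subset_iff.2 (sep_subset _ _) hω
    refine ⟨h1, cl_mem_of_nd (hF.cl ω h1) fun n => ?_⟩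
    have h2 := mem_closure_iff_nhdsWithin_neBot.1 hω
    have h3 := (hF.lc ω h1 n).filter_mono (nhdsWithin_mono ω (sep_subset q fun ω => ω α ∈ F ω))
    obtain ⟨w, a, b, c⟩ := (h3.and (((cl_near α ω n).filter_mono nhdsWithin_le_nhds).and
      self_mem_nhdsWithin)).exists
    exact (a _).1 ⟨w α, c.2, b⟩
  · obtain ⟨ω, hω⟩ := hq.ne
    obtain ⟨z, hz⟩ := hF.ne ω hω
    exact ⟨_, upd ω hω z hz⟩
  · have e' : ∀ β ∈ J, ω β = ω' β := fun β hβ => e β (mem_insert_of_mem _ hβ)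
    have h1 := hd ω ω' e' hω.1
    exact ⟨h1, hdF ω hω.1 ω' h1 e' ▸ e α (mem_insert _ _) ▸ hω.2⟩
  · rcases lt_trichotomy β α with hlt | rfl | hlt
    · obtain ⟨m, a, b⟩ := hq.good β ω hω.1 r
      refine ⟨m, a, nor_mono b (sc_mono ?_ _ _)⟩
      rintro z ⟨u, c, d, e⟩
      obtain ⟨y, hy⟩ := hF.ne u c
      exact ⟨_, upd u c y hy,
        d.trans ((cl_ag_update α u y).mono (WithTop.coe_le_coe.2 hlt.le)),
        (Function.update_of_ne hlt.ne _ _).trans e⟩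
    · obtain ⟨m, a, b⟩ := hF.good ω hω.1 _ hω.2 r
      refine ⟨m, a, nor_mono b (sc_mono ?_ _ _)⟩
      intro z hz
      exact ⟨_, upd ω hω.1 z hz, cl_ag_update _ ω z, Function.update_self _ _ _⟩
    · obtain ⟨m, a, b⟩ := good_univ (ω β) trivial r
      refine ⟨m, a, nor_mono b (sc_mono ?_ _ _)⟩
      intro z _
      refine ⟨Function.update ω β z, ?_, cl_ag_update _ ω z, Function.update_self _ _ _⟩
      refine up ω hω.1 _ ((cl_ag_update β ω z).mono (WithTop.coe_le_coe.2 hlt.le)) ?_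
      rw [Function.update_of_ne hlt.ne]
      exact hω.2
  · rcases lt_or_ge (α : WithTop I) δ with hlt | hle
    · have h1 : ∀ᶠ w in 𝓝 ω, clGlue δ ω w ∈ N :=
        (clGlue_cont δ ω).tendsto' ω ω (clGlue_eq (Ag.refl _ _)) hN
      filter_upwards [mem_nhdsWithin_of_mem_nhds h1, self_mem_nhdsWithin] with w a ⟨u, b, c⟩
      have e : Ag δ u (clGlue δ ω w) := c.symm.trans (clGlue_ag δ ω w)
      exact ⟨_, ⟨up u b.1 _ (e.mono hlt.le) (e α hlt ▸ b.2), a⟩, clGlue_ag δ ω w⟩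
    · have h1 : (fun u : Om × Z => Function.update u.1 α u.2) ⁻¹' N ∈ 𝓝 (ω, ω α) :=
        (continuous_fst.update α continuous_snd).tendsto' (ω, ω α) ω
          (Function.update_eq_self α ω) hN
      obtain ⟨A, hA, B, hB, hAB⟩ := mem_nhds_prod_iff.1 h1
      obtain ⟨n, hn⟩ := cl_basis hB
      have h2 : CR.proj α ({ω ∈ q | ω α ∈ F ω} ∩ N) ∈ 𝓝[q] ω := by
        filter_upwards [hF.lc ω hω.1 n, mem_nhdsWithin_of_mem_nhds hA, self_mem_nhdsWithin]
          with w a b c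
        obtain ⟨z, hz, e⟩ := (a (ω α)).2 ⟨ω α, hω.2, fun _ _ => rfl⟩
        exact ⟨_, ⟨upd w c z hz, hAB (mk_mem_prod b (hn z e))⟩, cl_ag_update α w z⟩
      obtain ⟨M, hM, hs⟩ := mem_nhdsWithin_iff_exists_mem_nhds_inter.1 h2
      refine mem_of_superset (nhdsWithin_mono ω (proj_mono δ (sep_subset _ _))
        (hq.op δ ω hω.1 M hM)) ?_
      rw [← proj_proj_of_le hle ({ω ∈ q | ω α ∈ F ω} ∩ N)]
      exact proj_mono δ fun w hw => hs ⟨hw.2, hw.1⟩

/-- a locally constant function on a closed set depends on countably many coordinates -/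
theorem exists_depF {γ : Type} {q : Set Om} (hq : IsClosed q) {f : Om → γ}
    (hf : ∀ ω ∈ q, ∀ᶠ ω' in 𝓝[q] ω, f ω' = f ω) : ∃ J : Set I, J.Countable ∧ DepF J q f := by
  have key : ∀ ω : Om, ∃ (A : Set I) (t : I → Set Z), A.Finite ∧ A.pi t ∈ 𝓝 ω ∧
      (ω ∈ q → ∀ w ∈ q, w ∈ A.pi t → f w = f ω) := by
    intro ω
    by_cases hω : ω ∈ q
    · obtain ⟨M, hM, hs⟩ := mem_nhdsWithin_iff_exists_mem_nhds_inter.1 (hf ω hω)
      rw [nhds_pi, Filter.mem_pi] at hM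
      obtain ⟨A, hA, t, ht, hs'⟩ := hM
      exact ⟨A, t, hA, set_pi_mem_nhds hA fun i _ => ht i, fun _ w a b => hs ⟨hs' b, a⟩⟩
    · exact ⟨∅, fun _ => univ, finite_empty, by simp, fun h => absurd h hω⟩
  choose A t hA ht hs using key
  obtain ⟨s, h1, h2⟩ := hq.isCompact.elim_nhds_subcover (fun ω => (A ω).pi (t ω)) fun ω _ => ht ω
  refine ⟨⋃ ω ∈ s, A ω, (s.finite_toSet.biUnion fun ω _ => hA ω).countable,
    fun ω a ω' b e => ?_⟩
  obtain ⟨x, hx, c⟩ := mem_iUnion₂.1 (h2 a)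
  rw [hs x (h1 x hx) ω a c, hs x (h1 x hx) ω' b fun β hβ =>
    e β (mem_iUnion₂.2 ⟨x, hx, hβ⟩) ▸ c β hβ]

theorem closing (g : Set (Om × Z) → Set I) (hg : ∀ Γ, (g Γ).Countable) :
    ∃ α : I, ∀ Γ J, IsClosed Γ → J.Countable → J ⊆ Iio α →
      (∀ ω ω' z, (∀ β ∈ J, ω β = ω' β) → (ω, z) ∈ Γ → (ω', z) ∈ Γ) → g Γ ⊆ Iio α :=
  closing' g hg

end Pool.Agent.Lib.MP_5ffd28_gt.CR
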