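import Pool.Agent.Lib.MP_5ffd28_gt.CR.CondDefs

/-! Closure properties of the class of conditions. -/

namespace Pool.Agent.Lib.MP_5ffd28_gt.CR

open Set Filter Topology

open Classical in
/-- `u` below `δ`, `w` from `δ` on -/
noncomputable def mix (δ : WithTop I) (w u : Om) : Om :=
  fun γ => if (γ : WithTop I) < δ then u γ else w γ

theorem ag_mix (δ : WithTop I) (w u : Om) : Ag δ (mix δ w u) u := fun _ h => if_pos h

theorem mix_eq {δ : WithTop I} {w u : Om} (h : Ag δ u w) : mix δ w u = w := by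
  funext γ
  unfold mix
  split_ifs with k
  exacts [h γ k, rfl]

theorem continuous_mix (δ : WithTop I) (w : Om) : Continuous (mix δ w) :=
  continuous_pi fun γ => by
    unfold mix
    split_ifs
    exacts [continuous_apply γ, continuous_const]

theorem proj_nhds_ag {δ : WithTop I} {A B : Set Om} {ω ω' : Om} (h : Ag δ ω ω')
    (hA : proj δ A ∈ 𝓝[proj δ B] ω') : proj δ A ∈ 𝓝[proj δ B] ω := by
  have t : Tendsto (mix δ ω') (𝓝[proj δ B] ω) (𝓝[proj δ B] (mix δ ω' ω)) :=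
    (continuous_mix δ ω').continuousWithinAt.tendsto_nhdsWithin
      fun u hu => mem_proj_of_ag (ag_mix δ ω' u) hu
  rw [mix_eq h] at t
  exact mem_of_superset (t hA) fun u hu => mem_proj_of_ag (ag_mix δ ω' u).symm hu

theorem proj_proj_of_ge {δ ε : WithTop I} (h : δ ≤ ε) (X : Set Om) :
    proj ε (proj δ X) = proj δ X :=
  (subset_proj _ _).antisymm' fun _ ⟨_, a, b⟩ => mem_proj_of_ag (b.mono h) a

theorem nhds_dep {ω : Om} {N : Set Om} (hN : N ∈ 𝓝 ω) :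
    ∃ J : Set I, J.Finite ∧ ∃ B ∈ 𝓝 ω, B ⊆ N ∧ Dep J B := by
  rw [nhds_pi, Filter.mem_pi] at hN
  obtain ⟨J, hJ, t, ht, hs⟩ := hN
  exact ⟨J, hJ, J.pi t, set_pi_mem_nhds hJ fun a _ => ht a, hs,
    fun u v e hu a ha => e a ha ▸ hu a ha⟩

theorem nhds_Z {z : Z} {N : Set Z} (hN : N ∈ 𝓝 z) :
    ∃ M, ∀ z' : Z, (∀ i < M, z' i = z i) → z' ∈ N := by
  rw [nhds_pi, Filter.mem_pi] at hN
  obtain ⟨J, hJ, t, ht, hs⟩ := hN
  obtain ⟨M, hM⟩ := hJ.bddAbove
  exact ⟨M + 1, fun z' e => hs fun a ha =>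
    e a (Nat.lt_succ_of_le (hM ha)) ▸ mem_of_mem_nhds (ht a)⟩

theorem ag_update {δ : WithTop I} {β : I} (h : δ ≤ β) (ω : Om) (z : Z) :
    Ag δ ω (Function.update ω β z) := fun _ hγ =>
  (Function.update_of_ne (WithTop.coe_lt_coe.1 (hγ.trans_le h)).ne _ _).symm

theorem fib_proj_univ {β : I} {δ : WithTop I} (h : δ ≤ β) {X : Set Om} {ω : Om}
    (hω : ω ∈ proj δ X) : fib β (proj δ X) ω = univ :=
  eq_univ_of_forall fun z => ⟨_, mem_proj_of_ag (ag_update h ω z).symm hω,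
    ag_update le_rfl ω z, Function.update_self _ _ _⟩

theorem isClosed_proj (δ : WithTop I) {X : Set Om} (h : IsClosed X) : IsClosed (proj δ X) := by
  have h1 : IsClosed {p : Om × Om | Ag δ p.1 p.2} := by
    simp only [Ag, Set.ofPred_forall]
    exact isClosed_iInter fun β => isClosed_iInter fun _ => isClosed_eq
      ((continuous_apply β).comp continuous_fst) ((continuous_apply β).comp continuous_snd)
  have h2 := isClosedMap_fst_of_compactSpace _ ((h.preimage continuous_snd).inter h1)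
  have e : proj δ X = Prod.fst '' (Prod.snd ⁻¹' X ∩ {p : Om × Om | Ag δ p.1 p.2}) :=
    Set.ext fun ω => ⟨fun ⟨u, a, b⟩ => ⟨(ω, u), ⟨a, b⟩, rfl⟩, fun ⟨p, a, b⟩ => ⟨p.2, a.1, b ▸ a.2⟩⟩
  rwa [e]

theorem cond_univ : Cond univ := by
  refine ⟨isClosed_univ, univ_nonempty, ⟨∅, countable_empty, fun _ _ _ h => h⟩,
    fun β ω _ r => ?_, fun δ ω _ N hN => mem_nhdsWithin_of_mem_nhds
      (mem_of_superset hN fun u hu => subset_proj _ _ ⟨trivial, hu⟩)⟩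
  obtain ⟨m, h1, h2⟩ := good_univ (ω β) trivial r
  have e : univ ⊆ fib β univ ω := fun z _ =>
    ⟨_, trivial, ag_update le_rfl ω z, Function.update_self _ _ _⟩
  exact ⟨m, h1, nor_mono h2 (sc_mono e _ _)⟩

/-- a nonempty relatively clopen part of a condition -/
theorem Cond.part {X W : Set Om} (h : Cond X) (hW : W ⊆ X) (hc : IsClosed W) (hne : W.Nonempty)
    (ho : ∀ ω ∈ W, W ∈ 𝓝[X] ω) : Cond W := by
  have key : ∀ ω ∈ W, ∃ N ∈ 𝓝 ω, X ∩ N ⊆ W := fun ω hω => by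
    obtain ⟨N, h1, h2⟩ := mem_nhdsWithin_iff_exists_mem_nhds_inter.1 (ho ω hω)
    exact ⟨N, h1, inter_comm N X ▸ h2⟩
  refine ⟨hc, hne, ?_, fun β ω hω r => ?_, fun δ ω hω N hN => ?_⟩
  · obtain ⟨J, hJ, hD⟩ := h.supp
    have : ∀ ω ∈ W, ∃ J : Set I, J.Finite ∧ ∃ B ∈ 𝓝 ω, X ∩ B ⊆ W ∧ Dep J B := fun ω hω => by
      obtain ⟨N, h1, h2⟩ := key ω hω
      obtain ⟨J, a, B, b, c, d⟩ := nhds_dep h1
      exact ⟨J, a, B, b, (inter_subset_inter_right _ c).trans h2, d⟩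
    choose! L l1 B l2 l3 l4 using this
    obtain ⟨t, t1, t2⟩ := hc.isCompact.elim_nhds_subcover B l2
    refine ⟨J ∪ ⋃ ω ∈ t, L ω, hJ.union (t.countable_toSet.biUnion fun ω k =>
      (l1 ω (t1 ω k)).countable), fun u v e hu => ?_⟩
    obtain ⟨ω, k1, k2⟩ := mem_iUnion₂.1 (t2 hu)
    exact l3 ω (t1 ω k1) ⟨hD u v (fun β b => e β (Or.inl b)) (hW hu),
      l4 ω (t1 ω k1) u v (fun β b => e β (Or.inr (mem_iUnion₂.2 ⟨ω, k1, b⟩))) k2⟩
  · obtain ⟨N, h1, h2⟩ := key ω hω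
    obtain ⟨N', n1, n2⟩ := mem_nhdsWithin_iff_exists_mem_nhds_inter.1
      (h.op (sx β) ω (hW hω) N h1)
    have c : Continuous (Function.update ω β) := continuous_const.update β continuous_id
    obtain ⟨M, hM⟩ := nhds_Z (c.continuousAt.preimage_mem_nhds (x := ω β)
      (by rwa [Function.update_eq_self]))
    obtain ⟨m, m1, m2⟩ := h.good β ω (hW hω) (max r M)
    refine ⟨m, (le_max_left _ _).trans m1, nor_mono (nor_le m2 (le_max_left _ _)) fun y hy => ?_⟩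
    obtain ⟨u, u1, u2, u3, u4⟩ := mem_sc_fib.1 hy
    have a1 : Ag (sx β) (Function.update ω β (u β)) u := fun γ hγ => by
      rcases (lt_sx.1 hγ).eq_or_lt with rfl | k
      · exact Function.update_self _ _ _
      · rw [Function.update_of_ne k.ne]; exact u2 γ (WithTop.coe_lt_coe.2 k)
    obtain ⟨v, v1, v2⟩ := n2 ⟨hM (u β) fun i hi =>
      u3 i (hi.trans_le ((le_max_right _ _).trans m1)), u, u1, a1⟩
    have e : v β = u β := (v2 β (coe_lt_sx β)).symm.trans (Function.update_self _ _ _)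
    exact mem_sc_fib.2 ⟨v, h2 v1, (ag_update le_rfl ω _).trans (v2.mono (coe_lt_sx β).le),
      e ▸ u3, e ▸ u4⟩
  · obtain ⟨N', h1, h2⟩ := key ω hω
    exact mem_of_superset (nhdsWithin_mono _ (proj_mono δ hW)
      (h.op δ ω (hW hω) _ (inter_mem h1 hN)))
      (proj_mono δ fun u hu => ⟨h2 ⟨hu.1, hu.2.1⟩, hu.2.2⟩)

theorem Cond.inter_clopen {X N : Set Om} (h : Cond X) (hN : IsClopen N) (hne : (X ∩ N).Nonempty) :
    Cond (X ∩ N) :=
  h.part inter_subset_left (h.cl.inter hN.1) hne fun _ hω =>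
    inter_mem_nhdsWithin _ (hN.2.mem_nhds hω.2)

theorem Cond.exists_sub {X N : Set Om} (h : Cond X) {ω : Om} (hω : ω ∈ X) (hN : N ∈ 𝓝[X] ω) :
    ∃ V ⊆ X ∩ N, Cond V ∧ ω ∈ V ∧ V ∈ 𝓝[X] ω := by
  obtain ⟨N', h1, h2⟩ := mem_nhdsWithin_iff_exists_mem_nhds_inter.1 hN
  obtain ⟨C, ⟨c1, c2⟩, c3⟩ := (nhds_basis_clopen ω).mem_iff.1 h1
  exact ⟨X ∩ C, fun u hu => ⟨hu.1, h2 ⟨c3 hu.2, hu.1⟩⟩, h.inter_clopen c2 ⟨ω, hω, c1⟩, ⟨hω, c1⟩,
    inter_mem_nhdsWithin _ (c2.2.mem_nhds c1)⟩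

theorem Cond.proj {X : Set Om} (h : Cond X) (δ : WithTop I) : Cond (proj δ X) := by
  refine ⟨isClosed_proj δ h.cl, h.ne.mono (subset_proj _ _), ?_, fun β ω hω r => ?_,
    fun ε ω hω N hN => ?_⟩
  · obtain ⟨J, hJ, hD⟩ := h.supp
    refine ⟨J, hJ, fun u v e ⟨w, w1, w2⟩ => ⟨mix δ w v, hD w _ (fun β b => ?_) w1,
      (ag_mix δ w v).symm⟩⟩
    unfold mix
    split_ifs with k
    exacts [(w2 β k).symm.trans (e β b), rfl]
  · rcases lt_or_ge (β : WithTop I) δ with k | k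
    · obtain ⟨w, w1, w2⟩ := hω
      rw [fib_proj k, fib_congr (w2.mono k.le), w2 β k]
      exact h.good β w w1 r
    · rw [fib_proj_univ k hω]
      exact good_univ _ trivial r
  · rcases le_total δ ε with k | k
    · rw [proj_proj_of_ge k]
      exact mem_of_superset (inter_mem_nhdsWithin _ hN) (subset_proj _ _)
    · obtain ⟨w, w1, w2⟩ := hω
      rw [proj_proj_of_le k]
      have n : mix δ ω ⁻¹' N ∈ 𝓝 w :=
        (continuous_mix δ ω).continuousAt.preimage_mem_nhds (by rwa [mix_eq w2.symm])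
      exact mem_of_superset (proj_nhds_ag (w2.mono k) (h.op ε w w1 _ n))
        fun u ⟨v, v1, v2⟩ => ⟨mix δ ω v, ⟨⟨v, v1.1, ag_mix δ ω v⟩, v1.2⟩,
          v2.trans ((ag_mix δ ω v).symm.mono k)⟩

theorem Cond.inter_proj {X V : Set Om} {δ : WithTop I} (h : Cond X) (hV : Cond V)
    (hs : CR.proj δ V ⊆ CR.proj δ X) : Cond (X ∩ CR.proj δ V) := by
  have hP := hV.proj δ
  refine ⟨h.cl.inter hP.cl, ?_, ?_, fun β ω hω r => ?_, fun ε ω hω N hN => ?_⟩
  · obtain ⟨v, hv⟩ := hV.ne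
    obtain ⟨x, x1, x2⟩ := hs (subset_proj _ _ hv)
    exact ⟨x, x1, v, hv, x2.symm⟩
  · obtain ⟨J, hJ, hD⟩ := h.supp
    obtain ⟨J', hJ', hD'⟩ := hP.supp
    exact ⟨J ∪ J', hJ.union hJ', fun u v e hu => ⟨hD u v (fun β b => e β (Or.inl b)) hu.1,
      hD' u v (fun β b => e β (Or.inr b)) hu.2⟩⟩
  · rcases lt_or_ge (β : WithTop I) δ with k | k
    · rw [← fib_proj k, proj_inter_self hs]
      exact hP.good β ω hω.2 r
    · obtain ⟨m, m1, m2⟩ := h.good β ω hω.1 r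
      have e : fib β X ω ⊆ fib β (X ∩ CR.proj δ V) ω := fun z ⟨u, a, b, c⟩ =>
        ⟨u, ⟨a, mem_proj_of_ag (b.mono k).symm hω.2⟩, b, c⟩
      exact ⟨m, m1, nor_mono m2 (sc_mono e _ _)⟩
  · rcases le_total δ ε with k | k
    · rw [inter_right_comm, proj_inter_of_le k, proj_inter_of_le k]
      exact inter_mem (nhdsWithin_mono _ inter_subset_left (h.op ε ω hω.1 N hN))
        (mem_of_superset self_mem_nhdsWithin inter_subset_right)
    · obtain ⟨N', n1, n2⟩ := mem_nhdsWithin_iff_exists_mem_nhds_inter.1 (h.op δ ω hω.1 N hN)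
      rw [← proj_proj_of_le k (X ∩ CR.proj δ V), proj_inter_self hs]
      refine mem_of_superset (hP.op ε ω hω.2 N' n1) fun u ⟨v, v1, v2⟩ => ?_
      obtain ⟨x, x1, x2⟩ := n2 ⟨v1.2, hs v1.1⟩
      exact ⟨x, ⟨⟨x1.1, mem_proj_of_ag x2.symm v1.1⟩, x1.2⟩, v2.trans (x2.mono k)⟩

theorem Cond.proj_lc {X N : Set Om} (h : Cond X) (hN : IsClopen N) (δ : WithTop I) (ω : Om) :
    ∀ᶠ ω' in 𝓝[X] ω, ω' ∈ CR.proj δ (X ∩ N) ↔ ω ∈ CR.proj δ (X ∩ N) := by
  by_cases k : ω ∈ CR.proj δ (X ∩ N)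
  · obtain ⟨v, v1, v2⟩ := id k
    exact mem_of_superset (nhdsWithin_mono _ (subset_proj δ X)
      (proj_nhds_ag v2 (h.op δ v v1.1 N (hN.2.mem_nhds v1.2)))) fun u hu => iff_of_true hu k
  · exact mem_of_superset (mem_nhdsWithin_of_mem_nhds
      ((isClosed_proj δ (h.cl.inter hN.1)).isOpen_compl.mem_nhds k)) fun u hu => iff_of_false hu k

/-- the successor sets are locally constant on a condition -/
theorem Cond.sc_lc {X : Set Om} (h : Cond X) (β : I) (m : ℕ) {ω : Om} (hω : ω ∈ X) :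
    ∀ᶠ ω' in 𝓝[X] ω, sc (fib β X ω') (ω' β) m = sc (fib β X ω) (ω β) m := by
  have hT : IsClopen {u : Om | ∀ i < m, u β i = ω β i} := by
    simp only [Set.ofPred_forall]
    exact (Set.finite_lt_nat m).isClopen_biInter fun i _ =>
      (isClopen_discrete {ω β i}).preimage ((continuous_apply i).comp (continuous_apply β))
  have key : ∀ u : Om, (∀ i < m, u β i = ω β i) → ∀ y, y ∈ sc (fib β X u) (u β) m ↔
      u ∈ CR.proj β (X ∩ ({u : Om | ∀ i < m, u β i = ω β i} ∩ cyl β m y)) := fun u hu y => by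
    rw [mem_sc_fib]
    exact ⟨fun ⟨v, a, b, c, d⟩ => ⟨v, ⟨a, fun i hi => (c i hi).trans (hu i hi), d⟩, b⟩,
      fun ⟨v, ⟨a, c, d⟩, b⟩ => ⟨v, a, b, fun i hi => (c i hi).trans (hu i hi).symm, d⟩⟩
  filter_upwards [eventually_all.2 fun y : K m =>
    h.proj_lc (hT.inter (isClopen_cyl β m y.1)) β ω,
    mem_nhdsWithin_of_mem_nhds (hT.2.mem_nhds fun _ _ => rfl)] with u h1 h2
  ext y
  constructor
  · intro hy
    obtain ⟨z, -, -, rfl⟩ := id hy
    exact (key ω (fun _ _ => rfl) _).2 ((h1 (z m)).1 ((key u h2 _).1 hy))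
  · intro hy
    obtain ⟨z, -, -, rfl⟩ := id hy
    exact (key u h2 _).2 ((h1 (z m)).2 ((key ω (fun _ _ => rfl) _).1 hy))

/-- a finite union of conditions separated at `(β, m)` -/
theorem cond_biUnion {β : I} {m : ℕ} {C : Set (Finset ℕ)} (hC : C.Finite) (hne : C.Nonempty)
    {W : Finset ℕ → Set Om} (h1 : ∀ x ∈ C, Cond (W x)) (h2 : ∀ x ∈ C, W x ⊆ cyl β m x)
    (h3 : ∀ x ∈ C, ∀ y ∈ C, proj β (W x) = proj β (W y)) : Cond (⋃ x ∈ C, W x) := by
  have sub : ∀ x ∈ C, W x ⊆ ⋃ x ∈ C, W x := fun x hx => subset_biUnion_of_mem hx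
  refine ⟨hC.isClosed_biUnion fun x hx => (h1 x hx).cl, ?_, ?_, fun γ ω hω r => ?_,
    fun ε ω hω N hN => ?_⟩
  · obtain ⟨x, hx⟩ := hne
    exact (h1 x hx).ne.mono (sub x hx)
  · choose! J j1 j2 using fun x hx => (h1 x hx).supp
    refine ⟨⋃ x ∈ C, J x, hC.countable.biUnion j1, fun u v e hu => ?_⟩
    obtain ⟨x, hx, k⟩ := mem_iUnion₂.1 hu
    exact sub x hx (j2 x hx u v (fun γ b => e γ (mem_iUnion₂.2 ⟨x, hx, b⟩)) k)
  · obtain ⟨x, hx, k⟩ := mem_iUnion₂.1 hω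
    obtain ⟨n, n1, n2⟩ := (h1 x hx).good γ ω k r
    exact ⟨n, n1, nor_mono n2 (sc_mono (fib_mono γ (sub x hx) ω) _ _)⟩
  · obtain ⟨x, hx, k⟩ := mem_iUnion₂.1 hω
    have o := mem_of_superset ((h1 x hx).op ε ω k N hN)
      (proj_mono ε (inter_subset_inter_left N (sub x hx)))
    rcases lt_or_ge (β : WithTop I) ε with e | e
    · rw [nhdsWithin_restrict' _ ((isClopen_cyl β m x).2.mem_nhds (h2 x hx k)), ← proj_inter_cyl e]
      refine nhdsWithin_mono _ (proj_mono ε fun u hu => ?_) o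
      obtain ⟨y, hy, l⟩ := mem_iUnion₂.1 hu.1
      have : y = x := (h2 y hy l).symm.trans hu.2
      exact this ▸ l
    · refine nhdsWithin_mono _ (fun u hu => ?_) o
      obtain ⟨v, v1, v2⟩ := hu
      obtain ⟨y, hy, l⟩ := mem_iUnion₂.1 v1
      exact proj_eq_of_le e (h3 y hy x hx) ▸ ⟨v, l, v2⟩

end Pool.Agent.Lib.MP_5ffd28_gt.CR
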