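import Pool.Agent.Lib.MP_5ffd28_gt.CR.Br

/-! The forcing conditions: definitions. -/

namespace Pool.Agent.Lib.MP_5ffd28_gt.CR

open Set Filter Topology Cardinal

/-- the coordinates: the well order of type `𝔠⁺` -/
def I : Type := (Order.succ 𝔠 : Cardinal.{0}).ord.ToType

noncomputable instance : LinearOrder I := inferInstanceAs (LinearOrder (Ordinal.ToType _))
instance : WellFoundedLT I := inferInstanceAs (WellFoundedLT (Ordinal.ToType _))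

theorem mk_I : #I = Order.succ 𝔠 := mk_ord_toType _

theorem mk_Iio_le (a : I) : #(Iio a) ≤ 𝔠 := Order.lt_succ_iff.1 (mk_Iio_toType_ord_lt a)

instance : NoMaxOrder I := noMaxOrder (aleph0_le_continuum.trans (Order.le_succ _))

instance : Nonempty I := mk_ne_zero_iff.1 (mk_I ▸ (succ_pos _).ne')

noncomputable instance : SuccOrder I := SuccOrder.ofLinearWellFoundedLT I

/-- the initial segment `Iic β` -/
noncomputable def sx (β : I) : WithTop I := (Order.succ β : I)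

theorem lt_sx {β γ : I} : (γ : WithTop I) < sx β ↔ γ ≤ β := by
  rw [sx, WithTop.coe_lt_coe, Order.lt_succ_iff]

theorem sx_le {β : I} {δ : WithTop I} : sx β ≤ δ ↔ (β : WithTop I) < δ := by
  induction δ with
  | top => simp
  | coe δ => rw [sx, WithTop.coe_le_coe, WithTop.coe_lt_coe, Order.succ_le_iff]

theorem lt_sx' {β : I} {δ : WithTop I} : δ < sx β ↔ δ ≤ β := by
  rw [← not_le, sx_le, not_lt]

theorem coe_lt_sx (β : I) : (β : WithTop I) < sx β := lt_sx.2 le_rfl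

abbrev Om : Type := I → Z

/-- agreement below `δ` -/
def Ag (δ : WithTop I) (ω ω' : Om) : Prop := ∀ β : I, (β : WithTop I) < δ → ω β = ω' β

def proj (δ : WithTop I) (X : Set Om) : Set Om := {ω | ∃ ω' ∈ X, Ag δ ω ω'}

def fib (β : I) (X : Set Om) (ω : Om) : Set Z := {z | ∃ ω' ∈ X, Ag β ω ω' ∧ ω' β = z}

/-- `X` depends only on the coordinates in `J` -/
def Dep (J : Set I) (X : Set Om) : Prop := ∀ ω ω', (∀ β ∈ J, ω β = ω' β) → ω ∈ X → ω' ∈ X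

structure Cond (X : Set Om) : Prop where
  cl : IsClosed X
  ne : X.Nonempty
  supp : ∃ J, J.Countable ∧ Dep J X
  good : ∀ β, ∀ ω ∈ X, ∀ r, ∃ m, r ≤ m ∧ nor r (sc (fib β X ω) (ω β) m)
  op : ∀ δ, ∀ ω ∈ X, ∀ N ∈ 𝓝 ω, proj δ (X ∩ N) ∈ 𝓝[proj δ X] ω

def cyl (β : I) (m : ℕ) (x : Finset ℕ) : Set Om := {ω | (ω β m).1 = x}

/-- ultrametric agreement matrices -/
structure Ult {κ : Type} (d : κ → κ → WithTop I) : Prop where
  refl : ∀ i, d i i = ⊤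
  symm : ∀ i j, d i j = d j i
  ult : ∀ i j k, min (d i j) (d j k) ≤ d i k

/-- systems of conditions -/
structure Sys {κ : Type} (d : κ → κ → WithTop I) (s : Set κ) (Y : κ → Set Om) : Prop where
  cond : ∀ i ∈ s, Cond (Y i)
  agr : ∀ i ∈ s, ∀ j ∈ s, proj (d i j) (Y i) = proj (d i j) (Y j)

/-- `Y` has a fixed stem of length `m` at `β`, followed by the splitting set `C` -/
structure Str (β : I) (m : ℕ) (C : Set (Finset ℕ)) (Y : Set Om) : Prop where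
  stem : ∀ ω ∈ Y, ∀ ω' ∈ Y, ∀ i < m, ω β i = ω' β i
  val : ∀ ω ∈ Y, (ω β m).1 ∈ C
  full : ∀ x ∈ C, proj β Y ⊆ proj β (Y ∩ cyl β m x)

open Classical in
/-- the matrix after splitting at `β` -/
noncomputable def spl {κ : Type} (β : I) (d : κ → κ → WithTop I) (u v : κ × Finset ℕ) :
    WithTop I := if u.2 = v.2 then d u.1 v.1 else β

/-- every system below `p` that agrees up to `β` can be split at `β` with property `Φ` -/
def StepAt (p : Set Om) (β : I) (Φ : Set Om → ℕ → Finset ℕ → Finset ℕ → Prop) : Prop :=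
  ∀ (κ : Type) [Finite κ] [Nonempty κ] (d : κ → κ → WithTop I) (Y : κ → Set Om), Ult d →
    (∀ i j, sx β ≤ d i j) → Sys d univ Y → (∀ i, Y i ⊆ p) → ∀ r, ∃ Y', Sys d univ Y' ∧
      (∀ i, Y' i ⊆ Y i) ∧ ∃ m, r ≤ m ∧ ∃ C, nor r C ∧ ∀ i, Str β m C (Y' i) ∧
        ∀ x ∈ C, ∀ y ∈ C, x ≠ y → Φ (Y' i ∩ cyl β m x) m x y

/-- names for sequences of natural numbers that depend on the coordinates below `δ` -/
structure Nme (δ : WithTop I) (p : Set Om) (Dc : Set Om → ℕ → ℕ → Prop) : Prop where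
  loc : ∀ u v m k, Dc u m k → Cond v → proj δ v ⊆ proj δ u → Dc v m k
  dense : ∀ u, Cond u → u ⊆ p → ∀ m, ∃ v ⊆ u, Cond v ∧ ∃ k, Dc v m k
  func : ∀ u m k k', Cond u → Dc u m k → Dc u m k' → k = k'
  bdd : ∀ m, ∃ B, ∀ u k, Cond u → Dc u m k → k < B

/-- all flips named by `Dc` are private of colour `c` in `q` -/
def AllC (α : I) (c : Bool) (q : Set Om) (Dc : Set Om → ℕ → ℕ → Prop) : Prop :=
  ∀ v m k x y, Cond v → v ⊆ q → Dc v m k →
    (∀ ω ∈ v, (ω α m).1 = x ∧ y ∈ sc (fib α q ω) (ω α) m) → y ≠ x → Priv c x y k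

/-- continuous tree valued maps -/
structure TreeOn (q : Set Om) (F : Om → Set Z) : Prop where
  ne : ∀ ω ∈ q, (F ω).Nonempty
  cl : ∀ ω ∈ q, IsClosed (F ω)
  good : ∀ ω ∈ q, Good (F ω)
  lc : ∀ ω ∈ q, ∀ n, ∀ᶠ ω' in 𝓝[q] ω, ∀ z, Nd (F ω') n z ↔ Nd (F ω) n z

def DepF {γ : Type} (J : Set I) (q : Set Om) (F : Om → γ) : Prop :=
  ∀ ω ∈ q, ∀ ω' ∈ q, (∀ β ∈ J, ω β = ω' β) → F ω = F ω'

theorem Ag.refl (δ : WithTop I) (ω : Om) : Ag δ ω ω := fun _ _ => rfl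
theorem Ag.symm {δ : WithTop I} {ω ω' : Om} (h : Ag δ ω ω') : Ag δ ω' ω := fun β b => (h β b).symm
theorem Ag.trans {δ : WithTop I} {a b c : Om} (h : Ag δ a b) (h' : Ag δ b c) : Ag δ a c :=
  fun β hβ => (h β hβ).trans (h' β hβ)
theorem Ag.mono {δ ε : WithTop I} {ω ω' : Om} (h : Ag δ ω ω') (e : ε ≤ δ) : Ag ε ω ω' :=
  fun β hβ => h β (hβ.trans_le e)

theorem subset_proj (δ : WithTop I) (X : Set Om) : X ⊆ proj δ X := fun ω h => ⟨ω, h, Ag.refl _ _⟩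

theorem proj_mono (δ : WithTop I) {X Y : Set Om} (h : X ⊆ Y) : proj δ X ⊆ proj δ Y :=
  fun _ ⟨u, a, b⟩ => ⟨u, h a, b⟩

theorem proj_anti {δ ε : WithTop I} (h : ε ≤ δ) (X : Set Om) : proj δ X ⊆ proj ε X :=
  fun _ ⟨u, a, b⟩ => ⟨u, a, b.mono h⟩

theorem proj_top (X : Set Om) : proj ⊤ X = X :=
  (subset_proj _ _).antisymm' fun _ ⟨_, a, b⟩ =>
    (funext fun β => b β (WithTop.coe_lt_top β) : _ = _) ▸ a

theorem mem_proj_of_ag {δ : WithTop I} {X : Set Om} {ω ω' : Om} (h : Ag δ ω ω')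
    (h' : ω' ∈ proj δ X) : ω ∈ proj δ X := let ⟨u, a, b⟩ := h'; ⟨u, a, h.trans b⟩

theorem proj_proj_of_le {δ ε : WithTop I} (h : ε ≤ δ) (X : Set Om) :
    proj ε (proj δ X) = proj ε X :=
  (proj_mono _ (subset_proj _ _)).antisymm' fun _ ⟨_, ⟨u, a, b⟩, c⟩ => ⟨u, a, c.trans (b.mono h)⟩

theorem proj_sub_of_le {δ ε : WithTop I} (h : ε ≤ δ) {X Y : Set Om} (e : proj δ X ⊆ proj δ Y) :
    proj ε X ⊆ proj ε Y := by
  rw [← proj_proj_of_le h X, ← proj_proj_of_le h Y]; exact proj_mono _ e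

theorem proj_eq_of_le {δ ε : WithTop I} (h : ε ≤ δ) {X Y : Set Om} (e : proj δ X = proj δ Y) :
    proj ε X = proj ε Y := (proj_sub_of_le h e.le).antisymm (proj_sub_of_le h e.ge)

/-- projecting an intersection with a set determined below `δ ≤ ε` -/
theorem proj_inter_of_le {δ ε : WithTop I} (h : δ ≤ ε) (X V : Set Om) :
    proj ε (X ∩ proj δ V) = proj ε X ∩ proj δ V :=
  Set.ext fun _ => ⟨fun ⟨u, a, b⟩ => ⟨⟨u, a.1, b⟩, mem_proj_of_ag (b.mono h) a.2⟩,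
    fun ⟨⟨u, a, b⟩, c⟩ => ⟨u, ⟨a, mem_proj_of_ag (b.mono h).symm c⟩, b⟩⟩

theorem proj_inter_self {δ : WithTop I} {X V : Set Om} (h : proj δ V ⊆ proj δ X) :
    proj δ (X ∩ proj δ V) = proj δ V := by
  rw [proj_inter_of_le le_rfl, inter_eq_right.2 h]

theorem proj_inter {δ : WithTop I} {X V : Set Om} (h : proj δ V ⊆ proj δ X) (ε : WithTop I) :
    proj ε (X ∩ proj δ V) = proj ε X ∩ proj (min ε δ) V := by
  rcases le_total δ ε with e | e
  · rw [proj_inter_of_le e, min_eq_right e]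
  · rw [min_eq_left e, ← proj_proj_of_le e, proj_inter_self h, proj_proj_of_le e,
      inter_eq_right.2 (proj_sub_of_le e h)]

theorem fib_mono (β : I) {X Y : Set Om} (h : X ⊆ Y) (ω : Om) : fib β X ω ⊆ fib β Y ω :=
  fun _ ⟨u, a, b⟩ => ⟨u, h a, b⟩

theorem fib_congr {β : I} {X : Set Om} {ω ω' : Om} (h : Ag β ω ω') : fib β X ω = fib β X ω' :=
  Set.ext fun _ => ⟨fun ⟨u, a, b, c⟩ => ⟨u, a, h.symm.trans b, c⟩,
    fun ⟨u, a, b, c⟩ => ⟨u, a, h.trans b, c⟩⟩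

theorem fib_proj {β : I} {δ : WithTop I} (h : (β : WithTop I) < δ) (X : Set Om) (ω : Om) :
    fib β (proj δ X) ω = fib β X ω :=
  (fib_mono β (subset_proj _ _) ω).antisymm' fun _ ⟨_, ⟨u, a, b⟩, c, e⟩ =>
    ⟨u, a, c.trans (b.mono h.le), (b β h).symm.trans e⟩

theorem mem_sc_fib {β : I} {X : Set Om} {ω : Om} {m : ℕ} {y : Finset ℕ} :
    y ∈ sc (fib β X ω) (ω β) m ↔
      ∃ ω' ∈ X, Ag β ω ω' ∧ (∀ i < m, ω' β i = ω β i) ∧ (ω' β m).1 = y :=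
  ⟨fun ⟨_, ⟨u, a, b, c⟩, e⟩ => ⟨u, a, b, c ▸ e⟩, fun ⟨u, a, b, c⟩ => ⟨_, ⟨u, a, b, rfl⟩, c⟩⟩

theorem proj_inter_cyl {β : I} {δ : WithTop I} (h : (β : WithTop I) < δ) (X : Set Om) (m : ℕ)
    (x : Finset ℕ) : proj δ (X ∩ cyl β m x) = proj δ X ∩ cyl β m x :=
  Set.ext fun ω => ⟨fun ⟨u, a, b⟩ => ⟨⟨u, a.1, b⟩, show (ω β m).1 = x from b β h ▸ a.2⟩,
    fun ⟨⟨u, a, b⟩, c⟩ => ⟨u, ⟨a, show (u β m).1 = x from b β h ▸ c⟩, b⟩⟩

theorem isClopen_cyl (β : I) (m : ℕ) (x : Finset ℕ) : IsClopen (cyl β m x) :=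
  (isClopen_discrete {y : K m | y.1 = x}).preimage
    ((continuous_apply m).comp (continuous_apply β))

theorem Cond.goodFib {X : Set Om} (h : Cond X) (β : I) (ω : Om) : Good (fib β X ω) := by
  rintro _ ⟨u, a, b, rfl⟩ r
  rw [fib_congr b]
  exact h.good β u a r

end Pool.Agent.Lib.MP_5ffd28_gt.CR
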