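import Pool.Agent.Lib.MP_5ffd28_gt.CR.Fus

/-! Every name for a path is private of one colour below some condition. -/

namespace Pool.Agent.Lib.MP_5ffd28_gt.CR

open Set Filter Topology

variable {α : I} {δ ε : WithTop I} {p : Set Om} {Dc : Set Om → ℕ → ℕ → Prop} {c : Bool}

def Ph (c : Bool) (Dc : Set Om → ℕ → ℕ → Prop) (W : Set Om) (m : ℕ) (x y : Finset ℕ) : Prop :=
  ∃ k, Dc W m k ∧ Priv c x y k

theorem Nme.mono (h : Nme δ p Dc) {u v : Set Om} {m k : ℕ} (h1 : Dc u m k) (hv : Cond v)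
    (hs : v ⊆ u) : Dc v m k := h.loc _ _ _ _ h1 hv (proj_mono _ hs)

theorem Nme.anti (h : Nme δ p Dc) {q : Set Om} (hq : q ⊆ p) : Nme δ q Dc :=
  ⟨h.loc, fun u a b => h.dense u a (b.trans hq), h.func, h.bdd⟩

theorem Nme.ph (h : Nme δ p Dc) {W W' : Set Om} {m : ℕ} {x y : Finset ℕ} (h1 : Ph c Dc W m x y)
    (h2 : Cond W') (h3 : proj δ W' ⊆ proj δ W) : Ph c Dc W' m x y :=
  let ⟨k, a, b⟩ := h1; ⟨k, h.loc _ _ _ _ a h2 h3, b⟩

theorem Str.cond {m : ℕ} {C : Set (Finset ℕ)} {Y : Set Om} (h : Str α m C Y) (hY : Cond Y)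
    {x : Finset ℕ} (hx : x ∈ C) : Cond (Y ∩ cyl α m x) :=
  let ⟨_, hω⟩ := hY.ne
  let ⟨u, a, _⟩ := h.full x hx (subset_proj _ _ hω)
  hY.inter_clopen (isClopen_cyl _ _ _) ⟨u, a⟩

theorem allC_of_step (h : Nme δ p Dc) (hp : Cond p) (hS : StepAt p α (Ph c Dc)) :
    ∃ q ⊆ p, Cond q ∧ AllC α c q Dc := by
  obtain ⟨q, a, b, -, e⟩ := fusion hp α (Φ := Ph c Dc)
    (fun _ _ _ _ _ a b s => h.ph a b (proj_mono _ s)) hS
    (Q := fun _ _ => True) (fun _ _ _ _ _ _ => trivial) fun _ u a _ => ⟨u, le_rfl, a, trivial⟩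
  refine ⟨q, a, b, fun v m k x y hv hvq hk hω hne => ?_⟩
  obtain ⟨ω, hω'⟩ := hv.ne
  obtain ⟨rfl, h2⟩ := hω ω hω'
  obtain ⟨ω', c1, c2, c3, rfl⟩ := mem_sc_fib.1 h2
  obtain ⟨W, -, -, -, w4, k', w5, w6⟩ := e ω (hvq hω') ω' c1 m c2 (fun i hi => (c3 i hi).symm)
    fun e => hne (by rw [e])
  obtain ⟨V, v1, v2, -⟩ := hv.exists_sub hω' (nhdsWithin_mono _ hvq w4)
  exact h.func V m k' k v2 (h.mono w5 v2 (v1.trans inter_subset_right))
    (h.mono hk v2 (v1.trans inter_subset_left)) ▸ w6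

/-- a step of colour `c` for one condition -/
def St1 (α : I) (c : Bool) (Dc : Set Om → ℕ → ℕ → Prop) (Y : Set Om) (r : ℕ) : Prop :=
  ∃ V ⊆ Y, Cond V ∧ ∃ m, r ≤ m ∧ ∃ C, nor r C ∧ Str α m C V ∧
    ∀ x ∈ C, ∀ y ∈ C, x ≠ y → Ph c Dc (V ∩ cyl α m x) m x y

theorem St1.mono {Y Y' : Set Om} {r r' : ℕ} (h : St1 α c Dc Y r) (hY : Y ⊆ Y') (hr : r' ≤ r) :
    St1 α c Dc Y' r' :=
  let ⟨V, a, b, m, e, C, f, g⟩ := h; ⟨V, a.trans hY, b, m, hr.trans e, C, nor_le f hr, g⟩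

theorem nor_nonempty {r : ℕ} {C : Set (Finset ℕ)} (h : nor r C) : C.Nonempty :=
  let ⟨y, a, _⟩ := nor_ne h ∅; ⟨y, a⟩

theorem exists_st1 (h : Nme δ p Dc) {Y : Set Om} (hY : Cond Y) (hp : Y ⊆ p) (r : ℕ) :
    ∃ c, St1 α c Dc Y r := by
  obtain ⟨V, v1, v2, m, m1, C, c1, c2, c3⟩ := hY.exists_str α (r + 1)
  have hd : Ult fun _ _ : Unit => (⊤ : WithTop I) := ⟨fun _ => rfl, fun _ _ => rfl, fun _ _ _ => le_top⟩
  have h1 : Sys (fun _ _ : Unit => (⊤ : WithTop I)) univ fun _ => V :=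
    ⟨fun _ _ => v2, fun _ _ _ _ => rfl⟩
  obtain ⟨W, w1, w2, w3⟩ := (h1.split (fun _ _ => le_top) fun _ _ => c3).dec
    (hd.spl fun _ _ => le_top) (finite_univ.prod c1) le_rfl (e := ⊤) (fun _ _ _ _ _ => le_top)
    (Q := fun _ u => ∃ k, Dc u m k) (fun _ _ _ ⟨k, a⟩ b s => ⟨k, h.mono a b s⟩)
    fun i _ u a b => h.dense u a (((b.le.trans inter_subset_left).trans inter_subset_left).trans
      (v1.trans hp)) m
  choose! a ha using fun x (hx : x ∈ C) => w3 ((), x) ⟨trivial, hx⟩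
  obtain ⟨C', s1, s2, c, s3⟩ := c2 a
  obtain ⟨u1, u2⟩ := Sys.unite (Y := fun _ => V) (fun _ _ => le_top) (c1.subset s1) (nor_nonempty s2)
    (w1.mono (prod_mono le_rfl s1)) (fun u hu => w2 u ⟨trivial, s1 hu.2⟩) fun _ _ => c3.stem
  obtain ⟨u3, u4, u5⟩ := u2 () trivial
  exact ⟨c, _, u3.trans v1, u1.cond () trivial, m, (Nat.le_succ r).trans m1, C', s2, u4,
    fun x hx y hy hne => ⟨a x, (u5 x hx).symm ▸ ha x (s1 hx), s3 x hx y hy hne⟩⟩

theorem stepAt_of_st1 (h : Nme (sx α) p Dc) (H : ∀ Y, Cond Y → Y ⊆ p → ∀ r, St1 α c Dc Y r) :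
    StepAt p α (Ph c Dc) := by
  intro κ _ _ d Y _ hβ hY hp r
  obtain ⟨i⟩ : Nonempty κ := inferInstance
  obtain ⟨V, v1, v2, m, m1, C, c1, c2, c3⟩ := H _ (hY.cond i trivial) (hp i) r
  have h1 : ∀ j, proj (sx α) V ⊆ proj (sx α) (Y j) := fun j =>
    (proj_mono _ v1).trans (proj_eq_of_le (hβ i j) (hY.agr i trivial j trivial)).le
  have h2 := hY.shrink_all v2 fun j _ => h1 j
  refine ⟨_, h2, fun _ => inter_subset_left, m, m1, C, c1, fun j => ?_⟩
  have h3 := c2.transfer (proj_inter_self (h1 j)).symm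
  refine ⟨h3, fun x hx y hy hne => h.ph (c3 x hx y hy hne) (h3.cond (h2.cond j trivial) hx) ?_⟩
  rw [proj_inter_cyl (coe_lt_sx α), proj_inter_cyl (coe_lt_sx α), proj_inter_self (h1 j)]

theorem cut_base (hp : Cond p) (h : Nme (sx α) p Dc) : ∃ q ⊆ p, Cond q ∧ ∃ c, AllC α c q Dc := by
  by_cases H : ∀ Y, Cond Y → Y ⊆ p → ∀ r, St1 α true Dc Y r
  · obtain ⟨q, a, b, e⟩ := allC_of_step h hp (stepAt_of_st1 h H)
    exact ⟨q, a, b, _, e⟩
  simp only [not_forall] at H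
  obtain ⟨Y, h1, h2, r, h3⟩ := H
  obtain ⟨q, a, b, e⟩ := allC_of_step (h.anti h2) h1 (stepAt_of_st1 (c := false) (h.anti h2)
    fun Y' a b r' => by
      obtain ⟨c, hc⟩ := exists_st1 (α := α) h a (b.trans h2) (max r r')
      cases c
      exacts [hc.mono le_rfl (le_max_right _ _), absurd (hc.mono b (le_max_left _ _)) h3])
  exact ⟨q, a.trans h2, b, _, e⟩

/-- the least value that the tail of `Y` can decide -/
def bn (ε : WithTop I) (Y : Set Om) (Dc : Set Om → ℕ → ℕ → Prop) (u : Set Om) (m k : ℕ) : Prop :=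
  (∀ v, Cond v → proj ε v ⊆ proj ε u → ∃ V ⊆ Y ∩ proj ε v, Cond V ∧ Dc V m k) ∧
    ∀ V k', Cond V → V ⊆ Y ∩ proj ε u → Dc V m k' → k ≤ k'

theorem proj_idem (ε : WithTop I) (X : Set Om) : proj ε (proj ε X) = proj ε X :=
  proj_proj_of_le le_rfl X

theorem proj_sub {X Y : Set Om} (h : X ⊆ proj ε Y) : proj ε X ⊆ proj ε Y :=
  (proj_mono _ h).trans (proj_idem _ _).le

theorem Nme.bn (h : Nme δ p Dc) {Y : Set Om} (hY : Cond Y) (hp : Y ⊆ p) (ε : WithTop I) :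
    Nme ε (proj ε Y) (bn ε Y Dc) := by
  refine ⟨fun u v m k a _ s => ⟨fun v' b s' => a.1 v' b (s'.trans s), fun V k' b s' =>
    a.2 V k' b (s'.trans (inter_subset_inter_right _ s))⟩, fun u hu hs m => ?_,
    fun u m k k' hu a b => ?_, fun m => ?_⟩
  · let A : ℕ → Prop := fun k => ∃ v ⊆ u, Cond v ∧
      ∀ V k', Cond V → V ⊆ Y ∩ proj ε v → Dc V m k' → k ≤ k'
    obtain ⟨B, hB⟩ := h.bdd m
    have h1 : ¬ A B := fun ⟨v, a, b, e⟩ => by
      obtain ⟨V, v1, v2, k, v3⟩ := h.dense _ (hY.inter_proj b (proj_sub (a.trans hs)))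
        (inter_subset_left.trans hp) m
      exact (hB V k v2 v3).not_ge (e V k v2 v1 v3)
    obtain ⟨k, ⟨v, a, b, e⟩, h2⟩ : ∃ k, A k ∧ ¬ A (k + 1) := by
      by_contra hn
      simp only [not_exists, not_and, not_not] at hn
      exact h1 (Nat.rec ⟨u, le_rfl, hu, fun _ _ _ _ _ => Nat.zero_le _⟩ hn B)
    refine ⟨v, a, b, k, fun v' b' s => by_contra fun hn => h2 ⟨_, inter_subset_left.trans a,
      b.inter_proj b' s, fun V k' v1 v2 v3 => ?_⟩, e⟩
    rw [proj_inter_self s] at v2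
    exact Nat.succ_le_of_lt ((e V k' v1 (v2.trans (inter_subset_inter_right _ s)) v3).lt_of_ne
      fun e => hn ⟨V, v2, v1, e ▸ v3⟩)
  · obtain ⟨V, v1, v2, v3⟩ := a.1 u hu le_rfl
    obtain ⟨V', w1, w2, w3⟩ := b.1 u hu le_rfl
    exact (a.2 V' k' w2 w1 w3).antisymm (b.2 V k v2 v1 v3)
  · obtain ⟨B, hB⟩ := h.bdd m
    exact ⟨B, fun u k hu a => let ⟨V, _, v2, v3⟩ := a.1 u hu le_rfl; hB V k v2 v3⟩

theorem allC_bn (h : Nme δ p Dc) {Y u : Set Om} (hY : Cond Y) (hp : Y ⊆ p)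
    (hε : (α : WithTop I) < ε) (hu : Cond u) (hs : u ⊆ proj ε Y)
    (H : AllC α false u (bn ε Y Dc)) : AllC α false (Y ∩ proj ε u) Dc := by
  intro V m k x y v1 v2 v3 v4 hne
  have h1 : proj ε V ⊆ proj ε u := proj_sub (v2.trans inter_subset_right)
  obtain ⟨v, a, b, k₀, e⟩ := (h.bn hY hp ε).dense _ (hu.inter_proj v1 h1)
    (inter_subset_left.trans hs) m
  refine priv_up (H v m k₀ x y b (a.trans inter_subset_left) e (fun ω hω => ?_) hne)
    (e.2 _ k (v1.inter_proj b (proj_sub (a.trans inter_subset_right)))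
      (inter_subset_inter_left _ (v2.trans inter_subset_left))
      (h.mono v3 (v1.inter_proj b (proj_sub (a.trans inter_subset_right))) inter_subset_left))
  obtain ⟨ω₁, c1, c2⟩ := (a hω).2
  rw [c2 α hε, fib_congr (c2.mono hε.le), ← fib_proj hε]
  exact (v4 ω₁ c1).imp id fun c3 => sc_mono (fib_mono _ inter_subset_right _) _ _ c3

theorem claimX (h : Nme δ p Dc) (hδ : sx α < δ)
    (IH : ∀ ε, sx α ≤ ε → ε < δ → ∀ p Dc, Cond p → Nme ε p Dc →
      ∃ q ⊆ p, Cond q ∧ ∃ c, AllC α c q Dc)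
    (hB : ¬ ∃ q ⊆ p, Cond q ∧ AllC α false q Dc) {κ : Type} {d : κ → κ → WithTop I} (hd : Ult d)
    (hβ : ∀ i j, sx α ≤ d i j) {w : κ} (hw : ∀ i ≠ w, d i w = sx α) (r : ℕ) {s : Set κ}
    (hs : s.Finite) : w ∉ s → ∀ Y, Sys d (insert w s) Y → (∀ i ∈ insert w s, Y i ⊆ p) →
      ∃ Y', Sys d (insert w s) Y' ∧ (∀ i ∈ insert w s, Y' i ⊆ Y i) ∧ ∃ m, r ≤ m ∧ ∃ C, C.Finite ∧
        nor r C ∧ (∀ i ∈ insert w s, Str α m C (Y' i)) ∧
        ∀ i ∈ s, ∀ x ∈ C, ∀ y ∈ C, x ≠ y → Ph true Dc (Y' i ∩ cyl α m x) m x y := by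
  classical
  induction s, hs using Set.Finite.induction_on with
  | empty =>
    intro _ Y hY _
    obtain ⟨V, v1, v2, m, m1, C, c1, c2, c3⟩ := (hY.cond w (mem_insert _ _)).exists_str α r
    refine ⟨fun _ => V, ⟨fun _ _ => v2, fun _ _ _ _ => rfl⟩, fun i hi => ?_, m, m1, C, c1, c2,
      fun _ _ => c3, fun _ h => h.elim⟩
    rwa [hi.resolve_right id]
  | @insert i s hi hs ih =>
    intro hw' Y hY hp
    rw [mem_insert_iff, not_or] at hw'
    rw [insert_comm] at hY hp ⊢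
    have hi' : i ∉ insert w s := fun e => e.elim (fun e => hw'.1 e.symm) hi
    obtain ⟨j, hj, hm⟩ := (insert w s).exists_max_image (d i) (hs.insert w) (insert_nonempty _ _)
    have hα : (α : WithTop I) < d i j := sx_le.1 (hβ i j)
    have hne : ∀ k ∈ insert w s, k ≠ i := fun k a e => hi' (e ▸ a)
    -- attaching the piece `i` after the others have been handled
    have key : ∀ Y, Sys d (insert i (insert w s)) Y → (∀ k ∈ insert i (insert w s), Y k ⊆ p) →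
        ∃ Y', Sys d (insert i (insert w s)) Y' ∧ (∀ k ∈ insert i (insert w s), Y' k ⊆ Y k) ∧
        Y' i = Y i ∩ proj (d i j) (Y' j) ∧ ∃ m, r ≤ m ∧ ∃ C, C.Finite ∧
        nor r C ∧ (∀ k ∈ insert i (insert w s), Str α m C (Y' k)) ∧
        ∀ k ∈ s, ∀ x ∈ C, ∀ y ∈ C, x ≠ y → Ph true Dc (Y' k ∩ cyl α m x) m x y := by
      intro Y hY hp
      obtain ⟨Y₁, a1, a2, m, m1, C, c1, c2, c3, c4⟩ := ih hw'.2 Y (hY.mono (subset_insert _ _))
        fun k a => hp k (Or.inr a)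
      have a3 := hY.attach hd hi' hj hm a1 a2
      have a4 := a3.agr i (mem_insert _ _) j (Or.inr hj)
      rw [Function.update_of_ne (hne j hj)] at a4
      refine ⟨_, a3, ?_, by rw [Function.update_self, Function.update_of_ne (hne j hj)], m, m1, C,
        c1, c2, ?_, fun k a => ?_⟩
      · rintro k (rfl | a)
        · rw [Function.update_self]; exact inter_subset_left
        · rw [Function.update_of_ne (hne k a)]; exact a2 k a
      · rintro k (rfl | a)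
        · exact (c3 j hj).transfer (proj_eq_of_le (hβ k j) a4).symm
        · rw [Function.update_of_ne (hne k a)]; exact c3 k a
      · rw [Function.update_of_ne (hne k (Or.inr a))]; exact c4 k a
    have hYi := hY.cond i (mem_insert _ _)
    have hpi := hp i (mem_insert _ _)
    rcases le_or_gt δ (d i j) with hε | hε
    · obtain ⟨Y', a1, a2, -, m, m1, C, c1, c2, c3, c4⟩ := key Y hY hp
      refine ⟨Y', a1, a2, m, m1, C, c1, c2, c3, ?_⟩
      rintro k (rfl | a) x hx y hy e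
      · have hj' : j ∈ s := hj.resolve_left fun e => by
          rw [e, hw k (Ne.symm hw'.1)] at hε; exact hδ.not_ge hε
        refine h.ph (c4 j hj' x hx y hy e)
          ((c3 k (mem_insert _ _)).cond (a1.cond k (mem_insert _ _)) hx) (proj_sub_of_le hε ?_)
        rw [proj_inter_cyl hα, proj_inter_cyl hα, a1.agr k (mem_insert _ _) j (Or.inr hj)]
      · exact c4 k a x hx y hy e
    have hb := h.bn hYi hpi (d i j)
    obtain ⟨u, u1, u2, c, u3⟩ := IH _ (hβ i j) hε _ _ (hYi.proj _) hb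
    have hV := hYi.inter_proj u2 (proj_sub u1)
    cases c
    · exact absurd ⟨_, inter_subset_left.trans hpi, hV, allC_bn h hYi hpi hα u2 u1 u3⟩ hB
    obtain ⟨Y₂, a1, a2, a3, m, m1, C, c1, c2, c3, c4⟩ := key _
      (hY.shrink hd (mem_insert _ _) hV inter_subset_left)
      fun k a => inter_subset_left.trans (hp k a)
    rw [hd.refl, proj_top] at a3
    obtain ⟨W, w1, w2, w3⟩ := (a1.split hβ c3).dec (hd.spl hβ) (t := {i} ×ˢ C)
      ((finite_singleton i).prod c1) (prod_mono (singleton_subset_iff.2 (mem_insert _ _)) le_rfl)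
      (e := d i j) (fun u hu v hv e => by
        rw [spl, if_neg fun e' => e (Prod.ext (hu.1.trans hv.1.symm) e')]; exact hα.le)
      (Q := fun u W => ∀ y ∈ C, u.2 ≠ y → Ph true Dc W m u.2 y)
      (fun _ _ _ a b s y hy e => h.ph (a y hy e) b (proj_mono _ s)) (by
        rintro ⟨i', x⟩ ⟨hi', hx⟩ z z1 z2
        obtain rfl : i = i' := hi'.symm
        dsimp only at z2 hx ⊢
        have z3 : z ⊆ Y₂ i ∩ cyl α m x := z2.le.trans inter_subset_left
        have z4 : Y₂ i ⊆ proj (d i j) u := by rw [a3]; exact fun _ a => a.1.2.2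
        have z5 : proj (d i j) z ⊆ proj (d i j) u := proj_sub ((z3.trans inter_subset_left).trans z4)
        obtain ⟨v, v1, v2, k, v3⟩ := hb.dense _ (u2.inter_proj z1 z5) (inter_subset_left.trans u1) m
        obtain ⟨V, b1, b2, b3⟩ := v3.1 v v2 le_rfl
        refine ⟨V, fun ω hω => ?_, b2, fun y hy e => ⟨k, b3, u3 v m k x y v2
          (v1.trans inter_subset_left) v3 (fun ω hω => ?_) e.symm⟩⟩
        · have b4 := proj_sub (v1.trans inter_subset_right) (b1 hω).2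
          have b5 := proj_mono _ z3 b4
          rw [proj_inter_cyl hα] at b5
          rw [z2]
          refine ⟨⟨?_, b5.2⟩, b4⟩
          rw [a3] at b5 ⊢
          exact ⟨⟨(b1 hω).1, (b1 hω).1, z5 b4⟩, proj_sub inter_subset_right b5.1⟩
        · obtain ⟨ω₁, e1, e2⟩ := (v1 hω).2
          obtain ⟨ω₂, f1, f2⟩ := (c3 i (mem_insert _ _)).full y hy (subset_proj _ _ (z3 e1).1)
          obtain ⟨ω₃, g1, g2⟩ := z4 f1.1
          refine ⟨e2 α hα ▸ (z3 e1).2, mem_sc_fib.2 ⟨ω₃, g1,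
            ((e2.mono hα.le).trans f2).trans (g2.mono hα.le), fun l hl => ?_, g2 α hα ▸ f1.2⟩⟩
          rw [← g2 α hα, e2 α hα]
          exact (c3 i (mem_insert _ _)).stem _ f1.1 _ (z3 e1).1 l hl)
    obtain ⟨b1, b2⟩ := Sys.unite hβ c1 (nor_nonempty c2) w1 w2 fun k a => (c3 k a).stem
    refine ⟨_, b1, fun k a => (b2 k a).1.trans ((a2 k a).trans inter_subset_left), m, m1, C, c1, c2,
      fun k a => (b2 k a).2.1, ?_⟩
    rintro k (rfl | a) x hx y hy e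
    · rw [(b2 k (mem_insert _ _)).2.2 x hx]
      exact w3 (k, x) ⟨rfl, hx⟩ y hy e
    · rw [(b2 k (Or.inr (Or.inr a))).2.2 x hx]
      exact h.ph (c4 k a x hx y hy e) (w1.cond (k, x) ⟨Or.inr (Or.inr a), hx⟩)
        (proj_mono _ (w2 (k, x) ⟨Or.inr (Or.inr a), hx⟩))

/-- the matrix with a dummy piece -/
noncomputable def dum {κ : Type} (α : I) (d : κ → κ → WithTop I) :
    Option κ → Option κ → WithTop I
  | some i, some j => d i j
  | none, none => ⊤
  | _, _ => sx α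

theorem cut (α : I) (δ : WithTop I) (hδ : sx α ≤ δ) {p : Set Om} (hp : Cond p)
    {Dc : Set Om → ℕ → ℕ → Prop} (h : Nme δ p Dc) : ∃ q ⊆ p, Cond q ∧ ∃ c, AllC α c q Dc := by
  induction δ using WellFoundedLT.induction generalizing p Dc with | _ δ IH => ?_
  rcases hδ.eq_or_lt with rfl | hδ
  · exact cut_base hp h
  by_cases hB : ∃ q ⊆ p, Cond q ∧ AllC α false q Dc
  · exact hB.imp fun q a => ⟨a.1, a.2.1, _, a.2.2⟩
  refine (allC_of_step (α := α) (c := true) h hp ?_).imp fun q a => ⟨a.1, a.2.1, _, a.2.2⟩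
  intro κ _ _ d Y hd hβ hY hp r
  obtain ⟨i₀⟩ : Nonempty κ := inferInstance
  have h1 : ∀ i j, sx α ≤ dum α d i j := by
    rintro (_ | i) (_ | j)
    exacts [le_top, le_rfl, le_rfl, hβ i j]
  have h2 : Ult (dum α d) := by
    refine ⟨?_, ?_, ?_⟩
    · rintro (_ | i)
      exacts [rfl, hd.refl i]
    · rintro (_ | i) (_ | j)
      exacts [rfl, rfl, rfl, hd.symm i j]
    · rintro (_ | i) (_ | j) (_ | k)
      exacts [le_top, min_le_right _ _, le_top, min_le_left _ _, min_le_left _ _,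
        (min_le_left _ _).trans (hβ i k), min_le_right _ _, hd.ult i j k]
  obtain ⟨Y', a1, a2, m, m1, C, -, c2, c3, c4⟩ := claimX h hδ
    (fun ε a b p Dc e f => IH ε b a e f) hB h2 h1 (w := none)
    (by rintro (_ | i) e; exacts [absurd rfl e, rfl]) r (finite_range some) (by simp)
    (fun o => Y (o.getD i₀)) ⟨fun _ _ => hY.cond _ trivial, by
      rintro (_ | i) - (_ | j) -
      exacts [rfl, proj_eq_of_le (hβ _ _) (hY.agr _ trivial _ trivial),
        proj_eq_of_le (hβ _ _) (hY.agr _ trivial _ trivial), hY.agr _ trivial _ trivial]⟩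
    fun _ _ => hp _
  have h3 : ∀ i : κ, some i ∈ insert none (range some) := fun i => Or.inr (mem_range_self i)
  exact ⟨fun i => Y' (some i), ⟨fun i _ => a1.cond _ (h3 i), fun i _ j _ => a1.agr _ (h3 i) _ (h3 j)⟩,
    fun i => a2 _ (h3 i), m, m1, C, c2, fun i => ⟨c3 _ (h3 i), c4 _ (mem_range_self i)⟩⟩

end Pool.Agent.Lib.MP_5ffd28_gt.CR
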