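import Pool.Agent.Lib.MP_5ffd28_gt.CR.GeoDefs

/-! The coloured gaps. -/

namespace Pool.Agent.Lib.MP_5ffd28_gt.CR

open Set

theorem gc_lnpos (m : ℕ) : (0 : ℝ) < ln m := Nat.cast_pos.2 (ln_pos m)

theorem gc_open (c : Bool) (x : Finset ℕ) : IsOpen {r : ℝ | col c x r} := by
  rw [isOpen_iff_eventually]
  intro r hr
  have h : ∀ k ∈ x, ∀ᶠ r' : ℝ in nhds r, (r' < k + 1 / 3 ∨ (k : ℝ) + 2 / 3 < r') ∧
      (((k : ℝ) + 1 / 2 < r') ↔ ((k : ℝ) + 1 / 2 < r)) := by
    intro k hk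
    rcases hr.1 k hk with h | h
    · filter_upwards [gt_mem_nhds h] with r' h'
      exact ⟨Or.inl h', fun a => by linarith, fun a => by linarith⟩
    · filter_upwards [lt_mem_nhds h] with r' h'
      exact ⟨Or.inr h', fun _ => by linarith, fun _ => by linarith⟩
  filter_upwards [(Filter.eventually_all_finset x).2 h] with r' h'
  refine ⟨fun k hk => (h' k hk).1, ?_⟩
  rw [Finset.filter_congr fun k hk => (h' k hk).2]
  exact hr.2

theorem gc_cont_ph (m : ℕ) (x : Finset ℕ) (k : ℕ) : Continuous (ph m x k) := by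
  unfold ph
  split_ifs <;> fun_prop

theorem gc_cont_crd (k : ℕ → ℕ) : ∀ n, Continuous fun u : Z × ℝ => crd u.1 k u.2 n
  | 0 => continuous_snd
  | n + 1 => by
    have h : Continuous fun p : K n × ℝ => ph n p.1.1 (k n) p.2 :=
      continuous_prod_of_discrete_left.2 fun a => gc_cont_ph n a.1 (k n)
    exact h.comp (((continuous_apply n).comp continuous_fst).prodMk (gc_cont_crd k n))

theorem isOpen_Col (c : Bool) : IsOpen {u : Z × ℝ | u.2 ∈ Col c u.1} := by
  have e : {u : Z × ℝ | u.2 ∈ Col c u.1} = ⋃ n, ⋃ k : ℕ → ℕ,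
      ((⋂ i ∈ Finset.range n, {u : Z × ℝ | k i ∈ (u.1 i).1}) ∩
        {u : Z × ℝ | n ≠ 0 → -(ln n : ℝ) < crd u.1 k u.2 n ∧ crd u.1 k u.2 n < 2 * ln n}) ∩
        {u : Z × ℝ | col c (u.1 n).1 (crd u.1 k u.2 n)} := by
    ext u
    simp only [Col, mem_ofPred_eq, mem_iUnion, mem_inter_iff, mem_iInter, Finset.mem_range,
      and_assoc]
  rw [e]
  refine isOpen_iUnion fun n => isOpen_iUnion fun k => IsOpen.inter (IsOpen.inter ?_ ?_) ?_
  · refine isOpen_biInter_finset fun i _ => ?_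
    exact (isOpen_discrete {x : K i | k i ∈ x.1}).preimage
      ((continuous_apply i).comp continuous_fst)
  · by_cases h : n = 0
    · simp [h]
    · simp only [ne_eq, h, not_false_eq_true, forall_true_left]
      exact (isOpen_lt continuous_const (gc_cont_crd k n)).inter
        (isOpen_lt (gc_cont_crd k n) continuous_const)
  · have h : IsOpen {p : K n × ℝ | col c p.1.1 p.2} := by
      rw [isOpen_iff_continuous_mem]
      exact continuous_prod_of_discrete_left.2 fun a =>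
        isOpen_iff_continuous_mem.1 (gc_open c a.1)
    exact h.preimage (((continuous_apply n).comp continuous_fst).prodMk (gc_cont_crd k n))

theorem gc_win {m : ℕ} {x : Finset ℕ} {k : ℕ} {r : ℝ} (h1 : -(ln (m + 1) : ℝ) < ph m x k r)
    (h2 : ph m x k r < 2 * ln (m + 1)) : (k : ℝ) < r ∧ r < k + 1 := by
  have hL := gc_lnpos (m + 1)
  unfold ph at h1 h2
  split_ifs at h1 h2
  · constructor <;> nlinarith
  · constructor <;> nlinarith

theorem gc_in {m : ℕ} {x : Finset ℕ} {k : ℕ} {r : ℝ} (h1 : (k : ℝ) + 1 / 3 ≤ r)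
    (h2 : r ≤ k + 2 / 3) : 0 ≤ ph m x k r ∧ ph m x k r ≤ ln (m + 1) := by
  have hL := gc_lnpos (m + 1)
  unfold ph
  split_ifs
  · constructor <;> nlinarith
  · constructor <;> nlinarith

theorem gc_slot {m k : ℕ} (x : K m) (hk : k ∈ x.1) : (k : ℝ) + 1 ≤ ln m := by
  exact_mod_cast x.lt hk

/-- all earlier coordinates lie in their slots -/
theorem gc_path {z : Z} {k : ℕ → ℕ} {s : ℝ} : ∀ n, (∀ i < n, k i ∈ (z i).1) →
    (n ≠ 0 → -(ln n : ℝ) < crd z k s n ∧ crd z k s n < 2 * ln n) →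
    ∀ i < n, (k i : ℝ) < crd z k s i ∧ crd z k s i < k i + 1
  | 0, _, _ => fun i hi => absurd hi (Nat.not_lt_zero i)
  | n + 1, hk, hw => by
    obtain ⟨a, b⟩ := hw n.succ_ne_zero
    have h := gc_win a b
    intro i hi
    rcases Nat.lt_succ_iff_lt_or_eq.1 hi with h' | rfl
    · refine gc_path n (fun j hj => hk j (hj.trans n.lt_succ_self)) (fun _ => ?_) i h'
      have h1 := gc_slot (z n) (hk n n.lt_succ_self)
      have h2 := gc_lnpos n
      have h3 : (0 : ℝ) ≤ k n := Nat.cast_nonneg _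
      constructor <;> linarith [h.1, h.2]
    · exact h

theorem gc_floor {k : ℕ} {r : ℝ} (h1 : (k : ℝ) ≤ r) (h2 : r < k + 1) : ⌊r⌋₊ = k :=
  (Nat.floor_eq_iff ((Nat.cast_nonneg k).trans h1)).2 ⟨h1, h2⟩

theorem gc_trj {z : Z} {k : ℕ → ℕ} {s : ℝ} {n : ℕ}
    (h : ∀ i < n, (k i : ℝ) < crd z k s i ∧ crd z k s i < k i + 1) :
    ∀ i ≤ n, crd z k s i = trj z s i
  | 0, _ => rfl
  | i + 1, hi => by
    have e := gc_trj h i (Nat.le_of_succ_le hi)
    have h' := h i hi
    show ph i (z i).1 (k i) (crd z k s i) = ph i (z i).1 ⌊trj z s i⌋₊ (trj z s i)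
    rw [← e, gc_floor h'.1.le h'.2]

/-- membership in `Col` along the own path -/
theorem gc_mem {c : Bool} {z : Z} {s : ℝ} (h : s ∈ Col c z) : ∃ n,
    (∀ i < n, pth z s i ∈ (z i).1 ∧ (pth z s i : ℝ) < trj z s i ∧ trj z s i < pth z s i + 1) ∧
      col c (z n).1 (trj z s n) := by
  obtain ⟨n, k, h1, h2, h3⟩ := h
  have h4 := gc_path n h1 h2
  refine ⟨n, fun i hi => ?_, gc_trj h4 n le_rfl ▸ h3⟩
  have e := gc_trj h4 i hi.le
  have h5 := h4 i hi
  have e' : pth z s i = k i := by rw [pth, ← e, gc_floor h5.1.le h5.2]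
  rw [e', ← e]
  exact ⟨h1 i hi, h5⟩

theorem gc_par {c c' : Bool} {n : ℕ} (h : par c n) (h' : par c' n) : c = c' := by
  cases c <;> cases c' <;> simp only [par, if_true, Bool.false_eq_true, if_false] at h h'
  · rfl
  · exact absurd h' (Nat.not_even_iff_odd.2 h)
  · exact absurd h (Nat.not_even_iff_odd.2 h')
  · rfl

theorem gc_neg (x : Finset ℕ) {r : ℝ} (h : r ≤ 0) : col true x r := by
  refine ⟨fun k _ => Or.inl ?_, ?_⟩
  · have : (0 : ℝ) ≤ k := Nat.cast_nonneg _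
    linarith
  · rw [Finset.filter_false_of_mem]
    · simp [par]
    · intro k _ hk
      have : (0 : ℝ) ≤ k := Nat.cast_nonneg _
      linarith

theorem gc_big {m : ℕ} (x : K m) {r : ℝ} (h : (ln m : ℝ) ≤ r) : col false x.1 r := by
  refine ⟨fun k hk => Or.inr ?_, ?_⟩
  · linarith [gc_slot x hk]
  · rw [Finset.filter_true_of_mem]
    · simpa [par] using x.odd
    · intro k hk
      linarith [gc_slot x hk]

theorem gc_left (x : Finset ℕ) {k : ℕ} {r : ℝ} (h1 : (k : ℝ) < r) (h2 : r < k + 1 / 3) :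
    (x.filter fun j : ℕ => (j : ℝ) + 1 / 2 < r).card = cnt x k := by
  unfold cnt
  refine congrArg Finset.card (Finset.filter_congr fun j _ => ⟨fun a => ?_, fun a => ?_⟩)
  · have : (j : ℝ) < k := by linarith
    exact_mod_cast this
  · have : (j : ℝ) + 1 ≤ k := by exact_mod_cast a
    linarith

theorem gc_right {x : Finset ℕ} {k : ℕ} (hk : k ∈ x) {r : ℝ} (h1 : (k : ℝ) + 2 / 3 < r)
    (h2 : r < k + 1) : (x.filter fun j : ℕ => (j : ℝ) + 1 / 2 < r).card = cnt x k + 1 := by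
  unfold cnt
  have e : (x.filter fun j : ℕ => (j : ℝ) + 1 / 2 < r) = insert k (x.filter (· < k)) := by
    ext j
    simp only [Finset.mem_filter, Finset.mem_insert]
    constructor
    · rintro ⟨a, b⟩
      have h3 : (j : ℝ) < (k + 1 : ℕ) := by push_cast; linarith
      have h4 : j < k + 1 := by exact_mod_cast h3
      rcases Nat.lt_succ_iff_lt_or_eq.1 h4 with h5 | h5
      exacts [Or.inr ⟨a, h5⟩, Or.inl h5]
    · rintro (rfl | ⟨a, b⟩)
      · exact ⟨hk, by linarith⟩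
      · have : (j : ℝ) < k := by exact_mod_cast b
        exact ⟨a, by linarith⟩
  rw [e, Finset.card_insert_of_notMem (by simp)]

/-- a coloured point of a slot is mapped beyond the end of its colour -/
theorem gc_out {c : Bool} {m : ℕ} {x : Finset ℕ} {k : ℕ} (hk : k ∈ x) {r : ℝ} (h1 : (k : ℝ) < r)
    (h2 : r < k + 1) (h : col c x r) :
    (c = true ∧ ph m x k r < 0) ∨ (c = false ∧ (ln (m + 1) : ℝ) < ph m x k r) := by
  have hL := gc_lnpos (m + 1)
  have hp := h.2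
  unfold ph
  rcases h.1 k hk with a | a
  · rw [gc_left x h1 a] at hp
    split_ifs with e
    · exact Or.inl ⟨gc_par hp (c' := true) e, by nlinarith⟩
    · exact Or.inr ⟨gc_par hp (c' := false) (Nat.not_even_iff_odd.1 e), by nlinarith⟩
  · rw [gc_right hk a h2] at hp
    split_ifs with e
    · exact Or.inr ⟨gc_par hp (c' := false) e.add_one, by nlinarith⟩
    · exact Or.inl ⟨gc_par hp (c' := true) (Nat.not_even_iff_odd.1 e).add_one, by nlinarith⟩

theorem gc_eq {c c' : Bool} {z : Z} {s : ℝ} {n n' : ℕ} (hn : n ≤ n')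
    (h : col c (z n).1 (trj z s n))
    (h1 : ∀ i < n', pth z s i ∈ (z i).1 ∧ (pth z s i : ℝ) < trj z s i ∧
      trj z s i < pth z s i + 1)
    (h' : col c' (z n').1 (trj z s n')) : c = c' := by
  rcases hn.eq_or_lt with rfl | hn
  · exact gc_par h.2 h'.2
  obtain ⟨a1, a2, a3⟩ := h1 n hn
  have h2 : (c = true ∧ trj z s (n + 1) < 0) ∨ (c = false ∧ (ln (n + 1) : ℝ) < trj z s (n + 1)) :=
    gc_out (m := n) a1 a2 a3 h
  rcases (Nat.succ_le_of_lt hn).eq_or_lt with rfl | hn'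
  · rcases h2 with ⟨rfl, b⟩ | ⟨rfl, b⟩
    · exact gc_par (gc_neg _ b.le).2 h'.2
    · exact gc_par (gc_big _ b.le).2 h'.2
  · obtain ⟨b1, b2, b3⟩ := h1 (n + 1) hn'
    have b4 := gc_slot (z (n + 1)) b1
    have b5 : (0 : ℝ) ≤ pth z s (n + 1) := Nat.cast_nonneg _
    rcases h2 with ⟨-, b⟩ | ⟨-, b⟩ <;> linarith

theorem Col_disj {z : Z} {s : ℝ} (h : s ∈ Col true z) (h' : s ∈ Col false z) : False := by
  obtain ⟨n, a, b⟩ := gc_mem h
  obtain ⟨n', a', b'⟩ := gc_mem h'
  rcases le_total n n' with e | e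
  · exact absurd (gc_eq e b a' b') (by simp)
  · exact absurd (gc_eq e b' a b) (by simp)

theorem Col_KK {c : Bool} {z : Z} {s : ℝ} (h : s ∈ Col c z) (h' : s ∈ KK z) : False := by
  obtain ⟨n, -, b⟩ := gc_mem h
  obtain ⟨a1, a2, a3⟩ := h' n
  rcases b.1 _ a1 with e | e <;> linarith

theorem gc_crd_pth (z : Z) (s : ℝ) : ∀ n, crd z (pth z s) s n = trj z s n
  | 0 => rfl
  | n + 1 => by
    show ph n (z n).1 (pth z s n) (crd z (pth z s) s n) = _
    rw [gc_crd_pth z s n]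
    rfl

theorem Col_cover (z : Z) (s : ℝ) : s ∈ Col true z ∨ s ∈ Col false z ∨ s ∈ KK z := by
  classical
  by_cases hK : s ∈ KK z
  · exact Or.inr (Or.inr hK)
  have hex : ∃ n, ¬ (pth z s n ∈ (z n).1 ∧ (pth z s n : ℝ) + 1 / 3 ≤ trj z s n ∧
      trj z s n ≤ pth z s n + 2 / 3) := not_forall.1 hK
  have h1 := Nat.find_spec hex
  have h2 : ∀ i < Nat.find hex, pth z s i ∈ (z i).1 ∧ (pth z s i : ℝ) + 1 / 3 ≤ trj z s i ∧
      trj z s i ≤ pth z s i + 2 / 3 := fun i hi => not_not.1 (Nat.find_min hex hi)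
  generalize Nat.find hex = n at h1 h2
  have key : ∀ c, par c ((z n).1.filter fun k : ℕ => (k : ℝ) + 1 / 2 < trj z s n).card →
      s ∈ Col c z := by
    intro c hc
    refine ⟨n, pth z s, fun i hi => (h2 i hi).1, fun hn => ?_, ?_⟩
    · obtain ⟨m, rfl⟩ := Nat.exists_eq_succ_of_ne_zero hn
      rw [gc_crd_pth]
      obtain ⟨-, a, b⟩ := h2 m m.lt_succ_self
      have h3 : 0 ≤ trj z s (m + 1) ∧ trj z s (m + 1) ≤ ln (m + 1) := gc_in a b
      have hL := gc_lnpos (m + 1)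
      constructor <;> linarith [h3.1, h3.2]
    · rw [gc_crd_pth]
      refine ⟨fun k hk => ?_, hc⟩
      by_contra hh
      rw [not_or, not_lt, not_lt] at hh
      have e : pth z s n = k := gc_floor (by linarith [hh.1]) (by linarith [hh.2])
      exact h1 (e ▸ ⟨hk, hh.1, hh.2⟩)
  rcases Nat.even_or_odd ((z n).1.filter fun k : ℕ => (k : ℝ) + 1 / 2 < trj z s n).card with e | e
  · exact Or.inl (key true e)
  · exact Or.inr (Or.inl (key false e))

theorem zero_mem_Col (z : Z) : (0 : ℝ) ∈ Col true z :=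
  ⟨0, fun _ => 0, fun i hi => absurd hi (Nat.not_lt_zero i), fun h => absurd rfl h,
    gc_neg _ le_rfl⟩

theorem PP_mem_Col (z : Z) : PP ∈ Col false z :=
  ⟨0, fun _ => 0, fun i hi => absurd hi (Nat.not_lt_zero i), fun h => absurd rfl h,
    gc_big _ (show (ln 0 : ℝ) ≤ ln 0 + 1 by linarith)⟩

theorem gc_meas_trj : ∀ n, Measurable fun u : Z × ℝ => trj u.1 u.2 n
  | 0 => measurable_snd
  | n + 1 => by
    have h : Measurable fun p : ℝ × (K n × ℕ) => ph n p.2.1.1 p.2.2 p.1 :=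
      measurable_from_prod_countable_left fun a => (gc_cont_ph n a.1.1 a.2).measurable
    exact h.comp ((gc_meas_trj n).prodMk
      (((measurable_pi_apply n).comp measurable_fst).prodMk (gc_meas_trj n).nat_floor))

theorem measurable_pth (n : ℕ) : Measurable fun u : Z × ℝ => pth u.1 u.2 n :=
  (gc_meas_trj n).nat_floor

end Pool.Agent.Lib.MP_5ffd28_gt.CR
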