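import Pool.Agent.Lib.MP_5ffd28_gt.CR.Alg
import Pool.Agent.Lib.MP_5ffd28_gt.CR.Cut
import Pool.Agent.Lib.MP_5ffd28_gt.CR.GeoCol

/-! Every point of the generic Cantor set lies in a cube. -/

namespace Pool.Agent.Lib.MP_5ffd28_gt.CR

open Set Filter Topology Pool.Agent.Shared.Forcing Pool.Agent.Lib.MP_23bd8d_gt

set_option synthInstance.maxSize 4000

theorem exists_cube (α : I) (s : MF) {p : Set Om} (hp : Cond p)
    (h : Fc p fun g => s.1 g ∈ KK (g.ω α)) :
    ∃ q ⊆ p, Cond q ∧ ∃ c, Fc q fun g => s.1 g ∈ cube c (fib α q g.ω) (g.ω α) := by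
  have hm : ∀ m, Measurable fun g : Ω => min (pth (g.ω α) (s.1 g) m) (ln m) := fun m =>
    (measurable_of_countable fun k : ℕ => min k (ln m)).comp
      ((measurable_pth m).comp ((measurable_coord α).prodMk s.2))
  have hN : Nme ⊤ p fun u m k =>
      Cond u ∧ Fc u fun g => min (pth (g.ω α) (s.1 g) m) (ln m) = k := by
    refine ⟨fun u v m k a b c => ⟨b, a.2.anti a.1 ?_⟩, fun u hu _ m => ?_,
      fun u m k k' hu a b => ?_, fun m => ⟨ln m + 1, fun u k hu a => ?_⟩⟩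
    · rwa [proj_top, proj_top] at c
    · obtain ⟨v, a, b, k, c⟩ := exists_decide (hm m) hu
      exact ⟨v, a, b, k, b, c⟩
    · obtain ⟨g, -, e, e'⟩ := (a.2.and b.2).exists hu
      exact e.symm.trans e'
    · obtain ⟨g, -, e⟩ := a.2.exists hu
      exact Nat.lt_succ_of_le (e ▸ min_le_right _ _)
  obtain ⟨q, hqp, hq, c, hc⟩ := cut α ⊤ le_top hp hN
  refine ⟨q, hqp, hq, c, ?_⟩
  have key : ∀ u : ℕ × Finset ℕ, Fc q fun g => u.2 ∈ sc (fib α q g.ω) (g.ω α) u.1 →
      u.2 ≠ (g.ω α u.1).1 →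
      Priv c (g.ω α u.1).1 u.2 (min (pth (g.ω α) (s.1 g) u.1) (ln u.1)) := by
    rintro ⟨n, y⟩
    refine fc_of_dense fun u hu hs => ?_
    obtain ⟨v, a, b, k, e⟩ := exists_decide (hm n) hu
    obtain ⟨w, hw⟩ := b.ne
    have h1 : ∀ᶠ w' in 𝓝[v] w, sc (fib α q w') (w' α) n = sc (fib α q w) (w α) n :=
      (hq.sc_lc α n (hs (a hw))).filter_mono (nhdsWithin_mono _ (a.trans hs))
    have h2 : ∀ᶠ w' in 𝓝[v] w, w' α n = w α n := by
      refine Eventually.filter_mono nhdsWithin_le_nhds ?_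
      have hcont : Continuous fun w' : Om => w' α n :=
        (continuous_apply n).comp (continuous_apply α)
      exact ((isOpen_discrete {w α n}).preimage hcont).mem_nhds rfl
    obtain ⟨V, hV, cV, -, -⟩ := b.exists_sub hw (h1.and h2)
    have hVv : V ⊆ v := hV.trans inter_subset_left
    refine ⟨V, hVv.trans a, cV, (e.anti b hVv).mono fun g hg hk hy hne => ?_⟩
    have hg' := (hV (g.mem V hg)).2
    rw [hk]
    refine hc V n k _ y cV (hVv.trans (a.trans hs)) ⟨cV, e.anti b hVv⟩ (fun w' hw' => ?_) hne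
    have h3 := (hV hw').2
    refine ⟨by rw [h3.2, hg'.2], ?_⟩
    rw [h3.1, ← hg'.1]
    exact hy
  refine ((h.anti hp hqp).and (Fc.forall key)).mono fun g _ hg => ⟨hg.1, fun n y hy hne => ?_⟩
  have h4 := hg.2 (n, y) hy hne
  rwa [min_eq_left ((g.ω α n).lt (hg.1 n).1).le] at h4

end Pool.Agent.Lib.MP_5ffd28_gt.CR
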