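import Pool.Agent.Lib.MP_5ffd28_gt.CR.Star
import Pool.Agent.Lib.MP_5ffd28_gt.CR.CubeIn

/-! No neighbourhood system exists. -/

namespace Pool.Agent.Lib.MP_5ffd28_gt.CR

open Set Filter Topology Pool.Agent.Shared.Forcing Pool.Agent.Lib.MP_23bd8d_gt Cohen

set_option synthInstance.maxSize 4000

variable {Φ : Ultra BB → Prop} {b : MF → (Ω → ℝ → Prop) → BB}

theorem exists_coord [Dec Φ] (hN : NbSys Φ b) : ∃ α : I, ∀ X, Cond X → ∀ c, ∃ V ⊆ X, Cond V ∧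
    ∀ U, Φ U → ∀ s : MF, (Ae U fun g => g.ω ∈ V ∧ s.1 g ∈ cube c (fib α X g.ω) (g.ω α)) →
      b s (fun g r => r ∈ Col c (g.ω α) ∨ r ∈ cube c (fib α X g.ω) (g.ω α)) ∈ U := by
  have h1 : ∀ (Γ : Set (Om × Z)) (c : Bool), ∃ J : Set I, J.Countable ∧ ∀ q F, Cond q → TreeOn q F →
      Γ = {u | u.1 ∈ q ∧ u.2 ∈ F u.1} → ∃ (q' : Set Om) (F' : Om → Set Z), Cond q' ∧ q' ⊆ q ∧
        Dep J q' ∧ TreeOn q' F' ∧ DepF J q' F' ∧ (∀ ω ∈ q', F' ω ⊆ F ω) ∧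
        ∀ U, Φ U → ∀ (α : I) (s : MF),
          (Ae U fun g => g.ω ∈ q' ∧ g.ω α ∈ F' g.ω ∧ s.1 g ∈ cube c (F g.ω) (g.ω α)) →
          b s (fun g r => r ∈ Col c (g.ω α) ∨ r ∈ cube c (F g.ω) (g.ω α)) ∈ U := by
    intro Γ c
    by_cases h : ∃ q F, Cond q ∧ TreeOn q F ∧ Γ = {u | u.1 ∈ q ∧ u.2 ∈ F u.1}
    swap
    · exact ⟨∅, countable_empty, fun q F a b e => absurd ⟨q, F, a, b, e⟩ h⟩
    obtain ⟨q₀, F₀, a, a', rfl⟩ := h
    obtain ⟨q', F', J, b1, b2, b3, b4, b5, b6, b7, b8⟩ := exists_star hN c a a'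
    refine ⟨J, b1, fun q F _ _ e => ?_⟩
    have e1 : ∀ ω ∈ q', ω ∈ q ∧ F₀ ω = F ω := fun ω hω => by
      obtain ⟨z, hz⟩ := a'.ne ω (b3 hω)
      have := ((Set.ext_iff.1 e (ω, z)).1 ⟨b3 hω, hz⟩).1
      exact ⟨this, Set.ext fun z => ⟨fun h => ((Set.ext_iff.1 e (ω, z)).1 ⟨b3 hω, h⟩).2,
        fun h => ((Set.ext_iff.1 e (ω, z)).2 ⟨this, h⟩).2⟩⟩
    exact ⟨q', F', b2, fun ω h => (e1 ω h).1, b4, b5, b6, fun ω h => (e1 ω h).2 ▸ b7 ω h,
      fun U hU α s h => hN.mono' (b8 U hU α s (h.mono fun g h => ⟨h.1, h.2.1,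
        (e1 _ h.1).2 ▸ h.2.2⟩)) (h.mono fun g h r e => (e1 _ h.1).2 ▸ e)⟩
  choose J j1 j2 using h1
  obtain ⟨α, hα⟩ := closing (fun Γ => J Γ true ∪ J Γ false) fun Γ => (j1 _ _).union (j1 _ _)
  refine ⟨α, fun X hX c => ?_⟩
  obtain ⟨J₀, k1, k2⟩ := hX.supp
  have h2 := hα _ (J₀ ∩ Iio α) (isClosed_fibGraph hX.cl α) (k1.mono inter_subset_left)
    inter_subset_right fun ω ω' z e h => show z ∈ fib α X ω' from fib_dep k2 α e ▸ h
  have h3 : J {u | u.2 ∈ fib α X u.1} c ⊆ Iio α := by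
    cases c
    exacts [subset_union_right.trans h2, subset_union_left.trans h2]
  obtain ⟨q', F', b2, -, b4, b5, b6, b7, b8⟩ := j2 {u | u.2 ∈ fib α X u.1} c _ _ (hX.proj α)
    (hX.treeOn α) (Set.ext fun u => ⟨fun h => ⟨let ⟨ω, a, e, _⟩ := h; ⟨ω, a, e⟩, h⟩, And.right⟩)
  refine ⟨_, inter_subset_left, hX.inter_proj (δ := sx α) (cond_graph b2 (j1 _ _) h3 b4 b5 b6) ?_,
    fun U hU s h => b8 U hU α s (h.mono fun g h => ?_)⟩
  · rintro ω ⟨ω₀, ⟨a1, a2⟩, a3⟩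
    obtain ⟨ω', c1, c2, c3⟩ := b7 _ a1 a2
    refine ⟨ω', c1, a3.trans fun β hβ => ?_⟩
    rcases (lt_sx.1 hβ).eq_or_lt with rfl | e
    exacts [c3.symm, c2 β (WithTop.coe_lt_coe.2 e)]
  · obtain ⟨ω₀, ⟨a1, a2⟩, a3⟩ := h.1.2
    have e : ∀ β ∈ J {u | u.2 ∈ fib α X u.1} c, ω₀ β = g.ω β := fun β hβ =>
      (a3 β (lt_sx.2 (le_of_lt (h3 hβ)))).symm
    exact ⟨b4 _ _ e a1, by rw [← b6 _ a1 _ (b4 _ _ e a1) e, a3 α (coe_lt_sx α)]; exact a2, h.2⟩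

/-- the two halves of the line -/
def Half (α : I) (c : Bool) (g : Ω) (r : ℝ) : Prop :=
  r ∈ Col c (g.ω α) ∨ ∃ X ∈ g.G, r ∈ cube c (fib α X g.ω) (g.ω α)

theorem half_disj {α : I} {g : Ω} {r : ℝ} (h : Half α true g r) (h' : Half α false g r) : False := by
  rcases h with h | ⟨X, a, h⟩ <;> rcases h' with h' | ⟨X', a', h'⟩
  · exact Col_disj h h'
  · exact Col_KK h h'.1
  · exact Col_KK h' h.1
  · obtain ⟨W, w1, w2⟩ := g.dir X a X' a'
    exact cube_disj ((g.cond W w1).goodFib α g.ω) ⟨_, g.mem W w1, Ag.refl _ _, rfl⟩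
      (cube_anti (fib_mono _ (w2.trans inter_subset_left) _) _ h)
      (cube_anti (fib_mono _ (w2.trans inter_subset_right) _) _ h')

theorem exists_half (α : I) (x : MF) {p : Set Om} (hp : Cond p) : ∃ q ⊆ p, Cond q ∧ ∃ c,
    (Fc q fun g => x.1 g ∈ Col c (g.ω α)) ∨
      Fc q fun g => x.1 g ∈ cube c (fib α q g.ω) (g.ω α) := by
  have hm : ∀ c, Measurable fun g : Ω => x.1 g ∈ Col c (g.ω α) := fun c =>
    (isOpen_Col c).measurableSet.mem.comp ((measurable_coord α).prodMk x.2)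
  obtain ⟨q, a1, a2, a3 | a3⟩ := meas_iff.1 (hm true) p hp
  · exact ⟨q, a1, a2, true, Or.inl a3⟩
  obtain ⟨q', b1, b2, b3 | b3⟩ := meas_iff.1 (hm false) q a2
  · exact ⟨q', b1.trans a1, b2, false, Or.inl b3⟩
  obtain ⟨r, c1, c2, c, c3⟩ := exists_cube α x b2 (((a3.anti a2 b1).and b3).mono fun g _ h =>
    ((Col_cover _ _).resolve_left h.1).resolve_left h.2)
  exact ⟨r, c1.trans (b1.trans a1), c2, c, Or.inr c3⟩

theorem half_of {α : I} {x : MF} {q : Set Om} {c : Bool}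
    (h : (Fc q fun g => x.1 g ∈ Col c (g.ω α)) ∨
      Fc q fun g => x.1 g ∈ cube c (fib α q g.ω) (g.ω α)) : Fc q fun g => Half α c g (x.1 g) :=
  h.elim (fun h => h.mono fun _ _ => Or.inl) fun h => h.mono fun _ a e => Or.inr ⟨q, a, e⟩

theorem core {Φ : Ultra BB → Prop} [Dec Φ] {b : MF → (Ω → ℝ → Prop) → BB} (hN : NbSys Φ b)
    (U : Ultra BB) : ¬ Φ U := by
  intro hU
  obtain ⟨α, hα⟩ := exists_coord hN
  have key : ∀ c (x : MF), (Ae U fun g => Half α c g (x.1 g)) → b x (Half α c) ∈ U := by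
    intro c x h
    refine of_cond (Ψ := fun U => Φ U ∧ Ae U fun g => Half α c g (x.1 g))
      (Φ := fun U => b x (Half α c) ∈ U) (fun p hp => ?_) ⟨hU, h⟩
    obtain ⟨q, a1, a2, c', a3⟩ := exists_half α x p.c
    have hq : ∀ (r : CU) U, r.s ⊆ q → RO.io r ∈ U → Φ U := fun r U e h =>
      (hp U (Ultra.mono h (RO.io_mono (e.trans a1)))).1
    obtain rfl : c = c' := by
      obtain ⟨g, -, e1, e2⟩ := (((fc_of_ae fun U h => (hp U h).2).anti p.c a1).and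
        (half_of a3)).exists a2
      cases c <;> cases c'
      exacts [rfl, (half_disj e2 e1).elim, (half_disj e1 e2).elim, rfl]
    rcases a3 with a3 | a3
    · refine ⟨⟨q, a2⟩, a1, fun U h => hN.mono' (hN.eucl (C := fun g r => r ∈ Col c (g.ω α))
        (hq _ U le_rfl h) (fun u v => ⟨fun g => ∀ r ∈ Icc (u : ℝ) v, r ∈ Col c (g.ω α), ?_,
          fun g h r e => h r e.1 e.2, fun g h r e e' => h r ⟨e.le, e'.le⟩⟩)
        ((Fc.ae (p := ⟨q, a2⟩) a3 h).mono fun g e => ((isOpen_Col c).preimage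
          (Continuous.prodMk_right (g.ω α))).mem_nhds e)) (Ae.of_all fun _ _ => Or.inl)⟩
      have : IsOpen {z : Z | ∀ r ∈ Icc (u : ℝ) v, r ∈ Col c z} := isOpen_iff_mem_nhds.2 fun z hz =>
        isCompact_Icc.eventually_forall_of_forall_eventually fun r hr =>
          (isOpen_Col c).mem_nhds (hz r hr)
      exact this.measurableSet.mem.comp (measurable_coord α)
    · obtain ⟨V, v1, v2, v3⟩ := hα q a2 c
      refine ⟨⟨V, v2⟩, v1.trans a1, fun U h => hN.mono' (v3 U (hq _ U v1 h) x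
        ((ae_mem.1 h).and (Fc.ae (p := ⟨V, v2⟩) (a3.anti a2 v1) h))) (Fc.ae (p := ⟨V, v2⟩)
          (Eventually.of_forall fun g e r => Or.imp_right fun h => ⟨q, g.up V e q a2 v1, h⟩) h)⟩
  refine hN.conn U hU (Half α true) (Half α false) (fun x => ?_)
    (fun x h h' => (h.and h').elim fun g h => half_disj h.1 h.2) (key true) (key false)
    (Ae.of_all fun g => Or.inl (zero_mem_Col _)) (Ae.of_all fun g => Or.inl (PP_mem_Col _))
  refine of_cond (Ψ := fun _ => True) (Φ := fun U => (Ae U fun g => Half α true g (x.1 g)) ∨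
    Ae U fun g => Half α false g (x.1 g)) (fun p _ => ?_) trivial
  obtain ⟨q, a1, a2, c, a3⟩ := exists_half α x p.c
  refine ⟨⟨q, a2⟩, a1, fun U h => ?_⟩
  have := Fc.ae (p := ⟨q, a2⟩) (half_of a3) h
  cases c
  exacts [Or.inr this, Or.inl this]

end Pool.Agent.Lib.MP_5ffd28_gt.CR
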