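import Pool.Agent.Lib.MP_5ffd28_gt.CR.NbDefs

/-! The neighbourhood system of a name for a topology. -/

namespace Pool.Agent.Lib.MP_5ffd28_gt.CR

open Set Filter Topology Pool.Agent.Shared.Forcing Pool.Agent.Lib.MP_23bd8d_gt Cohen

set_option synthInstance.maxSize 4000

/-- `V` is a neighbourhood of `x` for the topology `T` -/
def NbI (U : Ultra BB) (T x V : MU U) : Prop := ∃ W, EU U W T ∧ EU U x W ∧ Sub (EU U) W V

instance (T x V : HN) : Dec fun U => NbI U (cls U T) (cls U x) (cls U V) := by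
  unfold NbI; infer_instance

/-- the preimage of `Z` is open, and `t ∈ Z` is a limit of members of `D` outside `Z` -/
def KZ (U : Ultra BB) (f T D Z t : MU U) : Prop :=
  EU U t (RR U) ∧ (∀ W, (∀ x, EU U x W ↔ ∃ y, EU U y Z ∧ Maps (EU U) f x y) → EU U W T) ∧
    EU U t Z ∧ ∀ a c, Maps (EU U) (LL U) a t → Maps (EU U) (LL U) t c →
      ∃ s, EU U s D ∧ ¬ EU U s Z ∧ Maps (EU U) (LL U) a s ∧ Maps (EU U) (LL U) s c

instance (f T D Z t : HN) :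
    Dec fun U => KZ U (cls U f) (cls U T) (cls U D) (cls U Z) (cls U t) := by
  unfold KZ; infer_instance

/-- the set of labels -/
noncomputable def lbN (Lb : Set ℚ) : SN := nm (fun l : Lb => hat (cst (l.1 : ℚ))) fun _ => ⊤

theorem sub_setHat {U : Ultra BB} {W : MU U} {C : Ω → ℝ → Prop} (h : Sub (EU U) W (RR U))
    (h' : ∀ x : MF, EU U (pt U x) W → Ae U fun g => C g (x.1 g)) :
    Sub (EU U) W (sm U (setHat C)) := by
  intro z hz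
  obtain ⟨x, rfl⟩ := real_cases (h z hz)
  exact el_setHat.2 (h' x hz)

theorem lt_cases {U : Ultra BB} {y z : MU U} (h : Maps (EU U) (LL U) y z) :
    (∃ a, y = pt U a) ∧ ∃ b, z = pt U b :=
  let ⟨a, b, h1, h2, _⟩ := relHat_cases h; ⟨⟨a, h1⟩, b, h2⟩

theorem exists_KZ {U : Ultra BB} {f T : MU U} {Lb : Set ℚ}
    (hL : ∀ p q : ℝ, 0 ≤ p → p < q → q ≤ 1 → ∃ l ∈ Lb, p < l ∧ l < q)
    (hf : ∀ x y, Maps (EU U) f x y → Unit01 U y) (h : Kl U f T) :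
    ∃ Z t, KZ U f T (sm U (lbN Lb)) Z t := by
  obtain ⟨Z₁, Z₂, t, h1, h2, h3, h4, h5, h6, h7⟩ := h
  by_cases hc : ∀ a c, Maps (EU U) (LL U) a t → Maps (EU U) (LL U) t c →
      ∃ s, EU U s (sm U (lbN Lb)) ∧ ¬ EU U s Z₁ ∧ Maps (EU U) (LL U) a s ∧ Maps (EU U) (LL U) s c
  · obtain ⟨x, hx⟩ := h1 t h6
    exact ⟨Z₁, t, (hf x t hx).1, h4, h6, hc⟩
  obtain ⟨a, hc⟩ := not_forall.1 hc
  obtain ⟨c, hc⟩ := not_forall.1 hc
  obtain ⟨ha, hc⟩ := Classical.not_imp.1 hc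
  obtain ⟨hc, hn⟩ := Classical.not_imp.1 hc
  obtain ⟨s, s1, s2, s3⟩ := h7 a c ha hc
  obtain ⟨x, hx⟩ := h2 s s1
  obtain ⟨u1, u2, u3⟩ := hf x s hx
  refine ⟨Z₂, s, u1, h5, s1, fun a' c' b1 b2 => ?_⟩
  obtain ⟨⟨a, rfl⟩, s, rfl⟩ := lt_cases s2
  obtain ⟨-, c, rfl⟩ := lt_cases s3
  obtain ⟨⟨a', rfl⟩, -⟩ := lt_cases b1
  obtain ⟨-, c', rfl⟩ := lt_cases b2
  obtain ⟨Z₁, rfl⟩ := cls_surj Z₁
  obtain ⟨Z₂, rfl⟩ := cls_surj Z₂
  have h8 := (((lt_pt.1 s2).and (lt_pt.1 s3)).and ((lt_pt.1 b1).and (lt_pt.1 b2))).and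
    ((not_lt_pt.1 u2).and (not_lt_pt.1 u3))
  have h9 := And.intro h3 hn
  revert h9
  refine wlog_ex (P := fun (l : Lb) g => (a.1 g < (l.1 : ℚ) ∧ (l.1 : ℚ) < c.1 g) ∧
    a'.1 g < (l.1 : ℚ) ∧ (l.1 : ℚ) < c'.1 g) (fun l => ((a.2.lt measurable_const).and
      (measurable_const.lt c.2)).and ((a'.2.lt measurable_const).and (measurable_const.lt c'.2))) U
    (h8.mono fun g h => ?_) ?_
  · obtain ⟨⟨⟨k1, k2⟩, k3, k4⟩, k5, k6⟩ := h
    have k5 : (0 : ℝ) ≤ s.1 g := k5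
    have k6 : s.1 g ≤ (1 : ℝ) := k6
    obtain ⟨l, l1, l2, l3⟩ := hL (max 0 (max (a.1 g) (a'.1 g))) (min 1 (min (c.1 g) (c'.1 g)))
      (le_max_left _ _) (max_lt (lt_min one_pos (lt_min (k5.trans_lt k2) (k5.trans_lt k4)))
        (lt_min ((max_lt k1 k3).trans_le k6) ((max_lt k1 k3).trans (lt_min k2 k4))))
      (min_le_left _ _)
    have l4 := max_lt_iff.1 (max_lt_iff.1 l2).2
    have l5 := lt_min_iff.1 (lt_min_iff.1 l3).2
    exact ⟨⟨l, l1⟩, ⟨l4.1, l5.1⟩, l4.2, l5.2⟩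
  · rintro U l hl ⟨h3, hn⟩
    have m : EU U (pt U (cst (l.1 : ℚ))) (sm U (lbN Lb)) :=
      mem_nm (fun l : Lb => hat (cst (l.1 : ℚ))) l U.top_mem
    exact ⟨_, m, fun k => hn ⟨_, m, fun k' => h3 _ k' k, lt_pt.2 (hl.mono fun _ h => h.1.1),
      lt_pt.2 (hl.mono fun _ h => h.1.2)⟩, lt_pt.2 (hl.mono fun _ h => h.2.1),
      lt_pt.2 (hl.mono fun _ h => h.2.2)⟩

theorem KZ.near {U : Ultra BB} {f T Z : HN} {Lb : Set ℚ} {t : MF} {N : ℚ → Ω → Prop}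
    (hN : ∀ l U, Ae U (N l) ↔ ¬ EU U (pt U (cst l)) (cls U Z))
    (h : KZ U (cls U f) (cls U T) (sm U (lbN Lb)) (cls U Z) (pt U t)) :
    Ae U fun g => ∀ n : ℕ, ∃ l ∈ Lb, N l g ∧ |(l : ℝ) - t.1 g| < 1 / 2 ^ n := by
  refine Ae.forall (Φ := fun U => KZ U (cls U f) (cls U T) (sm U (lbN Lb)) (cls U Z) (pt U t))
    (fun n U h => ?_) h
  have hp : (0 : ℝ) < 1 / 2 ^ n := by positivity
  obtain ⟨s, s1, s2⟩ := h.2.2.2 (pt U ⟨_, t.2.sub_const (1 / 2 ^ n)⟩)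
    (pt U ⟨_, t.2.add_const (1 / 2 ^ n)⟩) (lt_pt.2 (Ae.of_all fun _ => sub_lt_self _ hp))
    (lt_pt.2 (Ae.of_all fun _ => lt_add_of_pos_right _ hp))
  obtain ⟨S, rfl⟩ := cls_surj s
  revert s2
  refine wlog_nm S (fun l : Lb => hat (cst (l.1 : ℚ))) (fun _ => ⊤) U s1 ?_
  rintro U l - e ⟨k1, k2, k3⟩
  rw [e] at k1 k2 k3
  refine (((hN l.1 U).2 k1).and ((lt_pt.1 k2).and (lt_pt.1 k3))).mono fun g k =>
    ⟨l.1, l.2, k.1, abs_sub_lt_iff.2 ⟨?_, ?_⟩⟩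
  · exact sub_lt_iff_lt_add'.2 k.2.2
  · exact sub_lt_comm.1 k.2.1

theorem KZ.nb {U : Ultra BB} {T Z : HN} {D : MU U} {φ : Ω → ℝ → ℝ} (hφ : JM φ) {t x : MF}
    {N : ℚ → Ω → Prop} (hm : ∀ l, Measurable (N l))
    (hN : ∀ l U, Ae U (N l) ↔ ¬ EU U (pt U (cst l)) (cls U Z))
    (h : KZ U (sm U (fnHat φ)) (cls U T) D (cls U Z) (pt U t))
    (hx : Ae U fun g => φ g (x.1 g) = t.1 g) :
    NbI U (cls U T) (pt U x) (sm U (setHat fun g r => ∀ l, N l g → φ g r ≠ l)) := by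
  obtain ⟨W, hW⟩ := md_sep (fun U x => ∃ y, EU U y (cls U Z) ∧ Maps (EU U) (sm U (fnHat φ)) x y)
    U (RR U)
  refine ⟨W, h.2.1 W fun z => (hW z).trans ⟨fun k => k.2, fun ⟨y, a, b⟩ =>
    ⟨((isFn_fnHat hφ).mem b).1, y, a, b⟩⟩, (hW _).2 ⟨pt_mem x, _, h.2.2.1,
      (maps_fnHat hφ).2 (pt_eq.2 (hx.mono fun _ => Eq.symm))⟩,
    sub_setHat (fun z hz => ((hW z).1 hz).1) fun y hy => ?_⟩
  obtain ⟨-, z, z1, z2⟩ := (hW _).1 hy
  rw [(maps_fnHat hφ).1 z2] at z1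
  refine Ae.forall (Φ := fun U => EU U (pt U (app φ hφ y)) (cls U Z)) (fun l U k => ?_) z1
  by_cases e : Ae U fun g => (app φ hφ y).1 g = (cst l).1 g
  · rw [pt_eq.2 e] at k
    exact (Ae.of_not (hm l) fun k' => (hN l U).1 k' k).mono fun g a b => absurd b a
  · exact (Ae.of_not ((app φ hφ y).2.eq (cst l).2) e).mono fun g a _ => a

theorem exists_nbSys (τ : HN) : ∃ b, NbSys (fun U => TauI U (cls U τ)) b := by
  refine ⟨fun s C => bv fun U => NbI U (cls U τ) (pt U s) (sm U (setHat C)), ?_, ?_, ?_, ?_, ?_⟩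
  · intro U s C C' h H
    obtain ⟨W, a, b, c⟩ := bv_mem.1 h
    exact bv_mem.2 ⟨W, a, b, sub_setHat (fun z hz => setHat_sub C z (c z hz)) fun x hx =>
      H x (el_setHat.1 (c _ hx))⟩
  · intro U hU s C C' h h'
    obtain ⟨W, a, b, c⟩ := bv_mem.1 h
    obtain ⟨W', a', b', c'⟩ := bv_mem.1 h'
    obtain ⟨W', rfl⟩ := cls_surj W'
    obtain ⟨Z, hZ⟩ := md_sep (fun U z => EU U z (cls U W')) U W
    exact bv_mem.2 ⟨Z, hU.1.2.2.1 _ _ Z a a' hZ, (hZ _).2 ⟨b, b'⟩,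
      sub_setHat (fun z hz => setHat_sub C z (c z ((hZ z).1 hz).1)) fun x hx =>
        (el_setHat.1 (c _ ((hZ _).1 hx).1)).and (el_setHat.1 (c' _ ((hZ _).1 hx).2))⟩
  · intro U hU s p q h
    obtain ⟨W, a, b⟩ := (subTop_TR (U := U)).iv' (cst p) (cst q)
    exact bv_mem.2 ⟨W, hU.2.1 W a, (b _).2 ⟨pt_mem s, lt_pt.2 (h.mono fun _ h => h.1),
      lt_pt.2 (h.mono fun _ h => h.2)⟩, sub_setHat (fun z hz => ((b z).1 hz).1) fun x hx =>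
        (lt_pt.1 ((b _).1 hx).2.1).and (lt_pt.1 ((b _).1 hx).2.2)⟩
  · intro U hU C C' h1 h2 h3 h4 h5 h6
    have key : ∀ C : Ω → ℝ → Prop, (∀ x : MF, (Ae U fun g => C g (x.1 g)) →
        (bv fun U => NbI U (cls U τ) (pt U x) (sm U (setHat C))) ∈ U) →
        EU U (sm U (setHat C)) (cls U τ) := fun C h => open_of_nhds hU.1 fun z hz => by
      obtain ⟨x, rfl⟩ := real_cases (setHat_sub C z hz)
      exact bv_mem.1 (h x (el_setHat.1 hz))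
    refine hU.2.2.1 _ _ (key C h3) (key C' h4) (fun z hz => ?_) (fun z a b => ?_)
      (el_setHat.2 h5) (el_setHat.2 h6)
    · obtain ⟨x, rfl⟩ := real_cases hz
      exact (h1 x).imp el_setHat.2 el_setHat.2
    · obtain ⟨x, rfl⟩ := real_cases (setHat_sub C z a)
      exact h2 x (el_setHat.1 a) (el_setHat.1 b)
  · intro φ hφ h1 h2 h3 h4 Lb hL
    have h5 : ∀ U x y, Maps (EU U) (sm U (fnHat φ)) x y → Unit01 U y := fun U x y h => by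
      obtain ⟨x, rfl⟩ := real_cases ((isFn_fnHat hφ).mem h).1
      rw [(maps_fnHat hφ).1 h]
      exact ⟨pt_mem _, not_lt_pt.2 (Ae.of_all fun g => (h1 g _).1),
        not_lt_pt.2 (Ae.of_all fun g => (h1 g _).2)⟩
    have h6 : ∀ U, TauI U (cls U τ) →
        ∃ Z t, KZ U (sm U (fnHat φ)) (cls U τ) (sm U (lbN Lb)) Z t := fun U hU => by
      refine exists_KZ hL (h5 U) (hU.2.2.2 _ (cts_real (Φ := fun U => TauI U (cls U τ))
        (f := HName.emb (fnHat φ)) (X := HName.emb Rn) (fun U hU x y p q a b => ?_) hU hU.1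
        (isFn_fnHat hφ)) (h5 U) ((maps_fnHat hφ).2 (pt_eq.2 (Ae.of_all fun g => (h2 g).symm)))
        ((maps_fnHat hφ).2 (pt_eq.2 (Ae.of_all fun g => (h3 g).symm))))
      obtain ⟨x, rfl⟩ := real_cases ((isFn_fnHat hφ).mem a).1
      obtain ⟨W, c1, c2, c3⟩ := bv_mem.1 (h4 U hU x p q ((b.and (pt_eq.1
        ((maps_fnHat hφ).1 a))).mono fun g k => (show y.1 g = φ g (x.1 g) from k.2) ▸ k.1))
      refine ⟨W, c1, c2, fun x' y' d1 d2 => ?_⟩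
      obtain ⟨x', rfl⟩ := real_cases (setHat_sub _ _ (c3 _ d1))
      exact ((el_setHat.1 (c3 _ d1)).and (pt_eq.1 ((maps_fnHat hφ).1 d2))).mono fun g k =>
        (show φ g (x'.1 g) = y'.1 g from k.2.symm) ▸ k.1
    obtain ⟨Z, hZ⟩ := exists_witness fun U Z =>
      ∃ t, KZ U (sm U (fnHat φ)) (cls U τ) (sm U (lbN Lb)) Z t
    obtain ⟨T, hT⟩ := exists_witness fun U t =>
      KZ U (sm U (fnHat φ)) (cls U τ) (sm U (lbN Lb)) (cls U Z) t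
    obtain ⟨t, ht⟩ := exists_hat T
    choose N n1 n2 using fun l : ℚ => exists_dec fun U => ¬ EU U (pt U (cst l)) (cls U Z)
    refine ⟨t, N, n1, fun U hU => ?_⟩
    have h7 := hT U (hZ U (h6 U hU))
    rw [ht U h7.1] at h7
    exact ⟨h7.near n2, fun x hx => bv_mem.2 (h7.nb hφ n1 n2 hx)⟩

end Pool.Agent.Lib.MP_5ffd28_gt.CR
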