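import Pool.Agent.Lib.MP_5ffd28_gt.CR.Kill

/-! Spaces whose points are separated by clopen sets. -/

namespace Pool.Agent.Lib.MP_5ffd28_gt.CR

open Set Filter Topology Pool.Agent.Shared.Forcing Pool.Agent.Lib.MP_23bd8d_gt Cohen

set_option synthInstance.maxSize 4000

namespace SepCase

variable {U : Ultra BB}

theorem rl_one {ι : Type} {x y : ι → SN} {b : ι → BB} (Ψ : ∀ U : Ultra BB, MU U → MU U → Prop)
    [∀ A B : HN, Dec fun U => Ψ U (cls U A) (cls U B)]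
    (H : ∀ U i, b i ∈ U → Ψ U (sm U (x i)) (sm U (y i))) {a a' : MU U}
    (h : Maps (EU U) (sm U (rl x y b)) a a') : Ψ U a a' := by
  obtain ⟨a, rfl⟩ := cls_surj a
  obtain ⟨a', rfl⟩ := cls_surj a'
  refine wlog_rl _ _ _ _ _ U h ?_
  intro U i hi e1 e2
  rw [e1, e2]
  exact H U i hi

theorem rl_two {ι : Type} {x y : ι → SN} {b : ι → BB}
    (Ψ : ∀ U : Ultra BB, MU U → MU U → MU U → MU U → Prop)
    [∀ A B C D : HN, Dec fun U => Ψ U (cls U A) (cls U B) (cls U C) (cls U D)]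
    (H : ∀ U i j, b i ∈ U → b j ∈ U → Ψ U (sm U (x i)) (sm U (y i)) (sm U (x j)) (sm U (y j)))
    {a a' c c' : MU U} (h : Maps (EU U) (sm U (rl x y b)) a a')
    (h' : Maps (EU U) (sm U (rl x y b)) c c') : Ψ U a a' c c' := by
  obtain ⟨c, rfl⟩ := cls_surj c
  obtain ⟨c', rfl⟩ := cls_surj c'
  refine rl_one (fun U a a' => Maps (EU U) (sm U (rl x y b)) (cls U c) (cls U c') →
    Ψ U a a' (cls U c) (cls U c')) (fun U i hi h' => ?_) h h'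
  exact rl_one (fun U c c' => b i ∈ U → Ψ U (sm U (x i)) (sm U (y i)) c c')
    (fun U j hj hi => H U i j hi hj) h' hi

theorem dc (P : ∀ U : Ultra BB, MU U → Prop) (R : ∀ U : Ultra BB, MU U → MU U → Prop)
    [∀ A : HN, Dec fun U => P U (cls U A)] [∀ A B : HN, Dec fun U => R U (cls U A) (cls U B)]
    (x : HN) : ∃ c : ℕ → SN, ∀ U, cls U x = sm U (c 0) ∧ (P U (cls U x) →
      (∀ z, P U z → ∃ y, P U y ∧ R U z y) →
      ∀ n, P U (sm U (c n)) ∧ R U (sm U (c n)) (sm U (c (n + 1)))) := by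
  obtain ⟨x₀, h0⟩ := exists_small BB_lt x
  choose s hs using fun z : SN => exists_switness BB_lt fun U y => P U y ∧ R U (sm U z) y
  refine ⟨fun n => Nat.rec x₀ (fun _ z => s z) n, fun U => ⟨h0 U, fun h1 h2 => ?_⟩⟩
  have key : ∀ n : ℕ, P U (sm U (Nat.rec x₀ (fun _ z => s z) n)) := by
    intro n
    induction n with
    | zero => exact h0 U ▸ h1
    | succ n ih => exact (hs _ U (h2 _ ih)).1
  exact fun n => ⟨key n, (hs _ U (h2 _ (key n))).2⟩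

theorem lt_mem {a b : MU U} (h : Maps (EU U) (LL U) a b) : EU U a (RR U) ∧ EU U b (RR U) := by
  obtain ⟨a, b, rfl, rfl, -⟩ := relHat_cases h
  exact ⟨pt_mem _, pt_mem _⟩

theorem lt_tr {a b c : MU U} (h : Maps (EU U) (LL U) a b) (h' : Maps (EU U) (LL U) b c) :
    Maps (EU U) (LL U) a c :=
  isReal_RR.2.1 a b c (lt_mem h).1 (lt_mem h).2 (lt_mem h').2 h h'

theorem lt_irr {a : MU U} (h : Maps (EU U) (LL U) a a) : False :=
  isReal_RR.1 a (lt_mem h).1 h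

theorem lt_cst {a b : ℝ} : Maps (EU U) (LL U) (pt U (cst a)) (pt U (cst b)) ↔ a < b :=
  lt_pt.trans ⟨fun h => let ⟨_, h⟩ := h.exists; h, fun h => Ae.of_all fun _ => h⟩

/-- a set of reals whose positive part has no least member is infinite -/
theorem inj_of_down {S : MU U} (h0 : ∃ s, EU U s S ∧ Maps (EU U) (LL U) (pt U (cst 0)) s)
    (h1 : ∀ s, EU U s S ∧ Maps (EU U) (LL U) (pt U (cst 0)) s →
      ∃ s', (EU U s' S ∧ Maps (EU U) (LL U) (pt U (cst 0)) s') ∧ Maps (EU U) (LL U) s' s) :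
    Inj (EU U) (om U) S := by
  obtain ⟨S, rfl⟩ := cls_surj S
  obtain ⟨s, h0⟩ := h0
  obtain ⟨s, rfl⟩ := cls_surj s
  obtain ⟨c, hc⟩ := dc (fun U s => EU U s (cls U S) ∧ Maps (EU U) (LL U) (pt U (cst 0)) s)
    (fun U s s' => Maps (EU U) (LL U) s' s) s
  obtain ⟨β, hβ⟩ := Dec.ex (Φ := fun U => (EU U (cls U s) (cls U S) ∧
    Maps (EU U) (LL U) (pt U (cst 0)) (cls U s)) ∧
    ∀ s, EU U s (cls U S) ∧ Maps (EU U) (LL U) (pt U (cst 0)) s →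
      ∃ s', (EU U s' (cls U S) ∧ Maps (EU U) (LL U) (pt U (cst 0)) s') ∧ Maps (EU U) (LL U) s' s)
  have hb : β ∈ U := (hβ U).1 ⟨h0, h1⟩
  have h2 := fun U (h : β ∈ U) => (hc U).2 ((hβ U).2 h).1 ((hβ U).2 h).2
  have h3 : ∀ U, β ∈ U → ∀ n m, n < m → Maps (EU U) (LL U) (sm U (c m)) (sm U (c n)) := by
    intro U h n m hm
    induction m, hm using Nat.le_induction with
    | base => exact (h2 U h n).2
    | succ m _ ih => exact lt_tr (h2 U h m).2 ih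
  refine ⟨sm U (rl qn (fun q => c (Encodable.encode q)) fun _ => β), fun x hx => ?_,
    fun x y y' h h' => rl_two (fun U a a' c c' => a = c → a' = c') ?_ h h' rfl,
    fun x x' y h h' => rl_two (fun U a a' c c' => a' = c' → a = c) ?_ h h' rfl⟩
  · obtain ⟨x, rfl⟩ := cls_surj x
    clear h0 h1
    revert hb
    refine wlog_ck x _ U hx ?_
    intro U a ha e hb
    have : ck U a = sm U (qn (eQ ⟨a, ha⟩)) := by rw [qn, Equiv.symm_apply_apply]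
    rw [e, this]
    exact ⟨_, (h2 U hb _).1.1, maps_rl qn (fun q => c (Encodable.encode q)) _ hb⟩
  · intro U p q _ _ e
    rw [qn_inj e]
  · intro U p q h _ e
    rcases lt_trichotomy (Encodable.encode p) (Encodable.encode q) with h' | h' | h'
    · exact (lt_irr (e ▸ h3 U h _ _ h')).elim
    · rw [Encodable.encode_injective h']
    · exact (lt_irr (e ▸ h3 U h _ _ h')).elim

theorem goal_or_kl {X T f : MU U} (hT : IsTop (EU U) X T) (hf : Cts (EU U) f X T (RR U) (TR U))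
    (h01 : ∀ x y, Maps (EU U) f x y → Unit01 U y)
    (h0 : ∃ x y, Maps (EU U) f x y ∧ Maps (EU U) (LL U) (pt U (cst 0)) y)
    (hd : ∀ x y, Maps (EU U) f x y → Maps (EU U) (LL U) (pt U (cst 0)) y → ∃ x' y',
      Maps (EU U) f x' y' ∧ Maps (EU U) (LL U) (pt U (cst 0)) y' ∧ Maps (EU U) (LL U) y' y) :
    Goal U X T ∨ Kl U f T := by
  obtain ⟨f, rfl⟩ := cls_surj f
  obtain ⟨S, hS⟩ := md_sep (fun U y => ∃ x, Maps (EU U) (cls U f) x y) U (RR U)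
  have hS' : ∀ y, EU U y S ↔ ∃ x, Maps (EU U) (cls U f) x y := fun y =>
    (hS y).trans ⟨fun h => h.2, fun ⟨x, h⟩ => ⟨(hf.1.mem h).2, x, h⟩⟩
  obtain ⟨x, y, a, b⟩ := h0
  refine (quo_or_kl hT ⟨x, (hf.1.mem a).1⟩ hf hS').imp_left fun h => ⟨S, fun y hy => ?_,
    inj_of_down ⟨y, (hS' y).2 ⟨x, a⟩, b⟩ fun s hs => ?_, h⟩
  · obtain ⟨x, hx⟩ := (hS' y).1 hy
    exact h01 x y hx
  · obtain ⟨x, hx⟩ := (hS' s).1 hs.1
    obtain ⟨x', y', a1, a2, a3⟩ := hd x s hx hs.2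
    exact ⟨y', ⟨(hS' y').2 ⟨x', a1⟩, a2⟩, a3⟩

theorem om_dir {n n' : MU U} (h : EU U n (om U)) (h' : EU U n' (om U)) :
    ∃ k, EU U k (om U) ∧ EU U n k ∧ EU U n' k := by
  obtain ⟨n, rfl⟩ := cls_surj n
  obtain ⟨n', rfl⟩ := cls_surj n'
  revert h'
  refine wlog_ck n _ U h ?_
  intro U a ha e h'
  revert e
  refine wlog_ck n' _ U h' ?_
  intro U b hb e' e
  obtain ⟨k, h1, h2⟩ := exists_gt_cd_lt Cardinal.isRegular_aleph0 aleph0_lt_l.le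
    ((lt_oc aleph0_lt_l).1 (max_lt ha hb))
  rw [e, e']
  exact ⟨ck U k, el_ck_of_lt ((lt_oc aleph0_lt_l).2 h1), el_ck_of_lt (max_lt_iff.1 h2).1,
    el_ck_of_lt (max_lt_iff.1 h2).2⟩

theorem exists_inter (A B : MU U) : ∃ Z, ∀ z, EU U z Z ↔ EU U z A ∧ EU U z B := by
  obtain ⟨B, rfl⟩ := cls_surj B
  exact md_sep (fun U z => EU U z (cls U B)) U A

theorem exists_diff (a b : SN) :
    ∃ d : SN, ∀ U z, EU U z (sm U d) ↔ EU U z (sm U a) ∧ ¬ EU U z (sm U b) :=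
  ⟨_, mem_sepName a fun U z => ¬ EU U z (sm U b)⟩

/-- `C` contains infinitely many values of `e` -/
def Big (U : Ultra BB) (e C : MU U) : Prop :=
  ∀ n, EU U n (om U) → ∃ m x, EU U m (om U) ∧ EU U n m ∧ Maps (EU U) e m x ∧ EU U x C

/-- `C` is clopen and big -/
def Nice (U : Ultra BB) (X T e C : MU U) : Prop :=
  EU U C T ∧ (∀ x, EU U x X → ¬ EU U x C → ∃ V, EU U V T ∧ EU U x V ∧ ∀ z, EU U z V → ¬ EU U z C) ∧
    Big U e C

instance (X T e C : HN) : Dec fun U => Nice U (cls U X) (cls U T) (cls U e) (cls U C) := by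
  unfold Nice Big; infer_instance

theorem Nice.half {X T e C A B Z : MU U} (hT : IsTop (EU U) X T) (hC : Nice U X T e C)
    (hA : EU U A T) (hB : EU U B T) (h1 : ∀ z, EU U z X → EU U z A ∨ EU U z B)
    (h2 : ∀ z, EU U z A → EU U z B → False) (hZ : ∀ z, EU U z Z ↔ EU U z C ∧ EU U z A)
    (hb : Big U e Z) : Nice U X T e Z := by
  refine ⟨hT.2.2.1 C A Z hC.1 hA hZ, fun x hx hn => ?_, hb⟩
  by_cases h : EU U x C
  · exact ⟨B, hB, (h1 x hx).resolve_left fun h' => hn ((hZ x).2 ⟨h, h'⟩),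
      fun z a b => h2 z ((hZ z).1 b).2 a⟩
  · obtain ⟨V, a, b, c⟩ := hC.2.1 x hx h
    exact ⟨V, a, b, fun z a b => c z a ((hZ z).1 b).1⟩

theorem Nice.step {X T e C : MU U} (hT : IsTop (EU U) X T)
    (he : ∀ x x' y, Maps (EU U) e x y → Maps (EU U) e x' y → x = x')
    (h : ∀ x y, EU U x X → EU U y X → x ≠ y → Sep U X T x y) (hC : Nice U X T e C) :
    ∃ Z, Nice U X T e Z ∧ Sub (EU U) Z C ∧ ∃ x, EU U x C ∧ ¬ EU U x Z := by
  obtain ⟨m, x, a1, -, a2, a3⟩ := hC.2.2 _ (qn_mem 0)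
  obtain ⟨m', y, -, b1, b2, b3⟩ := hC.2.2 m a1
  obtain ⟨A, B, hA, hB, h1, h2, hx, hy⟩ := h x y (hT.1 C hC.1 x a3) (hT.1 C hC.1 y b3) (by
    rintro rfl
    obtain rfl := he _ _ _ a2 b2
    exact not_el_self U _ b1)
  obtain ⟨Z, hZ⟩ := exists_inter C A
  by_cases hb : Big U e Z
  · exact ⟨Z, hC.half hT hA hB h1 h2 hZ hb, fun z hz => ((hZ z).1 hz).1, y, b3,
      fun hz => h2 y ((hZ y).1 hz).2 hy⟩
  obtain ⟨Z', hZ'⟩ := exists_inter C B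
  refine ⟨Z', hC.half hT hB hA (fun z hz => (h1 z hz).symm) (fun z a b => h2 z b a) hZ'
    fun n hn => ?_, fun z hz => ((hZ' z).1 hz).1, x, a3, fun hz => h2 x hx ((hZ' x).1 hz).2⟩
  obtain ⟨n', hn'⟩ := not_forall.1 hb
  obtain ⟨c1, c2⟩ := Classical.not_imp.1 hn'
  obtain ⟨k, k1, k2, k3⟩ := om_dir hn c1
  obtain ⟨j, z, d1, d2, d3, d4⟩ := hC.2.2 k k1
  refine ⟨j, z, d1, (isOrd_ck U _).2 j k n k2 d2 d1, d3, (hZ' z).2 ⟨d4, ?_⟩⟩
  exact (h1 z (hT.1 C hC.1 z d4)).resolve_left fun h' =>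
    c2 ⟨j, z, d1, (isOrd_ck U _).2 j k n' k3 d2 d1, d3, (hZ z).2 ⟨d4, h'⟩⟩

/-- a sequence of disjoint clopen sets `W`, labelled by reals `y` that tend to zero -/
structure Lad (U : Ultra BB) (X T D : MU U) : Prop where
  pos : ∀ y W, Maps (EU U) D y W → Maps (EU U) (LL U) (pt U (cst 0)) y ∧
    ¬ Maps (EU U) (LL U) (pt U (cst 1)) y ∧ EU U W T ∧ ∃ x, EU U x W
  uniq : ∀ y W y' W', Maps (EU U) D y W → Maps (EU U) D y' W' → ∀ x, EU U x W → EU U x W' → y = y'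
  lim : ∀ x c, EU U x X → (∀ y W, Maps (EU U) D y W → ¬ EU U x W) →
    Maps (EU U) (LL U) (pt U (cst 0)) c → ∃ V, EU U V T ∧ EU U x V ∧
      ∀ y W, Maps (EU U) D y W → ∀ x', EU U x' V → EU U x' W → Maps (EU U) (LL U) y c
  iso : ∀ y W, Maps (EU U) D y W → ∃ a c, Maps (EU U) (LL U) a y ∧ Maps (EU U) (LL U) y c ∧
    ¬ Maps (EU U) (LL U) a (pt U (cst 0)) ∧ ∀ y' W', Maps (EU U) D y' W' →
      Maps (EU U) (LL U) a y' → Maps (EU U) (LL U) y' c → y' = y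
  down : ∀ y W, Maps (EU U) D y W → ∃ y' W', Maps (EU U) D y' W' ∧ Maps (EU U) (LL U) y' y
  ne : ∃ y W, Maps (EU U) D y W

theorem exists_lad {X T : MU U} (hT : IsTop (EU U) X T) (hX : Inj (EU U) (om U) X)
    (h : ∀ x y, EU U x X → EU U y X → x ≠ y → Sep U X T x y) : ∃ D, Lad U X T D := by
  obtain ⟨e, e1, -, e3⟩ := hX
  obtain ⟨X, rfl⟩ := cls_surj X
  obtain ⟨T, rfl⟩ := cls_surj T
  obtain ⟨e, rfl⟩ := cls_surj e
  obtain ⟨c, hc⟩ := dc (fun U C => Nice U (cls U X) (cls U T) (cls U e) C)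
    (fun U C Z => Sub (EU U) Z C ∧ ∃ x, EU U x C ∧ ¬ EU U x Z) X
  obtain ⟨β, hβ⟩ := Dec.ex (Φ := fun U => IsTop (EU U) (cls U X) (cls U T) ∧
    Nice U (cls U X) (cls U T) (cls U e) (cls U X) ∧
    ∀ C, Nice U (cls U X) (cls U T) (cls U e) C → ∃ Z, Nice U (cls U X) (cls U T) (cls U e) Z ∧
      Sub (EU U) Z C ∧ ∃ x, EU U x C ∧ ¬ EU U x Z)
  have hb : β ∈ U := by
    refine (hβ U).1 ⟨hT, ⟨hT.2.1, fun x a b => absurd a b, fun n hn => ?_⟩,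
      fun C => Nice.step hT e3 h⟩
    obtain ⟨k, k1, k2, -⟩ := om_dir hn hn
    obtain ⟨x, a, b⟩ := e1 k k1
    exact ⟨k, x, k1, k2, b, a⟩
  clear hT h e1 e3
  have h2 := fun U (h : β ∈ U) => (hc U).2 ((hβ U).2 h).2.1 ((hβ U).2 h).2.2
  have h3 : ∀ U, β ∈ U → ∀ n m, n ≤ m → Sub (EU U) (sm U (c m)) (sm U (c n)) := by
    intro U h n m hm
    induction m, hm using Nat.le_induction with
    | base => exact fun _ => id
    | succ m _ ih => exact fun z hz => ih z ((h2 U h m).2.1 z hz)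
  choose d hd using fun n => exists_diff (c n) (c (n + 1))
  obtain ⟨r, r0, r1, r2, r3, r4⟩ : ∃ r : ℕ → ℝ, (∀ n, 0 < r n) ∧ (∀ n, r n ≤ 1) ∧ StrictAnti r ∧
      (∀ n, r n = 2 * r (n + 1)) ∧ ∀ t, 0 < t → ∃ n, r n < t :=
    ⟨fun n => (1 / 2) ^ n, fun n => by positivity, fun n => pow_le_one₀ (by norm_num) (by norm_num),
      pow_right_strictAnti₀ (by norm_num) (by norm_num), fun n => by ring,
      fun t ht => exists_pow_lt_of_lt_one ht (by norm_num)⟩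
  have hm : ∀ U, β ∈ U → ∀ n, Maps (EU U) (sm U (rl (fun n => hat (cst (r n))) d fun _ => β))
      (pt U (cst (r n))) (sm U (d n)) := fun U h n => maps_rl (fun n => hat (cst (r n))) d n h
  refine ⟨sm U (rl (fun n => hat (cst (r n))) d fun _ => β), fun y W h => ?_,
    fun y W y' W' h h' => ?_, fun x t hx hn ht => ?_, fun y W h => ?_, fun y W h => ?_,
    _, _, hm U hb 0⟩
  · refine rl_one (fun U y W => Maps (EU U) (LL U) (pt U (cst 0)) y ∧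
      ¬ Maps (EU U) (LL U) (pt U (cst 1)) y ∧ EU U W (cls U T) ∧ ∃ x, EU U x W)
      (fun U n h => ⟨lt_cst.2 (r0 n), fun h => (lt_cst.1 h).not_ge (r1 n), ?_, ?_⟩) h
    · have hT := ((hβ U).2 h).1
      refine open_of_nhds hT fun x hx => ?_
      obtain ⟨a, b⟩ := (hd n U x).1 hx
      obtain ⟨V, v1, v2, v3⟩ := (h2 U h (n + 1)).1.2.1 x (hT.1 _ (h2 U h n).1.1 x a) b
      obtain ⟨Z, hZ⟩ := exists_inter (sm U (c n)) V
      exact ⟨Z, hT.2.2.1 _ _ Z (h2 U h n).1.1 v1 hZ, (hZ x).2 ⟨a, v2⟩,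
        fun z hz => (hd n U z).2 ⟨((hZ z).1 hz).1, v3 z ((hZ z).1 hz).2⟩⟩
    · obtain ⟨x, hx⟩ := (h2 U h n).2.2
      exact ⟨x, (hd n U x).2 hx⟩
  · refine rl_two (fun U y W y' W' => ∀ x, EU U x W → EU U x W' → y = y')
      (fun U n m h _ x a b => ?_) h h'
    rw [hd] at a b
    rcases lt_trichotomy n m with h' | rfl | h'
    · exact absurd (h3 U h _ _ h' x b.1) a.2
    · rfl
    · exact absurd (h3 U h _ _ h' x a.1) b.2
  · obtain ⟨x, rfl⟩ := cls_surj x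
    obtain ⟨t, rfl⟩ := real_cases (lt_mem ht).2
    revert hb hx hn
    refine wlog_ex (P := fun (n : ℕ) ω => r n < t.1 ω) (fun n => measurable_const.lt t.2) U
      ((lt_pt.1 ht).mono fun ω h => r4 _ h) ?_
    intro U n ht hb hx hn
    have hx' : ∀ k, EU U (cls U x) (sm U (c k)) := by
      intro k
      induction k with
      | zero => exact (hc U).1 ▸ hx
      | succ k ih => exact by_contra fun h => hn _ _ (hm U hb k) ((hd k U _).2 ⟨ih, h⟩)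
    refine ⟨_, (h2 U hb n).1.1, hx' n, fun y W h => ?_⟩
    refine rl_one (fun U y W => (Ae U fun ω => r n < t.1 ω) → ∀ x', EU U x' (sm U (c n)) →
      EU U x' W → Maps (EU U) (LL U) y (pt U t)) (fun U m h ht z a b => ?_) h ht
    have : n ≤ m := not_lt.1 fun h' => ((hd m U z).1 b).2 (h3 U h _ _ h' z a)
    exact lt_pt.2 (ht.mono fun ω h => (r2.antitone this).trans_lt h)
  · refine rl_one (fun U y _ => ∃ a c, Maps (EU U) (LL U) a y ∧ Maps (EU U) (LL U) y c ∧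
      ¬ Maps (EU U) (LL U) a (pt U (cst 0)) ∧ ∀ y' W',
        Maps (EU U) (sm U (rl (fun n => hat (cst (r n))) d fun _ => β)) y' W' →
        Maps (EU U) (LL U) a y' → Maps (EU U) (LL U) y' c → y' = y) (fun U n _ => ?_) h
    refine ⟨pt U (cst (r (n + 1))), pt U (cst (2 * r n)), lt_cst.2 (r2 n.lt_succ_self),
      lt_cst.2 (by linarith [r0 n]), fun h => (lt_cst.1 h).not_gt (r0 _), fun y' W' h => ?_⟩
    refine rl_one (fun U y' _ => Maps (EU U) (LL U) (pt U (cst (r (n + 1)))) y' →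
      Maps (EU U) (LL U) y' (pt U (cst (2 * r n))) → y' = pt U (cst (r n)))
      (fun U m _ a b => ?_) h
    have a' := r2.lt_iff_gt.1 (lt_cst.1 a)
    have b' : n < m + 1 := r2.lt_iff_gt.1 (by linarith [lt_cst.1 b, r3 m])
    obtain rfl : m = n := by omega
    rfl
  · exact rl_one (fun U y _ => ∃ y' W',
      Maps (EU U) (sm U (rl (fun n => hat (cst (r n))) d fun _ => β)) y' W' ∧
        Maps (EU U) (LL U) y' y)
      (fun U n h => ⟨_, _, hm U h (n + 1), lt_cst.2 (r2 n.lt_succ_self)⟩) h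

theorem Lad.unit {X T D y W : MU U} (hD : Lad U X T D) (h : Maps (EU U) D y W) : Unit01 U y :=
  ⟨(lt_mem (hD.pos y W h).1).2, fun h' => lt_irr (lt_tr (hD.pos y W h).1 h'), (hD.pos y W h).2.1⟩

/-- the function with value `y` on the set labelled `y` and zero elsewhere -/
theorem Lad.exists_fn {X T D : MU U} (hT : IsTop (EU U) X T) (hD : Lad U X T D) :
    ∃ f, Cts (EU U) f X T (RR U) (TR U) ∧
      (∀ y W, Maps (EU U) D y W → ∀ x, EU U x W → ∀ z, Maps (EU U) f x z ↔ z = y) ∧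
      ∀ x y, Maps (EU U) f x y → (∃ W, Maps (EU U) D y W ∧ EU U x W) ∨ y = pt U (cst 0) := by
  obtain ⟨D, rfl⟩ := cls_surj D
  obtain ⟨f, f1, f2⟩ := md_rel tame (fun U x y => (∃ W, Maps (EU U) (cls U D) y W ∧ EU U x W) ∨
    (y = pt U (cst 0) ∧ ∀ y' W, Maps (EU U) (cls U D) y' W → ¬ EU U x W)) U X (RR U)
  have h1 : ∀ y W, Maps (EU U) (cls U D) y W → ∀ x, EU U x W → ∀ z, Maps (EU U) f x z ↔ z = y := by
    refine fun y W h x hx z => ⟨fun hz => ?_, ?_⟩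
    · rcases ((f2 x z).1 hz).2.2 with ⟨W', a, b⟩ | ⟨-, a⟩
      exacts [hD.uniq _ _ _ _ a h x b hx, absurd hx (a y W h)]
    · rintro rfl
      exact (f2 x z).2 ⟨hT.1 W (hD.pos _ W h).2.2.1 x hx, (hD.unit h).1, Or.inl ⟨W, h, hx⟩⟩
  refine ⟨f, cts_of hT ⟨f1, fun x hx => ?_⟩ fun x y V a b c => ?_, h1,
    fun x y h => ((f2 x y).1 h).2.2.imp_right And.left⟩
  · by_cases h : ∃ y W, Maps (EU U) (cls U D) y W ∧ EU U x W
    · obtain ⟨y, W, a, b⟩ := h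
      exact ⟨y, (h1 y W a x b y).2 rfl, fun z => (h1 y W a x b z).1⟩
    · refine ⟨_, (f2 x _).2 ⟨hx, pt_mem _, Or.inr ⟨rfl, fun y W a b => h ⟨y, W, a, b⟩⟩⟩,
        fun z hz => ?_⟩
      rcases ((f2 x z).1 hz).2.2 with ⟨W, a⟩ | a
      exacts [absurd ⟨z, W, a⟩ h, a.1]
  · obtain ⟨hx, -, ⟨W, a1, a2⟩ | ⟨rfl, a1⟩⟩ := (f2 x y).1 a
    · exact ⟨W, (hD.pos _ W a1).2.2.1, a2, fun x' y' b1 b2 => (h1 y W a1 x' b1 y').1 b2 ▸ c⟩
    · obtain ⟨p, q, -, -, p1, p2, p3⟩ := ((subTop_TR V).1 b).2 _ c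
      obtain ⟨W, w1, w2, w3⟩ := hD.lim x q hx a1 p2
      refine ⟨W, w1, w2, fun x' y' b1 b2 => ?_⟩
      obtain ⟨-, hy, ⟨W', c1, c2⟩ | ⟨rfl, -⟩⟩ := (f2 x' y').1 b2
      exacts [p3 y' hy (lt_tr p1 (hD.pos _ _ c1).1) (w3 y' W' c1 x' b1 c2), c]

end SepCase

open SepCase in
theorem goal_of_sep {U : Ultra BB} {X T : MU U} (hT : IsTop (EU U) X T)
    (hX : Inj (EU U) (om U) X)
    (h : ∀ x y, EU U x X → EU U y X → x ≠ y → Sep U X T x y) : Goal U X T := by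
  obtain ⟨D, hD⟩ := exists_lad hT hX h
  obtain ⟨f, hf, f1, f2⟩ := hD.exists_fn hT
  have f3 : ∀ y W, Maps (EU U) D y W → ∃ x, Maps (EU U) f x y := fun y W a =>
    let ⟨x, hx⟩ := (hD.pos y W a).2.2.2; ⟨x, (f1 y W a x hx y).2 rfl⟩
  refine (goal_or_kl hT hf (fun x y a => ?_) ?_ fun x y a b => ?_).elim id ?_
  · rcases f2 x y a with ⟨W, b, -⟩ | rfl
    exacts [hD.unit b, ⟨pt_mem _, lt_irr, fun h => (lt_cst.1 h).not_gt zero_lt_one⟩]
  · obtain ⟨y, W, a⟩ := hD.ne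
    obtain ⟨x, hx⟩ := f3 y W a
    exact ⟨x, y, hx, (hD.pos y W a).1⟩
  · rcases f2 x y a with ⟨W, c, -⟩ | rfl
    · obtain ⟨y', W', c1, c2⟩ := hD.down y W c
      obtain ⟨x', hx⟩ := f3 y' W' c1
      exact ⟨x', y', hx, (hD.pos y' W' c1).1, c2⟩
    · exact (lt_irr b).elim
  rintro ⟨Z₁, Z₂, t, z1, z2, z3, z4, -, z5, z6⟩
  obtain rfl : t = pt U (cst 0) := by
    obtain ⟨x, hx⟩ := z1 t z5
    refine (f2 x t hx).resolve_left fun ⟨W, a, _⟩ => ?_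
    obtain ⟨p, q, p1, p2, p3, p4⟩ := hD.iso t W a
    obtain ⟨s, s1, s2, s3⟩ := z6 p q p1 p2
    obtain ⟨x', hx'⟩ := z2 s s1
    rcases f2 x' s hx' with ⟨W', b, -⟩ | rfl
    exacts [z3 t z5 (p4 s W' b s2 s3 ▸ s1), p3 s2]
  have z7 : ∀ s, EU U s Z₂ → ∃ W, Maps (EU U) D s W := fun s hs => by
    obtain ⟨x, hx⟩ := z2 s hs
    rcases f2 x s hx with ⟨W, b, -⟩ | rfl
    exacts [⟨W, b⟩, (z3 _ z5 hs).elim]
  have z8 : ∀ c, Maps (EU U) (LL U) (pt U (cst 0)) c → ∃ s, EU U s Z₂ ∧ Maps (EU U) (LL U) s c :=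
    fun c hc => let ⟨s, a, _, b⟩ := z6 (pt U (cst (-1))) c (lt_cst.2 (by norm_num)) hc; ⟨s, a, b⟩
  obtain ⟨s₀, hs₀, -⟩ := z8 _ (lt_cst.2 zero_lt_one)
  obtain ⟨f, rfl⟩ := cls_surj f
  obtain ⟨Z₁, rfl⟩ := cls_surj Z₁
  obtain ⟨Z₂, rfl⟩ := cls_surj Z₂
  obtain ⟨s₀, rfl⟩ := cls_surj s₀
  obtain ⟨g, g1, g2⟩ := md_rel tame (fun U x y =>
    (Maps (EU U) (cls U f) x y ∧ EU U y (cls U Z₂)) ∨
      (y = cls U s₀ ∧ ∀ z, Maps (EU U) (cls U f) x z → ¬ EU U z (cls U Z₂))) U X (RR U)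
  have g3 : ∀ x y, Maps (EU U) g x y → EU U y (cls U Z₂) := fun x y a => by
    rcases ((g2 x y).1 a).2.2 with b | b
    exacts [b.2, b.1 ▸ hs₀]
  have g4 : ∀ y, EU U y (cls U Z₂) → ∃ x, Maps (EU U) g x y := fun y a =>
    let ⟨x, hx⟩ := z2 y a; ⟨x, (g2 x y).2 ⟨(hf.1.mem hx).1, (hf.1.mem hx).2, Or.inl ⟨hx, a⟩⟩⟩
  have g5 : ∀ x y x' y', Maps (EU U) g x y → Maps (EU U) g x' y' → (∀ z, EU U z (cls U Z₂) →
      (Maps (EU U) (cls U f) x z ↔ Maps (EU U) (cls U f) x' z)) → y' = y := by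
    intro x y x' y' a b c
    rcases ((g2 x y).1 a).2.2 with a | a <;> rcases ((g2 x' y').1 b).2.2 with b | b
    exacts [hf.1.uniq b.1 ((c y a.2).1 a.1), absurd a.2 (b.2 y ((c y a.2).1 a.1)),
      absurd b.2 (a.2 y' ((c y' b.2).2 b.1)), b.1.trans a.1.symm]
  have hg : Cts (EU U) g X T (RR U) (TR U) := by
    refine cts_of hT ⟨g1, fun x hx => ?_⟩ fun x y V a _ c => ?_
    · have : ∃ y, Maps (EU U) g x y := by
        obtain ⟨y, a, b⟩ := hf.1.total hx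
        by_cases hy : EU U y (cls U Z₂)
        · exact ⟨y, (g2 x y).2 ⟨hx, a, Or.inl ⟨b, hy⟩⟩⟩
        · obtain ⟨W, hW⟩ := z7 _ hs₀
          exact ⟨_, (g2 x _).2 ⟨hx, (hD.unit hW).1,
            Or.inr ⟨rfl, fun z c => hf.1.uniq b c ▸ hy⟩⟩⟩
      obtain ⟨y, hy⟩ := this
      exact ⟨y, hy, fun z hz => g5 x y x z hy hz fun _ _ => Iff.rfl⟩
    · obtain ⟨y₀, -, b⟩ := hf.1.total ((g2 x y).1 a).1
      rcases f2 x y₀ b with ⟨W, w1, w2⟩ | rfl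
      · exact ⟨W, (hD.pos _ W w1).2.2.1, w2, fun x' y' b1 b2 => g5 x y x' y' a b2 (fun z _ =>
          (f1 _ W w1 x w2 z).trans (f1 _ W w1 x' b1 z).symm) ▸ c⟩
      · obtain ⟨W, hW⟩ := md_sep
          (fun U x => ∃ y, EU U y (cls U Z₁) ∧ Maps (EU U) (cls U f) x y) U X
        have w1 : ∀ x, EU U x W ↔ ∃ y, EU U y (cls U Z₁) ∧ Maps (EU U) (cls U f) x y := fun x =>
          (hW x).trans ⟨fun h => h.2, fun ⟨y, a, b⟩ => ⟨(hf.1.mem b).1, y, a, b⟩⟩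
        have w2 : ∀ x z, EU U x W → EU U z (cls U Z₂) → ¬ Maps (EU U) (cls U f) x z :=
          fun x z a b c => let ⟨y, d, e⟩ := (w1 x).1 a; z3 y d (hf.1.uniq c e ▸ b)
        have w3 := (w1 x).2 ⟨_, z5, b⟩
        exact ⟨W, z4 W w1, w3, fun x' y' b1 b2 => g5 x y x' y' a b2 (fun z hz =>
          iff_of_false (w2 x z w3 hz) (w2 x' z b1 hz)) ▸ c⟩
  refine (goal_or_kl hT hg (fun x y a => ?_) ?_ fun x y _ b => ?_).resolve_right ?_
  · obtain ⟨W, hW⟩ := z7 y (g3 x y a)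
    exact hD.unit hW
  · obtain ⟨x, hx⟩ := g4 _ hs₀
    obtain ⟨W, hW⟩ := z7 _ hs₀
    exact ⟨x, _, hx, (hD.pos _ W hW).1⟩
  · obtain ⟨s, s1, s2⟩ := z8 y b
    obtain ⟨x', hx⟩ := g4 s s1
    obtain ⟨W, hW⟩ := z7 s s1
    exact ⟨x', s, hx, (hD.pos _ W hW).1, s2⟩
  · rintro ⟨Y₁, Y₂, t, y1, y2, y3, -, -, y5, y6⟩
    obtain ⟨x, hx⟩ := y1 t y5
    obtain ⟨W, a⟩ := z7 t (g3 x t hx)
    obtain ⟨p, q, p1, p2, -, p4⟩ := hD.iso t W a
    obtain ⟨s, s1, s2, s3⟩ := y6 p q p1 p2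
    obtain ⟨x', hx'⟩ := y2 s s1
    obtain ⟨W', b⟩ := z7 s (g3 x' s hx')
    exact y3 t y5 (p4 s W' b s2 s3 ▸ s1)

end Pool.Agent.Lib.MP_5ffd28_gt.CR
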