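import Pool.Agent.Lib.MP_5ffd28_gt.CR.Kill

/-! Spaces with two points that are not separated by a clopen set. -/

namespace Pool.Agent.Lib.MP_5ffd28_gt.CR

open Set Filter Topology Pool.Agent.Shared.Forcing Pool.Agent.Lib.MP_23bd8d_gt Cohen

set_option synthInstance.maxSize 4000

theorem tau_pre {U : Ultra BB} {f X Y : MU U} (hf : IsFn (EU U) f X Y) (V : MU U) :
    ∃ W, ∀ x, EU U x W ↔ ∃ y, EU U y V ∧ Maps (EU U) f x y := by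
  obtain ⟨f, rfl⟩ := cls_surj f
  obtain ⟨V, rfl⟩ := cls_surj V
  obtain ⟨W, hW⟩ := md_sep (fun U x => ∃ y, EU U y (cls U V) ∧ Maps (EU U) (cls U f) x y) U X
  exact ⟨W, fun z => (hW z).trans ⟨fun h => h.2, fun ⟨y, a, b⟩ => ⟨(hf.mem b).1, y, a, b⟩⟩⟩

theorem tau_comp {U : Ultra BB} {f g X Y Z : MU U} (hf : IsFn (EU U) f X Y)
    (hg : IsFn (EU U) g Y Z) :
    ∃ h, IsFn (EU U) h X Z ∧ ∀ x z, Maps (EU U) h x z ↔
      ∃ y, Maps (EU U) f x y ∧ Maps (EU U) g y z := by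
  obtain ⟨f, rfl⟩ := cls_surj f
  obtain ⟨g, rfl⟩ := cls_surj g
  obtain ⟨h, h1, h2⟩ := md_rel tame (fun U x z => ∃ y, Maps (EU U) (cls U f) x y ∧
    Maps (EU U) (cls U g) y z) U X Z
  have h3 : ∀ x z, Maps (EU U) h x z ↔
      ∃ y, Maps (EU U) (cls U f) x y ∧ Maps (EU U) (cls U g) y z := fun x z =>
    (h2 x z).trans ⟨fun h => h.2.2, fun ⟨y, a, b⟩ => ⟨(hf.mem a).1, (hg.mem b).2, y, a, b⟩⟩
  refine ⟨h, ⟨h1, fun x hx => ?_⟩, h3⟩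
  obtain ⟨y, a, b⟩ := hf.total hx
  obtain ⟨z, -, d⟩ := hg.total a
  refine ⟨z, (h3 x z).2 ⟨y, b, d⟩, fun z' hz => ?_⟩
  obtain ⟨y', e1, e2⟩ := (h3 x z').1 hz
  obtain rfl := hf.uniq e1 b
  exact hg.uniq e2 d

theorem tau_cts_comp {U : Ultra BB} {f g h X T Y S Z R : MU U} (hf : Cts (EU U) f X T Y S)
    (hg : Cts (EU U) g Y S Z R) (h1 : IsFn (EU U) h X Z)
    (h2 : ∀ x z, Maps (EU U) h x z ↔ ∃ y, Maps (EU U) f x y ∧ Maps (EU U) g y z) :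
    Cts (EU U) h X T Z R := by
  refine ⟨h1, fun V W hV hW => ?_⟩
  obtain ⟨W', hW'⟩ := tau_pre hg.1 V
  refine hf.2 W' W (hg.2 V W' hV hW') fun x => (hW x).trans ⟨fun ⟨z, a, b⟩ => ?_, fun ⟨y, a, b⟩ => ?_⟩
  · obtain ⟨y, c, d⟩ := (h2 x z).1 b
    exact ⟨y, (hW' y).2 ⟨z, a, d⟩, c⟩
  · obtain ⟨z, c, d⟩ := (hW' y).1 a
    exact ⟨z, c, (h2 x z).2 ⟨y, b, d⟩⟩

theorem tau_jm (s c : MF) : JM fun g r => s.1 g * r + c.1 g :=
  ((s.2.comp measurable_fst).mul measurable_snd).add (c.2.comp measurable_fst)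

theorem tau_real {s c a b x x' : ℝ}
    (h3 : x - min (s * x + c - a) (b - (s * x + c)) / (|s| + 1) < x')
    (h4 : x' < x + min (s * x + c - a) (b - (s * x + c)) / (|s| + 1)) :
    a < s * x' + c ∧ s * x' + c < b := by
  set m := min (s * x + c - a) (b - (s * x + c)) with hm
  have m1 : m ≤ s * x + c - a := min_le_left _ _
  have m2 : m ≤ b - (s * x + c) := min_le_right _ _
  have p : 0 < |s| + 1 := by positivity
  have h5 : |x' - x| < m / (|s| + 1) := abs_lt.2 ⟨by linarith, by linarith⟩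
  rw [lt_div_iff₀ p] at h5
  have h6 : |s * (x' - x)| < m := by
    rw [abs_mul]
    nlinarith [abs_nonneg (x' - x), abs_nonneg s]
  rw [abs_lt] at h6
  constructor <;> nlinarith [h6.1, h6.2]

theorem tau_aff {U : Ultra BB} (s c : MF) :
    Cts (EU U) (sm U (fnHat fun g r => s.1 g * r + c.1 g)) (RR U) (TR U) (RR U) (TR U) := by
  have hj := tau_jm s c
  refine cts_of (subTop_TR.isTop' fun _ => id) (isFn_fnHat hj) fun x y V h1 h2 h3 => ?_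
  obtain ⟨x, rfl⟩ := real_cases ((isFn_fnHat hj).mem h1).1
  obtain rfl := (maps_fnHat hj).1 h1
  obtain ⟨a, b, h4, h5⟩ := subTop_TR.use' h2 h3
  have hy : Measurable fun g => s.1 g * x.1 g + c.1 g := (s.2.mul x.2).add c.2
  have hd : Measurable fun g => min (s.1 g * x.1 g + c.1 g - a.1 g)
      (b.1 g - (s.1 g * x.1 g + c.1 g)) / (|s.1 g| + 1) :=
    ((hy.sub a.2).min (b.2.sub hy)).div (s.2.abs.add_const 1)
  obtain ⟨W, w1, w2⟩ := (subTop_TR (U := U)).iv' ⟨_, x.2.sub hd⟩ ⟨_, x.2.add hd⟩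
  have hp : Ae U fun g => 0 < min (s.1 g * x.1 g + c.1 g - a.1 g)
      (b.1 g - (s.1 g * x.1 g + c.1 g)) / (|s.1 g| + 1) := h4.mono fun g h =>
    div_pos (lt_min (sub_pos.2 h.1) (sub_pos.2 h.2)) (by positivity)
  refine ⟨W, w1, (w2 _).2 ⟨pt_mem x, lt_pt.2 (hp.mono fun g h => sub_lt_self _ h),
    lt_pt.2 (hp.mono fun g h => lt_add_of_pos_right _ h)⟩, fun x' y' a1 a2 => ?_⟩
  obtain ⟨b1, b2, b3⟩ := (w2 _).1 a1
  obtain ⟨x', rfl⟩ := real_cases b1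
  obtain rfl := (maps_fnHat hj).1 a2
  have := (h4.and ((lt_pt.1 b2).and (lt_pt.1 b3))).mono
    (Q := fun g => a.1 g < s.1 g * x'.1 g + c.1 g ∧ s.1 g * x'.1 g + c.1 g < b.1 g)
    fun g h => tau_real h.2.1 h.2.2
  exact h5 _ (pt_mem _) (lt_pt.2 (this.mono fun _ h => h.1)) (lt_pt.2 (this.mono fun _ h => h.2))

theorem tau_e {U : Ultra BB} {X T x y : MU U}
    (hX : Tychonoff (EU U) X T (RR U) (TR U)) (hx : EU U x X) (hy : EU U y X) (hne : x ≠ y) :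
    ∃ e, Cts (EU U) e X T (RR U) (TR U) ∧ Maps (EU U) e x (pt U (cst 0)) ∧
      Maps (EU U) e y (pt U (cst PP)) := by
  obtain ⟨V, v1, v2, v3⟩ := hX.1 x y hx hy hne
  obtain ⟨f, a, b, f1, f2, f3, f4⟩ := hX.2 V x v1 v2
  have f5 := f4 y hy v3
  obtain ⟨a, rfl⟩ := real_cases (f1.1.mem f3).2
  obtain ⟨b, rfl⟩ := real_cases (f1.1.mem f5).2
  have hn : Ae U fun g => ¬ a.1 g = b.1 g := Ae.of_not (a.2.eq b.2) fun h => f2 (pt_eq.2 h)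
  let s : MF := ⟨fun g => PP / (b.1 g - a.1 g), measurable_const.div (b.2.sub a.2)⟩
  let c : MF := ⟨fun g => -(s.1 g * a.1 g), (s.2.mul a.2).neg⟩
  have hc := tau_aff (U := U) s c
  obtain ⟨e, e1, e2⟩ := tau_comp f1.1 hc.1
  refine ⟨e, tau_cts_comp f1 hc e1 e2, (e2 _ _).2 ⟨_, f3, (maps_fnHat (tau_jm s c)).2
    (pt_eq.2 (Ae.of_all fun g => ?_))⟩, (e2 _ _).2 ⟨_, f5, (maps_fnHat (tau_jm s c)).2
    (pt_eq.2 (hn.mono fun g h => ?_))⟩⟩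
  · show (0 : ℝ) = s.1 g * a.1 g + -(s.1 g * a.1 g)
    ring
  · show PP = PP / (b.1 g - a.1 g) * b.1 g + -(PP / (b.1 g - a.1 g) * a.1 g)
    have : b.1 g - a.1 g ≠ 0 := sub_ne_zero.2 (Ne.symm h)
    field_simp
    ring

theorem tau_sep {U : Ultra BB} {e X T Y S A B x y a b : MU U} (he : Cts (EU U) e X T Y S)
    (hA : EU U A S) (hB : EU U B S) (h1 : ∀ z w, Maps (EU U) e z w → EU U w A ∨ EU U w B)
    (h2 : ∀ w, EU U w A → EU U w B → False) (hx : Maps (EU U) e x a) (hy : Maps (EU U) e y b)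
    (ha : EU U a A) (hb : EU U b B) : Sep U X T x y := by
  obtain ⟨A', a1⟩ := tau_pre he.1 A
  obtain ⟨B', b1⟩ := tau_pre he.1 B
  refine ⟨A', B', he.2 A A' hA a1, he.2 B B' hB b1, fun z hz => ?_, fun z c d => ?_,
    (a1 x).2 ⟨a, ha, hx⟩, (b1 y).2 ⟨b, hb, hy⟩⟩
  · obtain ⟨w, -, hw⟩ := he.1.total hz
    exact (h1 z w hw).imp (fun h => (a1 z).2 ⟨w, h, hw⟩) fun h => (b1 z).2 ⟨w, h, hw⟩
  · obtain ⟨w, c1, c2⟩ := (a1 z).1 c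
    obtain ⟨w', d1, d2⟩ := (b1 z).1 d
    obtain rfl := he.1.uniq c2 d2
    exact h2 w c1 d1

theorem tau_ivt {U : Ultra BB} {h X T x y q : MU U} (hh : Cts (EU U) h X T (RR U) (TR U))
    (h01 : ∀ z w, Maps (EU U) h z w → Unit01 U w) (hs : ¬ Sep U X T x y)
    (hx : Maps (EU U) h x (pt U (cst 0))) (hy : Maps (EU U) h y (pt U (cst 1)))
    (hq : EU U q (RR U)) (q0 : Maps (EU U) (LL U) (pt U (cst 0)) q)
    (q1 : Maps (EU U) (LL U) q (pt U (cst 1))) : ∃ z, Maps (EU U) h z q := by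
  by_contra hn
  obtain ⟨q, rfl⟩ := real_cases hq
  obtain ⟨A, a1, a2⟩ := (subTop_TR (U := U)).iv' (cst (-1)) q
  obtain ⟨B, b1, b2⟩ := (subTop_TR (U := U)).iv' q (cst 2)
  refine hs (tau_sep hh a1 b1 (fun z w hw => ?_) (fun w c d => ?_) hx hy
    ((a2 _).2 ⟨pt_mem _, lt_pt.2 (Ae.of_all fun _ => neg_one_lt_zero), q0⟩)
    ((b2 _).2 ⟨pt_mem _, q1, lt_pt.2 (Ae.of_all fun _ => one_lt_two)⟩))
  · obtain ⟨c1, c2, c3⟩ := h01 z w hw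
    obtain ⟨w, rfl⟩ := real_cases c1
    rw [not_lt_pt] at c2 c3
    rcases isReal_RR.2.2.1 _ _ c1 hq with h | h | h
    · exact Or.inl ((a2 _).2 ⟨c1, lt_pt.2 (c2.mono fun _ h => neg_one_lt_zero.trans_le h), h⟩)
    · exact absurd ⟨z, h ▸ hw⟩ hn
    · exact Or.inr ((b2 _).2 ⟨c1, h, lt_pt.2 (c3.mono fun _ h => h.trans_lt one_lt_two)⟩)
  · obtain ⟨c1, -, c2⟩ := (a2 _).1 c
    obtain ⟨-, d1, -⟩ := (b2 _).1 d
    obtain ⟨w, rfl⟩ := real_cases c1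
    exact ((lt_pt.1 c2).and (lt_pt.1 d1)).elim fun _ h => h.1.not_gt h.2

theorem tau_inj {U : Ultra BB} {S : MU U}
    (h : ∀ q, EU U q (RR U) → Maps (EU U) (LL U) (pt U (cst 0)) q →
      Maps (EU U) (LL U) q (pt U (cst 1)) → EU U q S) : Inj (EU U) (om U) S := by
  let ψ : ℚ → ℚ := fun q => 1 / ((Encodable.encode q : ℕ) + 2)
  have hψ : ∀ p q, ψ p = ψ q → p = q := fun p q e => by
    have e1 : ((Encodable.encode p : ℕ) : ℚ) + 2 = (Encodable.encode q : ℕ) + 2 := by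
      simpa [ψ] using e
    exact Encodable.encode_injective (Nat.cast_injective (R := ℚ) (add_right_cancel e1))
  have h0 : ∀ q, (0 : ℝ) < ψ q := fun q => by simp only [ψ]; positivity
  have h1 : ∀ q, (ψ q : ℝ) < 1 := fun q => by
    simp only [ψ]
    push_cast
    rw [div_lt_one (by positivity)]
    linarith [Nat.cast_nonneg (α := ℝ) (Encodable.encode q)]
  obtain ⟨S, rfl⟩ := cls_surj S
  refine ⟨sm U (rl qn (fun q => hat (cst (ψ q))) fun _ => ⊤), fun x hx => ?_,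
    fun x y y' h h' => rl_inj (fun _ _ _ => qn_inj) _ _ _ (Or.inl ⟨h, h'⟩),
    fun x x' y h h' => rl_inj (fun _ _ _ e => hψ _ _ (cst_inj e)) _ _ _ (Or.inr ⟨h, h'⟩)⟩
  obtain ⟨X, rfl⟩ := cls_surj x
  revert h
  refine wlog_ck X _ U hx ?_
  intro U a ha e h
  have : ck U a = sm U (qn (eQ ⟨a, ha⟩)) := by rw [qn, Equiv.symm_apply_apply]
  rw [e, this]
  exact ⟨_, h _ (pt_mem (cst (ψ (eQ ⟨a, ha⟩)))) (lt_pt.2 (Ae.of_all fun _ => h0 _))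
    (lt_pt.2 (Ae.of_all fun _ => h1 _)), maps_rl qn (fun q => hat (cst (ψ q))) _ U.top_mem⟩

theorem exists_tau {U : Ultra BB} {X T x y : MU U} (hT : IsTop (EU U) X T)
    (hX : Tychonoff (EU U) X T (RR U) (TR U)) (hx : EU U x X) (hy : EU U y X) (hne : x ≠ y)
    (h : ¬ Sep U X T x y) (hG : ¬ Goal U X T) : ∃ τ, TauI U τ := by
  obtain ⟨e, e1, e2, e3⟩ := tau_e hX hx hy hne
  obtain ⟨P, hP⟩ := md_power tame U (RR U)
  obtain ⟨e, rfl⟩ := cls_surj e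
  obtain ⟨T, rfl⟩ := cls_surj T
  obtain ⟨τ, hτ⟩ := md_sep (fun U V => ∀ W, (∀ z, EU U z W ↔ ∃ w, EU U w V ∧
    Maps (EU U) (cls U e) z w) → EU U W (cls U T)) U P
  have t1 : ∀ V, EU U V τ ↔ Sub (EU U) V (RR U) ∧ ∀ W, (∀ z, EU U z W ↔ ∃ w, EU U w V ∧
      Maps (EU U) (cls U e) z w) → EU U W (cls U T) :=
    fun V => (hτ V).trans (and_congr_left' (hP V))
  have e4 : Cts (EU U) (cls U e) X (cls U T) (RR U) τ :=
    ⟨e1.1, fun V W hV hW => ((t1 V).1 hV).2 W hW⟩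
  refine ⟨τ, ⟨fun V hV => ((t1 V).1 hV).1, (t1 _).2 ⟨fun _ => id, fun W hW => ?_⟩,
    fun V V' Z hV hV' hZ => (t1 Z).2 ⟨fun z hz => ((t1 V).1 hV).1 z ((hZ z).1 hz).1,
      fun W hW => ?_⟩,
    fun K Z hK hZ => (t1 Z).2 ⟨fun z hz => ?_, fun W hW => ?_⟩⟩,
    fun V hV => (t1 V).2 ⟨((subTop_TR V).1 hV).1, fun W hW => e1.2 V W hV hW⟩,
    fun A B hA hB h1 h2 h3 h4 => h (tau_sep e4 hA hB (fun z w hw => h1 w (e1.1.mem hw).2) h2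
      e2 e3 h3 h4), fun f f1 f2 f3 f4 => ?_⟩
  · have : W = X := md_ext U _ _ fun z => (hW z).trans
      ⟨fun ⟨w, _, b⟩ => (e1.1.mem b).1, fun hz => e1.1.total hz⟩
    exact this ▸ hT.2.1
  · obtain ⟨A, hA⟩ := tau_pre e1.1 V
    obtain ⟨B, hB⟩ := tau_pre e1.1 V'
    refine hT.2.2.1 A B W (e4.2 V A hV hA) (e4.2 V' B hV' hB) fun z => (hW z).trans
      ⟨fun ⟨w, a, b⟩ => ⟨(hA z).2 ⟨w, ((hZ w).1 a).1, b⟩, (hB z).2 ⟨w, ((hZ w).1 a).2, b⟩⟩,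
        fun ⟨a, b⟩ => ?_⟩
    obtain ⟨w, a1, a2⟩ := (hA z).1 a
    obtain ⟨w', b1, b2⟩ := (hB z).1 b
    obtain rfl := e1.1.uniq a2 b2
    exact ⟨w, (hZ w).2 ⟨a1, b1⟩, a2⟩
  · obtain ⟨V, a, b⟩ := (hZ z).1 hz
    exact ((t1 V).1 (hK V a)).1 z b
  · refine open_of_nhds hT fun z hz => ?_
    obtain ⟨w, a, b⟩ := (hW z).1 hz
    obtain ⟨V, c, d⟩ := (hZ w).1 a
    obtain ⟨A, hA⟩ := tau_pre e1.1 V
    refine ⟨A, e4.2 V A (hK V c) hA, (hA z).2 ⟨w, d, b⟩, fun u hu => ?_⟩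
    obtain ⟨w', a1, a2⟩ := (hA u).1 hu
    exact (hW u).2 ⟨w', (hZ w').2 ⟨V, c, a1⟩, a2⟩
  · obtain ⟨k, k1, k2⟩ := tau_comp e1.1 f1.1
    have k3 := tau_cts_comp e4 f1 k1 k2
    have k4 : ∀ z w, Maps (EU U) k z w → Unit01 U w := fun z w hw =>
      let ⟨u, _, b⟩ := (k2 z w).1 hw; f2 u w b
    obtain ⟨k, rfl⟩ := cls_surj k
    obtain ⟨S, hS⟩ := md_sep (fun U w => ∃ z, Maps (EU U) (cls U k) z w) U (RR U)
    have s1 : ∀ w, EU U w S ↔ ∃ z, Maps (EU U) (cls U k) z w := fun w =>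
      (hS w).trans ⟨fun h => h.2, fun ⟨z, a⟩ => ⟨(k1.mem a).2, z, a⟩⟩
    rcases quo_or_kl hT ⟨x, hx⟩ k3 s1 with hq | ⟨Z₁, Z₂, t, z1, z2, z3, z4, z5, z6, z7⟩
    · exact absurd ⟨S, fun w hw => let ⟨z, a⟩ := (s1 w).1 hw; k4 z w a,
        tau_inj fun q qr q0 q1 => (s1 _).2 (tau_ivt k3 k4 h ((k2 _ _).2 ⟨_, e2, f3⟩)
          ((k2 _ _).2 ⟨_, e3, f4⟩) qr q0 q1), hq⟩ hG
    · have key : ∀ Z, (∀ W, (∀ z, EU U z W ↔ ∃ w, EU U w Z ∧ Maps (EU U) (cls U k) z w) →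
          EU U W (cls U T)) → ∀ W, (∀ z, EU U z W ↔ ∃ w, EU U w Z ∧ Maps (EU U) f z w) →
          EU U W τ := fun Z hZ W hW => (t1 W).2 ⟨fun z hz =>
        let ⟨_, _, b⟩ := (hW z).1 hz; (f1.1.mem b).1, fun W' hW' => hZ W' fun z => (hW' z).trans
          ⟨fun ⟨u, a, b⟩ => let ⟨w, c, d⟩ := (hW u).1 a; ⟨w, c, (k2 z w).2 ⟨u, b, d⟩⟩,
            fun ⟨w, a, b⟩ => let ⟨u, c, d⟩ := (k2 z w).1 b; ⟨u, (hW u).2 ⟨w, a, d⟩, c⟩⟩⟩
      exact ⟨Z₁, Z₂, t, fun w hw => let ⟨z, a⟩ := z1 w hw; let ⟨u, _, d⟩ := (k2 z w).1 a; ⟨u, d⟩,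
        fun w hw => let ⟨z, a⟩ := z2 w hw; let ⟨u, _, d⟩ := (k2 z w).1 a; ⟨u, d⟩, z3,
        key Z₁ z4, key Z₂ z5, z6, z7⟩

end Pool.Agent.Lib.MP_5ffd28_gt.CR
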