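import Pool.Agent.Lib.MP_5ffd28_gt.CR.Core
import Pool.Agent.Lib.MP_5ffd28_gt.CR.Nb
import Pool.Agent.Lib.MP_5ffd28_gt.CR.SepCase
import Pool.Agent.Lib.MP_5ffd28_gt.CR.Tau

/-! The model of the positive answer. -/

namespace Pool.Agent.Lib.MP_5ffd28_gt.CR

open Set Filter Topology Pool.Agent.Shared.Forcing Pool.Agent.Lib.MP_23bd8d_gt Cohen

set_option synthInstance.maxSize 4000

theorem goal {U : Ultra BB} {X T : MU U} (hT : IsTop (EU U) X T)
    (hX : Tychonoff (EU U) X T (RR U) (TR U)) (hI : Inj (EU U) (om U) X) : Goal U X T := by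
  by_contra hG
  refine hG (goal_of_sep hT hI fun x y hx hy hne => by_contra fun h => ?_)
  obtain ⟨τ, hτ⟩ := exists_tau hT hX hx hy hne h hG
  obtain ⟨τ, rfl⟩ := cls_surj τ
  obtain ⟨b, hb⟩ := exists_nbSys τ
  exact core hb U hτ

theorem model : ∃ (M : Type 2) (E : M → M → Prop), ModelZFC E ∧ ∃ w R L O a b : M,
    IsOmega E w ∧ IsReal E w R L ∧ SubTop E R L R O ∧ E a R ∧ E b R ∧ Maps E L a b ∧
    ∀ X T, IsTop E X T → Tychonoff E X T R O → Inj E w X →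
      ∃ S TS G A TG i H B TH j h, (∀ s, E s S → E s R ∧ ¬ Maps E L s a ∧ ¬ Maps E L b s) ∧
        Inj E w S ∧ SubTop E R L S TS ∧ Free E X T G A TG i ∧ Free E S TS H B TH j ∧
        Cts E h G TG H TH ∧ Cohen.Additive E h A B ∧ (∀ y, E y H → ∃ x, Maps E h x y) ∧
        OpenMap E h TG TH := by
  obtain ⟨U, -⟩ := Ultra.exists_mem (RO.io_ne_bot (⟨univ, cond_univ⟩ : CU))
  refine ⟨MU U, EU U, md_modelZFC tame U, _, _, _, _, _, _, isOmega_ck U, isReal_RR, subTop_TR,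
    pt_mem (cst 0), pt_mem (cst 1), lt_pt.2 (Ae.of_all fun _ => zero_lt_one),
    fun X T h1 h2 h3 => ?_⟩
  obtain ⟨S, a, b, TS, G, A, TG, i, H, B, TH, j, h, c⟩ := goal h1 h2 h3
  exact ⟨S, TS, G, A, TG, i, H, B, TH, j, h, a, b, c⟩

end Pool.Agent.Lib.MP_5ffd28_gt.CR
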