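import Pool.Agent.Lib.MP_5ffd28_gt.CR.Top
import Pool.Agent.Lib.MP_5ffd28_gt.FE.Kill

/-! Free abelian topological groups exist in the extension. -/

namespace Pool.Agent.Lib.MP_5ffd28_gt.CR

open Set Filter Topology Pool.Agent.Shared.Forcing Pool.Agent.Lib.MP_23bd8d_gt Cohen

set_option synthInstance.maxSize 4000

theorem exists_free {U : Ultra BB} {X T : MU U} (hT : IsTop (EU U) X T) :
    ∃ G A S i, Free (EU U) X T G A S i := by
  exact FE.free_exists tame U hT

end Pool.Agent.Lib.MP_5ffd28_gt.CR
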