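import Pool.Agent.Lib.MP_5ffd28_gt.CR.Stage

/-! Fusion. -/

namespace Pool.Agent.Lib.MP_5ffd28_gt.CR

open Set Filter Topology

/-- recursion that looks back at the stage `n.unpair.1` -/
noncomputable def hist {A : Type} (a : A) (F : ℕ → A → A → A) : ℕ → A
  | 0 => a
  | n + 1 => F n (hist a F n) (hist a F n.unpair.1)
decreasing_by
  exacts [Nat.lt_succ_self n, Nat.lt_succ_of_le (Nat.unpair_left_le n)]

theorem Lam.eq_of {p : Set Om} {𝒴 : Set (Set Om)} (h : Lam p 𝒴) {Y Y' : Set Om} (hY : Y ∈ 𝒴)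
    (hY' : Y' ∈ 𝒴) {ω : Om} (a : ω ∈ Y) (b : ω ∈ Y') : Y = Y' := by
  have := h.lam Y hY Y' hY' ⊤
  rw [proj_top, proj_top] at this
  exact this.resolve_right fun e => Set.disjoint_left.1 e a b

theorem Lam.closed {p : Set Om} {𝒴 : Set (Set Om)} (h : Lam p 𝒴) : IsClosed (⋃₀ 𝒴) :=
  sUnion_eq_biUnion ▸ h.fin.isClosed_biUnion fun Y hY => (h.cond Y hY).cl

theorem Lam.supp {p : Set Om} {𝒴 : Set (Set Om)} (h : Lam p 𝒴) (α : I) :
    ∃ e : ℕ → I, α ∈ range e ∧ ∀ Y ∈ 𝒴, Dep (range e) Y := by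
  choose! J a b using fun Y hY => (h.cond Y hY).supp
  obtain ⟨e, he⟩ := ((h.fin.countable.biUnion a).insert α).exists_eq_range (insert_nonempty _ _)
  refine ⟨e, he ▸ mem_insert _ _, fun Y hY ω ω' c => b Y hY ω ω' fun β hβ => c β ?_⟩
  exact he ▸ mem_insert_of_mem _ (mem_biUnion hY hβ)

theorem isClosed_ag (δ : WithTop I) (ω : Om) : IsClosed {ω' | Ag δ ω ω'} := by
  simp only [Ag, ofPred_forall]
  exact isClosed_iInter fun β => isClosed_iInter fun _ =>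
    isClosed_eq continuous_const (continuous_apply β)

/-- a fusion sequence -/
structure Fs (p : Set Om) (f : ℕ → Set (Set Om)) : Prop where
  lam : ∀ n, Lam p (f n)
  par : ∀ n, ∀ W ∈ f (n + 1), ∃ Y ∈ f n, W ⊆ Y
  partner : ∀ n, ∀ Y ∈ f n, ∀ Y' ∈ f n, ∀ δ, proj δ Y = proj δ Y' → ∀ W ∈ f (n + 1), W ⊆ Y →
    ∃ W' ∈ f (n + 1), W' ⊆ Y' ∧ proj δ W = proj δ W'

/-- the limit of a fusion sequence -/
def lim (f : ℕ → Set (Set Om)) : Set Om := ⋂ n, ⋃₀ f n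

variable {p : Set Om} {f : ℕ → Set (Set Om)}

theorem Fs.up (h : Fs p f) {n k : ℕ} (hk : n ≤ k) : ∀ W ∈ f k, ∃ Y ∈ f n, W ⊆ Y := by
  induction hk with
  | refl => exact fun W hW => ⟨W, hW, le_rfl⟩
  | step _ ih =>
    intro W hW
    obtain ⟨Y, a, b⟩ := h.par _ W hW
    obtain ⟨Y', c, d⟩ := ih Y a
    exact ⟨Y', c, b.trans d⟩

theorem Fs.sub (h : Fs p f) {n k : ℕ} (hk : n ≤ k) {W Y : Set Om} (hW : W ∈ f k) (hY : Y ∈ f n)
    {ω : Om} (a : ω ∈ W) (b : ω ∈ Y) : W ⊆ Y := by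
  obtain ⟨Y', c, d⟩ := h.up hk W hW
  exact (h.lam n).eq_of c hY (d a) b ▸ d

theorem Fs.anti (h : Fs p f) : Antitone fun n => ⋃₀ f n := fun _ _ hk _ ⟨W, a, b⟩ =>
  let ⟨Y, c, d⟩ := h.up hk W a; ⟨Y, c, d b⟩

theorem Fs.partners (h : Fs p f) {n k : ℕ} (hk : n ≤ k) {Y Y' : Set Om} (hY : Y ∈ f n)
    (hY' : Y' ∈ f n) {δ : WithTop I} (e : proj δ Y = proj δ Y') :
    ∀ W ∈ f k, W ⊆ Y → ∃ W' ∈ f k, W' ⊆ Y' ∧ proj δ W = proj δ W' := by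
  induction hk with
  | refl =>
    intro W hW hs
    obtain ⟨ω, a⟩ := ((h.lam n).cond W hW).ne
    exact ⟨Y', hY', le_rfl, (h.lam n).eq_of hW hY a (hs a) ▸ e⟩
  | step hk ih =>
    intro W hW hs
    obtain ⟨ω, a⟩ := ((h.lam _).cond W hW).ne
    obtain ⟨V, b, c⟩ := h.par _ W hW
    obtain ⟨V', d1, d2, d3⟩ := ih V b (h.sub hk b hY (c a) (hs a))
    obtain ⟨W', e1, e2, e3⟩ := h.partner _ V b V' d1 δ d3 W hW c
    exact ⟨W', e1, e2.trans d2, e3⟩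

theorem Fs.meet (h : Fs p f) {A : Set Om} (hA : IsClosed A)
    (hne : ∀ n, (A ∩ ⋃₀ f n).Nonempty) : (A ∩ lim f).Nonempty := by
  rw [lim, inter_iInter]
  exact IsCompact.nonempty_iInter_of_sequence_nonempty_isCompact_isClosed _
    (fun n => inter_subset_inter_right _ (h.anti n.le_succ)) hne
    (hA.inter (h.lam 0).closed).isCompact fun n => hA.inter (h.lam n).closed

theorem Fs.key (h : Fs p f) {n : ℕ} {Y Y' : Set Om} (hY : Y ∈ f n) (hY' : Y' ∈ f n)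
    {δ : WithTop I} (e : proj δ Y = proj δ Y') {ω : Om} (a : ω ∈ Y) (b : ω ∈ lim f) :
    ∃ ω' ∈ Y', ω' ∈ lim f ∧ Ag δ ω ω' := by
  obtain ⟨ω', ⟨c1, c2⟩, c3⟩ := h.meet (((h.lam n).cond Y' hY').cl.inter (isClosed_ag δ ω)) fun k => by
    obtain ⟨W, w1, w2⟩ := mem_iInter.1 b (max n k)
    obtain ⟨W', d1, d2, d3⟩ := h.partners (le_max_left n k) hY hY' e W w1
      (h.sub (le_max_left n k) w1 hY w2 a)
    obtain ⟨u, u1, u2⟩ := d3 ▸ subset_proj δ W w2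
    exact ⟨u, ⟨d2 u1, u2⟩, h.anti (le_max_right n k) ⟨W', d1, u1⟩⟩
  exact ⟨ω', c1, c3, c2⟩

theorem Fs.ne (h : Fs p f) : (lim f).Nonempty := by
  obtain ⟨ω, -, a⟩ := h.meet isClosed_univ fun n => by
    obtain ⟨Y, hY⟩ := (h.lam n).ne
    obtain ⟨ω, a⟩ := ((h.lam n).cond Y hY).ne
    exact ⟨ω, trivial, Y, hY, a⟩
  exact ⟨ω, a⟩

theorem Fs.closed (h : Fs p f) : IsClosed (lim f) := isClosed_iInter fun n => (h.lam n).closed

/-- the projections of the members of one family are relatively open -/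
theorem Fs.nhds (h : Fs p f) {n : ℕ} {Y : Set Om} (hY : Y ∈ f n) (δ : WithTop I) {ω : Om}
    (a : ω ∈ Y) : ∀ᶠ u in 𝓝 ω, ∀ Y' ∈ f n, u ∈ proj δ Y' → proj δ Y' = proj δ Y := by
  refine (eventually_all_finite (h.lam n).fin).2 fun Y' hY' => ?_
  rcases (h.lam n).lam Y' hY' Y hY δ with e | e
  · exact Eventually.of_forall fun _ _ => e
  · refine Eventually.mono ((isClosed_proj δ ((h.lam n).cond Y' hY').cl).isOpen_compl.mem_nhds
      fun b => Set.disjoint_left.1 e b (subset_proj δ Y a)) fun u hu b => absurd b hu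

theorem Fs.piece (h : Fs p f) (hq : Cond (lim f)) {n : ℕ} {Y : Set Om} (hY : Y ∈ f n) {ω : Om}
    (a : ω ∈ Y) (b : ω ∈ lim f) : Cond (Y ∩ lim f) ∧ Y ∩ lim f ∈ 𝓝[lim f] ω := by
  have H : ∀ u ∈ Y ∩ lim f, Y ∩ lim f ∈ 𝓝[lim f] u := fun u hu => by
    filter_upwards [mem_nhdsWithin_of_mem_nhds (h.nhds hY ⊤ hu.1), self_mem_nhdsWithin] with v c d
    obtain ⟨Y', e1, e2⟩ := mem_iInter.1 d n
    have := c Y' e1 (subset_proj _ _ e2)
    rw [proj_top, proj_top] at this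
    exact ⟨this ▸ e2, d⟩
  exact ⟨hq.part inter_subset_right (((h.lam n).cond Y hY).cl.inter hq.cl) ⟨ω, a, b⟩ H, H ω ⟨a, b⟩⟩

theorem Fs.cond (h : Fs p f) {S : Set I} (hS : S.Countable) (hd : ∀ n, ∀ Y ∈ f n, Dep S Y)
    (hb : ∀ β ∈ S, ∀ r, ∃ n, ∀ W ∈ f n, ∃ m, r ≤ m ∧ (∀ ω ∈ W, ∀ ω' ∈ W, ∀ i ≤ m, ω β i = ω' β i) ∧
      ∃ C, nor r C ∧ ∀ y ∈ C, ∃ W' ∈ f n, proj β W = proj β W' ∧ W' ⊆ cyl β m y ∧
        ∀ ω ∈ W, ∀ ω' ∈ W', ∀ i < m, ω' β i = ω β i) : Cond (lim f) := by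
  classical
  have hD : Dep S (lim f) := fun ω ω' e a => mem_iInter.2 fun n =>
    let ⟨Y, b, c⟩ := mem_iInter.1 a n; ⟨Y, b, hd n Y b ω ω' e c⟩
  refine ⟨h.closed, h.ne, ⟨S, hS, hD⟩, fun β ω hω r => ?_, fun δ ω hω N hN => ?_⟩
  · by_cases hβ : β ∈ S
    · obtain ⟨n, hn⟩ := hb β hβ r
      obtain ⟨W, w1, w2⟩ := mem_iInter.1 hω n
      obtain ⟨m, a1, -, C, a2, a3⟩ := hn W w1
      refine ⟨m, a1, nor_mono a2 fun y hy => ?_⟩
      obtain ⟨W', b1, b2, b3, b4⟩ := a3 y hy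
      obtain ⟨u, c1, c2, c3⟩ := h.key w1 b1 b2 w2 hω
      exact mem_sc_fib.2 ⟨u, c2, c3, b4 ω w2 u c1, b3 c1⟩
    · obtain ⟨m, a1, a2⟩ := good_univ (ω β) trivial r
      refine ⟨m, a1, nor_mono a2 (sc_mono (fun z _ => ?_) _ _)⟩
      refine ⟨Function.update ω β z, hD ω _ (fun γ hγ => ?_) hω, fun γ hγ => ?_, by simp⟩
      · rw [Function.update_of_ne (ne_of_mem_of_not_mem hγ hβ)]
      · rw [Function.update_of_ne (WithTop.coe_lt_coe.1 hγ).ne]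
  · choose W w1 w2 using mem_iInter.1 hω
    have hW : Antitone W := fun n k hk => h.sub hk (w1 k) (w1 n) (w2 k) (w2 n)
    have hB := hasBasis_iInf_principal (s := W) (hW.directed_ge)
    have hT : Tendsto (fun x : Om × Om => S.piecewise x.1 x.2) ((⨅ n, 𝓟 (W n)) ×ˢ 𝓝 ω) (𝓝 ω) := by
      refine tendsto_pi_nhds.2 fun β => ?_
      by_cases hβ : β ∈ S
      · simp only [piecewise_eq_of_mem _ _ _ hβ]
        refine Tendsto.comp (g := fun u : Om => u β) (tendsto_pi_nhds.2 fun i => ?_) tendsto_fst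
        obtain ⟨n, hn⟩ := hb β hβ i
        obtain ⟨m, a1, a2, -⟩ := hn _ (w1 n)
        exact tendsto_const_nhds.congr' (hB.mem_iff.2 ⟨n, trivial, fun u hu =>
          a2 ω (w2 n) u hu i a1⟩)
      · simp only [piecewise_eq_of_notMem _ _ _ hβ]
        exact ((continuous_apply β).tendsto ω).comp tendsto_snd
    obtain ⟨A, a1, M, a2, a3⟩ := mem_prod_iff.1 (hT hN)
    obtain ⟨n, -, a4⟩ := hB.mem_iff.1 a1
    filter_upwards [mem_nhdsWithin_of_mem_nhds (h.nhds (w1 n) δ (w2 n)),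
      mem_nhdsWithin_of_mem_nhds a2, self_mem_nhdsWithin] with u b1 b2 ⟨v, b3, b4⟩
    obtain ⟨Y, c1, c2⟩ := mem_iInter.1 b3 n
    obtain ⟨t, d1, d2, d3⟩ := h.key c1 (w1 n) (b1 Y c1 ⟨v, c2, b4⟩) c2 b3
    refine ⟨S.piecewise t u, ⟨hD t _ (fun γ hγ => (piecewise_eq_of_mem _ _ _ hγ).symm) d2,
      a3 (mk_mem_prod (a4 d1) b2)⟩, fun γ hγ => ?_⟩
    by_cases e : γ ∈ S
    · rw [piecewise_eq_of_mem _ _ _ e]; exact (b4.trans d3) γ hγ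
    · rw [piecewise_eq_of_notMem _ _ _ e]

theorem fusion {p : Set Om} (hp : Cond p) (α : I) {Φ : Set Om → ℕ → Finset ℕ → Finset ℕ → Prop}
    (hΦ : ∀ W W' m x y, Φ W m x y → Cond W' → W' ⊆ W → Φ W' m x y) (hS : StepAt p α Φ)
    {Q : ℕ → Set Om → Prop} (hQ : ∀ n u v, Q n u → Cond v → v ⊆ u → Q n v)
    (hQ' : ∀ n u, Cond u → u ⊆ p → ∃ v ⊆ u, Cond v ∧ Q n v) :
    ∃ q ⊆ p, Cond q ∧ (∀ n, ∀ ω ∈ q, ∃ W ⊆ q, Cond W ∧ ω ∈ W ∧ W ∈ 𝓝[q] ω ∧ Q n W) ∧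
      ∀ ω ∈ q, ∀ ω' ∈ q, ∀ m, Ag α ω ω' → (∀ i < m, ω α i = ω' α i) → ω α m ≠ ω' α m →
        ∃ W ⊆ q, Cond W ∧ ω ∈ W ∧ W ∈ 𝓝[q] ω ∧ Φ W m (ω α m).1 (ω' α m).1 := by
  have H : ∀ (𝒴 : {𝒴 // Lam p 𝒴}) (β : I) (n : ℕ), ∃ 𝒴' : {𝒴 // Lam p 𝒴},
      Ref β n (fun W m x y => β = α → Φ W m x y) (Q n) 𝒴.1 𝒴'.1 := fun 𝒴 β n => by
    obtain ⟨𝒴', a, b⟩ := stage 𝒴.2 β n (Φ := fun W m x y => β = α → Φ W m x y)
      (fun W W' m x y a b c e => hΦ W W' m x y (a e) b c) (by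
        by_cases e : β = α
        · simpa only [e, true_imp_iff] using hS
        · simpa only [e, false_imp_iff] using stepAt_true p β) (hQ n) (hQ' n)
    exact ⟨⟨𝒴', a⟩, b⟩
  choose st hst using H
  choose en en1 en2 using fun 𝒴 : {𝒴 // Lam p 𝒴} => 𝒴.2.supp α
  have h0 : Lam p {p} := ⟨finite_singleton _, singleton_nonempty _, fun _ h => h ▸ hp,
    fun _ h => h ▸ le_rfl, fun _ h _ h' _ => Or.inl (h ▸ h' ▸ rfl)⟩
  obtain ⟨g, g0, g1⟩ : ∃ g : ℕ → {𝒴 // Lam p 𝒴}, (g 0).1 = {p} ∧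
      ∀ n, g (n + 1) = st (g n) (en (g n.unpair.1) n.unpair.2.unpair.1) n :=
    ⟨hist ⟨_, h0⟩ fun n a b => st a (en b n.unpair.2.unpair.1) n, by rw [hist],
      fun n => by rw [hist]⟩
  set b : ℕ → I := fun n => en (g n.unpair.1) n.unpair.2.unpair.1 with hb
  have R : ∀ n, Ref (b n) n (fun W m x y => b n = α → Φ W m x y) (Q n) (g n).1 (g (n + 1)).1 :=
    fun n => g1 n ▸ hst _ _ _
  have F : Fs p fun n => (g n).1 := ⟨fun n => (g n).2, fun n => (R n).par, fun n => (R n).partner⟩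
  have V : ∀ β ∈ ⋃ k, range (en (g k)), ∀ r, ∃ n, r ≤ n ∧ b n = β := fun β hβ r => by
    obtain ⟨k, j, rfl⟩ := mem_iUnion.1 hβ
    exact ⟨k.pair (j.pair r), (Nat.right_le_pair _ _).trans (Nat.right_le_pair _ _), by simp [hb]⟩
  have hq : Cond (lim fun n => (g n).1) := F.cond (countable_iUnion fun k => countable_range _)
    (fun n Y hY ω ω' e => en2 (g n) Y hY ω ω' fun β hβ => e β (mem_iUnion.2 ⟨n, hβ⟩))
    fun β hβ r => by
      obtain ⟨n, a, rfl⟩ := V β hβ r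
      refine ⟨n + 1, fun W hW => ?_⟩
      obtain ⟨m, c1, c2, C, c3, c4⟩ := (R n).big W hW
      exact ⟨m, a.trans c1, c2, C, nor_le c3 a, c4⟩
  refine ⟨_, fun ω hω => ?_, hq, fun n ω hω => ?_, fun ω hω ω' hω' m a1 a2 a3 => ?_⟩
  · obtain ⟨Y, a, c⟩ := mem_iInter.1 hω 0
    exact (g 0).2.sub Y a c
  · obtain ⟨Y, a, c⟩ := mem_iInter.1 hω (n + 1)
    obtain ⟨d1, d2⟩ := F.piece hq a c hω
    exact ⟨_, inter_subset_right, d1, ⟨c, hω⟩, d2, hQ n Y _ ((R n).dec Y a) d1 inter_subset_left⟩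
  · choose W w1 w2 using mem_iInter.1 hω
    choose W' w1' w2' using mem_iInter.1 hω'
    have E : ∃ n, proj (sx α) (W (n + 1)) ≠ proj (sx α) (W' (n + 1)) := by
      obtain ⟨n, a, e⟩ := V α (mem_iUnion.2 ⟨0, en1 _⟩) m
      obtain ⟨k, c1, c2, -⟩ := (R n).big _ (w1 (n + 1))
      refine ⟨n, fun h => a3 ?_⟩
      obtain ⟨u, u1, u2⟩ := h ▸ subset_proj (sx α) _ (w2' (n + 1))
      rw [u2 α (coe_lt_sx α), ← e]
      exact c2 ω (w2 _) u u1 m (a.trans c1)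
    classical
    have E0 : proj (sx α) (W (Nat.find E)) = proj (sx α) (W' (Nat.find E)) := by
      rcases h : Nat.find E with - | k
      · have e1 : W 0 = p := by simpa [g0] using w1 0
        have e2 : W' 0 = p := by simpa [g0] using w1' 0
        rw [e1, e2]
      · exact not_not.1 (Nat.find_min E (h ▸ k.lt_succ_self))
    obtain ⟨e, k, c1, c2, c3⟩ := (R _).first α _ (w1 _) _ (w1' _) E0 _ (w1 _) _ (w1' _)
      (F.sub (Nat.le_succ _) (w1 _) (w1 _) (w2 _) (w2 _))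
      (F.sub (Nat.le_succ _) (w1' _) (w1' _) (w2' _) (w2' _)) (Nat.find_spec E) ω (w2 _) ω'
      (w2' _) a1
    rw [← e] at c1 c2 c3
    obtain rfl : k = m := le_antisymm (not_lt.1 fun h => a3 (c1 m h)) (not_lt.1 fun h => c2 (a2 k h))
    obtain ⟨d1, d2⟩ := F.piece hq (w1 (Nat.find E + 1)) (w2 _) hω
    exact ⟨_, inter_subset_right, d1, ⟨w2 _, hω⟩, d2, hΦ _ _ _ _ _ (c3 rfl) d1 inter_subset_left⟩

end Pool.Agent.Lib.MP_5ffd28_gt.CR
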