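import Pool.Agent.Lib.MP_5ffd28_gt.CR.Close
import Pool.Agent.Lib.MP_5ffd28_gt.CR.Fus

/-! Generic points. -/

namespace Pool.Agent.Lib.MP_5ffd28_gt.CR

open Set Filter Topology

/-- a filter of conditions with a point in all its members -/
structure Ω : Type where
  G : Set (Set Om)
  ω : Om
  cond : ∀ X ∈ G, Cond X
  mem : ∀ X ∈ G, ω ∈ X
  up : ∀ X ∈ G, ∀ Y, Cond Y → X ⊆ Y → Y ∈ G
  dir : ∀ X ∈ G, ∀ Y ∈ G, ∃ W ∈ G, W ⊆ X ∩ Y

def Dns (𝒟 : Set (Set Om)) : Prop := ∀ p, Cond p → ∃ q ⊆ p, Cond q ∧ q ∈ 𝒟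

/-- sufficiently generic points -/
def gen : Filter Ω where
  sets := {A | ∃ 𝒟 : ℕ → Set (Set Om), (∀ n, Dns (𝒟 n)) ∧ ∀ g : Ω, (∀ n, ∃ X ∈ 𝒟 n, X ∈ g.G) → g ∈ A}
  univ_sets := ⟨fun _ => univ, fun _ p h => ⟨p, le_rfl, h, trivial⟩, fun _ _ => trivial⟩
  sets_of_superset := fun ⟨𝒟, a, b⟩ h => ⟨𝒟, a, fun g hg => h (b g hg)⟩
  inter_sets := fun ⟨𝒟, a, b⟩ ⟨𝒟', a', b'⟩ =>
    ⟨fun n => if n % 2 = 0 then 𝒟 (n / 2) else 𝒟' (n / 2),
      fun n => by dsimp only; split_ifs; exacts [a _, a' _], fun g hg =>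
      ⟨b g fun n => by simpa using hg (2 * n), b' g fun n => by
        simpa [Nat.add_mod, Nat.mul_add_div] using hg (2 * n + 1)⟩⟩

instance : CountableInterFilter gen := by
  refine ⟨fun S hS h => ?_⟩
  rcases S.eq_empty_or_nonempty with rfl | hne
  · simp
  obtain ⟨f, rfl⟩ := hS.exists_eq_range hne
  choose 𝒟 a b using fun n => h (f n) (mem_range_self n)
  refine ⟨fun n => 𝒟 n.unpair.1 n.unpair.2, fun n => a _ _, fun g hg => ?_⟩
  rintro _ ⟨n, rfl⟩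
  exact b n g fun m => by simpa using hg (n.pair m)

theorem gen_meets {𝒟 : Set (Set Om)} (h : Dns 𝒟) : ∀ᶠ g in gen, ∃ X ∈ 𝒟, X ∈ g.G :=
  ⟨fun _ => 𝒟, fun _ => h, fun _ hg => hg 0⟩

/-- `p` forces `P` -/
def Fc (p : Set Om) (P : Ω → Prop) : Prop := ∀ᶠ g in gen, p ∈ g.G → P g

theorem exists_gen {p : Set Om} (hp : Cond p) {P : Ω → Prop} (h : ∀ᶠ g in gen, P g) :
    ∃ g : Ω, p ∈ g.G ∧ P g := by
  obtain ⟨𝒟, a, b⟩ := h
  choose f h1 h2 h3 using fun (n : ℕ) (u : {u : Set Om // Cond u}) => a n u.1 u.2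
  let s : ℕ → {u : Set Om // Cond u} := fun n => Nat.rec ⟨p, hp⟩ (fun n u => ⟨f n u, h2 n u⟩) n
  have hs : ∀ n, (s (n + 1)).1 ⊆ (s n).1 := fun n => h1 n (s n)
  have ha : Antitone fun n => (s n).1 := antitone_nat_of_succ_le hs
  obtain ⟨ω, hω⟩ := IsCompact.nonempty_iInter_of_sequence_nonempty_isCompact_isClosed
    (fun n => (s n).1) hs (fun n => (s n).2.ne) (s 0).2.cl.isCompact fun n => (s n).2.cl
  refine ⟨⟨{X | Cond X ∧ ∃ n, (s n).1 ⊆ X}, ω, fun _ h => h.1,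
    fun _ ⟨_, n, h⟩ => h (mem_iInter.1 hω n), fun _ ⟨_, n, h⟩ _ c e => ⟨c, n, h.trans e⟩,
    fun _ ⟨_, n, h⟩ _ ⟨_, m, h'⟩ => ⟨(s (max n m)).1, ⟨(s _).2, _, le_rfl⟩,
      subset_inter ((ha (le_max_left n m)).trans h) ((ha (le_max_right n m)).trans h')⟩⟩,
    ⟨hp, 0, le_rfl⟩, b _ fun n => ⟨(s (n + 1)).1, h3 n (s n), (s (n + 1)).2, n + 1, le_rfl⟩⟩

theorem Fc.exists {p : Set Om} (hp : Cond p) {P : Ω → Prop} (h : Fc p P) :
    ∃ g : Ω, p ∈ g.G ∧ P g :=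
  let ⟨g, a, b⟩ := exists_gen hp h; ⟨g, a, b a⟩

theorem Fc.mono {p : Set Om} {P Q : Ω → Prop} (h : Fc p P) (h' : ∀ g, p ∈ g.G → P g → Q g) :
    Fc p Q := Eventually.mono h fun g a b => h' g b (a b)

theorem Fc.anti {p q : Set Om} {P : Ω → Prop} (h : Fc p P) (hp : Cond p) (hq : q ⊆ p) : Fc q P :=
  Eventually.mono h fun g a b => a (g.up q b p hp hq)

theorem Fc.and {p : Set Om} {P Q : Ω → Prop} (h : Fc p P) (h' : Fc p Q) :
    Fc p fun g => P g ∧ Q g := (Eventually.and h h').mono fun _ a b => ⟨a.1 b, a.2 b⟩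

theorem Fc.forall {ι : Type} [Countable ι] {p : Set Om} {P : ι → Ω → Prop} (h : ∀ i, Fc p (P i)) :
    Fc p fun g => ∀ i, P i g := (eventually_countable_forall.2 h).mono fun _ a b i => a i b

theorem dns_sub {p : Set Om} (hp : IsClosed p) : Dns {v | v ⊆ p ∨ Disjoint v p} := by
  intro u hu
  by_cases e : u ⊆ p
  · exact ⟨u, le_rfl, hu, Or.inl e⟩
  · obtain ⟨ω, a, b⟩ := not_subset.1 e
    obtain ⟨V, c, d, -⟩ := hu.exists_sub a (mem_nhdsWithin_of_mem_nhds (hp.isOpen_compl.mem_nhds b))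
    exact ⟨V, c.trans inter_subset_left, d, Or.inr (disjoint_left.2 fun x hx => (c hx).2)⟩

/-- a set dense below `p` is met -/
theorem fc_meets {p : Set Om} {𝒟 : Set (Set Om)}
    (h : ∀ u, Cond u → u ⊆ p → ∃ v ⊆ u, Cond v ∧ v ∈ 𝒟) : Fc p fun g => ∃ X ∈ 𝒟, X ∈ g.G := by
  by_cases hp : Cond p
  · have hd : Dns {v | v ∈ 𝒟 ∨ Disjoint v p} := fun u hu => by
      obtain ⟨v, a, b, c | c⟩ := dns_sub hp.cl u hu
      · obtain ⟨w, a', b', c'⟩ := h v b c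
        exact ⟨w, a'.trans a, b', Or.inl c'⟩
      · exact ⟨v, a, b, Or.inr c⟩
    refine (gen_meets hd).mono ?_
    rintro g ⟨X, c | c, e⟩ hg
    · exact ⟨X, c, e⟩
    · exact (disjoint_left.1 c (g.mem X e) (g.mem p hg)).elim
  · exact Eventually.of_forall fun g hg => (hp (g.cond p hg)).elim

/-- patching -/
theorem fc_of_dense {p : Set Om} {P : Ω → Prop}
    (h : ∀ u, Cond u → u ⊆ p → ∃ v ⊆ u, Cond v ∧ Fc v P) : Fc p P := by
  have key : ∀ v, Fc v P → ∃ 𝒟 : ℕ → Set (Set Om), (∀ n, Dns (𝒟 n)) ∧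
      ∀ g : Ω, (∀ n, ∃ X ∈ 𝒟 n, X ∈ g.G) → v ∈ g.G → P g := fun _ h => h
  choose! 𝒟 h1 h2 using key
  have hm : ∀ n : ℕ, Fc p fun g => ∃ X ∈ {w | ∃ v, Cond v ∧ Fc v P ∧ w ⊆ v ∧ w ∈ 𝒟 v n ∧
      ∀ v', WellOrderingRel v' v → Cond v' → Fc v' P → ¬ ∃ x ⊆ w ∩ v', Cond x}, X ∈ g.G := by
    refine fun n => fc_meets fun u hu hs => ?_
    obtain ⟨v, ⟨a, b, x, c, d⟩, hv⟩ := (IsWellFounded.wf (r := WellOrderingRel)).has_min
      {v | Cond v ∧ Fc v P ∧ ∃ x ⊆ u ∩ v, Cond x}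
      (let ⟨v, a, b, c⟩ := h u hu hs; ⟨v, b, c, v, subset_inter a le_rfl, b⟩)
    obtain ⟨w, w1, w2, w3⟩ := h1 v b n x d
    have w4 : w ⊆ u := w1.trans (c.trans inter_subset_left)
    exact ⟨w, w4, w2, v, a, b, w1.trans (c.trans inter_subset_right), w3,
      fun v' r a' b' ⟨y, y1, y2⟩ =>
        hv v' ⟨a', b', y, y1.trans (inter_subset_inter_left _ w4), y2⟩ r⟩
  refine (Fc.forall hm).mono fun g _ hg => ?_
  choose w hw hG using hg
  choose v a b c d e using hw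
  have hv : ∀ n, v n ∈ g.G := fun n => g.up _ (hG n) _ (a n) (c n)
  have hn : ∀ n m, ¬ WellOrderingRel (v n) (v m) := fun n m r =>
    let ⟨W, w1, w2⟩ := g.dir _ (hG m) _ (hv n)
    e m _ r (a n) (b n) ⟨W, w2, g.cond W w1⟩
  have he : ∀ n, v n = v 0 := fun n =>
    ((trichotomous_of WellOrderingRel (v n) (v 0)).resolve_left (hn n 0)).resolve_right (hn 0 n)
  exact h2 (v 0) (b 0) g (fun n => ⟨w n, he n ▸ d n, hG n⟩) (hv 0)

instance : MeasurableSpace Ω where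
  MeasurableSet' A := Dns {p | Fc p (· ∈ A) ∨ Fc p (· ∉ A)}
  measurableSet_empty := fun p h => ⟨p, le_rfl, h, Or.inr (Eventually.of_forall fun _ _ => id)⟩
  measurableSet_compl := fun _ h p hp => let ⟨q, a, b, c⟩ := h p hp
    ⟨q, a, b, c.symm.imp id fun h => h.mono fun _ _ => not_not.2⟩
  measurableSet_iUnion := fun A h p hp => by
    by_cases e : ∃ q ⊆ p, Cond q ∧ ∃ n, Fc q (· ∈ A n)
    · obtain ⟨q, a, b, n, c⟩ := e
      exact ⟨q, a, b, Or.inl (c.mono fun _ _ h => mem_iUnion.2 ⟨n, h⟩)⟩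
    · refine ⟨p, le_rfl, hp, Or.inr ((Fc.forall fun n => fc_of_dense (P := (· ∉ A n))
        fun u hu hs => ?_).mono fun _ _ h h' => let ⟨n, hn⟩ := mem_iUnion.1 h'; h n hn)⟩
      obtain ⟨v, a, b, c⟩ := h n u hu
      exact ⟨v, a, b, c.resolve_left fun c => e ⟨v, a.trans hs, b, n, c⟩⟩

theorem meas_iff {P : Ω → Prop} :
    Measurable P ↔ ∀ p, Cond p → ∃ q ⊆ p, Cond q ∧ (Fc q P ∨ Fc q fun g => ¬ P g) :=
  measurableSet_setOfPred.symm

/-- a measurable function with countably many values is decided densely -/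
theorem exists_decide {γ : Type} [Countable γ] [MeasurableSpace γ] [MeasurableSingletonClass γ]
    {f : Ω → γ} (hf : Measurable f) {p : Set Om} (hp : Cond p) :
    ∃ q ⊆ p, Cond q ∧ ∃ a, Fc q fun g => f g = a := by
  by_contra hn
  have h1 : Fc p fun g => ∀ a, ¬ f g = a := Fc.forall fun a => fc_of_dense fun u hu hs => by
    obtain ⟨v, b, c, e⟩ := hf (measurableSet_singleton a) u hu
    exact ⟨v, b, c, e.resolve_left fun e => hn ⟨v, b.trans hs, c, a, e⟩⟩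
  obtain ⟨g, -, hg⟩ := h1.exists hp
  exact hg _ rfl

/-- properties of the point that are locally constant on a condition -/
theorem measurable_lc {q : Set Om} (hq : Cond q) {P : Om → Prop}
    (h : ∀ ω ∈ q, ∀ᶠ ω' in 𝓝[q] ω, P ω' ↔ P ω) : Measurable fun g : Ω => g.ω ∈ q ∧ P g.ω := by
  refine meas_iff.2 fun p hp => ?_
  obtain ⟨v, a, b, c | c⟩ := dns_sub hq.cl p hp
  · obtain ⟨ω, hω⟩ := b.ne
    obtain ⟨V, v1, v2, -⟩ := b.exists_sub hω (nhdsWithin_mono ω c (h ω (c hω)))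
    refine ⟨V, v1.trans (inter_subset_left.trans a), v2, ?_⟩
    by_cases e : P ω
    · exact Or.inl (Eventually.of_forall fun g hg =>
        ⟨c (v1 (g.mem V hg)).1, Iff.mpr (v1 (g.mem V hg)).2 e⟩)
    · exact Or.inr (Eventually.of_forall fun g hg hP => e (Iff.mp (v1 (g.mem V hg)).2 hP.2))
  · exact ⟨v, a, b, Or.inr (Eventually.of_forall fun g hg hP =>
      disjoint_left.1 c (g.mem v hg) hP.1)⟩

theorem measurable_coord (β : I) : Measurable fun g : Ω => g.ω β := by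
  refine measurable_pi_iff.2 fun m => measurable_to_countable' fun y => ?_
  have h := measurable_lc cond_univ (P := fun ω => ω β m = y) fun ω _ => by
    have : {ω' : Om | ω' β m = ω β m} ∈ 𝓝 ω :=
      ((isOpen_discrete {ω β m}).preimage
        ((continuous_apply m).comp (continuous_apply β))).mem_nhds rfl
    exact mem_nhdsWithin_of_mem_nhds (mem_of_superset this fun ω' (e : ω' β m = ω β m) =>
      show ω' β m = y ↔ ω β m = y by rw [e])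
  have e : (fun g : Ω => g.ω β m) ⁻¹' {y} = {g | g.ω ∈ (univ : Set Om) ∧ g.ω β m = y} :=
    Set.ext fun g => ⟨fun h => ⟨trivial, h⟩, fun h => h.2⟩
  rw [e]
  exact h.setOf

/-- a generic point of a condition has it in its filter -/
theorem gen_mem {q : Set Om} (hq : Cond q) : ∀ᶠ g in gen, g.ω ∈ q → q ∈ g.G := by
  refine (gen_meets (dns_sub hq.cl)).mono ?_
  rintro g ⟨X, c | c, e⟩ hg
  · exact g.up X e q hq c
  · exact (disjoint_left.1 c (g.mem X e) hg).elim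

/-- continuous reading of names -/
theorem cont_read {γ : Type} [Countable γ] [MeasurableSpace γ] [MeasurableSingletonClass γ]
    {f : ℕ → Ω → γ} (hf : ∀ n, Measurable (f n)) {p : Set Om} (hp : Cond p) :
    ∃ q ⊆ p, Cond q ∧ ∃ f' : ℕ → Om → γ, (∀ n, ∀ ω ∈ q, ∀ᶠ ω' in 𝓝[q] ω, f' n ω' = f' n ω) ∧
      Fc q fun g => ∀ n, f n g = f' n g.ω := by
  obtain ⟨-, -, -, a0, -⟩ := exists_decide (hf 0) hp
  have : Nonempty γ := ⟨a0⟩
  obtain ⟨q, q1, q2, H, -⟩ := fusion hp (Classical.arbitrary I) (Φ := fun _ _ _ _ => True)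
    (fun _ _ _ _ _ _ _ _ => trivial) (stepAt_true _ _)
    (Q := fun n W => Cond W ∧ ∃ a, Fc W fun g => f n g = a)
    (fun _ _ _ ⟨c, a, h⟩ hv hs => ⟨hv, a, h.anti c hs⟩)
    (fun n u hu _ => let ⟨v, a, b, c⟩ := exists_decide (hf n) hu; ⟨v, a, b, b, c⟩)
  choose! W w1 w2 w3 w4 w5 a ha using H
  have key : ∀ n, ∀ ω ∈ q, ∀ ω' ∈ W n ω, a n ω' = a n ω := fun n ω hω ω' h' => by
    have hq' := w1 n ω hω h'
    obtain ⟨V, v1, v2, -⟩ := (w2 n ω hω).exists_sub h'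
      (nhdsWithin_mono ω' (w1 n ω hω) (w4 n ω' hq'))
    obtain ⟨g, -, e, e'⟩ := (((ha n ω hω).anti (w2 n ω hω) (v1.trans inter_subset_left)).and
      ((ha n ω' hq').anti (w2 n ω' hq') (v1.trans inter_subset_right))).exists v2
    exact e'.symm.trans e
  refine ⟨q, q1, q2, a, fun n ω hω => mem_of_superset (w4 n ω hω) (key n ω hω),
    Fc.forall fun n => fc_of_dense fun u hu hs => ?_⟩
  obtain ⟨ω, hω⟩ := hu.ne
  obtain ⟨V, v1, v2, -⟩ := hu.exists_sub hω (nhdsWithin_mono ω hs (w4 n ω (hs hω)))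
  exact ⟨V, v1.trans inter_subset_left, v2,
    ((ha n ω (hs hω)).anti (w2 n ω (hs hω)) (v1.trans inter_subset_right)).mono fun g hg e =>
      e.trans (key n ω (hs hω) _ (v1 (g.mem V hg)).2).symm⟩

/-- what holds at generic points holds near every point -/
theorem Fc.near {q : Set Om} (hq : Cond q) {P : Ω → Prop} (h : Fc q P) {ω : Om} (hω : ω ∈ q)
    {N : Set Om} (hN : N ∈ 𝓝[q] ω) : ∃ g : Ω, g.ω ∈ q ∩ N ∧ P g := by
  obtain ⟨V, a, b, -⟩ := hq.exists_sub hω hN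
  obtain ⟨g, c, e⟩ := (h.anti hq (a.trans inter_subset_left)).exists b
  exact ⟨g, a (g.mem V c), e⟩

end Pool.Agent.Lib.MP_5ffd28_gt.CR
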