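import Pool.Agent.Lib.MP_5ffd28_gt.CR.GeoCol

/-! Bump functions of decorated nodes. -/

namespace Pool.Agent.Lib.MP_5ffd28_gt.CR

open Set

namespace GB

theorem col_of {c : Bool} {x : Finset ℕ} {r : ℝ} {t : ℕ} (hp : par c (cnt x t))
    (h : ∀ k ∈ x, (k < t → (k : ℝ) + 2 / 3 < r) ∧ (t ≤ k → r < k + 1 / 3)) : col c x r := by
  refine ⟨fun k hk => ?_, ?_⟩
  · rcases lt_or_ge k t with a | a
    exacts [Or.inr ((h k hk).1 a), Or.inl ((h k hk).2 a)]
  · have : (x.filter fun k : ℕ => (k : ℝ) + 1 / 2 < r) = x.filter (· < t) := by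
      refine Finset.filter_congr fun k hk => ⟨fun a => ?_, fun a => ?_⟩
      · by_contra b
        have := (h k hk).2 (not_lt.1 b)
        linarith
      · have := (h k hk).1 a
        linarith
    rw [this]; exact hp

theorem col_iff {c : Bool} {x : Finset ℕ} {r : ℝ} : col c x r ↔ ∃ t, par c (cnt x t) ∧
    ∀ k ∈ x, (k < t → (k : ℝ) + 2 / 3 < r) ∧ (t ≤ k → r < k + 1 / 3) := by
  refine ⟨fun ⟨h1, h2⟩ => ⟨⌈r - 1 / 2⌉₊, ?_, fun k hk => ⟨fun a => ?_, fun a => ?_⟩⟩,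
    fun ⟨t, a, b⟩ => col_of a b⟩
  · have : (x.filter fun k : ℕ => (k : ℝ) + 1 / 2 < r) = x.filter (· < ⌈r - 1 / 2⌉₊) := by
      refine Finset.filter_congr fun k _ => ?_
      rw [Nat.lt_ceil]
      constructor <;> intro <;> linarith
    rw [this] at h2; exact h2
  · rw [Nat.lt_ceil] at a
    rcases h1 k hk with b | b <;> linarith
  · rw [Nat.ceil_le] at a
    rcases h1 k hk with b | b <;> linarith

theorem isOpen_col (c : Bool) (x : Finset ℕ) : IsOpen {r : ℝ | col c x r} := by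
  have : {r : ℝ | col c x r} = ⋃ t, ⋃ _ : par c (cnt x t), ⋂ k ∈ x,
      ((⋂ _ : k < t, Ioi ((k : ℝ) + 2 / 3)) ∩ ⋂ _ : t ≤ k, Iio ((k : ℝ) + 1 / 3)) := by
    ext r; simp [col_iff]
  rw [this]
  refine isOpen_iUnion fun t => isOpen_iUnion fun _ => isOpen_biInter_finset fun k _ => ?_
  exact (isOpen_iInter_of_finite fun _ => isOpen_Ioi).inter
    (isOpen_iInter_of_finite fun _ => isOpen_Iio)

/-- the closed local set of a decorated member -/
def loc (c : Bool) (x : Finset ℕ) (θ : ℕ) : Set ℝ :=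
  {r | ¬ col c x r ∧ (c = true → r ≤ θ) ∧ (c = false → (θ : ℝ) ≤ r)}

/-- its open thickening -/
def out (c : Bool) (x : Finset ℕ) (θ : ℕ) : Set ℝ :=
  {r | ∃ r' ∈ loc c x θ, r' - 1 / 3 < r ∧ r < r' + 1 / 3}

theorem isClosed_loc (c : Bool) (x : Finset ℕ) (θ : ℕ) : IsClosed (loc c x θ) := by
  have : loc c x θ = {r : ℝ | col c x r}ᶜ ∩ ((⋂ _ : c = true, Iic (θ : ℝ)) ∩
      ⋂ _ : c = false, Ici (θ : ℝ)) := by
    ext r; simp [loc]
  rw [this]
  exact (isOpen_col c x).isClosed_compl.inter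
    ((isClosed_iInter fun _ => isClosed_Iic).inter (isClosed_iInter fun _ => isClosed_Ici))

theorem isOpen_out (c : Bool) (x : Finset ℕ) (θ : ℕ) : IsOpen (out c x θ) := by
  have : out c x θ = ⋃ r' ∈ loc c x θ, Ioo (r' - 1 / 3) (r' + 1 / 3) := by
    ext r; simp only [out, mem_ofPred_eq, mem_iUnion, mem_Ioo, exists_prop]
  rw [this]
  exact isOpen_biUnion fun _ _ => isOpen_Ioo

theorem loc_sub (c : Bool) (x : Finset ℕ) (θ : ℕ) : loc c x θ ⊆ out c x θ :=
  fun r h => ⟨r, h, by linarith, by linarith⟩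

theorem col_slot {c : Bool} {x : Finset ℕ} {r : ℝ} {t : ℕ} (h : ¬ nonc c x t)
    (h1 : (t : ℝ) - 1 / 3 < r) (h2 : r < t + 4 / 3) : col c x r := by
  simp only [nonc, not_or, not_not] at h
  refine col_of h.2 fun k hk => ⟨fun a => ?_, fun a => ?_⟩
  · have : (k : ℝ) + 1 ≤ t := by exact_mod_cast a
    linarith
  · have : t < k := lt_of_le_of_ne a fun e => h.1 (e ▸ hk)
    have : (t : ℝ) + 1 ≤ k := by exact_mod_cast this
    linarith

theorem loc_mid {c : Bool} {x : Finset ℕ} {θ k : ℕ} {r : ℝ} (hk : k ∈ x) (hs : side c θ k)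
    (h1 : (k : ℝ) + 1 / 3 ≤ r) (h2 : r ≤ k + 2 / 3) : r ∈ loc c x θ := by
  refine ⟨fun h => ?_, fun e => ?_, fun e => ?_⟩
  · rcases h.1 k hk with a | a <;> linarith
  · subst e
    have : (k : ℝ) + 1 ≤ θ := by exact_mod_cast (show k < θ from hs)
    linarith
  · subst e
    have : (θ : ℝ) ≤ k := by exact_mod_cast (show θ ≤ k from hs)
    linarith

theorem loc_facts {c : Bool} {m : ℕ} (x : K m) {θ : ℕ} (hp : par c (cnt x.1 θ)) {r : ℝ}
    (h : r ∈ loc c x.1 θ) : 1 / 3 ≤ r ∧ r ≤ ln m - 1 / 3 ∧ (c = true → r ≤ θ - 1 / 3) ∧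
      (c = false → (θ : ℝ) + 1 / 3 ≤ r) := by
  obtain ⟨h1, h2, h3⟩ := h
  have hL : ∀ k ∈ x.1, (k : ℝ) + 1 ≤ ln m := fun k hk => by exact_mod_cast x.lt hk
  have key : ¬ ((θ : ℝ) - 1 / 3 < r ∧ r < θ + 1 / 3) := fun ⟨a, b⟩ =>
    h1 <| col_of hp fun k _ => ⟨fun u => by
      have : (k : ℝ) + 1 ≤ θ := by exact_mod_cast u
      linarith, fun u => by
      have : (θ : ℝ) ≤ k := by exact_mod_cast u
      linarith⟩
  refine ⟨?_, ?_, fun e => ?_, fun e => ?_⟩
  · by_contra! a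
    cases c
    · refine h1 (col_of hp fun k _ => ⟨fun u => ?_, fun _ => ?_⟩)
      · have : (k : ℝ) + 1 ≤ θ := by exact_mod_cast u
        have := h3 rfl
        have : (0 : ℝ) ≤ k := k.cast_nonneg
        linarith
      · have : (0 : ℝ) ≤ k := k.cast_nonneg
        linarith
    · refine h1 (col_of (t := 0) (by simp [par, cnt]) fun k _ => ⟨fun u => absurd u (by simp), fun _ => ?_⟩)
      have : (0 : ℝ) ≤ k := k.cast_nonneg
      linarith
  · by_contra! a
    cases c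
    · refine h1 (col_of (t := ln m) ?_ fun k hk => ⟨fun _ => ?_, fun u => ?_⟩)
      · have : x.1.filter (· < ln m) = x.1 := Finset.filter_true_of_mem fun k hk => x.lt hk
        simpa [par, cnt, this] using x.odd
      · have := hL k hk
        linarith
      · exact absurd (x.lt hk) (not_lt.2 u)
    · refine h1 (col_of hp fun k hk => ⟨fun _ => ?_, fun u => ?_⟩)
      · have := hL k hk
        linarith
      · have : (θ : ℝ) ≤ k := by exact_mod_cast u
        have := hL k hk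
        have := h2 rfl
        linarith
  · by_contra! a
    exact key ⟨a, by have := h2 e; linarith⟩
  · by_contra! a
    exact key ⟨by have := h3 e; linarith, a⟩

theorem out_facts {c : Bool} {m : ℕ} (x : K m) {θ : ℕ} (hp : par c (cnt x.1 θ)) {r : ℝ}
    (h : r ∈ out c x.1 θ) : (0 < r ∧ r < ln m) ∧ side c θ ⌊r⌋₊ ∧ nonc c x.1 ⌊r⌋₊ ∧
      (r ∉ loc c x.1 θ → col c x.1 r) := by
  obtain ⟨r', h0, h1, h2⟩ := h
  obtain ⟨a1, a2, a3, a4⟩ := loc_facts x hp h0
  have hr : 0 < r := by linarith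
  refine ⟨⟨hr, by linarith⟩, ?_, ?_, fun hn => ?_⟩
  · cases c
    · exact (show θ ≤ ⌊r⌋₊ from Nat.le_floor (by have := a4 rfl; linarith))
    · exact (show ⌊r⌋₊ < θ from (Nat.floor_lt hr.le).2 (by have := a3 rfl; linarith))
  · by_contra b
    have := Nat.floor_le hr.le
    have := Nat.lt_floor_add_one r
    exact h0.1 (col_slot b (by linarith) (by linarith))
  · by_contra b
    exact hn ⟨b, fun e => by have := a3 e; linarith, fun e => by have := a4 e; linarith⟩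

theorem ph_mid {m : ℕ} {x : Finset ℕ} {k : ℕ} {r : ℝ} (h1 : 0 < ph m x k r)
    (h2 : ph m x k r < ln (m + 1)) : (k : ℝ) + 1 / 3 < r ∧ r < k + 2 / 3 := by
  have hL : (0 : ℝ) < ln (m + 1) := by exact_mod_cast ln_pos _
  unfold ph at h1 h2
  split_ifs at h1 h2 <;> constructor <;> nlinarith

theorem continuous_ph (m : ℕ) (x : Finset ℕ) (k : ℕ) : Continuous (ph m x k) := by
  unfold ph
  split_ifs <;> fun_prop

/-- coordinates along a path in a sequence of members -/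
noncomputable def cx (X : ℕ → Finset ℕ) (k : ℕ → ℕ) : ℕ → ℝ → ℝ
  | 0 => fun s => s
  | n + 1 => fun s => ph n (X n) (k n) (cx X k n s)

theorem continuous_cx (X : ℕ → Finset ℕ) (k : ℕ → ℕ) : ∀ n, Continuous (cx X k n)
  | 0 => continuous_id
  | n + 1 => (continuous_ph _ _ _).comp (continuous_cx X k n)

theorem finite_cx (X : ℕ → Finset ℕ) :
    ∀ n, {f | ∃ k, (∀ i < n, k i ∈ X i) ∧ cx X k n = f}.Finite
  | 0 => (finite_singleton fun s => s).subset fun _ ⟨_, _, h⟩ => h.symm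
  | n + 1 => (((finite_cx X n).prod (X n).finite_toSet).image
      fun p : (ℝ → ℝ) × ℕ => fun s => ph n (X n) p.2 (p.1 s)).subset
        fun _ ⟨k, h1, h2⟩ => ⟨(cx X k n, k n),
          ⟨⟨k, fun i hi => h1 i (Nat.lt_succ_of_lt hi), rfl⟩, h1 n n.lt_succ_self⟩, h2⟩

theorem cx_eq {X : ℕ → Finset ℕ} {z : Z} (k : ℕ → ℕ) (s : ℝ) :
    ∀ n, (∀ i < n, X i = (z i).1) → cx X k n s = crd z k s n
  | 0, _ => rfl
  | n + 1, h => by
    show ph n (X n) (k n) (cx X k n s) = ph n (z n).1 (k n) (crd z k s n)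
    rw [h n n.lt_succ_self, cx_eq k s n fun i hi => h i (Nat.lt_succ_of_lt hi)]

theorem crd_pth (z : Z) (s : ℝ) : ∀ n, crd z (pth z s) s n = trj z s n
  | 0 => rfl
  | n + 1 => by
    show ph n (z n).1 (pth z s n) (crd z (pth z s) s n) = ph n (z n).1 ⌊trj z s n⌋₊ (trj z s n)
    rw [crd_pth z s n]; rfl

theorem trj_congr {z z' : Z} (s : ℝ) : ∀ n, (∀ i < n, z i = z' i) → trj z s n = trj z' s n
  | 0, _ => rfl
  | n + 1, h => by
    show ph n (z n).1 ⌊trj z s n⌋₊ (trj z s n) = ph n (z' n).1 ⌊trj z' s n⌋₊ (trj z' s n)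
    rw [h n n.lt_succ_self, trj_congr s n fun i hi => h i (Nat.lt_succ_of_lt hi)]

theorem mid_win {m k : ℕ} (x : K m) (hk : k ∈ x.1) {r : ℝ} (h1 : (k : ℝ) + 1 / 3 < r)
    (h2 : r < k + 2 / 3) : 0 < r ∧ r < ln m := by
  have : (k : ℝ) + 1 ≤ ln m := by exact_mod_cast x.lt hk
  have : (0 : ℝ) ≤ k := k.cast_nonneg
  constructor <;> linarith

theorem crd_back {z : Z} {k : ℕ → ℕ} {s : ℝ} : ∀ n, (∀ i < n, k i ∈ (z i).1) →
    0 < crd z k s n → crd z k s n < ln n →
      ∀ i < n, (k i : ℝ) + 1 / 3 < crd z k s i ∧ crd z k s i < k i + 2 / 3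
  | 0, _, _, _ => fun _ hi => absurd hi (Nat.not_lt_zero _)
  | n + 1, h, h1, h2 => fun i hi => by
    have a := ph_mid (m := n) (x := (z n).1) (k := k n) (r := crd z k s n) h1 h2
    rcases (Nat.lt_succ_iff.1 hi).eq_or_lt with e | e
    · rw [e]; exact a
    · have b := mid_win (z n) (h n n.lt_succ_self) a.1 a.2
      exact crd_back n (fun j hj => h j (Nat.lt_succ_of_lt hj)) b.1 b.2 i e

theorem floor_mid {k : ℕ} {r : ℝ} (h1 : (k : ℝ) + 1 / 3 < r) (h2 : r < k + 2 / 3) : ⌊r⌋₊ = k := by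
  have : (0 : ℝ) ≤ k := k.cast_nonneg
  rw [Nat.floor_eq_iff (by linarith)]
  constructor <;> linarith

theorem crd_fwd {z : Z} {k : ℕ → ℕ} {s : ℝ} : ∀ n,
    (∀ i < n, (k i : ℝ) + 1 / 3 < crd z k s i ∧ crd z k s i < k i + 2 / 3) →
      crd z k s n = trj z s n
  | 0, _ => rfl
  | n + 1, h => by
    show ph n (z n).1 (k n) (crd z k s n) = ph n (z n).1 ⌊trj z s n⌋₊ (trj z s n)
    have e := crd_fwd n fun i hi => h i (Nat.lt_succ_of_lt hi)
    rw [← e, floor_mid (h n n.lt_succ_self).1 (h n n.lt_succ_self).2]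

def xs (d : D) (i : ℕ) : Finset ℕ := (d.getD i (∅, 0)).1

def ts (d : D) (i : ℕ) : ℕ := (d.getD i (∅, 0)).2

theorem get_eq {d : D} {i : ℕ} (hi : i < d.length) : d[i]? = some (xs d i, ts d i) := by
  simp [xs, ts, List.getD_eq_getElem?_getD, List.getElem?_eq_getElem hi]

theorem on_xs {d : D} {z : Z} (h : On d z) {i : ℕ} (hi : i < d.length) : xs d i = (z i).1 :=
  (h i _ (by simp [get_eq hi])).symm

theorem on_agree {d : D} {z z' : Z} (h : On d z) (h' : On d z') {i : ℕ} (hi : i < d.length) :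
    z i = z' i := K.ext ((on_xs h hi).symm.trans (on_xs h' hi))

theorem ts_pre {d e : D} (h : d <+: e) {i : ℕ} (hi : i < d.length) : ts e i = ts d i := by
  obtain ⟨u, rfl⟩ := h
  simp [ts, List.getD_eq_getElem?_getD, List.getElem?_append_left hi]

/-- the cells along the allowed slots of `d`, with the set `P` at the last level -/
def R (c : Bool) (P : Finset ℕ → ℕ → Set ℝ) (d : D) : Set ℝ :=
  {s | ∃ k, (∀ i < d.length - 1, k i ∈ xs d i ∧ side c (ts d i) (k i)) ∧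
    cx (xs d) k (d.length - 1) s ∈ P (xs d (d.length - 1)) (ts d (d.length - 1))}

theorem isOpen_R (c : Bool) (d : D) : IsOpen (R c (out c) d) := by
  have : R c (out c) d = ⋃ k, ⋃ _ : ∀ i < d.length - 1, k i ∈ xs d i ∧ side c (ts d i) (k i),
      cx (xs d) k (d.length - 1) ⁻¹' out c (xs d (d.length - 1)) (ts d (d.length - 1)) := by
    ext s; simp [R]
  rw [this]
  exact isOpen_iUnion fun k => isOpen_iUnion fun _ =>
    (isOpen_out _ _ _).preimage (continuous_cx _ _ _)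

theorem isClosed_R (c : Bool) (d : D) : IsClosed (R c (loc c) d) := by
  have : R c (loc c) d = ⋃ f ∈ {f | ∃ k, (∀ i < d.length - 1, k i ∈ xs d i ∧
      side c (ts d i) (k i)) ∧ cx (xs d) k (d.length - 1) = f},
      f ⁻¹' loc c (xs d (d.length - 1)) (ts d (d.length - 1)) := by
    ext s
    simp only [R, mem_ofPred_eq, mem_iUnion, mem_preimage, exists_prop]
    exact ⟨fun ⟨k, a, b⟩ => ⟨_, ⟨k, a, rfl⟩, b⟩, fun ⟨_, ⟨k, a, e⟩, b⟩ => ⟨k, a, e ▸ b⟩⟩
  rw [this]
  refine Finite.isClosed_biUnion ((finite_cx (xs d) (d.length - 1)).subset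
    fun _ ⟨k, a, b⟩ => ⟨k, fun i hi => (a i hi).1, b⟩) ?_
  rintro _ ⟨k, -, rfl⟩
  exact (isClosed_loc _ _ _).preimage (continuous_cx _ _ _)

theorem R_sub (c : Bool) (d : D) : R c (loc c) d ⊆ R c (out c) d :=
  fun _ ⟨k, a, b⟩ => ⟨k, a, loc_sub _ _ _ b⟩

theorem R_of {c : Bool} {P : Finset ℕ → ℕ → Set ℝ} {d : D} {z : Z} {s : ℝ} {n : ℕ} (h : On d z)
    (hn : d.length = n + 1) (h1 : ∀ i < n, pth z s i ∈ (z i).1 ∧ side c (ts d i) (pth z s i))
    (h2 : trj z s n ∈ P (z n).1 (ts d n)) : s ∈ R c P d := by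
  have e : ∀ i ≤ n, xs d i = (z i).1 := fun i hi => on_xs h (by omega)
  refine ⟨pth z s, ?_, ?_⟩ <;> rw [hn, Nat.add_sub_cancel]
  · intro i hi
    rw [e i hi.le]; exact h1 i hi
  · rw [cx_eq _ _ n fun i hi => e i hi.le, crd_pth, e n le_rfl]; exact h2

theorem val_par {c : Bool} {F : Set Z} {d : D} {z : Z} {n : ℕ} (hv : Val c F d) (h : On d z)
    (hn : d.length = n + 1) : par c (cnt (z n).1 (ts d n)) := by
  rw [← on_xs h (show n < d.length by omega)]
  refine hv.2 _ _ ?_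
  rw [List.getLast?_eq_getElem?, hn, Nat.add_sub_cancel]
  exact get_eq (by omega)

theorem of_R {c : Bool} {F : Set Z} {d : D} {z : Z} {s : ℝ} {n : ℕ} (hv : Val c F d) (h : On d z)
    (hn : d.length = n + 1) (hs : s ∈ R c (out c) d) :
    (∀ i < n, pth z s i ∈ (z i).1 ∧ side c (ts d i) (pth z s i) ∧
      (pth z s i : ℝ) + 1 / 3 < trj z s i ∧ trj z s i < pth z s i + 2 / 3) ∧
      trj z s n ∈ out c (z n).1 (ts d n) := by
  have e : ∀ i ≤ n, xs d i = (z i).1 := fun i hi => on_xs h (by omega)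
  obtain ⟨k, h1, h2⟩ := hs
  rw [hn, Nat.add_sub_cancel] at h1 h2
  rw [cx_eq _ _ n fun i hi => e i hi.le, e n le_rfl] at h2
  have hk : ∀ i < n, k i ∈ (z i).1 := fun i hi => e i hi.le ▸ (h1 i hi).1
  have w := (out_facts (z n) (val_par hv h hn) h2).1
  have b := crd_back n hk w.1 w.2
  have f : ∀ i ≤ n, crd z k s i = trj z s i := fun i hi =>
    crd_fwd i fun j hj => b j (hj.trans_le hi)
  refine ⟨fun i hi => ?_, f n le_rfl ▸ h2⟩
  have g := b i hi
  rw [f i hi.le] at g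
  have : pth z s i = k i := floor_mid g.1 g.2
  rw [this]
  exact ⟨hk i hi, (h1 i hi).2, g⟩

theorem slot {c : Bool} {F : Set Z} {d : D} {z : Z} {s : ℝ} (hv : Val c F d) (h : On d z)
    (hs : s ∈ R c (out c) d) {i : ℕ} (hi : i < d.length) :
    (∀ j < i, pth z s j ∈ (z j).1) ∧ (0 < trj z s i ∧ trj z s i < ln i) ∧
      side c (ts d i) (pth z s i) ∧ nonc c (z i).1 (pth z s i) := by
  obtain ⟨n, hn⟩ : ∃ n, d.length = n + 1 := ⟨d.length - 1, by omega⟩
  obtain ⟨a, b⟩ := of_R hv h hn hs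
  refine ⟨fun j hj => (a j (by omega)).1, ?_⟩
  rcases (show i ≤ n by omega).eq_or_lt with e | e
  · subst e
    have := out_facts (z i) (val_par hv h hn) b
    exact ⟨this.1, this.2.1, this.2.2.1⟩
  · obtain ⟨a1, a2, a3, a4⟩ := a i e
    exact ⟨mid_win (z i) a1 a3 a4, a2, Or.inl a1⟩

theorem mem_Col {c : Bool} {z : Z} {s : ℝ} {n : ℕ} (h1 : ∀ j < n, pth z s j ∈ (z j).1)
    (h2 : 0 < trj z s n ∧ trj z s n < ln n) (h3 : col c (z n).1 (trj z s n)) : s ∈ Col c z := by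
  refine ⟨n, pth z s, h1, fun _ => ?_, ?_⟩ <;> rw [crd_pth]
  · constructor <;> linarith [h2.1, h2.2]
  · exact h3

theorem first_diff {z z' : Z} {i : ℕ} (h : z i ≠ z' i) :
    ∃ j ≤ i, z j ≠ z' j ∧ ∀ l < j, z l = z' l := by
  classical
  have ex : ∃ j, z j ≠ z' j := ⟨i, h⟩
  exact ⟨Nat.find ex, Nat.find_min' ex h, Nat.find_spec ex,
    fun l hl => not_not.1 (Nat.find_min ex hl)⟩

theorem val_ok {c : Bool} {F : Set Z} {d : D} {z : Z} (hv : Val c F d) (h : On d z) {i : ℕ}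
    (hi : i < d.length) : OK c (sc F z i) (z i).1 (ts d i) := by
  obtain ⟨⟨z0, -, a, b⟩, -⟩ := hv
  rw [← on_xs h hi, sc_congr (z' := z0) fun j hj => on_agree h a (hj.trans hi)]
  exact b i _ _ (get_eq hi)

/-- the slot of a valid node is purely of colour `c` for a branch leaving the node there -/
theorem leave {c : Bool} {F : Set Z} {d : D} {z z' : Z} {s : ℝ} (hv : Val c F d) (h : On d z)
    (hs : s ∈ R c (out c) d) (hz : z' ∈ F) {j : ℕ} (hj : j < d.length) (h1 : z j ≠ z' j)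
    (h2 : ∀ l < j, z l = z' l) : ¬ nonc c (z' j).1 (pth z' s j) := by
  obtain ⟨-, -, a, b⟩ := slot hv h hs hj
  have e : pth z' s j = pth z s j := by unfold pth; rw [trj_congr s j h2]
  rw [e]
  exact fun u => ((val_ok hv h hj).1 _ ⟨z', hz, fun l hl => (h2 l hl).symm, rfl⟩
    fun v => h1 (K.ext v.symm)).2 _ a ⟨b, u⟩

end GB

open GB in
theorem exists_bump (c : Bool) : ∃ β, Bump c β := by
  have H : ∀ d : D, ∃ f : C(ℝ, ℝ), EqOn f 0 (R c (out c) d)ᶜ ∧ EqOn f 1 (R c (loc c) d) ∧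
      ∀ x, f x ∈ Icc (0 : ℝ) 1 := fun d =>
    exists_continuous_zero_one_of_isClosed (isOpen_R c d).isClosed_compl (isClosed_R c d)
      (disjoint_left.2 fun s a b => a (R_sub c d b))
  choose f f0 f1 f2 using H
  have g0 : ∀ d s, f d s ≠ 0 → s ∈ R c (out c) d := fun d s h => by
    by_contra a; exact h (f0 d a)
  have g1 : ∀ d s, s ∈ R c (loc c) d → f d s = 1 := fun d s h => f1 d h
  have len : ∀ d : D, d ≠ [] → ∃ n, d.length = n + 1 := fun d h =>
    ⟨d.length - 1, by have := List.length_pos_iff.2 h; omega⟩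
  refine ⟨fun d => f d, fun d => (f d).continuous, fun d s => (f2 d s).1, fun d s => (f2 d s).2,
    ?_, ?_, ?_, ?_, ?_, ?_, ?_⟩
  · intro F e s hv he h
    obtain ⟨z, -, hz, -⟩ := hv.1
    exact (slot hv hz (g0 _ _ h) (List.length_pos_iff.2 he)).2.1
  · intro F d e s _ hv hd hp hne h
    obtain ⟨z, -, hz, -⟩ := hv.1
    obtain ⟨n, hn⟩ := len d hd
    have lt : d.length < e.length := lt_of_le_of_ne hp.length_le fun u => hne (hp.eq_of_length u)
    obtain ⟨n', hn'⟩ : ∃ n', e.length = n' + 1 := ⟨e.length - 1, by omega⟩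
    obtain ⟨a, -⟩ := of_R hv hz hn' (g0 _ _ h)
    refine g1 _ _ (R_of (hz.mono hp) hn (fun i hi => ?_) ?_)
    · rw [← ts_pre hp (show i < d.length by omega)]
      exact ⟨(a i (by omega)).1, (a i (by omega)).2.1⟩
    · rw [← ts_pre hp (show n < d.length by omega)]
      obtain ⟨a1, a2, a3, a4⟩ := a n (by omega)
      exact loc_mid a1 a2 a3.le a4.le
  · intro F d e s hd he hi
    by_contra! h
    obtain ⟨z, -, hz, -⟩ := hd.1
    obtain ⟨z', hF, hz', -⟩ := he.1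
    obtain ⟨i, x, θ, y, θ', a, b, ne⟩ := hi
    have l1 : i < d.length := (List.getElem?_eq_some_iff.1 a).1
    have l2 : i < e.length := (List.getElem?_eq_some_iff.1 b).1
    have : z i ≠ z' i := fun u => ne ((hz i x (by simp [a])).symm.trans
      ((congrArg Subtype.val u).trans (hz' i y (by simp [b]))))
    obtain ⟨j, hj, h1, h2⟩ := first_diff this
    exact leave hd hz (g0 _ _ h.1) hF (hj.trans_lt l1) h1 h2
      (slot he hz' (g0 _ _ h.2) (hj.trans_lt l2)).2.2.2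
  · intro F d z s hv hd hz h0 h1
    obtain ⟨n, hn⟩ := len d hd
    obtain ⟨a, b⟩ := of_R hv hz hn (g0 _ _ h0)
    have o := out_facts (z n) (val_par hv hz hn) b
    exact mem_Col (fun j hj => (a j hj).1) o.1 (o.2.2.2 fun u =>
      h1 (g1 _ _ (R_of hz hn (fun i hi => ⟨(a i hi).1, (a i hi).2.1⟩) u)))
  · intro F d z' s hv hF hn h
    obtain ⟨z, -, hz, -⟩ := hv.1
    obtain ⟨i, l1, ne⟩ : ∃ i < d.length, z i ≠ z' i := by
      by_contra! u
      refine hn fun i x hx => ?_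
      have : i < d.length := by simpa using (List.getElem?_eq_some_iff.1 hx).1
      rw [← u i this]; exact hz i x hx
    obtain ⟨j, hj, h1, h2⟩ := first_diff ne
    have lv := leave hv hz (g0 _ _ h) hF (hj.trans_lt l1) h1 h2
    obtain ⟨a, b, -⟩ := slot hv hz (g0 _ _ h) (hj.trans_lt l1)
    rw [trj_congr s j h2] at b
    refine mem_Col (n := j) (fun l hl => ?_) b (col_slot lv ?_ ?_)
    · have := a l hl
      unfold pth at this ⊢
      rwa [trj_congr s l fun i hi => h2 i (hi.trans hl), h2 l hl] at this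
    · have := Nat.floor_le b.1.le
      unfold pth; linarith
    · have := Nat.lt_floor_add_one (trj z' s j)
      unfold pth; linarith
  · intro F d z s hv hd hz hs
    obtain ⟨n, hn⟩ := len d hd
    have sd : ∀ i < d.length, side c (ts d i) (pth z s i) := fun i hi =>
      (val_ok hv hz hi).2 _ (hs.1 i).1 (hs.2 i)
    exact g1 _ _ (R_of hz hn (fun i hi => ⟨(hs.1 i).1, sd i (by omega)⟩)
      (loc_mid (hs.1 n).1 (sd n (by omega)) (hs.1 n).2.1 (hs.1 n).2.2))
  · intro F z s h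
    refine ⟨fun n => ?_, fun n y hy ne => ?_⟩
    · obtain ⟨d, hv, hl, hz, h0⟩ := h (n + 2)
      obtain ⟨a1, -, a3, a4⟩ := (of_R hv hz (n := d.length - 1) (by omega) (g0 _ _ h0)).1 n
        (by omega)
      exact ⟨a1, a3.le, a4.le⟩
    · obtain ⟨d, hv, hl, hz, h0⟩ := h (n + 1)
      have o := (val_ok hv hz (show n < d.length by omega)).1 y hy ne
      exact ⟨ts d n, (slot hv hz (g0 _ _ h0) (show n < d.length by omega)).2.2.1, o⟩

end Pool.Agent.Lib.MP_5ffd28_gt.CR
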