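import Pool.Agent.Lib.MP_5ffd28_gt.CR.Br

/-! The Cantor set of a branch, its coloured gaps, cubes and decorated nodes: definitions. -/

namespace Pool.Agent.Lib.MP_5ffd28_gt.CR

open Set

/-- `r` lies outside the closed middle thirds of the slots of `x` and has colour `c` -/
def col (c : Bool) (x : Finset ℕ) (r : ℝ) : Prop :=
  (∀ k ∈ x, r < k + 1 / 3 ∨ (k : ℝ) + 2 / 3 < r) ∧
    par c (x.filter fun k : ℕ => (k : ℝ) + 1 / 2 < r).card

/-- the affine map of the middle third of slot `k` onto `[0, ln (m + 1)]`, A-end to `0` -/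
noncomputable def ph (m : ℕ) (x : Finset ℕ) (k : ℕ) (r : ℝ) : ℝ :=
  if Even (cnt x k) then 3 * ln (m + 1) * (r - k - 1 / 3) else 3 * ln (m + 1) * (k + 2 / 3 - r)

/-- coordinates along a path -/
noncomputable def crd (z : Z) (k : ℕ → ℕ) (s : ℝ) : ℕ → ℝ
  | 0 => s
  | n + 1 => ph n (z n).1 (k n) (crd z k s n)

/-- the gaps of colour `c` -/
def Col (c : Bool) (z : Z) : Set ℝ :=
  {s | ∃ n k, (∀ i < n, k i ∈ (z i).1) ∧
    (n ≠ 0 → -(ln n : ℝ) < crd z k s n ∧ crd z k s n < 2 * ln n) ∧ col c (z n).1 (crd z k s n)}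

/-- the coordinates of `s` along its own path -/
noncomputable def trj (z : Z) (s : ℝ) : ℕ → ℝ
  | 0 => s
  | n + 1 => ph n (z n).1 ⌊trj z s n⌋₊ (trj z s n)

noncomputable def pth (z : Z) (s : ℝ) (n : ℕ) : ℕ := ⌊trj z s n⌋₊

/-- the Cantor set of `z` -/
def KK (z : Z) : Set ℝ :=
  {s | ∀ n, pth z s n ∈ (z n).1 ∧ (pth z s n : ℝ) + 1 / 3 ≤ trj z s n ∧
    trj z s n ≤ pth z s n + 2 / 3}

def cube (c : Bool) (F : Set Z) (z : Z) : Set ℝ :=
  {s | s ∈ KK z ∧ ∀ n, ∀ y ∈ sc F z n, y ≠ (z n).1 → Priv c (z n).1 y (pth z s n)}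

/-- decorated nodes -/
abbrev D : Type := List (Finset ℕ × ℕ)

instance : MeasurableSpace D := ⊤
instance : DiscreteMeasurableSpace D := ⟨fun _ => trivial⟩

def On (d : D) (z : Z) : Prop := OnS (d.map Prod.fst) z

/-- the decoration `θ` of `x` among the siblings `C` -/
def OK (c : Bool) (C : Set (Finset ℕ)) (x : Finset ℕ) (θ : ℕ) : Prop :=
  (∀ y ∈ C, y ≠ x → par c (cnt x θ) ∧ Apart c θ x y) ∧
    ∀ k ∈ x, (∀ y ∈ C, y ≠ x → Priv c x y k) → side c θ k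

/-- valid nodes of the tree `F` -/
def Val (c : Bool) (F : Set Z) (d : D) : Prop :=
  (∃ z ∈ F, On d z ∧ ∀ i x θ, d[i]? = some (x, θ) → OK c (sc F z i) x θ) ∧
    ∀ x θ, d.getLast? = some (x, θ) → par c (cnt x θ)

/-- incomparable nodes -/
def Inc (d e : D) : Prop :=
  ∃ (i : ℕ) (x : Finset ℕ) (θ : ℕ) (y : Finset ℕ) (θ' : ℕ),
    d[i]? = some (x, θ) ∧ e[i]? = some (y, θ') ∧ x ≠ y

/-- `l` lists the successors of a node of norm `n` above `d` -/
def Spl (n : ℕ) (d : D) (l : List D) : Prop :=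
  ∃ e : D, d <+: e ∧ n ≤ e.length ∧ (∀ d' ∈ l, ∃ p, d' = e ++ [p]) ∧ l.Pairwise Inc ∧
    nor n {x | ∃ θ, e ++ [(x, θ)] ∈ l}

/-- bump functions of the nodes -/
structure Bump (c : Bool) (β : D → ℝ → ℝ) : Prop where
  cont : ∀ d, Continuous (β d)
  nonneg : ∀ d s, 0 ≤ β d s
  le_one : ∀ d s, β d s ≤ 1
  root : ∀ F e s, Val c F e → e ≠ [] → β e s ≠ 0 → 0 < s ∧ s < ln 0
  nest : ∀ F d e s, Val c F d → Val c F e → d ≠ [] → d <+: e → d ≠ e → β e s ≠ 0 → β d s = 1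
  disj : ∀ F d e s, Val c F d → Val c F e → Inc d e → β d s = 0 ∨ β e s = 0
  margin : ∀ F d z s, Val c F d → d ≠ [] → On d z → β d s ≠ 0 → β d s ≠ 1 → s ∈ Col c z
  off : ∀ F d z s, Val c F d → z ∈ F → ¬ On d z → β d s ≠ 0 → s ∈ Col c z
  of_cube : ∀ F d z s, Val c F d → d ≠ [] → On d z → s ∈ cube c F z → β d s = 1
  to_cube : ∀ F z s, (∀ n, ∃ d, Val c F d ∧ n ≤ d.length ∧ On d z ∧ β d s ≠ 0) → s ∈ cube c F z

/-- the right end point -/
noncomputable def PP : ℝ := ln 0 + 1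

theorem cube_anti {c : Bool} {F F' : Set Z} (h : F ⊆ F') (z : Z) : cube c F' z ⊆ cube c F z :=
  fun _ hs => ⟨hs.1, fun n y hy => hs.2 n y (sc_mono h z n hy)⟩

theorem cube_disj {F : Set Z} {z : Z} (hF : Good F) (hz : z ∈ F) {s : ℝ} (h : s ∈ cube true F z)
    (h' : s ∈ cube false F z) : False := by
  obtain ⟨m, -, h1⟩ := hF z hz 0
  obtain ⟨y, h2, h3⟩ := nor_ne h1 (z m).1
  exact priv_excl (h.1 m).1 (h.2 m y h2 h3) (h'.2 m y h2 h3)

theorem Inc.mono {d e d' e' : D} (h : Inc d e) (hd : d <+: d') (he : e <+: e') : Inc d' e' := by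
  obtain ⟨i, x, θ, y, θ', a, b, c⟩ := h
  obtain ⟨u, rfl⟩ := hd
  obtain ⟨v, rfl⟩ := he
  refine ⟨i, x, θ, y, θ', ?_, ?_, c⟩
  · rw [List.getElem?_append_left (List.getElem?_eq_some_iff.1 a).1, a]
  · rw [List.getElem?_append_left (List.getElem?_eq_some_iff.1 b).1, b]

theorem Inc.symm {d e : D} : Inc d e → Inc e d
  | ⟨i, x, θ, y, θ', a, b, c⟩ => ⟨i, y, θ', x, θ, b, a, c.symm⟩

theorem Inc.not_on {d e : D} (h : Inc d e) {z : Z} (hd : On d z) (he : On e z) : False := by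
  obtain ⟨i, x, θ, y, θ', a, b, c⟩ := h
  exact c ((hd i x (by simp [a])).symm.trans (he i y (by simp [b])))

theorem On.mono {d e : D} {z : Z} (h : On e z) (hd : d <+: e) : On d z := by
  obtain ⟨u, rfl⟩ := hd
  intro i x hi
  refine h i x ?_
  rw [List.map_append, List.getElem?_append_left (List.getElem?_eq_some_iff.1 hi).1, hi]

end Pool.Agent.Lib.MP_5ffd28_gt.CR
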