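import Pool.Agent.Lib.MP_5ffd28_gt.CR.NbDefs
import Pool.Agent.Lib.MP_5ffd28_gt.CR.Free

/-! A continuous real function gives an open homomorphism or a kill. -/

namespace Pool.Agent.Lib.MP_5ffd28_gt.CR

open Set Filter Topology Pool.Agent.Shared.Forcing Pool.Agent.Lib.MP_23bd8d_gt Cohen

set_option synthInstance.maxSize 4000

section algebra

variable {M : Type*} {E : M → M → Prop} {G A T : M}

theorem kl_mem (h : TopAb E G A T) {x y z : M} (hx : E x G) (hy : E y G) (e : Op E A x y z) :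
    E z G :=
  let ⟨_, a, b⟩ := h.1 x y hx hy; (b z).1 e ▸ a

theorem kl_uniq (h : TopAb E G A T) {x y z z' : M} (hx : E x G) (hy : E y G) (e : Op E A x y z)
    (e' : Op E A x y z') : z = z' :=
  let ⟨_, _, b⟩ := h.1 x y hx hy; ((b z).1 e).trans ((b z').1 e').symm

theorem kl_sub (h : TopAb E G A T) {x y : M} (hx : E x G) (hy : E y G) :
    ∃ z, E z G ∧ Op E A z y x := by
  obtain ⟨e, he, h1⟩ := h.2.2.2.1
  obtain ⟨-, y', a, b⟩ := h1 y hy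
  obtain ⟨z, c, d⟩ := h.1 x y' hx a
  obtain ⟨w, -, f⟩ := h.1 z y c hy
  have := h.2.1 x y' y z e w hx a hy ((d z).2 rfl) ((f w).2 rfl) (h.2.2.1 _ _ _ hy a b)
  exact ⟨z, c, (f x).2 (kl_uniq h hx he (h1 x hx).1 this)⟩

theorem kl_cancel (h : TopAb E G A T) {x y z z' : M} (hy : E y G) (hz : E z G) (hz' : E z' G)
    (e : Op E A z y x) (e' : Op E A z' y x) : z = z' := by
  obtain ⟨o, ho, h1⟩ := h.2.2.2.1
  obtain ⟨-, y', a, b⟩ := h1 y hy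
  obtain ⟨w, -, d⟩ := h.1 x y' (kl_mem h hz hy e) a
  exact (kl_uniq h hz ho (h1 z hz).1 (h.2.1 z y y' x o w hz hy a e ((d w).2 rfl) b)).trans
    (kl_uniq h hz' ho (h1 z' hz').1 (h.2.1 z' y y' x o w hz' hy a e' ((d w).2 rfl) b)).symm

theorem kl_zero (h : TopAb E G A T) {x y z z' : M} (hx : E x G) (hy : E y G) (hz : E z G)
    (e : Op E A x y x) (e' : Op E A z y z') : z' = z := by
  obtain ⟨o, ho, h1⟩ := h.2.2.2.1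
  obtain rfl : y = o := kl_cancel h hx hy ho (h.2.2.1 _ _ _ hx hy e)
    (h.2.2.1 _ _ _ hx ho (h1 x hx).1)
  exact kl_uniq h hz hy e' (h1 z hz).1

end algebra

variable {U : Ultra BB}

theorem kl_pre (f V X : MU U) :
    ∃ W, ∀ x, EU U x W ↔ EU U x X ∧ ∃ y, EU U y V ∧ Maps (EU U) f x y := by
  obtain ⟨f, rfl⟩ := cls_surj f
  obtain ⟨V, rfl⟩ := cls_surj V
  exact md_sep (fun U x => ∃ y, EU U y (cls U V) ∧ Maps (EU U) (cls U f) x y) U X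

theorem kl_img (f V Y : MU U) :
    ∃ W, ∀ y, EU U y W ↔ EU U y Y ∧ ∃ x, EU U x V ∧ Maps (EU U) f x y := by
  obtain ⟨f, rfl⟩ := cls_surj f
  obtain ⟨V, rfl⟩ := cls_surj V
  exact md_sep (fun U y => ∃ x, EU U x (cls U V) ∧ Maps (EU U) (cls U f) x y) U Y

theorem kl_inter (V W : MU U) : ∃ Z, ∀ z, EU U z Z ↔ EU U z V ∧ EU U z W := by
  obtain ⟨W, rfl⟩ := cls_surj W
  exact md_sep (fun U z => EU U z (cls U W)) U V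

/-- composition of continuous maps -/
theorem kl_comp {f g X T Y S Z R : MU U} (hT : IsTop (EU U) X T) (hf : Cts (EU U) f X T Y S)
    (hg : Cts (EU U) g Y S Z R) : ∃ k, Cts (EU U) k X T Z R ∧
      ∀ x z, Maps (EU U) k x z ↔ ∃ y, Maps (EU U) f x y ∧ Maps (EU U) g y z := by
  obtain ⟨f, rfl⟩ := cls_surj f
  obtain ⟨g, rfl⟩ := cls_surj g
  obtain ⟨k, h1, h2⟩ := md_rel tame (fun U x z => ∃ y, Maps (EU U) (cls U f) x y ∧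
    Maps (EU U) (cls U g) y z) U X Z
  have h3 : ∀ x z, Maps (EU U) k x z ↔ ∃ y, Maps (EU U) (cls U f) x y ∧
      Maps (EU U) (cls U g) y z := fun x z => (h2 x z).trans
    ⟨fun h => h.2.2, fun ⟨y, a, b⟩ => ⟨(hf.1.mem a).1, (hg.1.mem b).2, y, a, b⟩⟩
  refine ⟨k, cts_of hT ⟨h1, fun x hx => ?_⟩ fun x z V a b c => ?_, h3⟩
  · obtain ⟨y, a, b⟩ := hf.1.total hx
    obtain ⟨z, -, c⟩ := hg.1.total a
    refine ⟨z, (h3 x z).2 ⟨y, b, c⟩, fun z' e => ?_⟩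
    obtain ⟨y', d, e⟩ := (h3 x z').1 e
    exact hg.1.uniq (hf.1.uniq d b ▸ e) c
  · obtain ⟨y, a1, a2⟩ := (h3 x z).1 a
    obtain ⟨W, w1, w2, w3⟩ := hg.pt' a2 b c
    obtain ⟨W', v1, v2, v3⟩ := hf.pt' a1 w1 w2
    refine ⟨W', v1, v2, fun x' z' d e => ?_⟩
    obtain ⟨y', e1, e2⟩ := (h3 x' z').1 e
    exact w3 y' z' (v3 x' y' d e1) e2

/-- topological groups are regular -/
theorem kl_reg {H B T p V : MU U} (h : TopAb (EU U) H B T) (hV : EU U V T) (hp : EU U p V) :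
    ∃ V₁ V₂, EU U V₁ T ∧ EU U V₂ T ∧ EU U p V₁ ∧ (∀ y, EU U y V₁ → EU U y V₂ → False) ∧
      ∀ y, EU U y H → ¬ EU U y V → EU U y V₂ := by
  have hT := h.2.2.2.2.1
  have hp' := hT.1 V hV p hp
  obtain ⟨o, ho, h1⟩ := h.2.2.2.1
  obtain ⟨V₁, V', a1, a2, a3, a4, a5⟩ := h.2.2.2.2.2 p o p V ho hp' (h1 p hp').1 hV hp
  obtain ⟨V₁, rfl⟩ := cls_surj V₁
  obtain ⟨T, rfl⟩ := cls_surj T
  obtain ⟨V₂, h2⟩ := md_sep (fun U y => ∃ N, EU U N (cls U T) ∧ EU U y N ∧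
    ∀ z, EU U z N → ¬ EU U z (cls U V₁)) U H
  refine ⟨_, V₂, a1, open_of_nhds hT fun y hy => ?_, a3, fun y b c => ?_, fun c hc hn => ?_⟩
  · obtain ⟨-, N, b1, b2, b3⟩ := (h2 y).1 hy
    exact ⟨N, b1, b2, fun z hz => (h2 z).2 ⟨hT.1 N b1 z hz, N, b1, hz, b3⟩⟩
  · obtain ⟨-, N, -, b2, b3⟩ := (h2 y).1 c
    exact b3 y b2 b
  · obtain ⟨N, N', b1, -, b3, b4, b5⟩ := h.2.2.2.2.2 c c o V' hc ho
      (h.2.2.1 _ _ _ hc ho (h1 c hc).1) a2 a4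
    refine (h2 c).2 ⟨hc, N, b1, b3, fun u hu hu' => hn ?_⟩
    obtain ⟨v, c1, c2⟩ := kl_sub h (hT.1 N b1 u hu) hc
    exact a5 u v c hu' (b5 u c v hu b4 c1 c2) hc (h.2.2.1 _ _ _ c1 hc c2)

/-- the quotient topology of a surjective homomorphism -/
theorem kl_quo {G A TG H B TH h : MU U} (hG : TopAb (EU U) G A TG) (hH : TopAb (EU U) H B TH)
    (hf : IsFn (EU U) h G H) (ha : Cohen.Additive (EU U) h A B)
    (hs : ∀ y, EU U y H → ∃ x, Maps (EU U) h x y) :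
    ∃ TQ, TopAb (EU U) H B TQ ∧ Cts (EU U) h G TG H TQ ∧ OpenMap (EU U) h TG TQ := by
  have hT := hG.2.2.2.2.1
  obtain ⟨P, hP⟩ := md_power tame U H
  obtain ⟨h, rfl⟩ := cls_surj h
  obtain ⟨TG, rfl⟩ := cls_surj TG
  obtain ⟨TQ, h1⟩ := md_sep (fun U W => ∀ x y, Maps (EU U) (cls U h) x y → EU U y W →
    ∃ N, EU U N (cls U TG) ∧ EU U x N ∧
      ∀ x' y', EU U x' N → Maps (EU U) (cls U h) x' y' → EU U y' W) U P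
  simp only [hP] at h1
  have ho : OpenMap (EU U) (cls U h) (cls U TG) TQ := by
    refine fun V W hV hW => (h1 W).2 ⟨fun y hy => ?_, fun x y a b => ?_⟩
    · obtain ⟨x, -, a⟩ := (hW y).1 hy
      exact (hf.mem a).2
    · obtain ⟨v, c, d⟩ := (hW y).1 b
      have hv := (hf.mem d).1
      obtain ⟨k, k1, k2⟩ := kl_sub hG (hf.mem a).1 hv
      have k3 := hG.2.2.1 _ _ _ k1 hv k2
      obtain ⟨N, N', b1, -, b3, b4, b5⟩ := hG.2.2.2.2.2 x k v V k1 hv k3 hV c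
      refine ⟨N, b1, b3, fun x' y' e1 e2 => ?_⟩
      obtain ⟨z, z1, z2⟩ := kl_sub hG (hf.mem e2).1 k1
      obtain ⟨k', k4, k5⟩ := hf.total k1
      obtain ⟨z', z3, z4⟩ := hf.total z1
      rw [kl_zero hH (hf.mem a).2 k4 z3 (ha _ _ _ _ _ _ k3 d k5 a) (ha _ _ _ _ _ _ z2 z4 k5 e2)]
      exact (hW z').2 ⟨z, b5 x' k z e1 b4 z1 z2, z4⟩
  have hi : ∀ V, EU U V (cls U TG) → ∃ W, EU U W TQ ∧
      ∀ y, EU U y W ↔ ∃ x, EU U x V ∧ Maps (EU U) (cls U h) x y := fun V hV => by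
    obtain ⟨W, hW⟩ := kl_img (cls U h) V H
    have : ∀ y, EU U y W ↔ ∃ x, EU U x V ∧ Maps (EU U) (cls U h) x y := fun y => (hW y).trans
      ⟨And.right, fun ⟨x, a, b⟩ => ⟨(hf.mem b).2, x, a, b⟩⟩
    exact ⟨W, ho V W hV this, this⟩
  have hl : ∀ x y z x₀ y₀, EU U z H → Op (EU U) B z y x → Maps (EU U) (cls U h) x₀ x →
      Maps (EU U) (cls U h) y₀ y → ∃ z₀, EU U z₀ G ∧ Op (EU U) A z₀ y₀ x₀ ∧
        Maps (EU U) (cls U h) z₀ z := fun x y z x₀ y₀ a b c d => by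
    obtain ⟨z₀, z1, z2⟩ := kl_sub hG (hf.mem c).1 (hf.mem d).1
    obtain ⟨z', z3, z4⟩ := hf.total z1
    exact ⟨z₀, z1, z2, kl_cancel hH (hf.mem d).2 z3 a (ha _ _ _ _ _ _ z2 z4 d c) b ▸ z4⟩
  refine ⟨TQ, ⟨hH.1, hH.2.1, hH.2.2.1, hH.2.2.2.1, ⟨fun V hV => ((h1 V).1 hV).1,
    (h1 H).2 ⟨fun _ => id, fun x y a _ => ⟨G, hT.2.1, (hf.mem a).1, fun _ _ _ b => (hf.mem b).2⟩⟩,
    fun V V' Z hV hV' hZ => (h1 Z).2 ⟨fun z hz => ((h1 V).1 hV).1 z ((hZ z).1 hz).1,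
      fun x y a b => ?_⟩, fun K Z hK hZ => (h1 Z).2 ⟨fun z hz => ?_, fun x y a b => ?_⟩⟩,
    fun x y z W hy hz e hW hz' => ?_⟩, cts_of hT hf fun x y V a b c => ((h1 V).1 b).2 x y a c, ho⟩
  · obtain ⟨N, n1, n2, n3⟩ := ((h1 V).1 hV).2 x y a ((hZ y).1 b).1
    obtain ⟨N', m1, m2, m3⟩ := ((h1 V').1 hV').2 x y a ((hZ y).1 b).2
    obtain ⟨I, hI⟩ := kl_inter N N'
    exact ⟨I, hT.2.2.1 N N' I n1 m1 hI, (hI x).2 ⟨n2, m2⟩, fun x' y' c d => (hZ y').2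
      ⟨n3 x' y' ((hI x').1 c).1 d, m3 x' y' ((hI x').1 c).2 d⟩⟩
  · obtain ⟨V, v1, v2⟩ := (hZ z).1 hz
    exact ((h1 V).1 (hK V v1)).1 z v2
  · obtain ⟨V, v1, v2⟩ := (hZ y).1 b
    obtain ⟨N, n1, n2, n3⟩ := ((h1 V).1 (hK V v1)).2 x y a v2
    exact ⟨N, n1, n2, fun x' y' c d => (hZ y').2 ⟨V, v1, n3 x' y' c d⟩⟩
  · obtain ⟨x₀, a⟩ := hs x (kl_mem hH hz hy e)
    obtain ⟨y₀, b⟩ := hs y hy
    obtain ⟨z₀, z1, z2, z3⟩ := hl x y z x₀ y₀ hz e a b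
    obtain ⟨N, n1, n2, n3⟩ := ((h1 W).1 hW).2 z₀ z z3 hz'
    obtain ⟨U₀, V₀, c1, c2, c3, c4, c5⟩ := hG.2.2.2.2.2 x₀ y₀ z₀ N (hf.mem b).1 z1 z2 n1 n2
    obtain ⟨U₁, u1, u2⟩ := hi U₀ c1
    obtain ⟨V₁, v1, v2⟩ := hi V₀ c2
    refine ⟨U₁, V₁, u1, v1, (u2 x).2 ⟨x₀, c3, a⟩, (v2 y).2 ⟨y₀, c4, b⟩,
      fun x' y' z' d1 d2 d3 d4 => ?_⟩
    obtain ⟨x₁, f1, f2⟩ := (u2 x').1 d1
    obtain ⟨y₁, g1, g2⟩ := (v2 y').1 d2
    obtain ⟨z₁, k1, k2, k3⟩ := hl x' y' z' x₁ y₁ d3 d4 f2 g2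
    exact n3 z₁ z' (c5 x₁ y₁ z₁ f1 g1 k1 k2) k3

/-- the free topology is the finest group topology for which the embedding is continuous -/
theorem kl_finest {S TS H B TH j TQ : MU U} (hF : Free (EU U) S TS H B TH j)
    (hS : ∃ s, EU U s S) (hQ : TopAb (EU U) H B TQ) (hj : Cts (EU U) j S TS H TQ) :
    Sub (EU U) TQ TH := by
  obtain ⟨F, h1, h2, h3⟩ := hF.2.2.2 H B TQ j hQ hj
  obtain ⟨F, rfl⟩ := cls_surj F
  obtain ⟨K, hK⟩ := md_sep (fun U y => Maps (EU U) (cls U F) y y) U H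
  have h4 : ∀ x y, Maps (EU U) j x y → EU U y K := fun x y a =>
    (hK y).2 ⟨(hj.1.mem a).2, h3 x y y a a⟩
  have h5 : Sub (EU U) H K := by
    refine hF.2.2.1 K (fun y hy => ((hK y).1 hy).1) ?_ (fun x y z a b c e => (hK z).2 ⟨c, ?_⟩) h4
    · obtain ⟨s, hs⟩ := hS
      obtain ⟨y, -, a⟩ := hj.1.total hs
      exact ⟨y, h4 s y a⟩
    · obtain ⟨z', z1, z2⟩ := h1.1.total c
      exact kl_cancel hQ ((hK y).1 b).1 z1 c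
        (h2 _ _ _ _ _ _ e z2 ((hK y).1 b).2 ((hK x).1 a).2) e ▸ z2
  exact fun V hV => h1.2 V V hV fun x => ⟨fun a => ⟨x, a, ((hK x).1
    (h5 x (hQ.2.2.2.2.1.1 V hV x a))).2⟩, fun ⟨y, a, b⟩ =>
      h1.1.uniq b ((hK x).1 (h5 x (h1.1.mem b).1)).2 ▸ a⟩

theorem quo_or_kl {U : Ultra BB} {X T f S : MU U} (hT : IsTop (EU U) X T)
    (hX : ∃ x, EU U x X) (hf : Cts (EU U) f X T (RR U) (TR U))
    (hS : ∀ y, EU U y S ↔ ∃ x, Maps (EU U) f x y) : Quo U X T S ∨ Kl U f T := by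
  refine or_iff_not_imp_right.2 fun hK => ?_
  have hR : Sub (EU U) S (RR U) := fun y hy => let ⟨_, a⟩ := (hS y).1 hy; (hf.1.mem a).2
  obtain ⟨TS, h1⟩ := exists_subTop S
  have h2 := h1.isTop' hR
  have hf' : Cts (EU U) f X T S TS := by
    refine cts_of hT ⟨fun p hp => ?_, hf.1.2⟩ fun x y V a b c => ?_
    · obtain ⟨x, y, a, -, c⟩ := hf.1.1 p hp
      exact ⟨x, y, a, (hS y).2 ⟨x, p, hp, c⟩, c⟩
    · obtain ⟨y, rfl⟩ := real_cases (hf.1.mem a).2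
      obtain ⟨p, q, d, e⟩ := h1.use' b c
      obtain ⟨I, i1, i2⟩ := (subTop_TR (U := U)).iv' p q
      obtain ⟨W, w1, w2, w3⟩ := hf.pt' a i1 ((i2 _).2 ⟨pt_mem y, lt_pt.2 (d.mono fun _ h => h.1),
        lt_pt.2 (d.mono fun _ h => h.2)⟩)
      exact ⟨W, w1, w2, fun x' y' g k => e y' ((hS y').2 ⟨x', k⟩) ((i2 _).1 (w3 x' y' g k)).2.1
        ((i2 _).1 (w3 x' y' g k)).2.2⟩
  obtain ⟨G, A, TG, i, hG⟩ := exists_free hT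
  obtain ⟨H, B, TH, j, hH⟩ := exists_free h2
  obtain ⟨g, g1, g2⟩ := kl_comp hT hf' hH.2.1
  obtain ⟨h, k1, k2, k3⟩ := hG.2.2.2 H B TH g hH.1 g1
  have hne : ∃ s, EU U s S := let ⟨_, a⟩ := hX; let ⟨y, b, _⟩ := hf'.1.total a; ⟨y, b⟩
  have hs : ∀ y, EU U y H → ∃ x, Maps (EU U) h x y := by
    obtain ⟨K, hK⟩ := kl_img h G H
    have h4 : ∀ s y, Maps (EU U) j s y → EU U y K := fun s y a => by
      obtain ⟨x, b⟩ := (hS s).1 (hH.2.1.1.mem a).1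
      obtain ⟨u, c, d⟩ := hG.2.1.1.total (hf.1.mem b).1
      exact (hK y).2 ⟨(hH.2.1.1.mem a).2, u, c, k3 x u y d ((g2 x y).2 ⟨s, b, a⟩)⟩
    have h5 : Sub (EU U) H K := by
      refine hH.2.2.1 K (fun y hy => ((hK y).1 hy).1) ?_ (fun x y z a b c e => (hK z).2 ⟨c, ?_⟩) h4
      · obtain ⟨s, hs⟩ := hne
        obtain ⟨y, -, a⟩ := hH.2.1.1.total hs
        exact ⟨y, h4 s y a⟩
      · obtain ⟨-, x₀, a1, a2⟩ := (hK x).1 a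
        obtain ⟨b0, y₀, b1, b2⟩ := (hK y).1 b
        obtain ⟨z₀, z1, z2⟩ := kl_sub hG.1 a1 b1
        obtain ⟨z', z3, z4⟩ := k1.1.total z1
        exact ⟨z₀, z1, kl_cancel hH.1 b0 z3 c (k2 _ _ _ _ _ _ z2 z4 b2 a2) e ▸ z4⟩
    exact fun y hy => let ⟨_, x, _, a⟩ := (hK y).1 (h5 y hy); ⟨x, a⟩
  obtain ⟨TQ, q1, q2, q3⟩ := kl_quo hG.1 hH.1 k1.1 k2 hs
  refine ⟨TS, G, A, TG, i, H, B, TH, j, h, h1, hG, hH, k1, k2, hs, fun V W a b =>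
    kl_finest hH hne q1 (cts_of h2 hH.2.1.1 fun t y V c d e => ?_) W (q3 V W a b)⟩
  have hZ : ∀ V, EU U V TQ → ∃ Z, (∀ s, EU U s Z ↔ EU U s S ∧ ∃ y, EU U y V ∧ Maps (EU U) j s y) ∧
      ∀ W, (∀ x, EU U x W ↔ ∃ y, EU U y Z ∧ Maps (EU U) f x y) → EU U W T := fun V hV => by
    obtain ⟨Z, hZ⟩ := kl_pre j V S
    refine ⟨Z, hZ, fun W hW => open_of_nhds hT fun x hx => ?_⟩
    obtain ⟨s, a1, a2⟩ := (hW x).1 hx
    obtain ⟨-, y, a3, a4⟩ := (hZ s).1 a1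
    obtain ⟨u, -, a5⟩ := hG.2.1.1.total (hf.1.mem a2).1
    obtain ⟨N, n1, n2, n3⟩ := q2.pt' (k3 x u y a5 ((g2 x y).2 ⟨s, a2, a4⟩)) hV a3
    obtain ⟨N', m1, m2, m3⟩ := hG.2.1.pt' a5 n1 n2
    refine ⟨N', m1, m2, fun x' hx' => ?_⟩
    obtain ⟨s', b1, b2⟩ := hf'.1.total (hT.1 N' m1 x' hx')
    obtain ⟨y', -, b3⟩ := hH.2.1.1.total b1
    obtain ⟨u', -, b4⟩ := hG.2.1.1.total (hT.1 N' m1 x' hx')
    exact (hW x').2 ⟨s', (hZ s').2 ⟨b1, y', n3 u' y' (m3 x' u' hx' b4)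
      (k3 x' u' y' b4 ((g2 x' y').2 ⟨s', b2, b3⟩)), b3⟩, b2⟩
  obtain ⟨V₁, V₂, v1, v2, v3, v4, v5⟩ := kl_reg q1 d e
  obtain ⟨Z₁, z1, z2⟩ := hZ V₁ v1
  obtain ⟨Z₂, z3, z4⟩ := hZ V₂ v2
  have ht := (hH.2.1.1.mem c).1
  by_contra hn
  refine hK ⟨Z₁, Z₂, t, fun s a => (hS s).1 ((z1 s).1 a).1, fun s a => (hS s).1 ((z3 s).1 a).1,
    fun s a b => ?_, z2, z4, (z1 t).2 ⟨ht, y, v3, c⟩, fun p q a b => by_contra fun hm => hn ?_⟩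
  · obtain ⟨-, y₁, a1, a2⟩ := (z1 s).1 a
    obtain ⟨-, y₂, b1, b2⟩ := (z3 s).1 b
    exact v4 y₁ a1 (hH.2.1.1.uniq b2 a2 ▸ b1)
  · obtain ⟨p, -, rfl, -⟩ := relHat_cases a
    obtain ⟨-, q, -, rfl, -⟩ := relHat_cases b
    obtain ⟨W, w1, w2⟩ := h1.iv' p q
    refine ⟨W, w1, (w2 t).2 ⟨ht, a, b⟩, fun s y' c1 c2 => by_contra fun c3 => hm ?_⟩
    obtain ⟨d1, d2, d3⟩ := (w2 s).1 c1
    exact ⟨s, (z3 s).2 ⟨d1, y', v5 y' (hH.2.1.1.mem c2).2 c3, c2⟩, d2, d3⟩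

end Pool.Agent.Lib.MP_5ffd28_gt.CR
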