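import Mathlib

/-! Levels of the creature forcing: colourings of a row of slots and their norm. -/

namespace Pool.Agent.Lib.MP_5ffd28_gt.CR

open Set

/-- number of flips of `x` left of slot `t` -/
def cnt (x : Finset ℕ) (t : ℕ) : ℕ := (x.filter (· < t)).card

/-- colour `true` is A (left end), colour `false` is B (right end) -/
def side (c : Bool) (θ t : ℕ) : Prop := if c then t < θ else θ ≤ t

def par (c : Bool) (n : ℕ) : Prop := if c then Even n else Odd n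

/-- slot `t` is not purely of colour `c` -/
def nonc (c : Bool) (x : Finset ℕ) (t : ℕ) : Prop := t ∈ x ∨ ¬ par c (cnt x t)

def Apart (c : Bool) (θ : ℕ) (x y : Finset ℕ) : Prop :=
  ∀ t, side c θ t → ¬ (nonc c x t ∧ nonc c y t)

def Priv (c : Bool) (x y : Finset ℕ) (k : ℕ) : Prop :=
  ∃ θ, side c θ k ∧ par c (cnt x θ) ∧ Apart c θ x y

def nor : ℕ → Set (Finset ℕ) → Prop
  | 0, C => ∃ x ∈ C, ∃ y ∈ C, ∃ z ∈ C, x ≠ y ∧ x ≠ z ∧ y ≠ z
  | r + 1, C => ∀ a : Finset ℕ → ℕ, ∃ C' ⊆ C, nor r C' ∧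
      ∃ c, ∀ x ∈ C', ∀ y ∈ C', x ≠ y → Priv c x y (a x)

theorem nor_mono : ∀ {r : ℕ} {C C' : Set (Finset ℕ)}, nor r C → C ⊆ C' → nor r C'
  | 0, _, _, ⟨x, hx, y, hy, z, hz, h⟩, s => ⟨x, s hx, y, s hy, z, s hz, h⟩
  | _ + 1, _, _, h, s => fun a => let ⟨D, h1, h2⟩ := h a; ⟨D, h1.trans s, h2⟩

theorem nor_succ {r : ℕ} {C : Set (Finset ℕ)} (h : nor (r + 1) C) : nor r C :=
  let ⟨_, h1, h2, _⟩ := h fun _ => 0; nor_mono h2 h1

theorem nor_le {r r' : ℕ} {C : Set (Finset ℕ)} (h : nor r' C) (hr : r ≤ r') : nor r C := by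
  induction hr with
  | refl => exact h
  | step _ ih => exact ih (nor_succ h)

theorem nor_ne {r : ℕ} {C : Set (Finset ℕ)} (h : nor r C) (x : Finset ℕ) : ∃ y ∈ C, y ≠ x := by
  obtain ⟨a, ha, b, hb, -, -, h, -⟩ := nor_le h (Nat.zero_le _)
  by_cases e : a = x
  exacts [⟨b, hb, e ▸ h.symm⟩, ⟨a, ha, e⟩]

theorem priv_up {x y : Finset ℕ} {k k' : ℕ} (h : Priv false x y k) (hk : k ≤ k') :
    Priv false x y k' :=
  let ⟨θ, h1, h2⟩ := h; ⟨θ, le_trans (show θ ≤ k from h1) hk, h2⟩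

theorem priv_excl {x y : Finset ℕ} {k : ℕ} (hk : k ∈ x) (h : Priv true x y k)
    (h' : Priv false x y k) : False := by
  obtain ⟨θ, a1, -, a2⟩ := h
  obtain ⟨θ', b1, -, b2⟩ := h'
  have c1 : ¬ nonc true y k := fun h => a2 k a1 ⟨Or.inl hk, h⟩
  have c2 : ¬ nonc false y k := fun h => b2 k b1 ⟨Or.inl hk, h⟩
  simp only [nonc, par, not_or, not_not, if_true, Bool.false_eq_true, if_false] at c1 c2
  exact Nat.not_even_iff_odd.2 c2.2 c1.2

end Pool.Agent.Lib.MP_5ffd28_gt.CR
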