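import Pool.Agent.Lib.MP_5ffd28_gt.CR.Top
import Pool.Agent.Lib.MP_5ffd28_gt.CR.GeoDefs

/-! Names of topologies on the line, seen through neighbourhoods. -/

namespace Pool.Agent.Lib.MP_5ffd28_gt.CR

open Set Filter Topology Pool.Agent.Shared.Forcing Pool.Agent.Lib.MP_23bd8d_gt Cohen

set_option synthInstance.maxSize 4000

/-- `b s C` is the value of: the set of reals with property `C` is a neighbourhood of `s` -/
structure NbSys (Φ : Ultra BB → Prop) (b : MF → (Ω → ℝ → Prop) → BB) : Prop where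
  mono : ∀ (U : Ultra BB) s C C', b s C ∈ U →
    (∀ x : MF, (Ae U fun g => C g (x.1 g)) → Ae U fun g => C' g (x.1 g)) → b s C' ∈ U
  inter : ∀ U, Φ U → ∀ s C C', b s C ∈ U → b s C' ∈ U → b s (fun g r => C g r ∧ C' g r) ∈ U
  iv : ∀ U, Φ U → ∀ (s : MF) (p q : ℚ), (Ae U fun g => p < s.1 g ∧ s.1 g < q) →
    b s (fun _ r => p < r ∧ r < q) ∈ U
  conn : ∀ U, Φ U → ∀ C C' : Ω → ℝ → Prop,
    (∀ x : MF, (Ae U fun g => C g (x.1 g)) ∨ Ae U fun g => C' g (x.1 g)) →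
    (∀ x : MF, (Ae U fun g => C g (x.1 g)) → (Ae U fun g => C' g (x.1 g)) → False) →
    (∀ x : MF, (Ae U fun g => C g (x.1 g)) → b x C ∈ U) →
    (∀ x : MF, (Ae U fun g => C' g (x.1 g)) → b x C' ∈ U) →
    (Ae U fun g => C g 0) → (Ae U fun g => C' g PP) → False
  kill : ∀ φ, JM φ → (∀ g r, 0 ≤ φ g r ∧ φ g r ≤ 1) → (∀ g, φ g 0 = 0) → (∀ g, φ g PP = 1) →
    (∀ U, Φ U → ∀ (x : MF) (p q : ℚ), (Ae U fun g => p < φ g (x.1 g) ∧ φ g (x.1 g) < q) →
      b x (fun g r => p < φ g r ∧ φ g r < q) ∈ U) →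
    ∀ Lb : Set ℚ, (∀ p q : ℝ, 0 ≤ p → p < q → q ≤ 1 → ∃ l ∈ Lb, p < l ∧ l < q) →
    ∃ (t : MF) (N : ℚ → Ω → Prop), (∀ l, Measurable (N l)) ∧ ∀ U, Φ U →
      (Ae U fun g => ∀ n : ℕ, ∃ l ∈ Lb, N l g ∧ |(l : ℝ) - t.1 g| < 1 / 2 ^ n) ∧
      ∀ x : MF, (Ae U fun g => φ g (x.1 g) = t.1 g) →
        b x (fun g r => ∀ l, N l g → φ g r ≠ l) ∈ U

variable {Φ : Ultra BB → Prop} {b : MF → (Ω → ℝ → Prop) → BB} {U : Ultra BB}

theorem NbSys.mono' (h : NbSys Φ b) {s : MF} {C C' : Ω → ℝ → Prop} (h1 : b s C ∈ U)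
    (h2 : Ae U fun g => ∀ r, C g r → C' g r) : b s C' ∈ U :=
  h.mono U s C C' h1 fun _ a => (a.and h2).mono fun _ a => a.2 _ a.1

/-- Euclidean neighbourhoods are neighbourhoods -/
theorem NbSys.eucl [Dec Φ] (h : NbSys Φ b) (hU : Φ U) {s : MF} {C : Ω → ℝ → Prop}
    (hm : ∀ p q : ℚ, ∃ P, Measurable P ∧ (∀ g, (∀ r : ℝ, p ≤ r → r ≤ q → C g r) → P g) ∧
      ∀ g, P g → ∀ r : ℝ, p < r → r < q → C g r)
    (h1 : Ae U fun g => ∀ᶠ r in 𝓝 (s.1 g), C g r) : b s C ∈ U := by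
  choose P p1 p2 p3 using hm
  revert hU
  refine wlog_ex (P := fun (u : ℚ × ℚ) g => (u.1 < s.1 g ∧ s.1 g < u.2) ∧ P u.1 u.2 g)
    (fun u => ((measurable_const.lt s.2).and (s.2.lt measurable_const)).and (p1 _ _)) U
    (h1.mono fun g hg => ?_) fun U u hu hU => h.mono' (h.iv U hU s u.1 u.2 (hu.mono fun _ a => a.1))
      (hu.mono fun g a r c => p3 _ _ g a.2 r c.1 c.2)
  obtain ⟨⟨u, v⟩, b1, b2⟩ := (nhds_basis_Ioo _).eventually_iff.1 hg
  obtain ⟨p, c1, c2⟩ := exists_rat_btwn b1.1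
  obtain ⟨q, c3, c4⟩ := exists_rat_btwn b1.2
  exact ⟨(p, q), ⟨c2, c3⟩, p2 _ _ g fun r a e => b2 ⟨c1.trans_le a, e.trans_lt c4⟩⟩

theorem meas_choice {α γ : Type} [MeasurableSpace α] [Countable γ] [MeasurableSpace γ]
    {P : γ → α → Prop} (hP : ∀ a, Measurable (P a)) (h : ∀ g, ∃ a, P a g) :
    ∃ f : α → γ, Measurable f ∧ ∀ g, P (f g) g := by
  classical
  rcases isEmpty_or_nonempty γ with hγ | hγ
  · exact ⟨fun g => (h g).choose, measurable_of_empty_codomain _, fun g => (h g).choose_spec⟩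
  obtain ⟨e, he⟩ := exists_surjective_nat γ
  have h' : ∀ g, ∃ n, P (e n) g := fun g => let ⟨a, ha⟩ := h g; let ⟨n, hn⟩ := he a; ⟨n, hn ▸ ha⟩
  exact ⟨fun g => e (Nat.find (h' g)), measurable_from_nat.comp
    (measurable_find h' fun n => (hP _).setOf), fun g => Nat.find_spec (h' g)⟩

/-- substituting a measurable function with countably many values -/
theorem meas_subst {α γ δ : Type} [MeasurableSpace α] [Countable γ] [MeasurableSpace γ]
    [MeasurableSingletonClass γ] [MeasurableSpace δ] {P : γ → α → δ} (hP : ∀ a, Measurable (P a))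
    {f : α → γ} (hf : Measurable f) : Measurable fun g => P (f g) g :=
  (measurable_from_prod_countable_right (f := fun u : γ × α => P u.1 u.2) hP).comp
    (hf.prodMk measurable_id)

/-- the data produced by a homomorphism that is not open -/
def Kl (U : Ultra BB) (f T : MU U) : Prop :=
  ∃ Z₁ Z₂ t, (∀ y, EU U y Z₁ → ∃ x, Maps (EU U) f x y) ∧ (∀ y, EU U y Z₂ → ∃ x, Maps (EU U) f x y) ∧
    (∀ y, EU U y Z₁ → EU U y Z₂ → False) ∧
    (∀ W, (∀ x, EU U x W ↔ ∃ y, EU U y Z₁ ∧ Maps (EU U) f x y) → EU U W T) ∧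
    (∀ W, (∀ x, EU U x W ↔ ∃ y, EU U y Z₂ ∧ Maps (EU U) f x y) → EU U W T) ∧ EU U t Z₁ ∧
    ∀ a c, Maps (EU U) (LL U) a t → Maps (EU U) (LL U) t c →
      ∃ s, EU U s Z₂ ∧ Maps (EU U) (LL U) a s ∧ Maps (EU U) (LL U) s c

instance (f T : HN) : Dec fun U => Kl U (cls U f) (cls U T) := by unfold Kl; infer_instance

/-- `y` lies in the unit interval -/
def Unit01 (U : Ultra BB) (y : MU U) : Prop :=
  EU U y (RR U) ∧ ¬ Maps (EU U) (LL U) y (pt U (cst 0)) ∧ ¬ Maps (EU U) (LL U) (pt U (cst 1)) y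

instance (y : HN) : Dec fun U => Unit01 U (cls U y) := by unfold Unit01; infer_instance

/-- the topology on the line induced by a counterexample -/
def TauI (U : Ultra BB) (τ : MU U) : Prop :=
  IsTop (EU U) (RR U) τ ∧ Sub (EU U) (TR U) τ ∧
  (∀ A B, EU U A τ → EU U B τ → (∀ x, EU U x (RR U) → EU U x A ∨ EU U x B) →
    (∀ x, EU U x A → EU U x B → False) → EU U (pt U (cst 0)) A → EU U (pt U (cst PP)) B → False) ∧
  ∀ f, Cts (EU U) f (RR U) τ (RR U) (TR U) → (∀ x y, Maps (EU U) f x y → Unit01 U y) →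
    Maps (EU U) f (pt U (cst 0)) (pt U (cst 0)) → Maps (EU U) f (pt U (cst PP)) (pt U (cst 1)) →
    Kl U f τ

instance (τ : HN) : Dec fun U => TauI U (cls U τ) := by unfold TauI; infer_instance

/-- there is an open continuous homomorphism of `A(X)` onto `A(S)` -/
def Quo (U : Ultra BB) (X T S : MU U) : Prop :=
  ∃ TS G A TG i H B TH j h, SubTop (EU U) (RR U) (LL U) S TS ∧ Free (EU U) X T G A TG i ∧
    Free (EU U) S TS H B TH j ∧ Cts (EU U) h G TG H TH ∧ Cohen.Additive (EU U) h A B ∧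
    (∀ y, EU U y H → ∃ x, Maps (EU U) h x y) ∧ OpenMap (EU U) h TG TH

/-- the positive answer for `X` -/
def Goal (U : Ultra BB) (X T : MU U) : Prop :=
  ∃ S, (∀ y, EU U y S → Unit01 U y) ∧ Inj (EU U) (om U) S ∧ Quo U X T S

/-- `x` and `y` are separated by a clopen set -/
def Sep (U : Ultra BB) (X T x y : MU U) : Prop :=
  ∃ A B, EU U A T ∧ EU U B T ∧ (∀ z, EU U z X → EU U z A ∨ EU U z B) ∧
    (∀ z, EU U z A → EU U z B → False) ∧ EU U x A ∧ EU U y B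

instance (X T x y : HN) : Dec fun U => Sep U (cls U X) (cls U T) (cls U x) (cls U y) := by
  unfold Sep; infer_instance

end Pool.Agent.Lib.MP_5ffd28_gt.CR
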