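import Pool.Agent.Lib.MP_5ffd28_gt.Cohen.Final
import Pool.Agent.Lib.MP_5ffd28_gt.FE.Kill

/-! The model of the negative answer, with the existence of the free groups recorded. -/

namespace Pool.Agent.Lib.MP_5ffd28_gt.CR

open Set Pool.Agent.Shared.Forcing Pool.Agent.Lib.MP_23bd8d_gt Cohen

theorem model_neg : ∃ (M : Type 2) (E : M → M → Prop), ModelZFC E ∧
    (∀ X T, IsTop E X T → ∃ G A TG i, Free E X T G A TG i) ∧ ∃ w R L O X T : M,
    IsOmega E w ∧ IsReal E w R L ∧ SubTop E R L R O ∧ IsTop E X T ∧ Tychonoff E X T R O ∧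
    Inj E w X ∧ ∀ S TS G A TG i H B TH j h, Sub E S R → (∃ s t, E s S ∧ E t S ∧ s ≠ t) →
      SubTop E R L S TS → Free E X T G A TG i → Free E S TS H B TH j → Cts E h G TG H TH →
      Cohen.Additive E h A B → (∀ y, E y H → ∃ x, Maps E h x y) → ¬ OpenMap E h TG TH := by
  obtain ⟨U, -⟩ := Ultra.exists_mem (RO.io_ne_bot (⟨univ, isOpen_univ, univ_nonempty⟩ : Cohen.Cond))
  refine ⟨MU U, EU U, md_modelZFC tame U, fun _ _ h => FE.free_exists tame U h, _, _, _, _, _, _,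
    isOmega_ck U, isReal_RR, subTop_TR, isTop_T, tychonoff_T, inj_om,
    fun S TS G A TG i H B TH j h a b c d e f g k m => ?_⟩
  obtain ⟨S, rfl⟩ := cls_surj S
  obtain ⟨TS, rfl⟩ := cls_surj TS
  obtain ⟨G, rfl⟩ := cls_surj G
  obtain ⟨A, rfl⟩ := cls_surj A
  obtain ⟨TG, rfl⟩ := cls_surj TG
  obtain ⟨i, rfl⟩ := cls_surj i
  obtain ⟨H, rfl⟩ := cls_surj H
  obtain ⟨B, rfl⟩ := cls_surj B
  obtain ⟨TH, rfl⟩ := cls_surj TH
  obtain ⟨j, rfl⟩ := cls_surj j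
  obtain ⟨h, rfl⟩ := cls_surj h
  exact not_hyp ⟨S, TS, G, A, TG, i, H, B, TH, j, h⟩ U ⟨a, b, c, d, e, f, g, k, m⟩

end Pool.Agent.Lib.MP_5ffd28_gt.CR
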