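import Pool.Agent.Lib.MP_5ffd28_gt.CR.Lev

/-! Levels of every norm exist (Ramsey). -/

namespace Pool.Agent.Lib.MP_5ffd28_gt.CR

section
open Finset

/-- Finite hypergraph Ramsey theorem. -/
theorem ram_ramsey (κ : Type) [Finite κ] (k : ℕ) : ∀ m : ℕ, ∃ N : ℕ,
    ∀ (α : Type) [DecidableEq α] (X : Finset α) (χ : Finset α → κ), N ≤ X.card →
      ∃ Y ⊆ X, m ≤ Y.card ∧ ∀ A ⊆ Y, ∀ B ⊆ Y, A.card = k → B.card = k → χ A = χ B := by
  induction k with
  | zero =>
    intro m
    refine ⟨m, fun α _ X χ h => ⟨X, Subset.refl _, h, ?_⟩⟩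
    intro A _ B _ hA hB
    rw [card_eq_zero.mp hA, card_eq_zero.mp hB]
  | succ k ih =>
    have aux : ∀ t : ℕ, ∃ N : ℕ,
        ∀ (α : Type) [DecidableEq α] (X : Finset α) (χ : Finset α → κ), N ≤ X.card →
          ∃ T ⊆ X, T.card = t ∧ ∃ γ : α → Option κ, (∀ x ∈ T, γ x ≠ none) ∧
            ∀ A ⊆ T, A.card = k + 1 → ∃ x ∈ A, γ x = some (χ A) := by
      intro t
      induction t with
      | zero =>
        refine ⟨0, fun α _ X χ _ => ⟨∅, empty_subset _, rfl, fun _ => none, by simp, ?_⟩⟩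
        intro A hA hc
        rw [subset_empty.mp hA] at hc
        simp at hc
      | succ t iht =>
        obtain ⟨Nt, hNt⟩ := iht
        obtain ⟨R, hR⟩ := ih (max Nt k)
        refine ⟨R + 1, fun α _ X χ hX => ?_⟩
        obtain ⟨x, hx⟩ : X.Nonempty := card_pos.mp (by omega)
        obtain ⟨Y, hYX, hYc, hY⟩ := hR α (X.erase x) (fun A => χ (insert x A))
          (by rw [card_erase_of_mem hx]; omega)
        obtain ⟨T, hTY, hTc, γ, hγ0, hγ⟩ := hNt α Y χ (le_trans (le_max_left _ _) hYc)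
        obtain ⟨A0, hA0Y, hA0c⟩ := exists_subset_card_eq (le_trans (le_max_right Nt k) hYc)
        have hxT : x ∉ T := fun h => by simpa using hYX (hTY h)
        refine ⟨insert x T, ?_, by rw [card_insert_of_notMem hxT, hTc],
          Function.update γ x (some (χ (insert x A0))), ?_, ?_⟩
        · intro y hy
          rcases mem_insert.mp hy with rfl | hy
          · exact hx
          · exact mem_of_mem_erase (hYX (hTY hy))
        · intro y hy
          by_cases hyx : y = x
          · subst hyx; simp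
          · rw [Function.update_of_ne hyx]
            rcases mem_insert.mp hy with h | h
            · exact absurd h hyx
            · exact hγ0 y h
        · intro A hA hAc
          by_cases hxA : x ∈ A
          · refine ⟨x, hxA, ?_⟩
            have h1 : A.erase x ⊆ Y := by
              intro y hy
              rcases mem_insert.mp (hA (mem_of_mem_erase hy)) with h | h
              · exact absurd h (ne_of_mem_erase hy)
              · exact hTY h
            have h2 : (A.erase x).card = k := by rw [card_erase_of_mem hxA]; omega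
            have h3 := hY A0 hA0Y (A.erase x) h1 hA0c h2
            simp only [insert_erase hxA] at h3
            simp [h3]
          · have h1 : A ⊆ T := by
              intro y hy
              rcases mem_insert.mp (hA hy) with h | h
              · exact absurd (h ▸ hy) hxA
              · exact h
            obtain ⟨y, hy, hy2⟩ := hγ A h1 hAc
            refine ⟨y, hy, ?_⟩
            have : y ≠ x := fun h => hxA (h ▸ hy)
            rw [Function.update_of_ne this, hy2]
    intro m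
    classical
    have : Fintype κ := Fintype.ofFinite κ
    obtain ⟨N, hN⟩ := aux (Fintype.card (Option κ) * m)
    refine ⟨N, fun α _ X χ hX => ?_⟩
    obtain ⟨T, hTX, hTc, γ, _, hγ⟩ := hN α X χ hX
    obtain ⟨b, _, hb⟩ := exists_le_card_fiber_of_mul_le_card_of_maps_to
      (s := T) (t := (univ : Finset (Option κ))) (f := γ) (n := m)
      (fun a _ => mem_univ _) univ_nonempty (by rw [hTc, card_univ])
    refine ⟨T.filter (fun x => γ x = b), (filter_subset _ _).trans hTX, hb, ?_⟩
    intro A hA B hB hAc hBc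
    obtain ⟨x, hx, hx2⟩ := hγ A (hA.trans (filter_subset _ _)) hAc
    obtain ⟨y, hy, hy2⟩ := hγ B (hB.trans (filter_subset _ _)) hBc
    have h1 := (mem_filter.mp (hA hx)).2
    have h2 := (mem_filter.mp (hB hy)).2
    have : some (χ A) = some (χ B) := by rw [← hx2, ← hy2, h1, h2]
    exact Option.some.inj this

end

open Set

theorem ram_transfer (ψ : Finset ℕ → Finset ℕ) : ∀ (r : ℕ) (C : Set (Finset ℕ)), InjOn ψ C →
    (∀ x ∈ C, ∀ k', ∃ k, ∀ y ∈ C, x ≠ y → ∀ c, Priv c x y k → Priv c (ψ x) (ψ y) k') →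
    nor r C → nor r (ψ '' C)
  | 0, _, hi, _, ⟨x, hx, y, hy, z, hz, h1, h2, h3⟩ =>
    ⟨_, mem_image_of_mem ψ hx, _, mem_image_of_mem ψ hy, _, mem_image_of_mem ψ hz,
      fun e => h1 (hi hx hy e), fun e => h2 (hi hx hz e), fun e => h3 (hi hy hz e)⟩
  | r + 1, C, hi, ht, h => by
    classical
    intro a'
    choose! kk hk using ht
    obtain ⟨C', hs, hn, c, hc⟩ := h fun x => kk x (a' (ψ x))
    refine ⟨ψ '' C', image_mono hs, ram_transfer ψ r C' (hi.mono hs)
      (fun x hx k' => ⟨kk x k', fun y hy => hk x (hs hx) k' y (hs hy)⟩) hn, c, ?_⟩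
    rintro _ ⟨x, hx, rfl⟩ _ ⟨y, hy, rfl⟩ hne
    have hxy : x ≠ y := fun e => hne (e ▸ rfl)
    exact hk x (hs hx) _ y (hs hy) hxy c (hc x hx y hy hxy)

theorem ram_cnt_image {f : ℕ → ℕ} (hf : Function.Injective f) (x : Finset ℕ) {t s : ℕ}
    (h : ∀ u, f u < t ↔ u < s) : cnt (x.image f) t = cnt x s := by
  unfold cnt
  rw [Finset.filter_image, Finset.card_image_of_injective _ hf]
  congr 1
  ext u
  simp [h]

theorem ram_img {f : ℕ → ℕ} (hf : StrictMono f) : ∃ g : ℕ → ℕ,
    (∀ x t, cnt (x.image f) t = cnt x (g t)) ∧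
    ∀ c x y k, Priv c x y (g k) → Priv c (x.image f) (y.image f) k := by
  classical
  have ex : ∀ t, ∃ s, t ≤ f s := fun t => ⟨t, hf.le_apply⟩
  have hg : ∀ t u, f u < t ↔ u < Nat.find (ex t) := fun t u => by
    rw [Nat.lt_find_iff]
    exact ⟨fun h m hm => not_le.2 (lt_of_le_of_lt (hf.monotone hm) h), fun h => not_le.1 (h u le_rfl)⟩
  have hc : ∀ (x : Finset ℕ) t, cnt (x.image f) t = cnt x (Nat.find (ex t)) :=
    fun x t => ram_cnt_image hf.injective x (hg t)
  have hn : ∀ c (x : Finset ℕ) t, nonc c (x.image f) t → nonc c x (Nat.find (ex t)) := by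
    intro c x t h
    rcases h with h | h
    · obtain ⟨u, hu, rfl⟩ := Finset.mem_image.1 h
      left
      have : Nat.find (ex (f u)) = u := by
        refine le_antisymm (Nat.find_min' (ex (f u)) le_rfl) ?_
        exact hf.le_iff_le.1 (Nat.find_spec (ex (f u)))
      rwa [this]
    · right; rwa [hc] at h
  refine ⟨fun t => Nat.find (ex t), hc, ?_⟩
  rintro c x y k ⟨θ, h1, h2, h3⟩
  obtain ⟨θ', e1, e2⟩ : ∃ θ', (∀ t, t < θ' ↔ Nat.find (ex t) < θ) ∧ ∀ u, f u < θ' ↔ u < θ := by
    cases θ with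
    | zero => exact ⟨0, by simp, by simp⟩
    | succ θ =>
      refine ⟨f θ + 1, fun t => ?_, fun u => ?_⟩
      · have := hg t θ
        omega
      · rw [Nat.lt_succ_iff, Nat.lt_succ_iff, hf.le_iff_le]
  have hs : ∀ t, side c θ' t ↔ side c θ (Nat.find (ex t)) := fun t => by
    have := e1 t
    cases c <;> simp only [side, Bool.false_eq_true, if_false, if_true] <;> omega
  refine ⟨θ', (hs k).2 h1, ?_, fun t ht hh => h3 _ ((hs t).1 ht) ⟨hn _ _ _ hh.1, hn _ _ _ hh.2⟩⟩
  rwa [ram_cnt_image hf.injective x e2]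

theorem ram_cnt_union {A B : Finset ℕ} (h : Disjoint A B) (t : ℕ) :
    cnt (A ∪ B) t = cnt A t + cnt B t := by
  unfold cnt
  rw [Finset.filter_union, Finset.card_union_of_disjoint (Finset.disjoint_filter_filter h)]

theorem ram_cnt_Ico (p q t : ℕ) : cnt (Finset.Ico p q) t = min q t - p := by
  unfold cnt
  rw [Finset.Ico_filter_lt, Nat.card_Ico]

theorem ram_cnt_top {x : Finset ℕ} {L t : ℕ} (h : ∀ k ∈ x, k < L) (ht : L ≤ t) :
    cnt x t = x.card := by
  unfold cnt
  rw [Finset.filter_true_of_mem fun k hk => lt_of_lt_of_le (h k hk) ht]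

theorem ram_cnt_zero (x : Finset ℕ) : cnt x 0 = 0 := by simp [cnt]

theorem ram_cnt_le (x : Finset ℕ) (t : ℕ) : cnt x t ≤ x.card := Finset.card_filter_le _ _

/-- a block to the left of the shifted core -/
def ramL (p b s : ℕ) (x : Finset ℕ) : Finset ℕ := Finset.Ico p (p + b) ∪ x.image (· + s)

theorem ramL_disj {p b s : ℕ} (h : p + b ≤ s) (x : Finset ℕ) :
    Disjoint (Finset.Ico p (p + b)) (x.image (· + s)) := by
  rw [Finset.disjoint_left]
  intro t h1 h2
  obtain ⟨u, -, rfl⟩ := Finset.mem_image.1 h2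
  have := (Finset.mem_Ico.1 h1).2
  omega

theorem ramL_cnt {p b s : ℕ} (h : p + b ≤ s) (x : Finset ℕ) (t : ℕ) :
    cnt (ramL p b s x) t = min (p + b) t - p + cnt x (t - s) := by
  rw [ramL, ram_cnt_union (ramL_disj h x), ram_cnt_Ico,
    ram_cnt_image (add_left_injective s) x (s := t - s) fun u => by omega]

theorem ramL_mem {p b s t : ℕ} {x : Finset ℕ} :
    t ∈ ramL p b s x ↔ (p ≤ t ∧ t < p + b) ∨ (s ≤ t ∧ t - s ∈ x) := by
  simp only [ramL, Finset.mem_union, Finset.mem_Ico, Finset.mem_image]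
  refine or_congr Iff.rfl ⟨?_, fun h => ⟨t - s, h.2, by omega⟩⟩
  rintro ⟨u, hu, rfl⟩
  exact ⟨by omega, by simpa using hu⟩

theorem ramL_card {p b s : ℕ} (h : p + b ≤ s) (x : Finset ℕ) :
    (ramL p b s x).card = b + x.card := by
  rw [ramL, Finset.card_union_of_disjoint (ramL_disj h x), Nat.card_Ico,
    Finset.card_image_of_injective _ (add_left_injective s)]
  omega

theorem ramL_low {p b s t : ℕ} {x : Finset ℕ} (h : p + b ≤ s) (hb : Even b) (ht : t < s)
    (hn : nonc true (ramL p b s x) t) : p ≤ t ∧ t < p + b := by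
  rcases hn with hn | hn
  · rcases ramL_mem.1 hn with h1 | h1
    · exact h1
    · omega
  · by_contra hh
    apply hn
    simp only [par, if_true]
    rw [ramL_cnt h, show t - s = 0 by omega, ram_cnt_zero]
    obtain ⟨j, rfl⟩ := hb
    rw [Nat.even_iff]
    omega

theorem ramL_par {p b s t : ℕ} {x : Finset ℕ} (h : p + b ≤ s) (hb : Even b) (ht : s ≤ t)
    (c : Bool) : par c (cnt (ramL p b s x) t) ↔ par c (cnt x (t - s)) := by
  rw [ramL_cnt h]
  obtain ⟨j, rfl⟩ := hb
  cases c <;> simp only [par, Bool.false_eq_true, if_false, if_true, Nat.even_iff, Nat.odd_iff] <;>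
    omega

theorem ramL_high {p b s t : ℕ} {x : Finset ℕ} (h : p + b ≤ s) (hb : Even b) (ht : s ≤ t)
    {c : Bool} (hn : nonc c (ramL p b s x) t) : nonc c x (t - s) := by
  rcases hn with hn | hn
  · rcases ramL_mem.1 hn with h1 | h1
    · omega
    · exact Or.inl h1.2
  · exact Or.inr fun h1 => hn ((ramL_par h hb ht c).2 h1)

theorem ramL_priv {p q b s k : ℕ} {x y : Finset ℕ} (hp : p + b ≤ s) (hq : q + b ≤ s) (hb : Even b)
    (hpq : p + b ≤ q ∨ q + b ≤ p) {c : Bool} (h : Priv c x y (k - s)) :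
    Priv c (ramL p b s x) (ramL q b s y) k := by
  obtain ⟨θ, h1, h2, h3⟩ := h
  have h0 : c = false → θ ≠ 0 := by
    rintro rfl rfl
    simp [par, ram_cnt_zero] at h2
  refine ⟨θ + s, ?_, ?_, fun t ht hh => ?_⟩
  · cases c
    · have := h0 rfl
      simp only [side, Bool.false_eq_true, if_false] at h1 ⊢
      omega
    · simp only [side, if_true] at h1 ⊢
      omega
  · rw [ramL_par hp hb (by omega), Nat.add_sub_cancel]
    exact h2
  · by_cases hts : s ≤ t
    · refine h3 (t - s) ?_ ⟨ramL_high hp hb hts hh.1, ramL_high hq hb hts hh.2⟩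
      cases c <;> simp only [side, Bool.false_eq_true, if_false, if_true] at ht ⊢ <;> omega
    · cases c
      · simp only [side, Bool.false_eq_true, if_false] at ht
        omega
      · have a1 := ramL_low hp hb (not_le.1 hts) hh.1
        have a2 := ramL_low hq hb (not_le.1 hts) hh.2
        omega

theorem ramL_top {p q b s k : ℕ} {x y : Finset ℕ} (hp : p + b ≤ s) (hq : q + b ≤ s) (hb : Even b)
    (hpq : p + b ≤ q ∨ q + b ≤ p) (h : cnt (ramL p b s x) k < b) :
    Priv true (ramL p b s x) (ramL q b s y) k := by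
  rw [ramL_cnt hp] at h
  refine ⟨p + b, show k < p + b by omega, ?_, fun t ht hh => ?_⟩
  · simp only [par, if_true]
    rw [ramL_cnt hp, show p + b - s = 0 by omega, ram_cnt_zero]
    simpa using hb
  · have ht' : t < p + b := ht
    have a1 := ramL_low hp hb (by omega) hh.1
    have a2 := ramL_low hq hb (by omega) hh.2
    omega

/-- a block to the right of the core -/
def ramR (p b : ℕ) (x : Finset ℕ) : Finset ℕ := x ∪ Finset.Ico p (p + b)

theorem ramR_disj {p b L : ℕ} {x : Finset ℕ} (hx : ∀ k ∈ x, k < L) (h : L ≤ p) :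
    Disjoint x (Finset.Ico p (p + b)) := by
  rw [Finset.disjoint_left]
  intro t h1 h2
  have := (Finset.mem_Ico.1 h2).1
  have := hx t h1
  omega

theorem ramR_cnt {p b L : ℕ} {x : Finset ℕ} (hx : ∀ k ∈ x, k < L) (h : L ≤ p) (t : ℕ) :
    cnt (ramR p b x) t = cnt x t + (min (p + b) t - p) := by
  rw [ramR, ram_cnt_union (ramR_disj hx h), ram_cnt_Ico]

theorem ramR_card {p b L : ℕ} {x : Finset ℕ} (hx : ∀ k ∈ x, k < L) (h : L ≤ p) :
    (ramR p b x).card = x.card + b := by
  rw [ramR, Finset.card_union_of_disjoint (ramR_disj hx h), Nat.card_Ico]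
  omega

theorem ramR_mem {p b t : ℕ} {x : Finset ℕ} : t ∈ ramR p b x ↔ t ∈ x ∨ (p ≤ t ∧ t < p + b) := by
  simp only [ramR, Finset.mem_union, Finset.mem_Ico]

theorem ramR_high {p b L t : ℕ} {x : Finset ℕ} (hx : ∀ k ∈ x, k < L) (h : L ≤ p) (hb : Even b)
    (ho : Odd x.card) (ht : L ≤ t) (hn : nonc false (ramR p b x) t) : p ≤ t ∧ t < p + b := by
  rcases hn with hn | hn
  · rcases ramR_mem.1 hn with h1 | h1
    · have := hx t h1
      omega
    · exact h1
  · by_contra hh
    apply hn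
    simp only [par, Bool.false_eq_true, if_false]
    rw [ramR_cnt hx h, ram_cnt_top hx ht]
    obtain ⟨j, rfl⟩ := hb
    rw [Nat.odd_iff] at ho ⊢
    omega

theorem ramR_low {p b L t : ℕ} {x : Finset ℕ} (hx : ∀ k ∈ x, k < L) (h : L ≤ p) (ht : t < L)
    {c : Bool} (hn : nonc c (ramR p b x) t) : nonc c x t := by
  rcases hn with hn | hn
  · rcases ramR_mem.1 hn with h1 | h1
    · exact Or.inl h1
    · omega
  · right
    rwa [ramR_cnt hx h, show min (p + b) t - p = 0 by omega, add_zero] at hn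

theorem ramR_priv {p q b L k : ℕ} {x y : Finset ℕ} (hx : ∀ k ∈ x, k < L) (hy : ∀ k ∈ y, k < L)
    (hp : L ≤ p) (hq : L ≤ q) (hb : Even b) (ox : Odd x.card) (oy : Odd y.card)
    (hpq : p + b ≤ q ∨ q + b ≤ p) {c : Bool} (h : Priv c x y k) :
    Priv c (ramR p b x) (ramR q b y) k := by
  obtain ⟨θ, h1, h2, h3⟩ := h
  have h0 : c = true → θ < L := by
    rintro rfl
    by_contra hh
    rw [ram_cnt_top hx (not_lt.1 hh)] at h2
    exact Nat.not_even_iff_odd.2 ox h2
  refine ⟨min θ L, ?_, ?_, fun t ht hh => ?_⟩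
  · cases c
    · simp only [side, Bool.false_eq_true, if_false] at h1 ⊢
      omega
    · have := h0 rfl
      simp only [side, if_true] at h1 ⊢
      omega
  · rw [ramR_cnt hx hp, show min (p + b) (min θ L) - p = 0 by omega, add_zero]
    rcases le_total θ L with h | h
    · rwa [min_eq_left h]
    · rwa [min_eq_right h, ram_cnt_top hx le_rfl, ← ram_cnt_top hx h]
  · by_cases htl : t < L
    · refine h3 t ?_ ⟨ramR_low hx hp htl hh.1, ramR_low hy hq htl hh.2⟩
      cases c <;> simp only [side, Bool.false_eq_true, if_false, if_true] at ht ⊢ <;> omega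
    · cases c
      · have a1 := ramR_high hx hp hb ox (not_lt.1 htl) hh.1
        have a2 := ramR_high hy hq hb oy (not_lt.1 htl) hh.2
        omega
      · simp only [side, if_true] at ht
        omega

theorem ramR_top {p q b L k : ℕ} {x y : Finset ℕ} (hx : ∀ k ∈ x, k < L) (hy : ∀ k ∈ y, k < L)
    (hp : L ≤ p) (hq : L ≤ q) (hb : Even b) (ox : Odd x.card) (oy : Odd y.card)
    (hpq : p + b ≤ q ∨ q + b ≤ p) (h : x.card < cnt (ramR p b x) k) :
    Priv false (ramR p b x) (ramR q b y) k := by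
  rw [ramR_cnt hx hp] at h
  have := ram_cnt_le x k
  refine ⟨p, show p ≤ k by omega, ?_, fun t ht hh => ?_⟩
  · simp only [par, Bool.false_eq_true, if_false]
    rw [ramR_cnt hx hp, ram_cnt_top hx hp]
    simpa using ox
  · have ht' : p ≤ t := ht
    have a1 := ramR_high hx hp hb ox (by omega) hh.1
    have a2 := ramR_high hy hq hb oy (by omega) hh.2
    omega

/-- one of the two block embeddings, abstractly -/
theorem ram_emb {S : Finset (Finset ℕ)} {L n r : ℕ} (ho : Odd n)
    (hS : ∀ x ∈ S, x.card = n ∧ ∀ k ∈ x, k < L) (hn : nor r (S : Set (Finset ℕ))) :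
    ∃ W, ∀ c : Bool, ∃ T : Set (Finset ℕ), nor r T ∧
      (∀ x ∈ T, x.card = 2 * n + 1 ∧ ∀ k ∈ x, k < W) ∧
      ∀ x ∈ T, ∀ y ∈ T, x ≠ y → ∀ k, decide (cnt x k ≤ n) = c → Priv c x y k := by
  classical
  set N := S.sup Encodable.encode + 1 with hN
  have hi : ∀ x ∈ S, Encodable.encode x * (n + 1) + (n + 1) ≤ N * (n + 1) := fun x hx => by
    have : Encodable.encode x + 1 ≤ N := Nat.succ_le_succ (Finset.le_sup (f := Encodable.encode) hx)
    calc _ = (Encodable.encode x + 1) * (n + 1) := by ring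
      _ ≤ _ := Nat.mul_le_mul_right _ this
  have hd : ∀ x y : Finset ℕ, x ≠ y →
      Encodable.encode x * (n + 1) + (n + 1) ≤ Encodable.encode y * (n + 1) ∨
      Encodable.encode y * (n + 1) + (n + 1) ≤ Encodable.encode x * (n + 1) := fun x y h => by
    have key : ∀ a b : ℕ, a < b → a * (n + 1) + (n + 1) ≤ b * (n + 1) := fun a b hab =>
      calc _ = (a + 1) * (n + 1) := by ring
        _ ≤ _ := Nat.mul_le_mul_right _ hab
    exact (lt_or_gt_of_ne (Encodable.encode_injective.ne h)).imp (key _ _) (key _ _)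
  have hb : Even (n + 1) := ho.add_one
  refine ⟨L + N * (n + 1), fun c => ?_⟩
  cases c
  · refine ⟨(fun x => ramR (L + Encodable.encode x * (n + 1)) (n + 1) x) '' S,
      ram_transfer _ r _ ?_ ?_ hn, ?_, ?_⟩
    · intro x hx y hy e
      by_contra hne
      have h1 : L + Encodable.encode x * (n + 1) ∈
        ramR (L + Encodable.encode x * (n + 1)) (n + 1) x := ramR_mem.2 (Or.inr ⟨le_rfl, by omega⟩)
      simp only at e
      rw [e] at h1
      have := hd x y hne
      rcases ramR_mem.1 h1 with h2 | h2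
      · have := (hS y hy).2 _ h2
        omega
      · omega
    · intro x hx k
      refine ⟨k, fun y hy hne c h => ramR_priv (hS x hx).2 (hS y hy).2 (by omega) (by omega) hb
        ((hS x hx).1 ▸ ho) ((hS y hy).1 ▸ ho) ?_ h⟩
      have := hd x y hne
      omega
    · rintro _ ⟨x, hx, rfl⟩
      refine ⟨by rw [ramR_card (hS x hx).2 (by omega), (hS x hx).1]; omega, fun k hk => ?_⟩
      have := hi x hx
      rcases ramR_mem.1 hk with h | h
      · have := (hS x hx).2 k h
        omega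
      · omega
    · rintro _ ⟨x, hx, rfl⟩ _ ⟨y, hy, rfl⟩ hne k hk
      have := hd x y fun e => hne (e ▸ rfl)
      refine ramR_top (hS x hx).2 (hS y hy).2 (by omega) (by omega) hb
        ((hS x hx).1 ▸ ho) ((hS y hy).1 ▸ ho) (by omega) ?_
      rw [(hS x hx).1]
      simpa using hk
  · refine ⟨(fun x => ramL (Encodable.encode x * (n + 1)) (n + 1) (N * (n + 1)) x) '' S,
      ram_transfer _ r _ ?_ ?_ hn, ?_, ?_⟩
    · intro x hx y hy e
      by_contra hne
      have h1 : Encodable.encode x * (n + 1) ∈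
        ramL (Encodable.encode x * (n + 1)) (n + 1) (N * (n + 1)) x :=
        ramL_mem.2 (Or.inl ⟨le_rfl, by omega⟩)
      simp only at e
      rw [e] at h1
      have := hd x y hne
      have := hi x hx
      rcases ramL_mem.1 h1 with h2 | h2 <;> omega
    · intro x hx k
      exact ⟨k - N * (n + 1), fun y hy hne c h =>
        ramL_priv (hi x hx) (hi y hy) hb (hd x y hne) h⟩
    · rintro _ ⟨x, hx, rfl⟩
      refine ⟨by rw [ramL_card (hi x hx), (hS x hx).1]; omega, fun k hk => ?_⟩
      have := hi x hx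
      rcases ramL_mem.1 hk with h | h
      · omega
      · have := (hS x hx).2 _ h.2
        omega
    · rintro _ ⟨x, hx, rfl⟩ _ ⟨y, hy, rfl⟩ hne k hk
      refine ramL_top (hi x hx) (hi y hy) hb (hd x y fun e => hne (e ▸ rfl)) ?_
      simpa [Nat.lt_succ_iff] using hk

theorem ram_level (r : ℕ) : ∃ (S : Finset (Finset ℕ)) (L n : ℕ), Odd n ∧
    (∀ x ∈ S, x.card = n ∧ ∀ k ∈ x, k < L) ∧ nor r (S : Set (Finset ℕ)) := by
  classical
  induction r with
  | zero =>
    refine ⟨{{0}, {1}, {2}}, 3, 1, odd_one, by decide, {0}, by simp, {1}, by simp, {2}, by simp,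
      by decide, by decide, by decide⟩
  | succ r ih =>
    obtain ⟨S, L, n, ho, hS, hn⟩ := ih
    obtain ⟨W, hW⟩ := ram_emb ho hS hn
    obtain ⟨M, hM⟩ := ram_ramsey Bool (2 * n + 1) (max W (2 * n + 1))
    refine ⟨Finset.powersetCard (2 * n + 1) (Finset.range M), M, 2 * n + 1, odd_two_mul_add_one n,
      fun x hx => ?_, fun a => ?_⟩
    · obtain ⟨h1, h2⟩ := Finset.mem_powersetCard.1 hx
      exact ⟨h2, fun k hk => Finset.mem_range.1 (h1 hk)⟩
    obtain ⟨Y, hY, hc, hh⟩ := hM ℕ (Finset.range M) (fun x => decide (cnt x (a x) ≤ n)) (by simp)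
    obtain ⟨A, hA, hAc⟩ := Finset.exists_subset_card_eq ((le_max_right _ _).trans hc)
    have hWY : W ≤ Y.card := (le_max_left _ _).trans hc
    obtain ⟨f, hf, hfY⟩ : ∃ f : ℕ → ℕ, StrictMono f ∧ ∀ s < W, f s ∈ Y := by
      refine ⟨fun s => if h : s < W then Y.orderEmbOfCardLe hWY ⟨s, h⟩ else M + s, ?_, ?_⟩
      · intro s t hst
        by_cases ht : t < W
        · simp only [dif_pos ht, dif_pos (hst.trans ht)]
          exact (Y.orderEmbOfCardLe hWY).strictMono hst
        · by_cases hs : s < W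
          · simp only [dif_neg ht, dif_pos hs]
            have := Finset.mem_range.1 (hY (Y.orderEmbOfCardLe_mem hWY ⟨s, hs⟩))
            omega
          · simp only [dif_neg ht, dif_neg hs]
            omega
      · intro s hs
        simp only [dif_pos hs]
        exact Y.orderEmbOfCardLe_mem hWY _
    obtain ⟨g, hg1, hg2⟩ := ram_img hf
    obtain ⟨T, hT1, hT2, hT3⟩ := hW (decide (cnt A (a A) ≤ n))
    have hsub : ∀ x ∈ T, x.image f ⊆ Y ∧ (x.image f).card = 2 * n + 1 := fun x hx =>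
      ⟨fun t ht => by
        obtain ⟨u, hu, rfl⟩ := Finset.mem_image.1 ht
        exact hfY u ((hT2 x hx).2 u hu),
      by rw [Finset.card_image_of_injective _ hf.injective, (hT2 x hx).1]⟩
    refine ⟨(fun x => x.image f) '' T, ?_, ram_transfer (fun x => x.image f) r T
      (fun x _ y _ e => Finset.image_injective hf.injective e)
      (fun x _ k => ⟨g k, fun y _ _ c h => hg2 c x y k h⟩) hT1, decide (cnt A (a A) ≤ n), ?_⟩
    · rintro _ ⟨x, hx, rfl⟩
      exact Finset.mem_coe.2 (Finset.mem_powersetCard.2 ⟨(hsub x hx).1.trans hY, (hsub x hx).2⟩)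
    · rintro _ ⟨x, hx, rfl⟩ _ ⟨y, hy, rfl⟩ hne
      refine hg2 _ x y _ (hT3 x hx y hy (fun e => hne (e ▸ rfl)) _ ?_)
      rw [← hg1]
      exact hh _ (hsub x hx).1 A hA (hsub x hx).2 hAc

theorem exists_level (r : ℕ) : ∃ (S : Finset (Finset ℕ)) (L : ℕ),
    (∀ x ∈ S, Odd x.card ∧ ∀ k ∈ x, k < L) ∧ nor r (S : Set (Finset ℕ)) := by
  obtain ⟨S, L, n, ho, hS, hn⟩ := ram_level r
  exact ⟨S, L, fun x hx => ⟨(hS x hx).1 ▸ ho, (hS x hx).2⟩, hn⟩

end Pool.Agent.Lib.MP_5ffd28_gt.CR
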