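import Pool.Agent.Lib.MP_5ffd28_gt.CR.Sys

/-! One stage of a fusion. -/

namespace Pool.Agent.Lib.MP_5ffd28_gt.CR

open Set Filter Topology

/-- laminar finite families of conditions below `p` -/
structure Lam (p : Set Om) (𝒴 : Set (Set Om)) : Prop where
  fin : 𝒴.Finite
  ne : 𝒴.Nonempty
  cond : ∀ Y ∈ 𝒴, Cond Y
  sub : ∀ Y ∈ 𝒴, Y ⊆ p
  lam : ∀ Y ∈ 𝒴, ∀ Y' ∈ 𝒴, ∀ δ, proj δ Y = proj δ Y' ∨ Disjoint (proj δ Y) (proj δ Y')

/-- `𝒴'` is a refinement of `𝒴` that splits at `β` with norm `r` -/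
structure Ref (β : I) (r : ℕ) (Φ : Set Om → ℕ → Finset ℕ → Finset ℕ → Prop) (Q : Set Om → Prop)
    (𝒴 𝒴' : Set (Set Om)) : Prop where
  par : ∀ W ∈ 𝒴', ∃ Y ∈ 𝒴, W ⊆ Y
  partner : ∀ Y ∈ 𝒴, ∀ Y' ∈ 𝒴, ∀ δ, proj δ Y = proj δ Y' → ∀ W ∈ 𝒴', W ⊆ Y →
    ∃ W' ∈ 𝒴', W' ⊆ Y' ∧ proj δ W = proj δ W'
  big : ∀ W ∈ 𝒴', ∃ m, r ≤ m ∧ (∀ ω ∈ W, ∀ ω' ∈ W, ∀ i ≤ m, ω β i = ω' β i) ∧ ∃ C, nor r C ∧
    ∀ y ∈ C, ∃ W' ∈ 𝒴', proj β W = proj β W' ∧ W' ⊆ cyl β m y ∧
      ∀ ω ∈ W, ∀ ω' ∈ W', ∀ i < m, ω' β i = ω β i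
  dec : ∀ W ∈ 𝒴', Q W
  first : ∀ α : I, ∀ Y ∈ 𝒴, ∀ Y' ∈ 𝒴, proj (sx α) Y = proj (sx α) Y' → ∀ W ∈ 𝒴', ∀ W' ∈ 𝒴',
    W ⊆ Y → W' ⊆ Y' → proj (sx α) W ≠ proj (sx α) W' → ∀ ω ∈ W, ∀ ω' ∈ W', Ag α ω ω' →
      α = β ∧ ∃ m, (∀ i < m, ω β i = ω' β i) ∧ ω β m ≠ ω' β m ∧ Φ W m (ω β m).1 (ω' β m).1

/-- agreement of all successor projections below `δ` gives agreement at `δ` -/
theorem stage_proj_sub {X Y : Set Om} (hY : IsClosed Y) (hne : Y.Nonempty) {δ : WithTop I}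
    (H : ∀ b : I, (b : WithTop I) < δ → proj (sx b) X ⊆ proj (sx b) Y) :
    proj δ X ⊆ proj δ Y := by
  intro ω hω
  have hc : ∀ b : {b : I // (b : WithTop I) < δ}, IsClosed {ω' : Om | ω b.1 = ω' b.1} :=
    fun b => isClosed_eq continuous_const (continuous_apply b.1)
  obtain ⟨u, hu, hu'⟩ := hY.isCompact.inter_iInter_nonempty _ hc (fun u => by
    rcases u.eq_empty_or_nonempty with e | e
    · subst e
      simpa using hne
    · obtain ⟨b, hb, hb'⟩ := u.exists_max_image (fun b => b.1) e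
      obtain ⟨v, hv, hv'⟩ := H b.1 b.2 (proj_anti (sx_le.2 b.2) X hω)
      exact ⟨v, hv, mem_iInter₂.2 fun c hc => hv' c.1 (lt_sx.2 (hb' c hc))⟩)
  exact ⟨u, hu, fun b hb => mem_iInter.1 hu' ⟨b, hb⟩⟩

/-- the level of first disagreement -/
theorem stage_exists_lev {X Y : Set Om} (hX : Cond X) (hY : Cond Y) :
    ∃ e : WithTop I, ∀ δ, proj δ X = proj δ Y ↔ δ ≤ e := by
  by_cases hA : ∃ b : I, proj (sx b) X ≠ proj (sx b) Y
  · obtain ⟨b, hb, hm⟩ := WellFounded.has_min (wellFounded_lt (α := I))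
      {b : I | proj (sx b) X ≠ proj (sx b) Y} hA
    refine ⟨b, fun δ => ⟨fun e => ?_, fun e => ?_⟩⟩
    · by_contra hn
      exact hb (proj_eq_of_le (sx_le.2 (not_le.1 hn)) e)
    · have key : ∀ c : I, (c : WithTop I) < δ → proj (sx c) X = proj (sx c) Y := fun c hc => by
        by_contra hn
        exact hm c hn (WithTop.coe_lt_coe.1 (hc.trans_le e))
      exact (stage_proj_sub hY.cl hY.ne fun c hc => (key c hc).le).antisymm
        (stage_proj_sub hX.cl hX.ne fun c hc => (key c hc).ge)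
  · have key : ∀ c : I, proj (sx c) X = proj (sx c) Y := fun c => by
      by_contra hn
      exact hA ⟨c, hn⟩
    exact ⟨⊤, fun δ => ⟨fun _ => le_top, fun _ =>
      (stage_proj_sub hY.cl hY.ne fun c _ => (key c).le).antisymm
        (stage_proj_sub hX.cl hX.ne fun c _ => (key c).ge)⟩⟩

theorem Str.stage_proj {β : I} {m : ℕ} {C : Set (Finset ℕ)} {X : Set Om} (h : Str β m C X)
    {x : Finset ℕ} (hx : x ∈ C) {δ : WithTop I} (hδ : δ ≤ β) :
    proj δ (X ∩ cyl β m x) = proj δ X :=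
  proj_eq_of_le hδ ((proj_mono _ inter_subset_left).antisymm (h.full x hx))

theorem Str.stage_ne {β : I} {m : ℕ} {C : Set (Finset ℕ)} {X : Set Om} (h : Str β m C X)
    (hX : X.Nonempty) {x : Finset ℕ} (hx : x ∈ C) : (X ∩ cyl β m x).Nonempty :=
  let ⟨_, hω⟩ := hX
  let ⟨u, hu, _⟩ := h.full x hx (subset_proj _ _ hω)
  ⟨u, hu⟩

theorem Str.stage_cond {β : I} {m : ℕ} {C : Set (Finset ℕ)} {X : Set Om} (h : Str β m C X)
    (hX : Cond X) {x : Finset ℕ} (hx : x ∈ C) : Cond (X ∩ cyl β m x) :=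
  hX.inter_clopen (isClopen_cyl β m x) (h.stage_ne hX.ne hx)

theorem Str.stage_fin {β : I} {m : ℕ} {C : Set (Finset ℕ)} {X : Set Om} (h : Str β m C X)
    (hX : X.Nonempty) : C.Finite :=
  (lv m).finite_toSet.subset fun x hx =>
    let ⟨u, hu⟩ := h.stage_ne hX hx
    (show (u β m).1 = x from hu.2) ▸ (u β m).2

/-- the step on all classes of agreement up to `β` -/
theorem stage_classes {p : Set Om} {β : I} {Φ : Set Om → ℕ → Finset ℕ → Finset ℕ → Prop}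
    (hΦ : ∀ W W' m x y, Φ W m x y → Cond W' → W' ⊆ W → Φ W' m x y) (hS : StepAt p β Φ) (r : ℕ)
    {κ : Type} [Finite κ] {d : κ → κ → WithTop I} (hd : Ult d) {Y : κ → Set Om}
    (hY : Sys d univ Y) (hp : ∀ i, Y i ⊆ p) (t : Set κ) (ht : t.Finite) :
    ∃ Y', Sys d univ Y' ∧ (∀ i, Y' i ⊆ Y i) ∧ ∃ (m : κ → ℕ) (C : κ → Set (Finset ℕ)),
      (∀ i j, sx β ≤ d i j → m i = m j ∧ C i = C j) ∧ ∀ i ∈ t, r ≤ m i ∧ nor r (C i) ∧
        Str β (m i) (C i) (Y' i) ∧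
          ∀ x ∈ C i, ∀ y ∈ C i, x ≠ y → Φ (Y' i ∩ cyl β (m i) x) (m i) x y := by
  classical
  induction t, ht using Set.Finite.induction_on with
  | empty => exact ⟨Y, hY, fun _ => Subset.rfl, fun _ => 0, fun _ => ∅, fun _ _ _ => ⟨rfl, rfl⟩,
      fun _ h => h.elim⟩
  | @insert i0 t _ _ ih =>
    obtain ⟨Y', hY', hs, m, C, hmc, H⟩ := ih
    have h0 : sx β ≤ d i0 i0 := by rw [hd.refl]; exact le_top
    have : Nonempty {j // sx β ≤ d i0 j} := ⟨⟨i0, h0⟩⟩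
    have htr : ∀ {a b c}, sx β ≤ d a b → sx β ≤ d b c → sx β ≤ d a c := fun h1 h2 =>
      (le_min h1 h2).trans (hd.ult _ _ _)
    obtain ⟨Y2, hY2, hs2, m0, hm0, C0, hC0, H2⟩ := hS {j // sx β ≤ d i0 j} (fun a b => d a.1 b.1)
      (fun a => Y' a.1) ⟨fun a => hd.refl _, fun a b => hd.symm _ _, fun a b c => hd.ult _ _ _⟩
      (fun a b => htr (hd.symm _ _ ▸ a.2) b.2)
      ⟨fun a _ => hY'.cond _ trivial, fun a _ b _ => hY'.agr _ trivial _ trivial⟩
      (fun a => (hs _).trans (hp _)) r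
    have hV : Cond (Y2 ⟨i0, h0⟩) := hY2.cond _ trivial
    have hsh := hY'.shrink hd (mem_univ i0) hV (hs2 ⟨i0, h0⟩)
    have mix : ∀ j (hj : sx β ≤ d i0 j) k, ¬ sx β ≤ d i0 k →
        proj (d j k) (Y2 ⟨j, hj⟩) = proj (d j k) (Y' k ∩ proj (d k i0) (Y2 ⟨i0, h0⟩)) := by
      intro j hj k hk
      have hlt : d i0 k < d i0 j := (not_le.1 hk).trans_le hj
      have e : d j k = d k i0 := by
        apply le_antisymm
        · have := hd.ult i0 j k
          rw [hd.symm k i0]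
          rcases min_le_iff.1 this with h | h
          exacts [absurd h (not_le.2 hlt), h]
        · have := hd.ult j i0 k
          rw [hd.symm j i0, min_eq_right hlt.le] at this
          rwa [hd.symm k i0]
      rw [e, proj_inter_self ((proj_mono _ (hs2 ⟨i0, h0⟩)).trans
        (hY'.agr k trivial i0 trivial).ge)]
      refine proj_eq_of_le ?_ (hY2.agr ⟨j, hj⟩ trivial ⟨i0, h0⟩ trivial)
      show d k i0 ≤ d j i0
      rw [hd.symm k i0, hd.symm j i0]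
      exact hlt.le
    refine ⟨fun j => if hj : sx β ≤ d i0 j then Y2 ⟨j, hj⟩
        else Y' j ∩ proj (d j i0) (Y2 ⟨i0, h0⟩), ⟨fun j _ => ?_, fun j _ k _ => ?_⟩, fun j => ?_,
      fun j => if sx β ≤ d i0 j then m0 else m j, fun j => if sx β ≤ d i0 j then C0 else C j,
      fun j k hjk => ?_, fun j hj => ?_⟩
    · by_cases hj : sx β ≤ d i0 j
      · simp only [dif_pos hj]
        exact hY2.cond _ trivial
      · simp only [dif_neg hj]
        exact hsh.cond j trivial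
    · by_cases hj : sx β ≤ d i0 j <;> by_cases hk : sx β ≤ d i0 k
      · simp only [dif_pos hj, dif_pos hk]
        exact hY2.agr ⟨j, hj⟩ trivial ⟨k, hk⟩ trivial
      · simp only [dif_pos hj, dif_neg hk]
        exact mix j hj k hk
      · simp only [dif_neg hj, dif_pos hk]
        rw [hd.symm j k]
        exact (mix k hk j hj).symm
      · simp only [dif_neg hj, dif_neg hk]
        exact hsh.agr j trivial k trivial
    · by_cases hj : sx β ≤ d i0 j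
      · simp only [dif_pos hj]
        exact (hs2 ⟨j, hj⟩).trans (hs j)
      · simp only [dif_neg hj]
        exact inter_subset_left.trans (hs j)
    · by_cases hj : sx β ≤ d i0 j
      · simp only [if_pos hj, if_pos (htr hj hjk), and_self]
      · have hk : ¬ sx β ≤ d i0 k := fun hk => hj (htr hk (hd.symm _ _ ▸ hjk))
        simp only [if_neg hj, if_neg hk]
        exact hmc j k hjk
    · by_cases hc : sx β ≤ d i0 j
      · simp only [dif_pos hc, if_pos hc]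
        exact ⟨hm0, hC0, H2 ⟨j, hc⟩⟩
      · simp only [dif_neg hc, if_neg hc]
        have hjt : j ∈ t := by
          rcases hj with rfl | hj
          exacts [absurd h0 hc, hj]
        obtain ⟨a1, a2, a3, a4⟩ := H j hjt
        have hle : d j i0 ≤ β := by
          rw [hd.symm j i0]
          exact lt_sx'.1 (not_le.1 hc)
        have a5 := a3.inter (V := Y2 ⟨i0, h0⟩) hle
        exact ⟨a1, a2, a5, fun x hx y hy hxy => hΦ _ _ _ _ _ (a4 x hx y hy hxy)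
          (a5.stage_cond (hsh.cond j trivial) hx) (inter_subset_inter_left _ inter_subset_left)⟩

theorem stage {p : Set Om} {𝒴 : Set (Set Om)} (h : Lam p 𝒴) (β : I) (r : ℕ)
    {Φ : Set Om → ℕ → Finset ℕ → Finset ℕ → Prop}
    (hΦ : ∀ W W' m x y, Φ W m x y → Cond W' → W' ⊆ W → Φ W' m x y) (hS : StepAt p β Φ)
    {Q : Set Om → Prop} (hQ : ∀ u v, Q u → Cond v → v ⊆ u → Q v)
    (hQ' : ∀ u, Cond u → u ⊆ p → ∃ v ⊆ u, Cond v ∧ Q v) :
    ∃ 𝒴', Lam p 𝒴' ∧ Ref β r Φ Q 𝒴 𝒴' := by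
  classical
  have : Finite 𝒴 := h.fin
  obtain ⟨i0⟩ : Nonempty 𝒴 := h.ne.to_subtype
  choose d hdp using fun i j : 𝒴 => stage_exists_lev (h.cond _ i.2) (h.cond _ j.2)
  have hd : Ult d := ⟨fun i => top_le_iff.1 ((hdp i i ⊤).1 rfl),
    fun i j => le_antisymm ((hdp j i _).1 ((hdp i j _).2 le_rfl).symm)
      ((hdp i j _).1 ((hdp j i _).2 le_rfl).symm),
    fun i j k => (hdp i k _).1 (((hdp i j _).2 (min_le_left _ _)).trans
      ((hdp j k _).2 (min_le_right _ _)))⟩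
  have h0 : Sys d univ fun i : 𝒴 => i.1 :=
    ⟨fun i _ => h.cond _ i.2, fun i _ j _ => (hdp i j _).2 le_rfl⟩
  obtain ⟨Y1, hY1, hs1, hQ1⟩ := h0.dec hd (t := univ) finite_univ Subset.rfl (e := ⊤)
    (fun _ _ _ _ _ => le_top) (Q := fun _ => Q) (fun _ => hQ) fun i _ u hu e =>
      hQ' u hu (e ▸ inter_subset_left.trans (h.sub _ i.2))
  obtain ⟨Y, hY, hs, m, C, hmc, H⟩ := stage_classes hΦ hS r hd hY1
    (fun i => (hs1 i trivial).trans (h.sub _ i.2)) univ finite_univ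
  have hstr : ∀ i, Str β (m i) (C i) (Y i) := fun i => (H i trivial).2.2.1
  have hc : ∀ i, Cond (Y i) := fun i => hY.cond i trivial
  have hsub : ∀ i x, Y i ∩ cyl β (m i) x ⊆ i.1 := fun i x =>
    inter_subset_left.trans ((hs i).trans (hs1 i trivial))
  have hid : ∀ (i : 𝒴) x, x ∈ C i → ∀ X ∈ 𝒴, Y i ∩ cyl β (m i) x ⊆ X → i.1 = X := by
    intro i x hx X hX e
    rcases h.lam _ i.2 _ hX ⊤ with a | a
    · rwa [proj_top, proj_top] at a
    · rw [proj_top, proj_top] at a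
      obtain ⟨u, hu⟩ := (hstr i).stage_ne (hc i).ne hx
      exact (disjoint_left.1 a (hsub i x hu) (e hu)).elim
  have low : ∀ i j x y δ, x ∈ C i → y ∈ C j → δ ≤ d i j → δ ≤ β →
      proj δ (Y i ∩ cyl β (m i) x) = proj δ (Y j ∩ cyl β (m j) y) := by
    intro i j x y δ hx hy h1 h2
    rw [(hstr i).stage_proj hx h2, (hstr j).stage_proj hy h2]
    exact proj_eq_of_le h1 (hY.agr i trivial j trivial)
  have high : ∀ i j x δ, δ ≤ d i j → (β : WithTop I) < δ →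
      proj δ (Y i ∩ cyl β (m i) x) = proj δ (Y j ∩ cyl β (m j) x) := by
    intro i j x δ h1 h2
    rw [proj_inter_cyl h2, proj_inter_cyl h2, (hmc i j ((sx_le.2 h2).trans h1)).1,
      proj_eq_of_le h1 (hY.agr i trivial j trivial)]
  refine ⟨{W | ∃ i, ∃ x ∈ C i, W = Y i ∩ cyl β (m i) x}, ⟨?_, ?_, ?_, ?_, ?_⟩, ?_, ?_, ?_, ?_, ?_⟩
  · refine (finite_iUnion fun i => ((hstr i).stage_fin (hc i).ne).image
      fun x => Y i ∩ cyl β (m i) x).subset ?_
    rintro _ ⟨i, x, hx, rfl⟩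
    exact mem_iUnion.2 ⟨i, x, hx, rfl⟩
  · obtain ⟨x, hx, -⟩ := nor_ne (H i0 trivial).2.1 ∅
    exact ⟨_, i0, x, hx, rfl⟩
  · rintro _ ⟨i, x, hx, rfl⟩
    exact (hstr i).stage_cond (hc i) hx
  · rintro _ ⟨i, x, hx, rfl⟩
    exact (hsub i x).trans (h.sub _ i.2)
  · rintro _ ⟨i, x, hx, rfl⟩ _ ⟨j, y, hy, rfl⟩ δ
    by_cases h1 : δ ≤ d i j
    · rcases le_or_gt δ β with h2 | h2
      · exact Or.inl (low i j x y δ hx hy h1 h2)
      · by_cases e : x = y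
        · exact Or.inl (e ▸ high i j x δ h1 h2)
        · right
          rw [proj_inter_cyl h2, proj_inter_cyl h2, (hmc i j ((sx_le.2 h2).trans h1)).1]
          exact disjoint_left.2 fun u a b =>
            e ((show (u β (m j)).1 = x from a.2).symm.trans b.2)
    · right
      exact ((h.lam _ i.2 _ j.2 δ).resolve_left fun e => h1 ((hdp i j δ).1 e)).mono
        (proj_mono _ (hsub i x)) (proj_mono _ (hsub j y))
  · rintro _ ⟨i, x, hx, rfl⟩
    exact ⟨_, i.2, hsub i x⟩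
  · rintro X hX X' hX' δ e _ ⟨i, x, hx, rfl⟩ hW
    obtain rfl := hid i x hx X hX hW
    have h1 : δ ≤ d i ⟨X', hX'⟩ := (hdp i ⟨X', hX'⟩ δ).1 e
    rcases le_or_gt δ β with h2 | h2
    · obtain ⟨y, hy, -⟩ := nor_ne (H ⟨X', hX'⟩ trivial).2.1 ∅
      exact ⟨_, ⟨_, y, hy, rfl⟩, hsub ⟨X', hX'⟩ y, low _ _ x y δ hx hy h1 h2⟩
    · exact ⟨_, ⟨⟨X', hX'⟩, x, (hmc _ _ ((sx_le.2 h2).trans h1)).2 ▸ hx, rfl⟩,
        hsub ⟨X', hX'⟩ x, high _ _ x δ h1 h2⟩
  · rintro _ ⟨i, x, hx, rfl⟩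
    refine ⟨m i, (H i trivial).1, fun ω a ω' b k hk => ?_, C i, (H i trivial).2.1, fun y hy =>
      ⟨_, ⟨i, y, hy, rfl⟩, low i i x y β hx hy (by rw [hd.refl]; exact le_top) le_rfl,
        inter_subset_right, fun ω a ω' b k hk => (hstr i).stem _ b.1 _ a.1 k hk⟩⟩
    rcases hk.lt_or_eq with hk | rfl
    · exact (hstr i).stem _ a.1 _ b.1 k hk
    · exact K.ext ((show (ω β (m i)).1 = x from a.2).trans
        (show (ω' β (m i)).1 = x from b.2).symm)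
  · rintro _ ⟨i, x, hx, rfl⟩
    exact hQ _ _ (hQ1 i trivial) ((hstr i).stage_cond (hc i) hx) (inter_subset_left.trans (hs i))
  · rintro α X hX X' hX' e _ ⟨i, x, hx, rfl⟩ _ ⟨j, y, hy, rfl⟩ hW hW' hne ω a ω' b hag
    obtain rfl := hid i x hx X hX hW
    obtain rfl := hid j y hy X' hX' hW'
    have h1 : sx α ≤ d i j := (hdp i j _).1 e
    have h2 : (β : WithTop I) < sx α := not_le.1 fun h2 => hne (low i j x y _ hx hy h1 h2)
    have h3 : sx β ≤ d i j := (sx_le.2 h2).trans h1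
    have hxy : x ≠ y := fun e' => hne (e' ▸ high i j x _ h1 h2)
    have ex : (ω β (m i)).1 = x := a.2
    have ey : (ω' β (m i)).1 = y := by
      rw [(hmc i j h3).1]
      exact b.2
    have hne' : ω β (m i) ≠ ω' β (m i) := fun e' => hxy (by rw [← ex, ← ey, e'])
    refine ⟨?_, m i, fun k hk => ?_, hne', ?_⟩
    · rcases (lt_sx.1 h2).lt_or_eq with h4 | h4
      · exact (hne' (by rw [hag β (WithTop.coe_lt_coe.2 h4)])).elim
      · exact h4.symm
    · obtain ⟨u, hu, hu'⟩ := (proj_eq_of_le h3 (hY.agr i trivial j trivial)).ge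
        (subset_proj _ _ b.1)
      rw [hu' β (coe_lt_sx β)]
      exact (hstr i).stem _ a.1 _ hu k hk
    · rw [ex, ey]
      exact (H i trivial).2.2.2 x hx y ((hmc i j h3).2 ▸ hy) hxy

end Pool.Agent.Lib.MP_5ffd28_gt.CR
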