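import Pool.Agent.Lib.MP_5ffd28_gt.CR.TreeB

/-! Reading the subtree continuously. -/

namespace Pool.Agent.Lib.MP_5ffd28_gt.CR

open Set Filter Topology Pool.Agent.Shared.Forcing Pool.Agent.Lib.MP_23bd8d_gt Cohen

set_option synthInstance.maxSize 4000

theorem exists_star {Φ : Ultra BB → Prop} [Dec Φ] {b : MF → (Ω → ℝ → Prop) → BB} (hN : NbSys Φ b)
    (c : Bool) {q : Set Om} (hq : Cond q) {F : Om → Set Z} (hF : TreeOn q F) :
    ∃ (q' : Set Om) (F' : Om → Set Z) (J : Set I), J.Countable ∧ Cond q' ∧ q' ⊆ q ∧ Dep J q' ∧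
      TreeOn q' F' ∧ DepF J q' F' ∧ (∀ ω ∈ q', F' ω ⊆ F ω) ∧
      ∀ U, Φ U → ∀ (α : I) (s : MF),
        (Ae U fun g => g.ω ∈ q' ∧ g.ω α ∈ F' g.ω ∧ s.1 g ∈ cube c (F g.ω) (g.ω α)) →
        b s (fun g r => r ∈ Col c (g.ω α) ∨ r ∈ cube c (F g.ω) (g.ω α)) ∈ U := by
  classical
  let F0 : Ω → Set Z := fun g => if g.ω ∈ q then F g.ω else univ
  have e1 : ∀ g : Ω, g.ω ∈ q → F0 g = F g.ω := fun g h => if_pos h
  have e2 : ∀ g : Ω, g.ω ∉ q → F0 g = univ := fun g h => if_neg h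
  have h1 : ∀ g, (F0 g).Nonempty := fun g => by
    by_cases h : g.ω ∈ q
    · rw [e1 g h]; exact hF.ne _ h
    · rw [e2 g h]; exact univ_nonempty
  have h2 : ∀ g, Good (F0 g) := fun g => by
    by_cases h : g.ω ∈ q
    · rw [e1 g h]; exact hF.good _ h
    · rw [e2 g h]; exact good_univ
  have h3 : ∀ n z, Measurable fun g => Nd (F0 g) n z := fun n z => by
    have m1 := measurable_lc hq (P := fun ω => Nd (F ω) n z) fun ω hω =>
      (hF.lc ω hω n).mono fun _ h => h z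
    have m2 := measurable_lc hq (P := fun _ => True) fun ω hω => Eventually.of_forall fun _ => Iff.rfl
    have e : (fun g => Nd (F0 g) n z) =
        fun g : Ω => (g.ω ∈ q ∧ Nd (F g.ω) n z) ∨ ¬ (g.ω ∈ q ∧ True) := by
      funext g
      apply propext
      by_cases h : g.ω ∈ q
      · rw [e1 g h]; simp [h]
      · rw [e2 g h]
        exact ⟨fun _ => Or.inr fun a => h a.1, fun _ => ⟨z, trivial, fun _ _ => rfl⟩⟩
    rw [e]
    exact m1.or m2.not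
  obtain ⟨T, hTm, hT, hb⟩ := tlayer hN c h1 h2 h3
  obtain ⟨q', hs, hq', T', hlc, hfc⟩ := cont_read hTm hq
  have A0 : ∀ ω ∈ q', (T' 0 ω).Nonempty := fun ω hω => by
    obtain ⟨g, ⟨-, a⟩, e⟩ := hfc.near hq' hω (hlc 0 ω hω)
    rw [← show T' 0 g.ω = T' 0 ω from a, ← e 0]
    exact (hT g).1
  have A1 : ∀ ω ∈ q', ∀ n, Sk n (T' n ω) (T' (n + 1) ω) := fun ω hω n => by
    obtain ⟨g, ⟨-, a, a'⟩, e⟩ := hfc.near hq' hω ((hlc n ω hω).and (hlc (n + 1) ω hω))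
    rw [← a, ← a', ← e n, ← e (n + 1)]
    exact ((hT g).2 n).1
  have A2 : ∀ ω ∈ q', ∀ n, ∀ a ∈ T' n ω, ∃ z ∈ F ω, OnS a z := fun ω hω n a ha => by
    obtain ⟨g, ⟨hg, u, v⟩, e⟩ := hfc.near hq' hω ((hlc n ω hω).and
      ((hF.lc ω (hs hω) a.length).filter_mono (nhdsWithin_mono _ hs)))
    rw [← u, ← e n] at ha
    obtain ⟨z, hz, ho⟩ := ((hT g).2 n).2 a ha
    rw [e1 g (hs hg)] at hz
    obtain ⟨z', hz', hi⟩ := (v z).1 ⟨z, hz, fun _ _ => rfl⟩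
    refine ⟨z', hz', fun i x hx => ?_⟩
    rw [hi i (List.getElem?_eq_some_iff.1 hx).1]
    exact ho i x hx
  have S := fun ω (hω : ω ∈ q') =>
    star_tree (T := fun n => T' n ω) (hF.cl ω (hs hω)) (A0 ω hω) (A1 ω hω) (A2 ω hω)
  obtain ⟨J0, hJ0, hd0⟩ := hq'.supp
  choose J hJ hd using fun n => exists_depF hq'.cl (hlc n)
  refine ⟨q', fun ω => star fun n => T' n ω, J0 ∪ ⋃ n, J n, hJ0.union (countable_iUnion hJ), hq',
    hs, fun ω ω' h => hd0 ω ω' fun β hβ => h β (Or.inl hβ),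
    ⟨fun ω hω => (S ω hω).1, fun ω hω => (S ω hω).2.1, fun ω hω => (S ω hω).2.2.1,
      fun ω hω n => ?_⟩, fun ω hω ω' hω' h => ?_, fun ω hω => (S ω hω).2.2.2.1,
    fun U hU α s h => ?_⟩
  · filter_upwards [hlc (n + 1) ω hω, self_mem_nhdsWithin] with ω' a a' z
    rw [(S ω hω).2.2.2.2 n z, (S ω' a').2.2.2.2 n z, a]
  · exact congrArg star (funext fun n =>
      hd n ω hω ω' hω' fun β hβ => h β (Or.inr (mem_iUnion.2 ⟨n, hβ⟩)))
  · refine hN.mono U s _ _ (hb U hU (fun g => g.ω α) (measurable_coord α) s (h.mono' ?_))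
      fun x hx => (hx.and h).mono fun g a => ?_
    · filter_upwards [gen_mem hq', hfc] with g a a' hg
      rw [e1 g (hs hg.1), show (fun n => T n g) = fun n => T' n g.ω from funext (a' (a hg.1))]
      exact ⟨(S _ hg.1).2.2.2.1 hg.2.1, hg.2.1, hg.2.2⟩
    · rw [← e1 g (hs a.2.1)]
      exact a.1

end Pool.Agent.Lib.MP_5ffd28_gt.CR
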