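import Pool.Agent.Lib.MP_5ffd28_gt.CR.Cond

/-! Systems of conditions. -/

namespace Pool.Agent.Lib.MP_5ffd28_gt.CR

open Set Filter Topology

variable {κ : Type} {d : κ → κ → WithTop I} {s : Set κ} {Y : κ → Set Om}

theorem Sys.mono (h : Sys d s Y) {t : Set κ} (ht : t ⊆ s) : Sys d t Y :=
  ⟨fun i hi => h.cond i (ht hi), fun i hi j hj => h.agr i (ht hi) j (ht hj)⟩

theorem Ult.min_eq (hd : Ult d) (i j k : κ) : min (d j k) (d j i) = min (d j k) (d k i) :=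
  le_antisymm (le_min (min_le_left _ _) (hd.symm k j ▸ hd.ult k j i))
    (le_min (min_le_left _ _) (hd.ult j k i))

theorem proj_biUnion {γ : Type} (δ : WithTop I) (C : Set γ) (W : γ → Set Om) :
    proj δ (⋃ x ∈ C, W x) = ⋃ x ∈ C, proj δ (W x) := by
  ext ω
  simp only [proj, mem_iUnion, mem_setOf_eq]
  exact ⟨fun ⟨u, ⟨x, hx, a⟩, b⟩ => ⟨x, hx, u, a, b⟩, fun ⟨x, hx, u, a, b⟩ => ⟨u, ⟨x, hx, a⟩, b⟩⟩

theorem coe_le_of_sx {β : I} {δ : WithTop I} (h : sx β ≤ δ) : (β : WithTop I) ≤ δ :=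
  (sx_le.1 h).le

/-- shrinking one piece -/
theorem Sys.shrink (hd : Ult d) (h : Sys d s Y) {i : κ} (hi : i ∈ s) {V : Set Om} (hV : Cond V)
    (hs : V ⊆ Y i) : Sys d s fun j => Y j ∩ proj (d j i) V := by
  have key : ∀ j ∈ s, proj (d j i) V ⊆ proj (d j i) (Y j) := fun j hj =>
    (proj_mono _ hs).trans (h.agr j hj i hi).ge
  refine ⟨fun j hj => (h.cond j hj).inter_proj hV (key j hj), fun j hj k hk => ?_⟩
  rw [proj_inter (key j hj), proj_inter (key k hk), h.agr j hj k hk, hd.min_eq i j k]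

/-- shrinking all pieces by a set determined below all agreement levels -/
theorem Sys.shrink_all (h : Sys d s Y) {δ : WithTop I} {V : Set Om} (hV : Cond V)
    (hs : ∀ i ∈ s, proj δ V ⊆ proj δ (Y i)) : Sys d s fun j => Y j ∩ proj δ V := by
  refine ⟨fun j hj => (h.cond j hj).inter_proj hV (hs j hj), fun j hj k hk => ?_⟩
  rw [proj_inter (hs j hj), proj_inter (hs k hk), h.agr j hj k hk]

/-- attaching a piece to its nearest neighbour -/
theorem Sys.attach [DecidableEq κ] (hd : Ult d) {i j : κ} (h : Sys d (insert i s) Y) (hi : i ∉ s)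
    (hj : j ∈ s) (hm : ∀ k ∈ s, d i k ≤ d i j) {Y' : κ → Set Om} (h' : Sys d s Y')
    (hs : ∀ k ∈ s, Y' k ⊆ Y k) :
    Sys d (insert i s) (Function.update Y' i (Y i ∩ proj (d i j) (Y' j))) := by
  have ne : ∀ k ∈ s, k ≠ i := fun k hk e => hi (e ▸ hk)
  have sub : ∀ k ∈ s, proj (d i k) (Y' k) ⊆ proj (d i k) (Y i) := fun k hk =>
    (proj_mono _ (hs k hk)).trans (h.agr i (mem_insert _ _) k (mem_insert_of_mem _ hk)).ge
  have key : ∀ k ∈ s, proj (d i k) (Y i ∩ proj (d i j) (Y' j)) = proj (d i k) (Y' k) := by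
    intro k hk
    have le : d i k ≤ d j k := by
      have := hd.ult j i k
      rwa [hd.symm j i, min_eq_right (hm k hk)] at this
    rw [proj_inter (sub j hj), min_eq_left (hm k hk), proj_eq_of_le le (h'.agr j hj k hk),
      inter_eq_right.2 (sub k hk)]
  refine ⟨?_, ?_⟩
  · rintro a (rfl | ha)
    · rw [Function.update_self]
      exact (h.cond a (mem_insert _ _)).inter_proj (h'.cond j hj) (sub j hj)
    · rw [Function.update_of_ne (ne a ha)]
      exact h'.cond a ha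
  · rintro a (rfl | ha) b (rfl | hb)
    · rfl
    · rw [Function.update_self, Function.update_of_ne (ne b hb)]
      exact key b hb
    · rw [Function.update_self, Function.update_of_ne (ne a ha), hd.symm a b]
      exact (key a ha).symm
    · rw [Function.update_of_ne (ne a ha), Function.update_of_ne (ne b hb)]
      exact h'.agr a ha b hb

/-- handling the pieces of `t` one after the other -/
theorem Sys.dec (hd : Ult d) (h : Sys d s Y) {t : Set κ} (ht : t.Finite) (hts : t ⊆ s)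
    {e : WithTop I} (he : ∀ i ∈ t, ∀ j ∈ t, i ≠ j → d i j ≤ e) {Q : κ → Set Om → Prop}
    (hQ : ∀ i u v, Q i u → Cond v → v ⊆ u → Q i v)
    (H : ∀ i ∈ t, ∀ u, Cond u → u = Y i ∩ proj e u → ∃ v ⊆ u, Cond v ∧ Q i v) :
    ∃ Y', Sys d s Y' ∧ (∀ i ∈ s, Y' i ⊆ Y i) ∧ ∀ i ∈ t, Q i (Y' i) := by
  have key : ∀ t' : Set κ, t'.Finite → t' ⊆ t → ∃ Y', Sys d s Y' ∧ (∀ i ∈ s, Y' i ⊆ Y i) ∧
      (∀ i ∈ t', Q i (Y' i)) ∧ ∀ j ∈ t, j ∉ t' → Y' j = Y j ∩ proj e (Y' j) := by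
    intro t' ht'
    induction t', ht' using Set.Finite.induction_on with
    | empty =>
      exact fun _ => ⟨Y, h, fun _ _ => Subset.rfl, fun _ hi => absurd hi (notMem_empty _),
        fun j _ _ => (inter_eq_left.2 (subset_proj _ _)).symm⟩
    | @insert a t' ha _ ih =>
      intro hsub
      obtain ⟨Y', h1, h2, h3, h4⟩ := ih ((subset_insert _ _).trans hsub)
      have at' : a ∈ t := hsub (mem_insert _ _)
      obtain ⟨v, v1, v2, v3⟩ := H a at' (Y' a) (h1.cond a (hts at')) (h4 a at' ha)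
      have h5 := h1.shrink hd (hts at') v2 v1
      refine ⟨_, h5, fun i hi => inter_subset_left.trans (h2 i hi), ?_, fun j hj hj' => ?_⟩
      · rintro i (rfl | hi)
        · show Q i (Y' i ∩ proj (d i i) v)
          rwa [hd.refl, proj_top, inter_eq_right.2 v1]
        · exact hQ i _ _ (h3 i hi) (h5.cond i (hts (hsub (mem_insert_of_mem _ hi))))
            inter_subset_left
      · have ja : j ≠ a := fun e => hj' (e ▸ mem_insert _ _)
        show Y' j ∩ proj (d j a) v = Y j ∩ proj e (Y' j ∩ proj (d j a) v)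
        rw [proj_inter_of_le (he j hj a at' ja), ← inter_assoc,
          ← h4 j hj fun x => hj' (mem_insert_of_mem _ x)]
  obtain ⟨Y', h1, h2, h3, -⟩ := key t ht Subset.rfl
  exact ⟨Y', h1, h2, h3⟩

theorem Ult.spl (hd : Ult d) {β : I} (hβ : ∀ i j, sx β ≤ d i j) : Ult (spl β d) := by
  refine ⟨fun u => ?_, fun u v => ?_, fun u v w => ?_⟩
  · rw [CR.spl, if_pos rfl, hd.refl]
  · by_cases e : u.2 = v.2
    · rw [CR.spl, CR.spl, if_pos e, if_pos e.symm, hd.symm]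
    · rw [CR.spl, CR.spl, if_neg e, if_neg fun x => e x.symm]
  · by_cases e : u.2 = v.2
    · by_cases e' : v.2 = w.2
      · rw [CR.spl, CR.spl, CR.spl, if_pos e, if_pos e', if_pos (e.trans e')]
        exact hd.ult _ _ _
      · rw [CR.spl, CR.spl, CR.spl, if_pos e, if_neg e', if_neg fun x => e' (e.symm.trans x)]
        exact min_le_right _ _
    · refine (min_le_left _ _).trans ?_
      rw [CR.spl, CR.spl, if_neg e]
      split_ifs
      exacts [coe_le_of_sx (hβ _ _), le_rfl]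

theorem Str.transfer {β : I} {m : ℕ} {C : Set (Finset ℕ)} {X X' : Set Om} (h : Str β m C X)
    (e : proj (sx β) X = proj (sx β) X') : Str β m C X' := by
  have key : ∀ ω ∈ X', ∃ u ∈ X, ω β = u β := fun ω hω =>
    let ⟨u, a, b⟩ := e.ge (subset_proj _ _ hω); ⟨u, a, b β (coe_lt_sx β)⟩
  refine ⟨fun ω hω ω' hω' i hi => ?_, fun ω hω => ?_, fun x hx => ?_⟩
  · obtain ⟨u, a, b⟩ := key ω hω
    obtain ⟨u', a', b'⟩ := key ω' hω'
    rw [b, b']
    exact h.stem u a u' a' i hi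
  · obtain ⟨u, a, b⟩ := key ω hω
    rw [b]
    exact h.val u a
  · have e' : proj (sx β) (X ∩ cyl β m x) = proj (sx β) (X' ∩ cyl β m x) := by
      rw [proj_inter_cyl (coe_lt_sx β), proj_inter_cyl (coe_lt_sx β), e]
    rw [← proj_eq_of_le (coe_lt_sx β).le e, ← proj_eq_of_le (coe_lt_sx β).le e']
    exact h.full x hx

/-- `Str` survives shrinking by a set determined below `β` -/
theorem Str.inter {β : I} {m : ℕ} {C : Set (Finset ℕ)} {X V : Set Om} (h : Str β m C X)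
    {δ : WithTop I} (hδ : δ ≤ β) : Str β m C (X ∩ proj δ V) := by
  refine ⟨fun ω hω ω' hω' => h.stem ω hω.1 ω' hω'.1, fun ω hω => h.val ω hω.1, fun x hx => ?_⟩
  rw [inter_right_comm, proj_inter_of_le hδ, proj_inter_of_le hδ]
  exact inter_subset_inter_left _ (h.full x hx)

theorem Str.proj_cyl {β : I} {m : ℕ} {C : Set (Finset ℕ)} {X : Set Om} (h : Str β m C X)
    {x : Finset ℕ} (hx : x ∈ C) : proj β (X ∩ cyl β m x) = proj β X :=
  (proj_mono _ inter_subset_left).antisymm (h.full x hx)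

theorem Sys.split (h : Sys d s Y) {β : I} (hβ : ∀ i j, sx β ≤ d i j) {m : ℕ}
    {C : Set (Finset ℕ)} (hC : ∀ i ∈ s, Str β m C (Y i)) :
    Sys (spl β d) (s ×ˢ C) fun u => Y u.1 ∩ cyl β m u.2 := by
  refine ⟨fun u hu => ?_, fun u hu v hv => ?_⟩
  · obtain ⟨ω, hω⟩ := (h.cond _ hu.1).ne
    obtain ⟨ω', a, -⟩ := (hC _ hu.1).full _ hu.2 (subset_proj _ _ hω)
    exact (h.cond _ hu.1).inter_clopen (isClopen_cyl _ _ _) ⟨ω', a⟩
  · by_cases e : u.2 = v.2
    · rw [spl, if_pos e, proj_inter_cyl (sx_le.1 (hβ _ _)), proj_inter_cyl (sx_le.1 (hβ _ _)),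
        h.agr _ hu.1 _ hv.1, e]
    · rw [spl, if_neg e, (hC _ hu.1).proj_cyl hu.2, (hC _ hv.1).proj_cyl hv.2]
      exact proj_eq_of_le (coe_le_of_sx (hβ _ _)) (h.agr _ hu.1 _ hv.1)

theorem Sys.unite {β : I} (hβ : ∀ i j, sx β ≤ d i j) {m : ℕ} {C : Set (Finset ℕ)}
    (hC : C.Finite) (hne : C.Nonempty) {W : κ × Finset ℕ → Set Om} (h : Sys (spl β d) (s ×ˢ C) W)
    (h1 : ∀ u ∈ s ×ˢ C, W u ⊆ Y u.1 ∩ cyl β m u.2)
    (h2 : ∀ i ∈ s, ∀ ω ∈ Y i, ∀ ω' ∈ Y i, ∀ k < m, ω β k = ω' β k) :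
    Sys d s (fun i => ⋃ x ∈ C, W (i, x)) ∧ ∀ i ∈ s, (⋃ x ∈ C, W (i, x)) ⊆ Y i ∧
      Str β m C (⋃ x ∈ C, W (i, x)) ∧ ∀ x ∈ C, (⋃ x ∈ C, W (i, x)) ∩ cyl β m x = W (i, x) := by
  have _ := hβ
  have c : ∀ i ∈ s, ∀ x ∈ C, W (i, x) ⊆ cyl β m x := fun i hi x hx =>
    (h1 (i, x) ⟨hi, hx⟩).trans inter_subset_right
  have a : ∀ i ∈ s, ∀ x ∈ C, ∀ y ∈ C, proj β (W (i, x)) = proj β (W (i, y)) := by
    intro i hi x hx y hy
    by_cases e : x = y
    · rw [e]
    · have := h.agr (i, x) ⟨hi, hx⟩ (i, y) ⟨hi, hy⟩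
      rwa [spl, if_neg e] at this
  refine ⟨⟨fun i hi => cond_biUnion hC hne (fun x hx => h.cond (i, x) ⟨hi, hx⟩) (c i hi) (a i hi),
    fun i hi j hj => ?_⟩, fun i hi => ?_⟩
  · rw [proj_biUnion, proj_biUnion]
    refine iUnion₂_congr fun x hx => ?_
    have := h.agr (i, x) ⟨hi, hx⟩ (j, x) ⟨hj, hx⟩
    rwa [spl, if_pos rfl] at this
  have sub : (⋃ x ∈ C, W (i, x)) ⊆ Y i := iUnion₂_subset fun x hx =>
    (h1 (i, x) ⟨hi, hx⟩).trans inter_subset_left
  have last : ∀ x ∈ C, (⋃ x ∈ C, W (i, x)) ∩ cyl β m x = W (i, x) := by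
    intro x hx
    refine Subset.antisymm ?_ (subset_inter (subset_biUnion_of_mem (u := fun x => W (i, x)) hx)
      (c i hi x hx))
    rintro ω ⟨hω, e⟩
    obtain ⟨y, hy, b⟩ := mem_iUnion₂.1 hω
    obtain rfl : y = x := (show (ω β m).1 = y from c i hi y hy b).symm.trans e
    exact b
  refine ⟨sub, ⟨fun ω hω ω' hω' => h2 i hi ω (sub hω) ω' (sub hω'), fun ω hω => ?_,
    fun x hx => ?_⟩, last⟩
  · obtain ⟨y, hy, b⟩ := mem_iUnion₂.1 hω
    rwa [show (ω β m).1 = y from c i hi y hy b]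
  · rw [last x hx, proj_biUnion]
    exact iUnion₂_subset fun y hy => (a i hi y hy x hx).le

/-- the plain step for one condition -/
theorem Cond.exists_str {X : Set Om} (h : Cond X) (β : I) (r : ℕ) :
    ∃ V ⊆ X, Cond V ∧ ∃ m, r ≤ m ∧ ∃ C, C.Finite ∧ nor r C ∧ Str β m C V := by
  obtain ⟨ω0, h0⟩ := h.ne
  obtain ⟨m, hm, hn⟩ := h.good β ω0 h0 r
  obtain ⟨P, hP⟩ : ∃ P : Om → Prop, ∀ ω, P ω ↔ (∀ i < m, ω β i = ω0 β i) ∧
      sc (fib β X ω) (ω β) m = sc (fib β X ω0) (ω0 β) m := ⟨_, fun _ => Iff.rfl⟩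
  have lc : ∀ ω ∈ X, ∀ᶠ ω' in 𝓝[X] ω, (P ω' ↔ P ω) := by
    intro ω hω
    have e1 : ∀ᶠ ω' in 𝓝 ω, ∀ i ∈ Iio m, ω' β i = ω β i := by
      refine (eventually_all_finite (finite_Iio m)).2 fun i _ => ?_
      exact (((isOpen_discrete {ω β i}).preimage
        ((continuous_apply i).comp (continuous_apply β))).mem_nhds rfl)
    filter_upwards [h.sc_lc β m hω, mem_nhdsWithin_of_mem_nhds e1] with ω' a b
    rw [hP, hP, a]
    exact and_congr_left' (forall₂_congr fun i hi => by rw [b i hi])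
  refine ⟨{ω | ω ∈ X ∧ P ω}, fun _ a => a.1, h.part (fun _ a => a.1) ?_
    ⟨ω0, h0, (hP _).2 ⟨fun _ _ => rfl, rfl⟩⟩ fun ω hω => ?_, m, hm, _, sc_finite _ _ _, hn,
    fun ω hω ω' hω' i hi => ?_, fun ω hω => ?_, fun x hx => ?_⟩
  · refine isClosed_iff_frequently.2 fun ω hω => ?_
    have hX : ω ∈ X := isClosed_iff_frequently.1 h.cl ω (hω.mono fun _ a => a.1)
    obtain ⟨ω', a, b⟩ := (hω.and_eventually (eventually_nhdsWithin_iff.1 (lc ω hX))).exists
    exact ⟨hX, (b a.1).1 a.2⟩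
  · filter_upwards [lc ω hω.1, self_mem_nhdsWithin] with ω' a b
    exact ⟨b, a.2 hω.2⟩
  · rw [((hP _).1 hω.2).1 i hi, ((hP _).1 hω'.2).1 i hi]
  · rw [← ((hP _).1 hω.2).2]
    exact mem_sc_fib.2 ⟨ω, hω.1, Ag.refl _ _, fun _ _ => rfl, rfl⟩
  · rintro ω ⟨u, hu, a⟩
    obtain ⟨p1, p2⟩ := (hP _).1 hu.2
    rw [← p2] at hx
    obtain ⟨u', b1, b2, b3, b4⟩ := mem_sc_fib.1 hx
    refine ⟨u', ⟨⟨b1, (hP _).2 ⟨fun i hi => (b3 i hi).trans (p1 i hi), ?_⟩⟩, b4⟩, a.trans b2⟩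
    rw [← p2, ← fib_congr b2]
    exact sc_congr b3

theorem stepAt_true (p : Set Om) (β : I) : StepAt p β fun _ _ _ _ => True := by
  intro κ _ _ d Y _ hβ hY _ r
  obtain ⟨i⟩ : Nonempty κ := inferInstance
  obtain ⟨V, h1, h2, m, hm, C, -, hC, h3⟩ := (hY.cond i trivial).exists_str β r
  have key : ∀ j, proj (sx β) V ⊆ proj (sx β) (Y j) := fun j =>
    (proj_mono _ h1).trans (proj_eq_of_le (hβ i j) (hY.agr i trivial j trivial)).le
  exact ⟨_, hY.shrink_all h2 fun j _ => key j, fun _ => inter_subset_left, m, hm, C, hC,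
    fun j => ⟨h3.transfer (proj_inter_self (key j)).symm, fun _ _ _ _ _ => trivial⟩⟩

end Pool.Agent.Lib.MP_5ffd28_gt.CR
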