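import Pool.Agent.Lib.MP_5ffd28_gt.CR.Line

/-! Topologies in the generic extension. -/

namespace Pool.Agent.Lib.MP_5ffd28_gt.CR

open Set Filter Topology MeasureTheory Pool.Agent.Shared.Forcing Pool.Agent.Lib.MP_23bd8d_gt
open Cohen

set_option synthInstance.maxSize 4000

variable {U : Ultra BB}

instance (A x y z : HN) : Dec fun U => Op (EU U) (cls U A) (cls U x) (cls U y) (cls U z) := by
  unfold Op; infer_instance

instance (a b c d : HN) : Dec fun U => SubTop (EU U) (cls U a) (cls U b) (cls U c) (cls U d) := by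
  unfold SubTop; infer_instance

instance (a b c d e : HN) :
    Dec fun U => Cts (EU U) (cls U a) (cls U b) (cls U c) (cls U d) (cls U e) := by
  unfold Cts; infer_instance

instance (a b c : HN) : Dec fun U => OpenMap (EU U) (cls U a) (cls U b) (cls U c) := by
  unfold OpenMap; infer_instance

instance (a b c : HN) : Dec fun U => TopAb (EU U) (cls U a) (cls U b) (cls U c) := by
  unfold TopAb; infer_instance

instance (a b c : HN) : Dec fun U => Cohen.Additive (EU U) (cls U a) (cls U b) (cls U c) := by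
  unfold Cohen.Additive; infer_instance

instance (a b c d e f : HN) :
    Dec fun U => Free (EU U) (cls U a) (cls U b) (cls U c) (cls U d) (cls U e) (cls U f) := by
  unfold Free; infer_instance

instance (a b c d : HN) : Dec fun U => Tychonoff (EU U) (cls U a) (cls U b) (cls U c) (cls U d) := by
  unfold Tychonoff; infer_instance

theorem _root_.Pool.Agent.Lib.MP_5ffd28_gt.Cohen.Cts.pt' {f X T Y S x y V : MU U} (h : Cts (EU U) f X T Y S) (h1 : Maps (EU U) f x y)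
    (h2 : EU U V S) (h3 : EU U y V) :
    ∃ W, EU U W T ∧ EU U x W ∧ ∀ x' y', EU U x' W → Maps (EU U) f x' y' → EU U y' V := by
  obtain ⟨f, rfl⟩ := cls_surj f
  obtain ⟨V, rfl⟩ := cls_surj V
  obtain ⟨W, hW⟩ := md_sep (fun U x => ∃ y, EU U y (cls U V) ∧ Maps (EU U) (cls U f) x y) U X
  refine ⟨W, h.2 _ W h2 fun z => (hW z).trans ⟨fun h => h.2, fun ⟨y, a, b⟩ =>
    ⟨(h.1.mem b).1, y, a, b⟩⟩, (hW x).2 ⟨(h.1.mem h1).1, y, h3, h1⟩, fun x' y' a b => ?_⟩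
  obtain ⟨-, z, c, d⟩ := (hW x').1 a
  exact h.1.uniq d b ▸ c

theorem open_of_nhds {X T V : MU U} (hT : IsTop (EU U) X T)
    (h : ∀ x, EU U x V → ∃ W, EU U W T ∧ EU U x W ∧ Sub (EU U) W V) : EU U V T := by
  obtain ⟨V, rfl⟩ := cls_surj V
  obtain ⟨S, hS⟩ := md_sep (fun U W => Sub (EU U) W (cls U V)) U T
  refine hT.2.2.2 S _ (fun W hW => ((hS W).1 hW).1) fun z => ⟨fun hz => ?_,
    fun ⟨W, a, b⟩ => ((hS W).1 a).2 z b⟩
  obtain ⟨W, a, b, c⟩ := h z hz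
  exact ⟨W, (hS W).2 ⟨a, c⟩, b⟩

theorem cts_of {f X T Y S : MU U} (hT : IsTop (EU U) X T) (hf : IsFn (EU U) f X Y)
    (h : ∀ x y V, Maps (EU U) f x y → EU U V S → EU U y V →
      ∃ W, EU U W T ∧ EU U x W ∧ ∀ x' y', EU U x' W → Maps (EU U) f x' y' → EU U y' V) :
    Cts (EU U) f X T Y S := by
  refine ⟨hf, fun V W hV hW => open_of_nhds hT fun x hx => ?_⟩
  obtain ⟨y, a, b⟩ := (hW x).1 hx
  obtain ⟨W', c, d, e⟩ := h x y V b hV a
  refine ⟨W', c, d, fun z hz => ?_⟩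
  obtain ⟨y', -, h'⟩ := hf.total (hT.1 _ c z hz)
  exact (hW z).2 ⟨y', e z y' hz h', h'⟩

theorem exists_subTop (S : MU U) : ∃ T, SubTop (EU U) (RR U) (LL U) S T := by
  obtain ⟨P, hP⟩ := md_power tame U S
  obtain ⟨S, rfl⟩ := cls_surj S
  obtain ⟨T, hT⟩ := md_sep (fun U V => ∀ x, EU U x V → ∃ a b, EU U a (RR U) ∧ EU U b (RR U) ∧
    Maps (EU U) (LL U) a x ∧ Maps (EU U) (LL U) x b ∧ ∀ y, EU U y (cls U S) →
      Maps (EU U) (LL U) a y → Maps (EU U) (LL U) y b → EU U y V) U P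
  exact ⟨T, fun V => (hT V).trans (and_congr_left' (hP V))⟩

theorem _root_.Pool.Agent.Lib.MP_5ffd28_gt.Cohen.SubTop.use' {S T V : MU U} (h : SubTop (EU U) (RR U) (LL U) S T) (hV : EU U V T) {x : MF}
    (hx : EU U (pt U x) V) : ∃ a b : MF, (Ae U fun ω => a.1 ω < x.1 ω ∧ x.1 ω < b.1 ω) ∧
      ∀ y, EU U y S → Maps (EU U) (LL U) (pt U a) y → Maps (EU U) (LL U) y (pt U b) → EU U y V := by
  obtain ⟨a, b, h1, h2, h3, h4, h5⟩ := ((h V).1 hV).2 _ hx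
  obtain ⟨a, rfl⟩ := real_cases h1
  obtain ⟨b, rfl⟩ := real_cases h2
  exact ⟨a, b, (lt_pt.1 h3).and (lt_pt.1 h4), h5⟩

theorem _root_.Pool.Agent.Lib.MP_5ffd28_gt.Cohen.SubTop.iv' {S T : MU U} (h : SubTop (EU U) (RR U) (LL U) S T) (a b : MF) :
    ∃ W, EU U W T ∧ ∀ y, EU U y W ↔ EU U y S ∧ Maps (EU U) (LL U) (pt U a) y ∧
      Maps (EU U) (LL U) y (pt U b) := by
  obtain ⟨W, hW⟩ := md_sep (fun U y => Maps (EU U) (LL U) (pt U a) y ∧
    Maps (EU U) (LL U) y (pt U b)) U S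
  exact ⟨W, (h W).2 ⟨fun y hy => ((hW y).1 hy).1, fun x hx => ⟨_, _, pt_mem a, pt_mem b,
    ((hW x).1 hx).2.1, ((hW x).1 hx).2.2, fun y h1 h2 h3 => (hW y).2 ⟨h1, h2, h3⟩⟩⟩, hW⟩

theorem _root_.Pool.Agent.Lib.MP_5ffd28_gt.Cohen.SubTop.isTop' {S T : MU U} (h : SubTop (EU U) (RR U) (LL U) S T)
    (hS : Sub (EU U) S (RR U)) : IsTop (EU U) S T := by
  refine ⟨fun V hV => ((h V).1 hV).1, (h S).2 ⟨fun _ => id, fun x hx => ?_⟩,
    fun V V' Z hV hV' hZ => (h Z).2 ⟨fun z hz => ((h V).1 hV).1 z ((hZ z).1 hz).1, fun x hx => ?_⟩,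
    fun K Z hK hZ => (h Z).2 ⟨fun z hz => ?_, fun x hx => ?_⟩⟩
  · obtain ⟨⟨a, h1⟩, b, h2⟩ := isReal_RR.2.2.2.2.1 x (hS x hx)
    exact ⟨a, b, h1.1, h2.1, h1.2, h2.2, fun y h _ _ => h⟩
  · obtain ⟨h1, h2⟩ := (hZ x).1 hx
    obtain ⟨x, rfl⟩ := real_cases (hS x (((h V).1 hV).1 x h1))
    obtain ⟨a, b, a1, a2⟩ := h.use' hV h1
    obtain ⟨c, d, c1, c2⟩ := h.use' hV' h2
    refine ⟨_, _, pt_mem ⟨_, a.2.max c.2⟩, pt_mem ⟨_, b.2.min d.2⟩,
      lt_pt.2 ((a1.and c1).mono fun _ h => max_lt h.1.1 h.2.1),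
      lt_pt.2 ((a1.and c1).mono fun _ h => lt_min h.1.2 h.2.2), fun y hy h3 h4 => ?_⟩
    obtain ⟨y, rfl⟩ := real_cases (hS y hy)
    rw [lt_pt] at h3 h4
    exact (hZ _).2 ⟨a2 _ hy (lt_pt.2 (h3.mono fun _ h => (max_lt_iff.1 h).1))
      (lt_pt.2 (h4.mono fun _ h => (lt_min_iff.1 h).1)), c2 _ hy
      (lt_pt.2 (h3.mono fun _ h => (max_lt_iff.1 h).2))
      (lt_pt.2 (h4.mono fun _ h => (lt_min_iff.1 h).2))⟩
  · obtain ⟨V, h1, h2⟩ := (hZ z).1 hz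
    exact ((h V).1 (hK V h1)).1 z h2
  · obtain ⟨V, h1, h2⟩ := (hZ x).1 hx
    obtain ⟨a, b, a1, a2, a3, a4, a5⟩ := ((h V).1 (hK V h1)).2 x h2
    exact ⟨a, b, a1, a2, a3, a4, fun y b1 b2 b3 => (hZ y).2 ⟨V, h1, a5 y b1 b2 b3⟩⟩

/-- the order topology of the line -/
noncomputable def TRn : HN :=
  (exists_witness fun U T => SubTop (EU U) (RR U) (LL U) (RR U) T).choose

noncomputable abbrev TR (U : Ultra BB) : MU U := cls U TRn

theorem subTop_TR : SubTop (EU U) (RR U) (LL U) (RR U) (TR U) :=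
  (exists_witness fun U T => SubTop (EU U) (RR U) (LL U) (RR U) T).choose_spec U (exists_subTop _)

theorem cts_real {Φ : Ultra BB → Prop} [Dec Φ] {f X T : HN}
    (H : ∀ U, Φ U → ∀ x (y : MF) (p q : ℚ), Maps (EU U) (cls U f) x (pt U y) →
      (Ae U fun ω => p < y.1 ω ∧ y.1 ω < q) → ∃ W, EU U W (cls U T) ∧ EU U x W ∧
        ∀ x' (y' : MF), EU U x' W → Maps (EU U) (cls U f) x' (pt U y') →
          Ae U fun ω => p < y'.1 ω ∧ y'.1 ω < q)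
    (h : Φ U) (hT : IsTop (EU U) (cls U X) (cls U T)) (hf : IsFn (EU U) (cls U f) (cls U X) (RR U)) :
    Cts (EU U) (cls U f) (cls U X) (cls U T) (RR U) (TR U) := by
  refine cts_of hT hf fun x y V h1 h2 h3 => ?_
  obtain ⟨y, rfl⟩ := real_cases (hf.mem h1).2
  obtain ⟨a, b, h4, h5⟩ := subTop_TR.use' h2 h3
  obtain ⟨x, rfl⟩ := cls_surj x
  obtain ⟨V, rfl⟩ := cls_surj V
  have h6 := And.intro h (And.intro hf (And.intro h1 h5))
  revert h6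
  refine wlog_ex (P := fun (u : ℚ × ℚ) ω => (a.1 ω < u.1 ∧ u.2 < b.1 ω) ∧
    u.1 < y.1 ω ∧ y.1 ω < u.2) (fun u => ((a.2.lt measurable_const).and
      (measurable_const.lt b.2)).and ((measurable_const.lt y.2).and (y.2.lt measurable_const))) U
    (h4.mono fun ω h => ?_) ?_
  · obtain ⟨p, a1, a2⟩ := exists_rat_btwn h.1
    obtain ⟨q, b1, b2⟩ := exists_rat_btwn h.2
    exact ⟨(p, q), ⟨a1, b2⟩, a2, b1⟩
  · rintro U ⟨p, q⟩ h4 ⟨h, hf, h1, h5⟩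
    obtain ⟨W, a1, a2, a3⟩ := H U h _ y p q h1 (h4.mono fun _ h => h.2)
    refine ⟨W, a1, a2, fun x' y' b1 b2 => ?_⟩
    obtain ⟨y', rfl⟩ := real_cases (hf.mem b2).2
    have := h4.and (a3 x' y' b1 b2)
    exact h5 _ (pt_mem _) (lt_pt.2 (this.mono fun _ h => h.1.1.1.trans h.2.1))
      (lt_pt.2 (this.mono fun _ h => h.2.2.trans h.1.1.2))

end Pool.Agent.Lib.MP_5ffd28_gt.CR
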