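import Pool.Agent.Lib.MP_5ffd28_gt.CR.GeoDefs

/-! Valid nodes and skeletons. -/

namespace Pool.Agent.Lib.MP_5ffd28_gt.CR

open Set

theorem val_cnt_big {x : Finset ℕ} {t : ℕ} (h : x.sup id < t) : cnt x t = x.card := by
  unfold cnt
  rw [Finset.filter_true_of_mem]
  exact fun k hk => (Finset.le_sup (f := id) hk).trans_lt h

theorem exists_OK (c : Bool) (C : Set (Finset ℕ)) {x : Finset ℕ} (hx : Odd x.card) :
    ∃ θ, OK c C x θ := by
  classical
  cases c with
  | true =>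
    let P : ℕ → Prop := fun θ => ∀ y ∈ C, y ≠ x → par true (cnt x θ) ∧ Apart true θ x y
    have p0 : P 0 := fun y _ _ => ⟨by simp [par, cnt], fun t ht => absurd ht (by simp [side])⟩
    refine ⟨Nat.findGreatest P (x.sup id + 1), Nat.findGreatest_spec (Nat.zero_le _) p0,
      fun k hk h => ?_⟩
    have hk' : k ≤ x.sup id := Finset.le_sup (f := id) hk
    show k < _
    by_cases hs : ∃ y ∈ C, y ≠ x
    · obtain ⟨y0, a, b⟩ := hs
      have ex : ∃ θ, k < θ ∧ Even (cnt x θ) := let ⟨θ, h1, h2, _⟩ := h y0 a b; ⟨θ, h1, h2⟩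
      obtain ⟨e1, e2⟩ := Nat.find_spec ex
      refine e1.trans_le (Nat.le_findGreatest ?_ fun y hy hyx => ⟨e2, fun t ht => ?_⟩)
      · by_contra hb
        rw [val_cnt_big (by omega)] at e2
        exact Nat.not_even_iff_odd.2 hx e2
      · obtain ⟨θ, h1, h2, h3⟩ := h y hy hyx
        exact h3 t (lt_of_lt_of_le (show t < _ from ht) (Nat.find_min' ex ⟨h1, h2⟩))
    · exact lt_of_lt_of_le (Nat.lt_succ_of_le hk')
        (Nat.le_findGreatest le_rfl fun y hy hyx => absurd ⟨y, hy, hyx⟩ hs)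
  | false =>
    let P : ℕ → Prop := fun θ => ∀ y ∈ C, y ≠ x → par false (cnt x θ) ∧ Apart false θ x y
    have ex : ∃ θ, P θ := by
      refine ⟨x.sup id + 1, fun y _ _ => ⟨?_, fun t ht h => ?_⟩⟩
      · rw [val_cnt_big (Nat.lt_succ_self _)]
        exact hx
      · have ht' : x.sup id < t := ht
        rcases h.1 with h1 | h1
        · exact absurd (Finset.le_sup (f := id) h1) (not_le.2 ht')
        · rw [val_cnt_big ht'] at h1
          exact h1 hx
    refine ⟨Nat.find ex, Nat.find_spec ex, fun k _ h => ?_⟩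
    show _ ≤ k
    by_cases hs : ∃ y ∈ C, y ≠ x
    · obtain ⟨y0, a, b⟩ := hs
      obtain ⟨θ0, h1, h2, -⟩ := h y0 a b
      have e2 : Odd (cnt x (Nat.findGreatest (fun θ => Odd (cnt x θ)) k)) :=
        Nat.findGreatest_spec (P := fun θ => Odd (cnt x θ)) h1 h2
      refine (Nat.find_min' ex fun y hy hyx => ⟨e2, fun t ht => ?_⟩).trans (Nat.findGreatest_le k)
      obtain ⟨θ, g1, g2, g3⟩ := h y hy hyx
      exact g3 t (le_trans (Nat.le_findGreatest (P := fun θ => Odd (cnt x θ)) g1 g2)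
        (show _ ≤ t from ht))
    · exact (Nat.find_min' ex fun y hy hyx => absurd ⟨y, hy, hyx⟩ hs).trans (Nat.zero_le k)

/-- the node `e` lies on `z` and is well decorated along it -/
def Wd (c : Bool) (F : Set Z) (z : Z) (e : D) : Prop :=
  ∀ i x θ, e[i]? = some (x, θ) → (z i).1 = x ∧ OK c (sc F z i) x θ

theorem on_iff {d : D} {z : Z} : On d z ↔ ∀ i x θ, d[i]? = some (x, θ) → (z i).1 = x := by
  refine ⟨fun h i x θ hi => h i x (by simp [hi]), fun h i x hi => ?_⟩
  rw [List.getElem?_map, Option.map_eq_some_iff] at hi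
  obtain ⟨⟨y, θ⟩, a, b⟩ := hi
  exact (h i y θ a).trans b

theorem val_iff {c : Bool} {F : Set Z} {d : D} : Val c F d ↔
    (∃ z ∈ F, Wd c F z d) ∧ ∀ x θ, d.getLast? = some (x, θ) → par c (cnt x θ) :=
  and_congr_left' ⟨fun ⟨z, a, b, e⟩ => ⟨z, a, fun i x θ h => ⟨on_iff.1 b i x θ h, e i x θ h⟩⟩,
    fun ⟨z, a, b⟩ => ⟨z, a, on_iff.2 fun i x θ h => (b i x θ h).1, fun i x θ h => (b i x θ h).2⟩⟩

theorem Wd.congr {c : Bool} {F : Set Z} {z z' : Z} {e : D} (h : Wd c F z e)
    (hz : ∀ i < e.length, z' i = z i) : Wd c F z' e := fun i x θ hi => by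
  have hl := (List.getElem?_eq_some_iff.1 hi).1
  rw [hz i hl, sc_congr fun j hj => hz j (hj.trans hl)]
  exact h i x θ hi

theorem Wd.snoc {c : Bool} {F : Set Z} {z : Z} {e : D} (h : Wd c F z e) {y : Finset ℕ} {θ : ℕ}
    (hy : (z e.length).1 = y) (ho : OK c (sc F z e.length) y θ) : Wd c F z (e ++ [(y, θ)]) := by
  intro i x θ' hi
  rcases lt_trichotomy i e.length with hl | rfl | hl
  · rw [List.getElem?_append_left hl] at hi
    exact h i x θ' hi
  · rw [List.getElem?_concat_length] at hi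
    cases hi
    exact ⟨hy, ho⟩
  · have := (List.getElem?_eq_some_iff.1 hi).1
    simp only [List.length_append, List.length_singleton] at this
    omega

theorem Wd.grow {c : Bool} {F : Set Z} {z : Z} {d : D} (h : Wd c F z d) (j : ℕ) :
    ∃ e, d <+: e ∧ e.length = d.length + j ∧ Wd c F z e := by
  induction j with
  | zero => exact ⟨d, List.prefix_rfl, rfl, h⟩
  | succ j ih =>
    obtain ⟨e, h1, h2, h3⟩ := ih
    obtain ⟨θ, hθ⟩ := exists_OK c (sc F z e.length) (z e.length).odd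
    exact ⟨_, h1.trans (List.prefix_append _ _), by simp [h2, add_assoc], h3.snoc rfl hθ⟩

theorem val_nil (c : Bool) {F : Set Z} (h : F.Nonempty) : Val c F [] := by
  obtain ⟨z, hz⟩ := h
  exact val_iff.2 ⟨⟨z, hz, fun i x θ hi => by simp at hi⟩, fun x θ hi => by simp at hi⟩

theorem exists_spl {c : Bool} {F : Set Z} (hF : Good F) {d : D} (h : Val c F d) (n : ℕ) :
    ∃ l, Spl n d l ∧ ∀ d' ∈ l, Val c F d' := by
  obtain ⟨⟨z, hz, hw⟩, -⟩ := val_iff.1 h
  obtain ⟨m, hm, hn⟩ := hF z hz (max n d.length)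
  obtain ⟨e, h1, h2, h3⟩ := hw.grow (m - d.length)
  have he : e.length = m := by omega
  subst he
  have ex : ∀ y : Finset ℕ, ∃ θ, Odd y.card → OK c (sc F z e.length) y θ := fun y => by
    by_cases hy : Odd y.card
    · exact (exists_OK c _ hy).imp fun _ h _ => h
    · exact ⟨0, fun h => absurd h hy⟩
  choose θ hθ using ex
  refine ⟨(sc_finite F z e.length).toFinset.toList.map fun y => e ++ [(y, θ y)],
    ⟨e, h1, (le_max_left _ _).trans hm, fun d' hd => ?_, ?_, ?_⟩, fun d' hd => ?_⟩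
  · obtain ⟨y, -, rfl⟩ := List.mem_map.1 hd
    exact ⟨_, rfl⟩
  · rw [List.pairwise_map]
    exact (Finset.nodup_toList _).imp fun {a b} hab => ⟨e.length, a, θ a, b, θ b,
      List.getElem?_concat_length, List.getElem?_concat_length, hab⟩
  · exact nor_mono (nor_le hn (le_max_left _ _)) fun y hy =>
      ⟨θ y, List.mem_map.2 ⟨y, by simpa using hy, rfl⟩⟩
  · obtain ⟨y, hy, rfl⟩ := List.mem_map.1 hd
    have hy' : y ∈ sc F z e.length := by simpa using hy
    obtain ⟨z', a1, a2, a3⟩ := hy'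
    have ho := hθ y (a3 ▸ (z' e.length).odd)
    refine val_iff.2 ⟨⟨z', a1, (h3.congr a2).snoc a3 ?_⟩, fun x θ' hl => ?_⟩
    · rw [sc_congr a2]
      exact ho
    · rw [List.getLast?_concat] at hl
      cases hl
      obtain ⟨y', b1, b2⟩ := nor_ne hn y
      exact (ho.1 y' b1 b2).1

theorem Spl.three {n : ℕ} {d : D} {l : List D} (h : Spl n d l) : 3 ≤ l.length := by
  obtain ⟨e, -, -, -, -, hn⟩ := h
  obtain ⟨x, ⟨a, ha⟩, y, ⟨b, hb⟩, z, ⟨c, hc⟩, h1, h2, h3⟩ := nor_le hn (Nat.zero_le _)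
  have k : ∀ {x y : Finset ℕ} {a b : ℕ}, x ≠ y → e ++ [(x, a)] ≠ e ++ [(y, b)] :=
    fun hxy h => hxy (by simpa using (by simpa using h : _ ∧ _).1)
  refine le_trans ?_ (List.toFinset_card_le l)
  rw [← Finset.card_eq_three.2 ⟨_, _, _, k (a := a) (b := b) h1, k (b := c) h2, k h3, rfl⟩]
  refine Finset.card_le_card fun u hu => ?_
  simp only [Finset.mem_insert, Finset.mem_singleton] at hu
  rcases hu with rfl | rfl | rfl <;> simpa

theorem sc_nd {F F' : Set Z} {n i : ℕ} (h : ∀ z, Nd F n z → Nd F' n z) (hi : i < n) (z : Z) :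
    sc F z i ⊆ sc F' z i := fun _ ⟨u, a, b, c⟩ =>
  let ⟨u', a', b'⟩ := h u ⟨u, a, fun _ _ => rfl⟩
  ⟨u', a', fun j hj => (b' j (hj.trans hi)).trans (b j hj), by rw [b' i hi, c]⟩

theorem val_of_nd {c : Bool} {F F' : Set Z} {d : D} {n : ℕ} (h : ∀ z, Nd F n z ↔ Nd F' n z)
    (hn : d.length ≤ n) (hv : Val c F d) : Val c F' d := by
  obtain ⟨⟨z, hz, hw⟩, hl⟩ := val_iff.1 hv
  obtain ⟨z', a, b⟩ := (h z).1 ⟨z, hz, fun _ _ => rfl⟩
  refine val_iff.2 ⟨⟨z', a, Wd.congr (z := z) (fun i x θ hi => ?_) fun i hi => b i (hi.trans_le hn)⟩,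
    hl⟩
  have hi' := (List.getElem?_eq_some_iff.1 hi).1.trans_le hn
  rw [← (sc_nd (fun z => (h z).1) hi' z).antisymm (sc_nd (fun z => (h z).2) hi' z)]
  exact hw i x θ hi

theorem val_congr {c : Bool} {F F' : Set Z} {d : D} {n : ℕ} (h : ∀ z, Nd F n z ↔ Nd F' n z)
    (hn : d.length ≤ n) : Val c F d ↔ Val c F' d := by
  exact ⟨val_of_nd h hn, val_of_nd (fun z => (h z).symm) hn⟩

/-- a branch through a finite node -/
noncomputable def fill (n : ℕ) (x : ∀ i : Fin n, K i) : Z :=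
  fun i => if h : i < n then x ⟨i, h⟩ else Classical.arbitrary _

theorem fill_lt {n i : ℕ} (z : Z) (h : i < n) : fill n (fun j => z j) i = z i := dif_pos h

theorem nd_fill {F : Set Z} {n : ℕ} {z : Z} : Nd F n (fill n fun j => z j) ↔ Nd F n z :=
  ⟨fun ⟨u, a, b⟩ => ⟨u, a, fun i hi => (b i hi).trans (fill_lt z hi)⟩,
    fun ⟨u, a, b⟩ => ⟨u, a, fun i hi => (b i hi).trans (fill_lt z hi).symm⟩⟩

theorem measurable_val {α : Type} [MeasurableSpace α] {F : α → Set Z}
    (h : ∀ n z, Measurable fun a => Nd (F a) n z) (c : Bool) (d : D) :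
    Measurable fun a => Val c (F a) d := by
  let g : α → (∀ i : Fin d.length, K i) → Prop := fun a x => Nd (F a) d.length (fill _ x)
  have hg : Measurable g := measurable_pi_lambda _ fun x => h _ _
  have e : (fun a => Val c (F a) d) = (fun p => ∃ a', g a' = p ∧ Val c (F a') d) ∘ g := by
    funext a
    refine propext ⟨fun hv => ⟨a, rfl, hv⟩, fun ⟨a', h1, hv⟩ => val_of_nd (fun z => ?_) le_rfl hv⟩
    exact nd_fill.symm.trans ((iff_of_eq (congrFun h1 fun j => z j)).trans nd_fill)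
  rw [e]
  exact Measurable.of_discrete.comp hg

theorem measurable_sc {α : Type} [MeasurableSpace α] {F : α → Set Z}
    (h : ∀ n z, Measurable fun a => Nd (F a) n z) {z : α → Z} (hz : Measurable z) (n : ℕ)
    (y : Finset ℕ) : Measurable fun a => y ∈ sc (F a) (z a) n := by
  have e : (fun a => y ∈ sc (F a) (z a) n) = fun a => ∃ x : ∀ i : Fin (n + 1), K i,
      Nd (F a) (n + 1) (fill _ x) ∧ (∀ i, i < n → fill _ x i = z a i) ∧ (fill _ x n).1 = y := by
    funext a
    refine propext ⟨fun ⟨u, a1, a2, a3⟩ => ⟨fun j => u j, nd_fill.2 ⟨u, a1, fun _ _ => rfl⟩,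
      fun i hi => (fill_lt u (hi.trans n.lt_succ_self)).trans (a2 i hi),
      by rw [fill_lt u n.lt_succ_self, a3]⟩, fun ⟨x, ⟨u, a1, a2⟩, a3, a4⟩ => ⟨u, a1,
      fun i hi => (a2 i (hi.trans n.lt_succ_self)).trans (a3 i hi),
      by rw [a2 n n.lt_succ_self, a4]⟩⟩
  rw [e]
  refine Measurable.exists fun x => (h _ _).and (Measurable.and (Measurable.forall fun i =>
    measurable_const.imp ?_) measurable_const)
  exact (Measurable.of_discrete (f := fun u : K i => fill _ x i = u)).comp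
    ((measurable_pi_apply i).comp hz)

theorem measurable_cube {α : Type} [MeasurableSpace α] {F : α → Set Z}
    (h : ∀ n z, Measurable fun a => Nd (F a) n z) (c : Bool) {z : α → Z} (hz : Measurable z)
    {s : α → ℝ} (hs : Measurable s) (hp : ∀ n, Measurable fun a => pth (z a) (s a) n)
    (hK : Measurable fun a => s a ∈ KK (z a)) : Measurable fun a => s a ∈ cube c (F a) (z a) := by
  have _ := hs
  refine hK.and (Measurable.forall fun n => Measurable.forall fun y =>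
    (measurable_sc h hz n y).imp ?_)
  exact (Measurable.of_discrete (f := fun u : K n × ℕ => y ≠ u.1.1 → Priv c u.1.1 y u.2)).comp
    (((measurable_pi_apply n).comp hz).prodMk (hp n))

theorem OnS.mono {a b : St} {z : Z} (h : OnS b z) (hab : a <+: b) : OnS a z := by
  obtain ⟨u, rfl⟩ := hab
  intro i x hi
  refine h i x ?_
  rw [List.getElem?_append_left (List.getElem?_eq_some_iff.1 hi).1, hi]

theorem isClosed_onS (a : St) : IsClosed {z : Z | OnS a z} := by
  simp only [OnS, ofPred_forall]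
  exact isClosed_iInter fun i => isClosed_iInter fun x => isClosed_iInter fun _ =>
    (isClosed_discrete {u : K i | u.1 = x}).preimage (continuous_apply i)

theorem isClosed_level (A : Finset St) : IsClosed {z : Z | ∃ a ∈ A, OnS a z} := by
  have e : {z : Z | ∃ a ∈ A, OnS a z} = ⋃ a ∈ A, {z | OnS a z} := by
    ext z
    simp
  rw [e]
  exact isClosed_biUnion_finset fun a _ => isClosed_onS a

theorem star_ext {T : ℕ → Finset St} {F : Set Z} (hS : ∀ n, Sk n (T n) (T (n + 1)))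
    (hT : ∀ n, ∀ a ∈ T n, ∃ z ∈ F, OnS a z) {n : ℕ} {a : St} (ha : a ∈ T n) :
    ∃ z ∈ star T, OnS a z := by
  have up : ∀ j, ∃ b ∈ T (n + j), a <+: b := fun j => by
    induction j with
    | zero => exact ⟨a, ha, List.prefix_rfl⟩
    | succ j ih =>
      obtain ⟨b, h1, h2⟩ := ih
      obtain ⟨b', h3, h4⟩ := (hS _).up b h1
      exact ⟨b', h3, h2.trans h4⟩
  have down : ∀ k m, k ≤ m → ∀ b ∈ T m, ∃ b' ∈ T k, b' <+: b := fun k m hk => by
    induction hk with
    | refl => exact fun b hb => ⟨b, hb, List.prefix_rfl⟩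
    | step _ ih =>
      intro b hb
      obtain ⟨b1, h1, h2⟩ := (hS _).down b hb
      obtain ⟨b2, h3, h4⟩ := ih b1 h1
      exact ⟨b2, h3, h4.trans h2⟩
  let C : ℕ → Set Z := fun j => {z | OnS a z} ∩ ⋂ k ≤ j, {z | ∃ b ∈ T k, OnS b z}
  have hc : ∀ j, IsClosed (C j) := fun j => (isClosed_onS a).inter
    (isClosed_biInter fun k _ => isClosed_level _)
  obtain ⟨z, hz⟩ := IsCompact.nonempty_iInter_of_sequence_nonempty_isCompact_isClosed C
    (fun j => inter_subset_inter_right _ (biInter_subset_biInter_left fun k hk =>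
      le_trans hk j.le_succ)) (fun j => by
      obtain ⟨b, h1, h2⟩ := up j
      obtain ⟨z, -, hz⟩ := hT _ b h1
      refine ⟨z, hz.mono h2, mem_iInter₂.2 fun k hk => ?_⟩
      obtain ⟨b', h3, h4⟩ := down k _ (le_trans hk (Nat.le_add_left j n)) b h1
      exact ⟨b', h3, hz.mono h4⟩) (hc 0).isCompact hc
  rw [mem_iInter] at hz
  exact ⟨z, fun k => mem_iInter₂.1 (hz k).2 k le_rfl, (hz 0).1⟩

theorem star_tree {T : ℕ → Finset St} {F : Set Z} (hF : IsClosed F) (h0 : (T 0).Nonempty)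
    (hS : ∀ n, Sk n (T n) (T (n + 1))) (hT : ∀ n, ∀ a ∈ T n, ∃ z ∈ F, OnS a z) :
    (star T).Nonempty ∧ IsClosed (star T) ∧ Good (star T) ∧ star T ⊆ F ∧
      ∀ n z, Nd (star T) n z ↔ ∃ b ∈ T (n + 1), ∀ i < n, b[i]? = some (z i).1 := by
  have len : ∀ n, ∀ b ∈ T (n + 1), n < b.length := fun n b hb =>
    let ⟨_, h1, h2, _⟩ := (hS n).big b hb; h1.trans_lt h2
  have agr : ∀ {b : St} {z z' : Z} {i : ℕ}, OnS b z → OnS b z' → i < b.length → z i = z' i :=
    fun h h' hi => K.ext ((h _ _ (List.getElem?_eq_getElem hi)).trans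
      (h' _ _ (List.getElem?_eq_getElem hi)).symm)
  refine ⟨?_, ?_, fun z hz r => ?_, fun z hz => ?_, fun n z => ⟨fun ⟨u, h1, h2⟩ => ?_,
    fun ⟨b, h1, h2⟩ => ?_⟩⟩
  · obtain ⟨a, ha⟩ := h0
    obtain ⟨z, hz, -⟩ := star_ext hS hT ha
    exact ⟨z, hz⟩
  · simp only [star, ofPred_forall]
    exact isClosed_iInter fun n => isClosed_level _
  · obtain ⟨b, h1, h2⟩ := hz (r + 1)
    obtain ⟨m, h3, h4, h5⟩ := (hS r).big b h1
    refine ⟨m, h3, nor_mono h5 fun y ⟨b', g1, g2, g3⟩ => ?_⟩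
    obtain ⟨z', g4, g5⟩ := star_ext hS hT g1
    refine ⟨z', g4, fun i hi => K.ext ?_, g5 m y g3⟩
    have e : b'[i]? = b[i]? := by
      rw [← List.getElem?_take_of_lt hi, g2, List.getElem?_take_of_lt hi]
    have hb := List.getElem?_eq_getElem (hi.trans h4)
    exact (g5 i _ (e.trans hb)).trans (h2 i _ hb).symm
  · have ex : ∀ n, ∃ u ∈ F, ∀ i ≤ n, u i = z i := fun n => by
      obtain ⟨b, h1, h2⟩ := hz (n + 1)
      obtain ⟨u, h3, h4⟩ := hT _ b h1
      exact ⟨u, h3, fun i hi => agr h4 h2 (hi.trans_lt (len n b h1))⟩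
    choose u h1 h2 using ex
    refine hF.mem_of_tendsto (f := u) (b := Filter.atTop) (tendsto_pi_nhds.2 fun i => ?_)
      (Filter.Eventually.of_forall h1)
    exact tendsto_const_nhds.congr' ((Filter.eventually_ge_atTop i).mono fun n hn =>
      (h2 n i hn).symm)
  · obtain ⟨b, g1, g2⟩ := h1 (n + 1)
    refine ⟨b, g1, fun i hi => ?_⟩
    have hb := List.getElem?_eq_getElem (hi.trans (len n b g1))
    rw [← h2 i hi, g2 i _ hb, hb]
  · obtain ⟨u, g1, g2⟩ := star_ext hS hT h1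
    exact ⟨u, g1, fun i hi => K.ext (g2 i _ (h2 i hi))⟩

end Pool.Agent.Lib.MP_5ffd28_gt.CR
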