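import Pool.Agent.Lib.MP_5ffd28_gt.CR.TreeMap
import Pool.Agent.Lib.MP_5ffd28_gt.CR.Val

/-! Locally finite antichains above every node. -/

namespace Pool.Agent.Lib.MP_5ffd28_gt.CR

open Set Filter Topology Pool.Agent.Shared.Forcing Pool.Agent.Lib.MP_23bd8d_gt Cohen

set_option synthInstance.maxSize 4000

/-- three incomparable proper extensions of a node -/
def Tri (e : D) (t : Option Bool → D) : Prop :=
  (∀ k, e <+: t k ∧ e ≠ t k) ∧ ∀ k k', k ≠ k' → Inc (t k) (t k')

theorem exists_tri {c : Bool} {F : Set Z} (hF : Good F) {e : D} (h : Val c F e) :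
    ∃ t, Tri e t ∧ ∀ k, Val c F (t k) := by
  obtain ⟨l, h1, h2⟩ := exists_spl hF h 0
  have h3 := h1.three
  obtain ⟨e', a1, -, a2, a3, -⟩ := h1
  have hp : ∀ d' ∈ l, e <+: d' ∧ e ≠ d' := fun d' hd' => by
    obtain ⟨p, rfl⟩ := a2 d' hd'
    refine ⟨a1.trans (List.prefix_append _ _), fun h => ?_⟩
    have h4 := a1.length_le
    have h5 := congrArg List.length h
    rw [List.length_append, List.length_singleton] at h5
    omega
  match l, h2, h3, a3, hp with
  | x :: y :: z :: l', h2, _, a3, hp =>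
    simp only [List.pairwise_cons, List.mem_cons, forall_eq_or_imp] at a3 h2 hp
    refine ⟨fun k => match k with | none => x | some false => y | some true => z,
      ⟨fun k => ?_, fun k k' hk => ?_⟩, fun k => ?_⟩
    · rcases k with _ | _ | _
      exacts [hp.1, hp.2.1, hp.2.2.1]
    · rcases k with _ | _ | _ <;> rcases k' with _ | _ | _
      exacts [absurd rfl hk, a3.1.1, a3.1.2.1, a3.1.1.symm, absurd rfl hk, a3.2.1.1,
        a3.1.2.1.symm, a3.2.1.1.symm, absurd rfl hk]
    · rcases k with _ | _ | _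
      exacts [h2.1, h2.2.1, h2.2.2.1]

/-- the binary tree of nodes built from a choice of triples -/
def sig (ch : D → Option Bool → D) (d : D) : List Bool → D
  | [] => d
  | k :: u => ch (sig ch d u) (some k)

/-- the side node -/
def sdn (ch : D → Option Bool → D) (d : D) (u : List Bool) : D := ch (sig ch d u) none

section
variable {ch : D → Option Bool → D} {d : D}

theorem sig_ne_nil (h : ∀ u, Tri (sig ch d u) (ch (sig ch d u))) (u : List Bool) (k : Option Bool) :
    ch (sig ch d u) k ≠ [] := fun e =>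
  ((h u).1 k).2 (by rw [e]; exact List.prefix_nil.1 (e ▸ ((h u).1 k).1))

theorem root_prefix (h : ∀ u, Tri (sig ch d u) (ch (sig ch d u))) : ∀ u, d <+: sig ch d u
  | [] => List.prefix_rfl
  | k :: u => (root_prefix h u).trans ((h u).1 (some k)).1

theorem root_sdn (h : ∀ u, Tri (sig ch d u) (ch (sig ch d u))) (u : List Bool) :
    d <+: sdn ch d u ∧ d ≠ sdn ch d u := by
  refine ⟨(root_prefix h u).trans ((h u).1 none).1, fun e => ((h u).1 none).2 ?_⟩
  have h1 := (root_prefix h u).length_le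
  refine ((h u).1 none).1.eq_of_length_le ?_
  exact (congrArg List.length e).ge.trans h1

theorem inc_sig (h : ∀ u, Tri (sig ch d u) (ch (sig ch d u))) :
    ∀ u v : List Bool, u.length = v.length → u ≠ v → Inc (sig ch d u) (sig ch d v)
  | [], [], _, e => absurd rfl e
  | [], _ :: _, e, _ => by simp at e
  | _ :: _, [], e, _ => by simp at e
  | k :: u, k' :: v, e, e' => by
    by_cases huv : u = v
    · subst huv
      exact (h u).2 _ _ fun a => e' (by rw [Option.some.inj a])
    · exact (inc_sig h u v (by simpa using e) huv).mono ((h u).1 _).1 ((h v).1 _).1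

theorem inc_sdn_sig (h : ∀ u, Tri (sig ch d u) (ch (sig ch d u))) (u : List Bool) :
    ∀ v : List Bool, u.length < v.length → Inc (sdn ch d u) (sig ch d v)
  | [], e => by simp at e
  | k :: v, e => by
    rcases Nat.lt_succ_iff_lt_or_eq.1 e with e | e
    · exact (inc_sdn_sig h u v e).mono List.prefix_rfl ((h v).1 _).1
    · by_cases huv : u = v
      · subst huv
        exact (h u).2 _ _ (by simp)
      · exact (inc_sig h u v e huv).mono ((h u).1 _).1 ((h v).1 _).1

theorem inc_sdn (h : ∀ u, Tri (sig ch d u) (ch (sig ch d u))) {u v : List Bool}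
    (e : u.length ≠ v.length) : Inc (sdn ch d u) (sdn ch d v) := by
  rcases lt_or_gt_of_ne e with e | e
  · exact (inc_sdn_sig h u v e).mono List.prefix_rfl ((h v).1 _).1
  · exact ((inc_sdn_sig h v u e).mono List.prefix_rfl ((h u).1 _).1).symm

end

/-- dyadic labels -/
def dy : List Bool → ℚ
  | [] => 0
  | k :: u => dy u + if k then 1 / 2 ^ (u.length + 1) else 0

theorem dy_bd : ∀ u, 0 ≤ dy u ∧ dy u + 1 / 2 ^ u.length ≤ 1
  | [] => by simp [dy]
  | k :: u => by
    have h := dy_bd u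
    have h1 : (1 : ℚ) / 2 ^ u.length = 2 * (1 / 2 ^ (u.length + 1)) := by
      rw [pow_succ]; field_simp
    have h2 : (0 : ℚ) < 1 / 2 ^ (u.length + 1) := by positivity
    rw [dy, List.length_cons]
    split_ifs <;> constructor <;> linarith [h.1, h.2]

theorem dy_jump (k : Bool) (u : List Bool) : |dy (k :: u) - dy u| ≤ 2 / 2 ^ u.length := by
  have h1 : (2 : ℚ) / 2 ^ u.length = 4 * (1 / 2 ^ (u.length + 1)) := by
    rw [pow_succ]; field_simp; norm_num
  have h2 : (0 : ℚ) < 1 / 2 ^ (u.length + 1) := by positivity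
  rw [dy, add_sub_cancel_left, h1, abs_le]
  split_ifs <;> constructor <;> linarith

theorem dy_pad (u : List Bool) : ∀ n, dy (List.replicate n false ++ u) = dy u
  | 0 => rfl
  | n + 1 => by
    rw [List.replicate_succ, List.cons_append, dy, dy_pad u n]; simp

theorem dy_approx {x : ℝ} (h0 : 0 ≤ x) (h1 : x < 1) :
    ∀ n : ℕ, ∃ u : List Bool, u.length = n ∧ (dy u : ℝ) ≤ x ∧ x < dy u + 1 / 2 ^ n
  | 0 => ⟨[], rfl, by simpa [dy] using h0, by simpa [dy] using h1⟩
  | n + 1 => by
    obtain ⟨u, a, b, c⟩ := dy_approx h0 h1 n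
    have e : (1 : ℝ) / 2 ^ n = 2 * (1 / 2 ^ (n + 1)) := by
      rw [pow_succ]; field_simp
    by_cases h : x < dy u + 1 / 2 ^ (n + 1)
    · exact ⟨false :: u, by simp [a], by simpa [dy] using b, by simpa [dy] using h⟩
    · have e' : (dy (true :: u) : ℝ) = dy u + 1 / 2 ^ (n + 1) := by
        rw [dy, a]; push_cast; simp
      exact ⟨true :: u, by simp [a], e' ▸ not_lt.1 h, by rw [e']; linarith⟩

theorem dy_dense (p q : ℝ) (hp : 0 ≤ p) (h : p < q) (hq : q ≤ 1) :
    ∃ l ∈ range dy, p < l ∧ l < q := by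
  obtain ⟨n, hn⟩ := exists_pow_lt_of_lt_one (half_pos (sub_pos.2 h)) (show (1 / 2 : ℝ) < 1 by norm_num)
  obtain ⟨u, -, b, c⟩ := dy_approx (x := (p + q) / 2) (by linarith) (by linarith) n
  rw [div_pow, one_pow] at hn
  exact ⟨dy u, mem_range_self u, by linarith, by linarith⟩

theorem exists_lf {Φ : Ultra BB → Prop} [Dec Φ] {b : MF → (Ω → ℝ → Prop) → BB} (hN : NbSys Φ b)
    {c : Bool} {β : D → ℝ → ℝ} (hβ : Bump c β) {F : Ω → Set Z} (hF : ∀ g, Good (F g))
    (hm : ∀ d, Measurable fun g => Val c (F g) d) {d : Ω → D} (hd : Measurable d)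
    (hv : ∀ g, Val c (F g) (d g)) :
    ∃ a : ℕ → Ω → D, (∀ j, Measurable (a j)) ∧
      (∀ j g, Val c (F g) (a j g) ∧ d g <+: a j g ∧ d g ≠ a j g) ∧
      (∀ i j g, i ≠ j → Inc (a i g) (a j g)) ∧
      ∀ U, Φ U → ∀ x : MF, ⨆ N : ℕ, b x (fun g r => ∀ j, N ≤ j → β (a j g) r = 0) ∈ U := by
  classical
  have hch : ∀ e : D, ∃ f : Ω → Option Bool → D, Measurable f ∧
      ∀ g, Val c (F g) e → Tri e (f g) ∧ ∀ k, Val c (F g) (f g k) := fun e =>
    meas_choice (P := fun (t : Option Bool → D) g => Val c (F g) e → Tri e t ∧ ∀ k, Val c (F g) (t k))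
      (fun t => (hm e).imp (measurable_const.and (Measurable.forall fun k => hm _))) fun g => by
        by_cases h : Val c (F g) e
        · exact (exists_tri (hF g) h).imp fun t ht _ => ht
        · exact ⟨fun _ => [], fun h' => absurd h' h⟩
  choose ch c1 c2 using hch
  have c3 : ∀ {e : Ω → D}, Measurable e → ∀ k, Measurable fun g => ch (e g) g k := fun he k =>
    meas_subst (P := fun e g => ch e g k) (fun e => (measurable_pi_apply k).comp (c1 e)) he
  let σ : List Bool → Ω → D := fun u g => sig (fun e => ch e g) (d g) u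
  let sd : List Bool → Ω → D := fun u g => sdn (fun e => ch e g) (d g) u
  have s1 : ∀ u, Measurable (σ u) := fun u => by
    induction u with
    | nil => exact hd
    | cons k u ih => exact c3 ih (some k)
  have s2 : ∀ u g, Val c (F g) (σ u g) := fun u g => by
    induction u with
    | nil => exact hv g
    | cons k u ih => exact (c2 _ g ih).2 (some k)
  have s3 : ∀ g u, Tri (sig (fun e => ch e g) (d g) u) (ch (sig (fun e => ch e g) (d g) u) g) :=
    fun g u => (c2 _ g (s2 u g)).1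
  have s4 : ∀ u g, Val c (F g) (sd u g) := fun u g => (c2 _ g (s2 u g)).2 none
  have s5 : ∀ u, Measurable (sd u) := fun u => c3 (s1 u) none
  obtain ⟨φ, p1, p2, p3, p4, p5, p6, -⟩ := treeMap hN (κ := Bool) (β := fun u g => β (σ u g))
    (w := dy) rfl (fun u => ⟨(dy_bd u).1, le_trans (le_add_of_nonneg_right (by positivity))
      (dy_bd u).2⟩) dy_jump
    (fun k u => meas_subst (P := fun e (v : Ω × ℝ) => β e v.2)
      (fun e => (hβ.cont e).measurable.comp measurable_snd) ((s1 (k :: u)).comp measurable_fst))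
    (fun k u g => hβ.cont _) (fun k u g s => ⟨hβ.nonneg _ _, hβ.le_one _ _⟩)
    (fun k g s h => hβ.root (F g) _ s (s2 [k] g) (sig_ne_nil (s3 g) [] _) h)
    (fun k k' u g s h => hβ.nest (F g) _ _ s (s2 (k' :: u) g) (s2 (k :: k' :: u) g)
      (sig_ne_nil (s3 g) u _) ((s3 g (k' :: u)).1 _).1 ((s3 g (k' :: u)).1 _).2 h)
    (fun k k' u g s h => hβ.disj (F g) _ _ s (s2 (k :: u) g) (s2 (k' :: u) g)
      ((s3 g u).2 _ _ fun a => h (Option.some.inj a)))
    (fun U hU u x => Ultra.mono (hN.eucl hU (s := x)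
      (C := fun g r => ∀ k ∉ (Finset.univ : Finset Bool), β (σ (k :: u) g) r = 0)
      (fun p q => ⟨fun _ => True, measurable_const, fun _ _ => trivial,
        fun _ _ _ _ _ k hk => absurd (Finset.mem_univ k) hk⟩)
      (Ae.of_all fun _ => Eventually.of_forall fun _ k hk => absurd (Finset.mem_univ k) hk))
      (le_iSup (fun A : Finset Bool => b x fun g r => ∀ k ∉ A, β (σ (k :: u) g) r = 0) Finset.univ))
  have p7 : ∀ u g s, β (sd u g) s ≠ 0 → φ g s = dy u := fun u g s h => by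
    refine p6 u g s (fun _ => (hβ.root (F g) _ s (s4 u g) (sig_ne_nil (s3 g) u _) h).2.le)
      (fun hu => hβ.nest (F g) _ _ s (s2 u g) (s4 u g) ?_ ((s3 g u).1 _).1 ((s3 g u).1 _).2 h)
      fun k => (hβ.disj (F g) _ _ s (s4 u g) (s2 (k :: u) g) ((s3 g u).2 _ _ (by simp))).resolve_left h
    obtain ⟨k, v, rfl⟩ := List.exists_cons_of_ne_nil hu
    exact sig_ne_nil (s3 g) v _
  obtain ⟨t, N, n1, n2⟩ := hN.kill φ p1 p2 p3 p4 p5 (range dy) dy_dense
  let _ : MeasurableSpace (List Bool) := ⊤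
  have _ : DiscreteMeasurableSpace (List Bool) := ⟨fun _ => trivial⟩
  have n3 : ∀ (j : ℕ) (v : List Bool),
      Measurable fun g => N (dy v) g ∧ |(dy v : ℝ) - t.1 g| < 1 / 2 ^ j := fun j v =>
    (n1 _).and ((measurable_const.sub t.2).abs.lt measurable_const)
  have hu : ∀ j : ℕ, ∃ f : Ω → List Bool, Measurable f ∧ ∀ g, (f g).length.unpair.1 = j ∧
      ((∃ v, N (dy v) g ∧ |(dy v : ℝ) - t.1 g| < 1 / 2 ^ j) →
        N (dy (f g)) g ∧ |(dy (f g) : ℝ) - t.1 g| < 1 / 2 ^ j) := fun j =>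
    meas_choice (P := fun (u : List Bool) g => u.length.unpair.1 = j ∧
      ((∃ v, N (dy v) g ∧ |(dy v : ℝ) - t.1 g| < 1 / 2 ^ j) →
        N (dy u) g ∧ |(dy u : ℝ) - t.1 g| < 1 / 2 ^ j))
      (fun u => measurable_const.and ((Measurable.exists (n3 j)).imp (n3 j u))) fun g => by
        by_cases h : ∃ v, N (dy v) g ∧ |(dy v : ℝ) - t.1 g| < 1 / 2 ^ j
        · obtain ⟨v, hv⟩ := h
          refine ⟨List.replicate (j.pair v.length - v.length) false ++ v, ?_, fun _ => ?_⟩
          · rw [List.length_append, List.length_replicate,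
              Nat.sub_add_cancel (Nat.right_le_pair _ _), Nat.unpair_pair]
          · rwa [dy_pad]
        · exact ⟨List.replicate (j.pair 0) false, by rw [List.length_replicate, Nat.unpair_pair],
            fun h' => absurd h' h⟩
  choose u u1 u2 using hu
  have u3 : ∀ U, Φ U → Ae U fun g => ∀ j r, β (sd (u j g) g) r ≠ 0 →
      ∃ l : ℚ, N l g ∧ |(l : ℝ) - t.1 g| < 1 / 2 ^ j ∧ φ g r = l := fun U hU =>
    (n2 U hU).1.mono fun g hg j r h => by
      obtain ⟨_, ⟨v, rfl⟩, hv⟩ := hg j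
      have h1 := (u2 j g).2 ⟨v, hv⟩
      exact ⟨_, h1.1, h1.2, p7 _ g r h⟩
  refine ⟨fun j g => sd (u j g) g, fun j => meas_subst s5 (u1 j),
    fun j g => ⟨s4 _ g, root_sdn (s3 g) _⟩, fun i j g h => inc_sdn (s3 g) fun e => h ?_,
    fun U hU x => ?_⟩
  · rw [← (u2 i g).1, e, (u2 j g).1]
  have hx : Measurable fun g => φ g (x.1 g) := (app φ p1 x).2
  by_cases h : Ae U fun g => φ g (x.1 g) = t.1 g
  · refine Ultra.mono (hN.mono' ((n2 U hU).2 x h) ((u3 U hU).mono fun g hg r hr => ?_))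
      (le_iSup (fun N : ℕ => b x fun g r => ∀ j, N ≤ j → β (sd (u j g) g) r = 0) 0)
    intro j _
    by_contra h'
    obtain ⟨l, l1, -, l2⟩ := hg j r h'
    exact hr l l1 l2
  · revert hU
    refine wlog_ex (P := fun (v : ℚ × ℚ × ℕ) g => (v.1 < φ g (x.1 g) ∧ φ g (x.1 g) < v.2.1) ∧
      (t.1 g + 1 / 2 ^ v.2.2 ≤ v.1 ∨ v.2.1 + 1 / 2 ^ v.2.2 ≤ t.1 g))
      (fun v => ((measurable_const.lt hx).and (hx.lt measurable_const)).and
        (((t.2.add_const _).le' measurable_const).or (measurable_const.le' t.2))) U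
      ((Ae.of_not (hx.eq t.2) h).mono fun g hg => ?_) fun U v hv hU => ?_
    · rcases lt_or_gt_of_ne hg with hg | hg
      · obtain ⟨p, hp⟩ := exists_rat_lt (φ g (x.1 g))
        obtain ⟨q, q1, q2⟩ := exists_rat_btwn hg
        obtain ⟨n, hn⟩ := exists_pow_lt_of_lt_one (sub_pos.2 q2) (show (1 / 2 : ℝ) < 1 by norm_num)
        rw [div_pow, one_pow] at hn
        exact ⟨(p, q, n), ⟨hp, q1⟩, Or.inr (by dsimp only; linarith)⟩
      · obtain ⟨q, hq⟩ := exists_rat_gt (φ g (x.1 g))
        obtain ⟨p, q1, q2⟩ := exists_rat_btwn hg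
        obtain ⟨n, hn⟩ := exists_pow_lt_of_lt_one (sub_pos.2 q1) (show (1 / 2 : ℝ) < 1 by norm_num)
        rw [div_pow, one_pow] at hn
        exact ⟨(p, q, n), ⟨q2, hq⟩, Or.inl (by dsimp only; linarith)⟩
    · refine Ultra.mono (hN.mono' (p5 U hU x v.1 v.2.1 (hv.mono fun _ a => a.1))
        (((u3 U hU).and hv).mono fun g hg r hr => ?_))
        (le_iSup (fun N : ℕ => b x fun g r => ∀ j, N ≤ j → β (sd (u j g) g) r = 0) v.2.2)
      intro j hj
      by_contra h'
      obtain ⟨l, -, l1, l2⟩ := hg.1 j r h'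
      have h1 : (1 : ℝ) / 2 ^ j ≤ 1 / 2 ^ v.2.2 :=
        one_div_le_one_div_of_le (by positivity) (pow_le_pow_right₀ one_le_two hj)
      rw [abs_lt] at l1
      rcases hg.2.2 with h2 | h2 <;> linarith [hr.1, hr.2, l1.1, l1.2]

end Pool.Agent.Lib.MP_5ffd28_gt.CR
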