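import Pool.Agent.Lib.MP_5ffd28_gt.CR.TreeB2
import Pool.Agent.Lib.MP_5ffd28_gt.CR.GeoBump

/-! The subtree on which cube points are interior. -/

namespace Pool.Agent.Lib.MP_5ffd28_gt.CR

open Set Filter Topology Pool.Agent.Shared.Forcing Pool.Agent.Lib.MP_23bd8d_gt Cohen

set_option synthInstance.maxSize 4000

theorem onS_kept {Φ : Ultra BB → Prop} {b : MF → (Ω → ℝ → Prop) → BB} {c : Bool} {β : D → ℝ → ℝ}
    {F : Ω → Set Z} {σ : List (ℕ × ℕ) → Ω → D} {M : List (ℕ × ℕ) → Ω → ℕ} {j : ℕ → Ω → ℕ}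
    (hK : ∀ u, Kids Φ b c β F u.length (σ u) (M u) fun k => σ (k :: u)) (hβ : Bump c β) {g : Ω}
    {z : Z} {r : ℝ} (hz : z ∈ F g)
    (h1 : ∀ n, ∃ u, (u.length = n ∧ kept M j u g) ∧ On (σ u g) z)
    (h2 : ∀ k u, kept M j (k :: u) g → β (σ (k :: u) g) r = 1 →
      ∃ k', k'.1 < M (k :: u) g ∧ β (σ (k' :: k :: u) g) r ≠ 0)
    (h3 : ∃ k, k.1 < M [] g ∧ On (σ [k] g) z ∧ β (σ [k] g) r ≠ 0) :
    r ∈ Col c z ∨ r ∈ cube c (F g) z := by
  refine or_iff_not_imp_left.2 fun hr => hβ.to_cube _ _ _ fun n => ?_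
  suffices ∃ k u, u.length = n ∧ act M (k :: u) g ∧ On (σ (k :: u) g) z ∧
      β (σ (k :: u) g) r ≠ 0 by
    obtain ⟨k, u, rfl, -, a, e⟩ := this
    exact ⟨_, (hK u).val k g, (Nat.le_succ _).trans (node_length hK g (k :: u)), a, e⟩
  induction n with
  | zero => exact let ⟨k, a, e⟩ := h3; ⟨k, [], rfl, ⟨a, trivial⟩, e⟩
  | succ n ih =>
    obtain ⟨k, u, rfl, a1, a2, a3⟩ := ih
    obtain ⟨u', ⟨e1, e2⟩, e3⟩ := h1 (u.length + 1)
    obtain rfl := node_uniq hK (k :: u) u' e1.symm a1 e2.act a2 e3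
    obtain ⟨k', b1, b2⟩ := h2 k u e2 (by_contra fun h => hr
      (hβ.margin _ _ z r ((hK u).val k g) (node_ne_nil hK k u g) a2 a3 h))
    exact ⟨k', k :: u, rfl, ⟨b1, a1⟩,
      by_contra fun h => hr (hβ.off _ _ z r ((hK _).val k' g) hz h b2), b2⟩

theorem tlayer {Φ : Ultra BB → Prop} [Dec Φ] {b : MF → (Ω → ℝ → Prop) → BB} (hN : NbSys Φ b)
    (c : Bool) {F : Ω → Set Z} (h1 : ∀ g, (F g).Nonempty) (hF : ∀ g, Good (F g))
    (hm : ∀ n z, Measurable fun g => Nd (F g) n z) :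
    ∃ T : ℕ → Ω → Finset St, (∀ n, Measurable (T n)) ∧
      (∀ g, (T 0 g).Nonempty ∧ ∀ n, Sk n (T n g) (T (n + 1) g) ∧ ∀ a ∈ T n g, ∃ z ∈ F g, OnS a z) ∧
      ∀ U, Φ U → ∀ z : Ω → Z, Measurable z → ∀ s : MF,
        (Ae U fun g => z g ∈ F g ∧ z g ∈ star (T · g) ∧ s.1 g ∈ cube c (F g) (z g)) →
        b s (fun g r => r ∈ Col c (z g) ∨ r ∈ cube c (F g) (z g)) ∈ U := by
  classical
  obtain ⟨β, hβ⟩ := exists_bump c
  obtain ⟨σ, M, h0, hK⟩ := exists_tree hN hβ h1 hF (measurable_val hm c)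
  have hv : ∀ u g, Val c (F g) (σ u g) := by
    rintro (_ | ⟨k, u⟩) g
    exacts [h0 g ▸ val_nil c (h1 g), (hK u).val k g]
  have hσ : ∀ u, Measurable (σ u) := by
    rintro (_ | ⟨k, u⟩)
    exacts [(funext h0 : σ [] = fun _ => []) ▸ measurable_const, (hK u).ma k]
  have hM : ∀ u, Measurable (M u) := fun u => (hK u).mM
  have : Nonempty {l : ℚ // 0 ≤ l ∧ l ≤ 1} := ⟨⟨0, le_rfl, zero_le_one⟩⟩
  obtain ⟨q', hq'⟩ := exists_surjective_nat {l : ℚ // 0 ≤ l ∧ l ≤ 1}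
  let q : ℕ → ℚ := fun i => (q' i).1
  have hq : ∀ i, 0 ≤ q i ∧ q i ≤ 1 := fun i => (q' i).2
  let B : List (ℕ × ℕ) → Ω → ℝ → ℝ := fun u g r => if act M u g then β (σ u g) r else 0
  have hB : ∀ u g r, B u g r ≠ 0 → act M u g ∧ β (σ u g) r ≠ 0 := fun u g r h => by
    by_cases a : act M u g
    · exact ⟨a, by simpa [B, a] using h⟩
    · exact absurd (if_neg a) h
  have hB' : ∀ u g r, act M u g → B u g r = β (σ u g) r := fun u g r a => if_pos a
  obtain ⟨φ, p1, p2, p3, p4, p5, p6, p7⟩ := treeMap hN (β := B) (w := lab q) rfl (lab_mem hq)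
    lab_jump
    (fun k u => Measurable.ite ((measurable_act hM (k :: u)).comp measurable_fst).setOf
      (meas_subst (P := fun (d : D) (p : Ω × ℝ) => β d p.2)
        (fun d => (hβ.cont d).measurable.comp measurable_snd) ((hσ _).comp measurable_fst))
      measurable_const)
    (fun k u g => by
      by_cases a : act M (k :: u) g
      · exact (funext fun r => hB' _ g r a : B (k :: u) g = β (σ (k :: u) g)) ▸ hβ.cont _
      · exact (funext fun r => if_neg a : B (k :: u) g = fun _ => 0) ▸ continuous_const)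
    (fun k u g s => by
      by_cases a : act M (k :: u) g
      · exact hB' _ g s a ▸ ⟨hβ.nonneg _ _, hβ.le_one _ _⟩
      · rw [show B (k :: u) g s = 0 from if_neg a]
        exact ⟨le_rfl, zero_le_one⟩)
    (fun k g s h => hβ.root _ _ s (hv _ g) (node_ne_nil hK k [] g) (hB _ g s h).2)
    (fun k k' u g s h => (hB' _ g s (hB _ g s h).1.2).trans (hβ.nest _ _ _ s (hv _ g) (hv _ g)
      (node_ne_nil hK k' u g) ((hK _).pre k g) ((hK _).ne k g) (hB _ g s h).2))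
    (fun k k' u g s h => by_contra fun h' => by
      rw [not_or] at h'
      obtain ⟨a1, a2⟩ := hB _ g s h'.1
      obtain ⟨a3, a4⟩ := hB _ g s h'.2
      exact (hβ.disj _ _ _ s (hv _ g) (hv _ g) ((hK u).inc k k' g a1.1 a3.1 h)).elim a2 a4)
    (fun U hU u x => by
      refine wlog_sup _ U ((hK u).lf U hU x) ?_
      exact fun U A h => iSup_mem_of_mem A (hN.mono' h (Ae.of_all fun g r h k hk =>
        by_contra fun h' => (hB _ g r h').2 (h k hk (hB _ g r h').1.1))))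
  obtain ⟨t, N, n1, n2⟩ := hN.kill φ p1 p2 p3 p4 p5 (range q) fun p p' a1 a2 a3 => by
    obtain ⟨l, l1, l2⟩ := exists_rat_btwn a2
    obtain ⟨i, hi⟩ := hq' ⟨l, by exact_mod_cast a1.trans l1.le, by exact_mod_cast l2.le.trans a3⟩
    exact ⟨l, ⟨i, congrArg Subtype.val hi⟩, l1, l2⟩
  have hQ : ∀ n i, Measurable fun g => N (q i) g ∧ |(q i : ℝ) - t.1 g| < 1 / 2 ^ (n + 1) :=
    fun n i => (n1 _).and ((measurable_const.sub t.2).abs.lt measurable_const)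
  choose j j1 j2 using fun n : ℕ => meas_choice (P := fun (i : ℕ) g =>
    (∃ i, N (q i) g ∧ |(q i : ℝ) - t.1 g| < 1 / 2 ^ (n + 1)) →
      N (q i) g ∧ |(q i : ℝ) - t.1 g| < 1 / 2 ^ (n + 1))
    (fun i => (Measurable.exists (hQ n)).imp (hQ n i)) fun g => by
      by_cases h : ∃ i, N (q i) g ∧ |(q i : ℝ) - t.1 g| < 1 / 2 ^ (n + 1)
      exacts [h.imp fun _ h _ => h, ⟨0, fun h' => absurd h' h⟩]
  choose T T1 T2 using fun n : ℕ => meas_choice (P := fun (A : Finset St) g =>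
    ∀ a, a ∈ A ↔ ∃ u, (u.length = n ∧ kept M j u g) ∧ (σ u g).map Prod.fst = a)
    (fun A => Measurable.forall fun a => measurable_const.iff (Measurable.exists fun u =>
      (measurable_const.and (measurable_kept hM j1 u)).and
        ((measurable_from_top (f := fun d : D => d.map Prod.fst = a)).comp (hσ u))))
    fun g => ⟨(finite_kept (M := M) (j := j) g n).toFinset.image fun u => (σ u g).map Prod.fst,
      fun a => by simp only [Finset.mem_image, Finite.mem_toFinset, mem_ofPred_eq]⟩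
  refine ⟨T, T1, fun g => ⟨⟨_, (T2 0 g _).2 ⟨[], ⟨rfl, trivial⟩, rfl⟩⟩, fun n =>
    ⟨kept_sk hK (T2 n g) (T2 (n + 1) g), fun a ha => ?_⟩⟩, fun U hU z hz s hs => ?_⟩
  · obtain ⟨u, -, rfl⟩ := (T2 n g a).1 ha
    obtain ⟨⟨z, a1, a2, -⟩, -⟩ := hv u g
    exact ⟨z, a1, a2⟩
  have e1 : Ae U fun g => (z g ∈ F g ∧ s.1 g ∈ cube c (F g) (z g)) ∧
      (∀ n, ∃ u, (u.length = n ∧ kept M j u g) ∧ On (σ u g) (z g)) ∧
      ∀ n, N (q (j n g)) g ∧ |(q (j n g) : ℝ) - t.1 g| < 1 / 2 ^ (n + 1) :=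
    (hs.and (n2 U hU).1).mono fun g h => ⟨⟨h.1.1, h.1.2.2⟩, fun n => by
      obtain ⟨a, a1, a2⟩ := h.1.2.1 n
      obtain ⟨u, a3, rfl⟩ := (T2 n g a).1 a1
      exact ⟨u, a3, a2⟩, fun n => j2 n g (by
        obtain ⟨_, ⟨i, rfl⟩, a⟩ := h.2 (n + 1)
        exact ⟨i, a⟩)⟩
  have e2 := (n2 U hU).2 s (e1.mono fun g h => by
    refine eq_of_forall_dist_le fun ε hε => ?_
    obtain ⟨n, hn⟩ := exists_pow_lt_of_lt_one (div_pos hε three_pos) (one_half_lt_one (α := ℝ))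
    obtain ⟨_ | ⟨k, u⟩, ⟨a1, a2⟩, a3⟩ := h.2.1 (n + 1)
    · cases a1
    obtain rfl : u.length = n := Nat.succ.inj a1
    have a4 := abs_le.1 (p7 k u g (s.1 g) ((hB' _ g _ a2.act).trans
      (hβ.of_cube _ _ _ _ (hv _ g) (node_ne_nil hK k u g) a3 h.1.2)))
    rw [lab_kept hq (fun n => (h.2.2 n).2) u k a2] at a4
    have a5 := abs_lt.1 (h.2.2 u.length).2
    have a6 : (2 : ℝ) / 2 ^ u.length = 2 * (1 / 2) ^ u.length := by rw [one_div_pow]; ring
    have a7 : (1 : ℝ) / 2 ^ (u.length + 1) = (1 / 2) ^ u.length / 2 := by rw [one_div_pow]; ring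
    rw [Real.dist_eq]
    exact abs_le.2 ⟨by linarith, by linarith⟩)
  revert hU e1 e2
  refine wlog_ex (P := fun (k : ℕ × ℕ) g => k.1 < M [] g ∧ On (σ [k] g) (z g))
    (fun k => (measurable_const.lt (hM _)).and (meas_subst (P := fun (d : D) g => On d (z g))
      (fun d => Measurable.forall fun i => Measurable.forall fun x => measurable_const.imp
        ((measurable_from_top (f := fun y : K i => y.1 = x)).comp ((measurable_pi_apply i).comp hz)))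
      (hσ _))) U (hs.mono fun g h => ?_) ?_
  · obtain ⟨a, a1, a2⟩ := h.2.1 1
    obtain ⟨_ | ⟨k, _ | ⟨k', u⟩⟩, ⟨a3, a4⟩, rfl⟩ := (T2 1 g a).1 a1
    · cases a3
    · exact ⟨k, a4.1.1, a2⟩
    · cases a3
  intro U k e3 hU e1 e2
  have e4 : b s (fun g r => β (σ [k] g) r ≠ 0) ∈ U := hN.eucl hU (fun p p' =>
    ⟨fun g => ∀ r : ℝ, p ≤ r → r ≤ p' → β (σ [k] g) r ≠ 0,
      (measurable_from_top (f := fun d : D => ∀ r : ℝ, p ≤ r → r ≤ p' → β d r ≠ 0)).comp (hσ _),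
      fun _ h => h, fun _ h r a a' => h r a.le a'.le⟩)
    ((e1.and e3).mono fun g h => (hβ.cont _).continuousAt.eventually_ne (by
      rw [hβ.of_cube _ _ _ _ (hv _ g) (node_ne_nil hK k [] g) h.2.2 h.1.1.2]
      exact one_ne_zero))
  refine hN.mono' (hN.inter U hU _ _ _ e2 e4) ((e1.and e3).mono fun g h r hr =>
    onS_kept hK hβ h.1.1.1 h.1.2.1 (fun k' u a1 a2 => by_contra fun a3 => ?_)
      ⟨k, h.2.1, h.2.2, hr.2⟩)
  refine hr.1 _ (h.1.2.2 u.length).1 ?_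
  rw [← lab_kept hq (fun n => (h.1.2.2 n).2) u k' a1]
  exact p6 (k' :: u) g r (fun e => by cases e) (fun _ => (hB' _ g r a1.act).trans a2) fun k'' =>
    by_contra fun a4 => a3 ⟨k'', (hB (k'' :: k' :: u) g r a4).1.1, (hB _ g r a4).2⟩

end Pool.Agent.Lib.MP_5ffd28_gt.CR
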