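import Pool.Agent.Lib.MP_5ffd28_gt.CR.TreeA

/-! The tree of splitting nodes and antichains. -/

namespace Pool.Agent.Lib.MP_5ffd28_gt.CR

open Set Filter Topology Pool.Agent.Shared.Forcing Pool.Agent.Lib.MP_23bd8d_gt Cohen

set_option synthInstance.maxSize 4000

/-- the children of the node `d`: `M` siblings of norm `n`, and an antichain above each -/
structure Kids (Φ : Ultra BB → Prop) (b : MF → (Ω → ℝ → Prop) → BB) (c : Bool) (β : D → ℝ → ℝ)
    (F : Ω → Set Z) (n : ℕ) (d : Ω → D) (M : Ω → ℕ) (a : ℕ × ℕ → Ω → D) : Prop where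
  mM : Measurable M
  ma : ∀ k, Measurable (a k)
  val : ∀ k g, Val c (F g) (a k g)
  pre : ∀ k g, d g <+: a k g
  ne : ∀ k g, d g ≠ a k g
  inc : ∀ k k' g, k.1 < M g → k'.1 < M g → k ≠ k' → Inc (a k g) (a k' g)
  pos : ∀ g, 0 < M g
  big : ∀ g j, ∃ e : D, n ≤ e.length ∧ (∀ i < M g, ∃ p, e ++ [p] <+: a (i, j) g) ∧
    nor n {x | ∃ θ i, i < M g ∧ e ++ [(x, θ)] <+: a (i, j) g}
  lf : ∀ U, Φ U → ∀ x : MF,
    ⨆ A : Finset (ℕ × ℕ), b x (fun g r => ∀ k ∉ A, k.1 < M g → β (a k g) r = 0) ∈ U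

variable {Φ : Ultra BB → Prop} {b : MF → (Ω → ℝ → Prop) → BB} {c : Bool} {β : D → ℝ → ℝ}
  {F : Ω → Set Z}

theorem exists_kids [Dec Φ] (hN : NbSys Φ b) (hβ : Bump c β) (hF : ∀ g, Good (F g))
    (hm : ∀ d, Measurable fun g => Val c (F g) d) (n : ℕ) {d : Ω → D} (hd : Measurable d)
    (hv : ∀ g, Val c (F g) (d g)) : ∃ M a, Kids Φ b c β F n d M a := by
  classical
  let _ : MeasurableSpace (List D) := ⊤
  have : DiscreteMeasurableSpace (List D) := ⟨fun _ => trivial⟩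
  obtain ⟨l, hl, hl'⟩ := meas_choice
    (P := fun (l : List D) g => Spl n (d g) l ∧ ∀ d' ∈ l, Val c (F g) d')
    (fun l => ((measurable_from_top (f := fun e : D => Spl n e l)).comp hd).and
      (Measurable.forall fun d' => measurable_const.imp (hm d')))
    fun g => exists_spl (hF g) (hv g) n
  have he : ∀ i, Measurable fun g => (l g).getD i (d g) := fun i =>
    meas_subst (P := fun (l : List D) g => l.getD i (d g))
      (fun l => (measurable_from_top (f := fun e : D => l.getD i e)).comp hd) hl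
  have hp : ∀ i g, Val c (F g) ((l g).getD i (d g)) ∧ d g <+: (l g).getD i (d g) := by
    intro i g
    rcases lt_or_ge i (l g).length with h | h
    · rw [List.getD_eq_getElem _ _ h]
      obtain ⟨e, e1, -, e2, -⟩ := (hl' g).1
      obtain ⟨p, hp⟩ := e2 _ (List.getElem_mem h)
      exact ⟨(hl' g).2 _ (List.getElem_mem h), hp ▸ e1.trans (List.prefix_append _ _)⟩
    · rw [List.getD_eq_default _ _ h]
      exact ⟨hv g, List.prefix_refl _⟩
  choose a a1 a2 a3 a4 using fun i => exists_lf hN hβ hF hm (he i) fun g => (hp i g).1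
  have hq : ∀ i j g (h : i < (l g).length), (l g)[i] <+: a i j g := fun i j g h => by
    rw [← List.getD_eq_getElem _ (d g) h]; exact (a2 i j g).2.1
  have hM : Measurable fun g => (l g).length := (measurable_from_top (f := List.length)).comp hl
  refine ⟨fun g => (l g).length, fun k => a k.1 k.2, hM, fun k => a1 _ _, fun k g => (a2 _ _ g).1,
    fun k g => (hp _ g).2.trans (a2 _ _ g).2.1, fun k g e => (a2 k.1 k.2 g).2.2 ?_,
    fun k k' g h h' hk => ?_, fun g => lt_of_lt_of_le (by norm_num) (hl' g).1.three,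
    fun g j => ?_, fun U hU x => ?_⟩
  · exact (a2 _ _ g).2.1.eq_of_length_le (e ▸ (hp _ g).2.length_le)
  · obtain ⟨-, -, -, -, e3, -⟩ := (hl' g).1
    obtain ⟨i, j⟩ := k
    obtain ⟨i', j'⟩ := k'
    rcases lt_trichotomy i i' with h1 | rfl | h1
    · exact (List.pairwise_iff_getElem.1 e3 i i' h h' h1).mono (hq _ _ _ h) (hq _ _ _ h')
    · exact a3 i j j' g fun e => hk (e ▸ rfl)
    · exact (List.pairwise_iff_getElem.1 e3 i' i h' h h1).symm.mono (hq _ _ _ h) (hq _ _ _ h')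
  · obtain ⟨e, -, e1, e2, -, e3⟩ := (hl' g).1
    refine ⟨e, e1, fun i hi => ?_, nor_mono e3 fun x ⟨θ, hx⟩ => ?_⟩
    · obtain ⟨p, hp⟩ := e2 _ (List.getElem_mem hi)
      exact ⟨p, hp ▸ hq i j g hi⟩
    · obtain ⟨i, hi, h⟩ := List.getElem_of_mem hx
      exact ⟨θ, i, hi, h ▸ hq i j g hi⟩
  · have key : ∀ m U, Φ U → ⨆ A : Finset (ℕ × ℕ),
        b x (fun g r => ∀ k ∉ A, k.1 < m → β (a k.1 k.2 g) r = 0) ∈ U := by
      intro m
      induction m with
      | zero =>
        refine fun U hU => iSup_mem_of_mem ∅ (hN.eucl hU (fun p q => ⟨fun _ => True,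
          measurable_const, fun _ _ => trivial, fun _ _ _ _ _ _ _ h => absurd h (Nat.not_lt_zero _)⟩)
          (Ae.of_all fun g => Eventually.of_forall fun _ _ _ h => absurd h (Nat.not_lt_zero _)))
      | succ m ih =>
        intro U hU
        have h1 := ih U hU
        revert hU
        refine wlog_sup _ U h1 ?_
        intro U A h1 hU
        have h2 := a4 m U hU x
        revert hU h1
        refine wlog_sup _ U h2 ?_
        intro U N h2 h1 hU
        refine iSup_mem_of_mem (A ∪ (Finset.range N).image (Prod.mk m)) (hN.mono'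
          (hN.inter U hU _ _ _ h1 h2) (Ae.of_all fun g r h ⟨i, j⟩ hk hk' => ?_))
        rw [Finset.mem_union, not_or] at hk
        rcases Nat.lt_succ_iff_lt_or_eq.1 hk' with h3 | h3
        · exact h.1 _ hk.1 h3
        · obtain rfl : i = m := h3
          exact h.2 j (not_lt.1 fun h4 => hk.2 (Finset.mem_image_of_mem _ (Finset.mem_range.2 h4)))
    revert hU
    refine wlog_ex (P := fun (m : ℕ) g => (l g).length = m) (fun m => hM.eq measurable_const) U
      (Ae.of_all fun g => ⟨_, rfl⟩) ?_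
    intro U m h1 hU
    have h2 := key m U hU
    revert h1
    refine wlog_sup _ U h2 ?_
    intro U A h2 h1
    exact iSup_mem_of_mem A (hN.mono' h2 (h1.mono fun g e r h k hk hk' => h k hk (e ▸ hk')))

theorem exists_tree [Dec Φ] (hN : NbSys Φ b) (hβ : Bump c β) (h1 : ∀ g, (F g).Nonempty)
    (hF : ∀ g, Good (F g)) (hm : ∀ d, Measurable fun g => Val c (F g) d) :
    ∃ (σ : List (ℕ × ℕ) → Ω → D) (M : List (ℕ × ℕ) → Ω → ℕ), (∀ g, σ [] g = []) ∧
      ∀ u, Kids Φ b c β F u.length (σ u) (M u) fun k => σ (k :: u) := by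
  choose M a hK using fun n (d : {d : Ω → D // Measurable d ∧ ∀ g, Val c (F g) (d g)}) =>
    exists_kids hN hβ hF hm n d.2.1 d.2.2
  let σ : List (ℕ × ℕ) → {d : Ω → D // Measurable d ∧ ∀ g, Val c (F g) (d g)} :=
    List.rec ⟨fun _ => [], measurable_const, fun g => val_nil c (h1 g)⟩
      fun k u s => ⟨a u.length s k, (hK _ s).ma k, (hK _ s).val k⟩
  exact ⟨fun u => (σ u).1, fun u => M u.length (σ u), fun _ => rfl, fun u => hK _ (σ u)⟩

/-- active nodes -/
def act (M : List (ℕ × ℕ) → Ω → ℕ) : List (ℕ × ℕ) → Ω → Prop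
  | [], _ => True
  | k :: u, g => k.1 < M u g ∧ act M u g

/-- the nodes that are kept -/
def kept (M : List (ℕ × ℕ) → Ω → ℕ) (j : ℕ → Ω → ℕ) : List (ℕ × ℕ) → Ω → Prop
  | [], _ => True
  | k :: u, g => (k.1 < M u g ∧ k.2 = j u.length g) ∧ kept M j u g

/-- labels -/
def lab (q : ℕ → ℚ) : List (ℕ × ℕ) → ℚ
  | [] => 0
  | k :: u => if |q k.2 - lab q u| ≤ 2 / 2 ^ u.length then q k.2 else lab q u

variable {σ : List (ℕ × ℕ) → Ω → D} {M : List (ℕ × ℕ) → Ω → ℕ} {j : ℕ → Ω → ℕ} {q : ℕ → ℚ}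

theorem kept.act {g : Ω} : ∀ {u}, kept M j u g → act M u g
  | [], _ => trivial
  | _ :: _, h => ⟨h.1.1, h.2.act⟩

theorem measurable_act (h : ∀ u, Measurable (M u)) : ∀ u, Measurable (act M u)
  | [] => measurable_const
  | _ :: u => (measurable_const.lt (h u)).and (measurable_act h u)

theorem measurable_kept (h : ∀ u, Measurable (M u)) (hj : ∀ n, Measurable (j n)) :
    ∀ u, Measurable (kept M j u)
  | [] => measurable_const
  | _ :: u => ((measurable_const.lt (h u)).and (measurable_const.eq (hj _))).and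
      (measurable_kept h hj u)

theorem finite_kept (g : Ω) (n : ℕ) : {u | u.length = n ∧ kept M j u g}.Finite := by
  induction n with
  | zero => exact (finite_singleton []).subset fun u h => List.eq_nil_of_length_eq_zero h.1
  | succ n ih =>
    refine (ih.biUnion fun u _ => (finite_lt_nat (M u g)).image fun i => (i, j n g) :: u).subset ?_
    rintro (_ | ⟨⟨i, k⟩, u⟩) ⟨h1, h2⟩
    · cases h1
    · obtain rfl : u.length = n := Nat.succ.inj h1
      obtain rfl : k = _ := h2.1.2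
      exact mem_biUnion ⟨rfl, h2.2⟩ ⟨i, h2.1.1, rfl⟩

theorem lab_mem (hq : ∀ i, 0 ≤ q i ∧ q i ≤ 1) : ∀ u, 0 ≤ lab q u ∧ lab q u ≤ 1
  | [] => ⟨le_rfl, zero_le_one⟩
  | k :: u => by
    rw [lab]
    split_ifs
    exacts [hq _, lab_mem hq u]

theorem lab_jump (k : ℕ × ℕ) (u : List (ℕ × ℕ)) : |lab q (k :: u) - lab q u| ≤ 2 / 2 ^ u.length := by
  rw [lab]
  split_ifs with h
  · exact h
  · rw [sub_self, abs_zero]
    positivity

theorem lab_kept (hq : ∀ i, 0 ≤ q i ∧ q i ≤ 1) {g : Ω} {t : ℝ}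
    (ht : ∀ n, |(q (j n g) : ℝ) - t| < 1 / 2 ^ (n + 1)) :
    ∀ u k, kept M j (k :: u) g → lab q (k :: u) = q (j u.length g)
  | [], k, h => by
    rw [lab, h.1.2, if_pos]
    rw [lab, sub_zero, abs_of_nonneg (hq _).1]
    exact (hq _).2.trans (by norm_num)
  | k' :: u, k, h => by
    rw [lab, h.1.2, if_pos]
    rw [lab_kept hq ht u k' h.2, List.length_cons]
    have h1 := abs_lt.1 (ht u.length)
    have h2 := abs_lt.1 (ht (u.length + 1))
    have h3 : (0 : ℝ) < 1 / 2 ^ (u.length + 1) := by positivity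
    have h4 : (1 : ℝ) / 2 ^ (u.length + 1 + 1) = 1 / 2 ^ (u.length + 1) / 2 := by ring
    have h5 : (2 : ℝ) / 2 ^ (u.length + 1) = 2 * (1 / 2 ^ (u.length + 1)) := by ring
    have : |(q (j (u.length + 1) g) : ℝ) - q (j u.length g)| ≤ 2 / 2 ^ (u.length + 1) :=
      abs_le.2 ⟨by linarith, by linarith⟩
    exact (Rat.cast_le (K := ℝ)).1 (by push_cast; exact this)

variable (hK : ∀ u, Kids Φ b c β F u.length (σ u) (M u) fun k => σ (k :: u))
include hK

theorem node_ne_nil (k : ℕ × ℕ) (u : List (ℕ × ℕ)) (g : Ω) : σ (k :: u) g ≠ [] := fun e =>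
  (hK u).ne k g ((List.prefix_nil.1 (e ▸ (hK u).pre k g)).trans e.symm)

theorem node_length (g : Ω) : ∀ u, u.length ≤ (σ u g).length
  | [] => Nat.zero_le _
  | k :: u => lt_of_le_of_lt (node_length g u) (lt_of_le_of_ne ((hK u).pre k g).length_le
      fun e => (hK u).ne k g (((hK u).pre k g).eq_of_length e))

theorem node_uniq {g : Ω} {z : Z} : ∀ u u', u.length = u'.length → act M u g → act M u' g →
    On (σ u g) z → On (σ u' g) z → u = u'
  | [], [], _, _, _, _, _ => rfl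
  | k :: u, k' :: u', e, a, a', o, o' => by
    obtain rfl := node_uniq u u' (Nat.succ.inj e) a.2 a'.2 (o.mono ((hK u).pre k g))
      (o'.mono ((hK u').pre k' g))
    obtain rfl : k = k' := by_contra fun h => ((hK u).inc k k' g a.1 a'.1 h).not_on o o'
    rfl

theorem kept_sk {g : Ω} {n : ℕ} {A B : Finset St}
    (hA : ∀ a, a ∈ A ↔ ∃ u, (u.length = n ∧ kept M j u g) ∧ (σ u g).map Prod.fst = a)
    (hB : ∀ a, a ∈ B ↔ ∃ u, (u.length = n + 1 ∧ kept M j u g) ∧ (σ u g).map Prod.fst = a) :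
    Sk n A B := by
  refine ⟨fun a ha => ?_, fun a ha => ?_, fun a ha => ?_⟩
  · obtain ⟨u, ⟨rfl, h⟩, rfl⟩ := (hA a).1 ha
    exact ⟨_, (hB _).2 ⟨(0, j u.length g) :: u, ⟨rfl, ⟨(hK u).pos g, rfl⟩, h⟩, rfl⟩,
      ((hK u).pre _ g).map _⟩
  · obtain ⟨_ | ⟨k, u⟩, ⟨e, h⟩, rfl⟩ := (hB a).1 ha
    · cases e
    · exact ⟨_, (hA _).2 ⟨u, ⟨Nat.succ.inj e, h.2⟩, rfl⟩, ((hK u).pre _ g).map _⟩
  · obtain ⟨_ | ⟨⟨i, k⟩, u⟩, ⟨e, h⟩, rfl⟩ := (hB a).1 ha
    · cases e
    obtain rfl : u.length = n := Nat.succ.inj e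
    obtain rfl : k = _ := h.1.2
    obtain ⟨e, e1, e2, e3⟩ := (hK u).big g (j u.length g)
    obtain ⟨p, v, hp⟩ := e2 i h.1.1
    refine ⟨e.length, e1, by simp [← hp], nor_mono e3 fun x ⟨θ, i', hi, v', hv⟩ =>
      ⟨_, (hB _).2 ⟨(i', j u.length g) :: u, ⟨rfl, ⟨hi, rfl⟩, h.2⟩, rfl⟩, ?_, ?_⟩⟩
    · simp [← hp, ← hv]
    · simp [← hv]

end Pool.Agent.Lib.MP_5ffd28_gt.CR
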