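import Mathlib

/-! Tree maps: the pointwise series. -/

namespace Pool.Agent.Lib.MP_5ffd28_gt.CR

open Set Filter Topology

variable {κ : Type}

/-- the term of a node -/
noncomputable def tmT (w : List κ → ℚ) (β : List κ → ℝ) : List κ → ℝ
  | [] => 0
  | k :: u => β (k :: u) * ((w (k :: u) : ℝ) - w u)

/-- the term of a level -/
noncomputable def levT (w : List κ → ℚ) (β : List κ → ℝ) (n : ℕ) : ℝ :=
  ∑' v : List κ, if v.length = n + 1 then tmT w β v else 0

/-- the whole series -/
noncomputable def sumT (w : List κ → ℚ) (β : List κ → ℝ) : ℝ := ∑' n, levT w β n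

/-- the pointwise hypotheses -/
structure PW (w : List κ → ℚ) (β : List κ → ℝ) : Prop where
  hj : ∀ k u, |w (k :: u) - w u| ≤ 2 / 2 ^ u.length
  h01 : ∀ k u, 0 ≤ β (k :: u) ∧ β (k :: u) ≤ 1
  hn : ∀ k k' u, β (k :: k' :: u) ≠ 0 → β (k' :: u) = 1
  hd : ∀ k k' u, k ≠ k' → β (k :: u) = 0 ∨ β (k' :: u) = 0

variable {w : List κ → ℚ} {β : List κ → ℝ}

theorem tmT_zero {v : List κ} (h : v ≠ [] → β v = 0) : tmT w β v = 0 := by
  cases v with
  | nil => rfl
  | cons k u => simp [tmT, h (List.cons_ne_nil _ _)]

theorem PW.uniq (h : PW w β) : ∀ (u u' : List κ) (k k' : κ), u.length = u'.length →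
    β (k :: u) ≠ 0 → β (k' :: u') ≠ 0 → k :: u = k' :: u' := by
  have key : ∀ u k k', β (k :: u) ≠ 0 → β (k' :: u) ≠ 0 → k :: u = k' :: u := fun u k k' a b => by
    by_contra hne
    exact (h.hd k k' u fun e => hne (e ▸ rfl)).elim a b
  intro u
  induction u with
  | nil =>
    intro u' k k' e a b
    obtain rfl := List.length_eq_zero_iff.1 e.symm
    exact key _ _ _ a b
  | cons t u ih =>
    intro u' k k' e a b
    cases u' with
    | nil => simp at e
    | cons t' u' =>
      have := ih u' t t' (by simpa using e) (by rw [h.hn _ _ _ a]; exact one_ne_zero)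
        (by rw [h.hn _ _ _ b]; exact one_ne_zero)
      rw [← this] at b ⊢
      exact key _ _ _ a b

theorem PW.lev_eq (h : PW w β) {k : κ} {u : List κ} (a : β (k :: u) ≠ 0) :
    levT w β u.length = tmT w β (k :: u) := by
  rw [levT, tsum_eq_single (k :: u), if_pos (List.length_cons ..)]
  intro v hv
  split_ifs with e
  · refine tmT_zero fun hne => ?_
    obtain ⟨k', u', rfl⟩ := List.exists_cons_of_ne_nil hne
    by_contra b
    exact hv (h.uniq _ _ _ _ (by simpa using e) b a)
  · rfl

theorem levT_zero {n : ℕ} (a : ∀ k u, u.length = n → β (k :: u) = 0) : levT w β n = 0 := by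
  have : ∀ v : List κ, (if v.length = n + 1 then tmT w β v else 0) = 0 := fun v => by
    split_ifs with e
    · refine tmT_zero fun hne => ?_
      obtain ⟨k', u', rfl⟩ := List.exists_cons_of_ne_nil hne
      exact a _ _ (by simpa using e)
    · rfl
  simp only [levT, this, tsum_zero]

theorem PW.lev_abs (h : PW w β) (n : ℕ) : |levT w β n| ≤ 2 / 2 ^ n := by
  by_cases a : ∀ k u, u.length = n → β (k :: u) = 0
  · rw [levT_zero a, abs_zero]; positivity
  · push Not at a
    obtain ⟨k, u, rfl, a⟩ := a
    rw [h.lev_eq a, tmT, abs_mul, abs_of_nonneg (h.h01 k u).1]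
    have h1 : |(w (k :: u) : ℝ) - w u| ≤ 2 / 2 ^ u.length := by
      have := (Rat.cast_le (K := ℝ)).2 (h.hj k u)
      simpa using this
    exact (mul_le_of_le_one_left (abs_nonneg _) (h.h01 k u).2).trans h1

theorem hasSum_geo (n : ℕ) : HasSum (fun i : ℕ => (2 : ℝ) / 2 ^ (i + n)) (4 / 2 ^ n) := by
  have := hasSum_geometric_two.mul_left (2 / 2 ^ n)
  have e : (fun i : ℕ => (2 : ℝ) / 2 ^ (i + n)) = fun i => 2 / 2 ^ n * (1 / 2) ^ i := by
    funext i
    rw [pow_add, one_div, inv_pow]
    field_simp
  rw [e, show (4 : ℝ) / 2 ^ n = 2 / 2 ^ n * 2 by ring]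
  exact this

theorem PW.summable (h : PW w β) : Summable (levT w β) :=
  Summable.of_norm_bounded (hasSum_geo 0).summable fun i => h.lev_abs i

theorem PW.tail (h : PW w β) (n : ℕ) :
    |sumT w β - ∑ i ∈ Finset.range n, levT w β i| ≤ 4 / 2 ^ n := by
  rw [sumT, ← h.summable.sum_add_tsum_nat_add n, add_sub_cancel_left]
  exact tsum_of_norm_bounded (f := fun i => levT w β (i + n)) (hasSum_geo n) fun i => h.lev_abs _

theorem PW.part (h : PW w β) : ∀ u : List κ, (u ≠ [] → β u = 1) →
    ∑ i ∈ Finset.range u.length, levT w β i = w u - w []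
  | [], _ => by simp
  | k :: u, a => by
    have b := a (List.cons_ne_nil _ _)
    have c : β (k :: u) ≠ 0 := by rw [b]; exact one_ne_zero
    rw [List.length_cons, Finset.sum_range_succ, h.lev_eq c, tmT, b, h.part u fun hne => ?_]
    · ring
    · obtain ⟨k', u', rfl⟩ := List.exists_cons_of_ne_nil hne
      exact h.hn _ _ _ c

theorem PW.up (h : PW w β) {n : ℕ} (a : ∀ k u, u.length = n → β (k :: u) = 0) (i : ℕ) :
    ∀ k u, u.length = i + n → β (k :: u) = 0 := by
  induction i with
  | zero => simpa using a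
  | succ i ih =>
    intro k u e
    cases u with
    | nil => simp at e; omega
    | cons t u =>
      by_contra b
      have := h.hn _ _ _ b
      rw [ih t u (by simp at e; omega)] at this
      exact zero_ne_one this

theorem PW.stop (h : PW w β) (u : List κ) (a : u ≠ [] → β u = 1) (b : ∀ k, β (k :: u) = 0) :
    sumT w β = w u - w [] := by
  have c : ∀ k v, v.length = u.length → β (k :: v) = 0 := fun k v e => by
    by_contra d
    cases v with
    | nil =>
      obtain rfl := List.length_eq_zero_iff.1 e.symm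
      exact d (b k)
    | cons t v =>
      cases u with
      | nil => simp at e
      | cons t' u =>
        have := h.uniq v u t t' (by simpa using e) (by rw [h.hn _ _ _ d]; exact one_ne_zero)
          (by rw [a (List.cons_ne_nil _ _)]; exact one_ne_zero)
        rw [this] at d
        exact d (b k)
  rw [sumT, ← h.summable.sum_add_tsum_nat_add u.length, h.part u a]
  simp only [fun i => levT_zero (w := w) (h.up c i), tsum_zero, add_zero]

theorem PW.near (h : PW w β) {k : κ} {u : List κ} (a : β (k :: u) = 1) :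
    |sumT w β - (w (k :: u) - w [])| ≤ 2 / 2 ^ u.length := by
  rw [← h.part (k :: u) fun _ => a]
  refine (h.tail _).trans_eq ?_
  rw [List.length_cons, pow_succ]
  field_simp
  norm_num

theorem PW.root (h : PW w β) {v : List κ} (hv : v ≠ []) (a : β v ≠ 0) : ∃ k, β [k] ≠ 0 := by
  induction v with
  | nil => exact absurd rfl hv
  | cons k u ih =>
    cases u with
    | nil => exact ⟨k, a⟩
    | cons t u => exact ih (List.cons_ne_nil _ _) (by rw [h.hn _ _ _ a]; exact one_ne_zero)

theorem PW.fin (h : PW w β) (n : ℕ) :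
    ∃ A : Finset (List κ), ∀ v ∉ A, v ≠ [] → v.length ≤ n → β v = 0 := by
  classical
  induction n with
  | zero => exact ⟨∅, fun v _ a b => absurd (List.length_eq_zero_iff.1 (Nat.le_zero.1 b)) a⟩
  | succ n ih =>
    obtain ⟨A, hA⟩ := ih
    by_cases a : ∀ k u, u.length = n → β (k :: u) = 0
    · refine ⟨A, fun v b c d => ?_⟩
      rcases d.lt_or_eq with d | d
      · exact hA v b c (by omega)
      · obtain ⟨k', u', rfl⟩ := List.exists_cons_of_ne_nil c
        exact a _ _ (by simpa using d)
    · push Not at a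
      obtain ⟨k, u, e, a⟩ := a
      refine ⟨insert (k :: u) A, fun v b c d => ?_⟩
      rw [Finset.mem_insert, not_or] at b
      rcases d.lt_or_eq with d | d
      · exact hA v b.2 c (by omega)
      · obtain ⟨k', u', rfl⟩ := List.exists_cons_of_ne_nil c
        by_contra f
        exact b.1 (h.uniq _ _ _ _ (by simp at d; omega) f a)

theorem PW.lev_summable (h : PW w β) (n : ℕ) :
    Summable fun v : List κ => if v.length = n + 1 then tmT w β v else 0 := by
  obtain ⟨A, hA⟩ := h.fin (n + 1)
  refine summable_of_ne_finset_zero (s := A) fun v hv => ?_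
  split_ifs with e
  exacts [tmT_zero fun a => hA v hv a e.le, rfl]

theorem part_fin {n : ℕ} {A : Finset (List κ)}
    (hA : ∀ v ∉ A, v ≠ [] → v.length ≤ n → β v = 0) :
    ∑ i ∈ Finset.range n, levT w β i = ∑ v ∈ A, if v.length ≤ n then tmT w β v else 0 := by
  have e : ∀ i ∈ Finset.range n, levT w β i =
      ∑ v ∈ A, if v.length = i + 1 then tmT w β v else 0 := fun i hi => by
    refine tsum_eq_sum fun v hv => ?_
    split_ifs with e
    exacts [tmT_zero fun a => hA v hv a (by rw [e]; exact Finset.mem_range.1 hi), rfl]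
  rw [Finset.sum_congr rfl e, Finset.sum_comm]
  refine Finset.sum_congr rfl fun v _ => ?_
  cases v with
  | nil => simp [tmT]
  | cons k u =>
    simp only [List.length_cons, add_left_inj, Finset.sum_ite_eq, Finset.mem_range,
      Nat.succ_le_iff]

theorem meas_tsum {α ι : Type} [MeasurableSpace α] [Countable ι] {f : ι → α → ℝ}
    (hf : ∀ i, Measurable (f i)) (hs : ∀ a, Summable fun i => f i a) :
    Measurable fun a => ∑' i, f i a := by
  classical
  refine measurable_of_tendsto_metrizable' (f := fun (s : Finset ι) a => ∑ i ∈ s, f i a) atTop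
    (fun s => Finset.measurable_sum s fun i _ => hf i) (tendsto_pi_nhds.2 fun a => ?_)
  exact (hs a).hasSum

/-- projection onto the unit interval -/
noncomputable def clp (t : ℝ) : ℝ := max 0 (min 1 t)

theorem clp_mem (t : ℝ) : 0 ≤ clp t ∧ clp t ≤ 1 :=
  ⟨le_max_left _ _, max_le zero_le_one (min_le_left _ _)⟩

theorem clp_of_mem {t : ℝ} (a : 0 ≤ t) (b : t ≤ 1) : clp t = t := by
  rw [clp, min_eq_right b, max_eq_right a]

theorem clp_of_le {t : ℝ} (a : t ≤ 0) : clp t = 0 :=
  max_eq_left ((min_le_right _ _).trans a)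

theorem clp_lip (s t : ℝ) : |clp s - clp t| ≤ |s - t| := by
  refine (abs_max_sub_max_le_max _ _ _ _).trans (max_le (by simp) ?_)
  exact (abs_min_sub_min_le_max _ _ _ _).trans (max_le (by simp) le_rfl)

theorem continuous_clp : Continuous clp := continuous_const.max (continuous_const.min continuous_id)

end Pool.Agent.Lib.MP_5ffd28_gt.CR
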