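import Pool.Agent.Lib.MP_5ffd28_gt.CR.NbDefs
import Pool.Agent.Lib.MP_5ffd28_gt.CR.TreeMap2

/-! Tree maps. -/

namespace Pool.Agent.Lib.MP_5ffd28_gt.CR

open Set Filter Topology Pool.Agent.Shared.Forcing Pool.Agent.Lib.MP_23bd8d_gt Cohen

set_option synthInstance.maxSize 4000

theorem nb_fin {Φ : Ultra BB → Prop} [Dec Φ] {b : MF → (Ω → ℝ → Prop) → BB} (hN : NbSys Φ b)
    {κ : Type} {β : List κ → Ω → ℝ → ℝ}
    (hn : ∀ k k' u g s, β (k :: k' :: u) g s ≠ 0 → β (k' :: u) g s = 1)
    (hLF : ∀ U, Φ U → ∀ u (x : MF),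
      ⨆ A : Finset κ, b x (fun g r => ∀ k ∉ A, β (k :: u) g r = 0) ∈ U) (x : MF) (n : ℕ) :
    ∀ U, Φ U → ⨆ A : Finset (List κ),
      b x (fun g r => ∀ v ∉ A, v ≠ [] → v.length ≤ n → β v g r = 0) ∈ U := by
  classical
  have top : ∀ U, Φ U → ∀ C : Ω → ℝ → Prop, (∀ g r, C g r) → b x C ∈ U := fun U hU C hC =>
    wlog_sup (Φ := fun U => b x C ∈ U) _ U (hLF U hU [] x) fun U _ h =>
      hN.mono' h (Ae.of_all fun g r _ => hC g r)
  have fin : ∀ s : Finset (List κ), ∀ U, Φ U → ⨆ B : Finset (List κ),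
      b x (fun g r => ∀ u ∈ s, ∀ k, k :: u ∉ B → β (k :: u) g r = 0) ∈ U := by
    intro s
    induction s using Finset.induction_on with
    | empty => exact fun U hU => iSup_mem_of_mem ∅ (top U hU _ fun _ _ _ h => absurd h (by simp))
    | insert u s _ ih =>
      intro U hU
      have h1 := ih U hU
      have h2 := hLF U hU u x
      revert hU h2
      refine wlog_sup _ U h1 fun U B h1 hU h2 => ?_
      revert hU h1
      refine wlog_sup _ U h2 fun U A h2 h1 hU => ?_
      refine iSup_mem_of_mem (B ∪ A.image (· :: u)) (hN.mono' (hN.inter U hU _ _ _ h1 h2)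
        (Ae.of_all fun g r h v hv k hk => ?_))
      rw [Finset.mem_union, not_or] at hk
      rcases Finset.mem_insert.1 hv with rfl | hv
      · exact h.2 k fun a => hk.2 (Finset.mem_image_of_mem _ a)
      · exact h.1 v hv k hk.1
  induction n with
  | zero =>
    exact fun U hU => iSup_mem_of_mem ∅ (top U hU _ fun _ _ v _ a c =>
      absurd (List.length_eq_zero_iff.1 (Nat.le_zero.1 c)) a)
  | succ n ih =>
    intro U hU
    have h1 := ih U hU
    revert hU
    refine wlog_sup _ U h1 fun U A h1 hU => ?_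
    have h2 := fin (insert [] A) U hU
    revert hU h1
    refine wlog_sup _ U h2 fun U B h2 h1 hU => ?_
    refine iSup_mem_of_mem B (hN.mono' (hN.inter U hU _ _ _ h1 h2)
      (Ae.of_all fun g r h v hv a c => ?_))
    obtain ⟨k, u, rfl⟩ := List.exists_cons_of_ne_nil a
    by_cases hu : u ∈ insert [] A
    · exact h.2 u hu k hv
    · rw [Finset.mem_insert, not_or] at hu
      have := h.1 u hu.2 hu.1 (by simpa using c)
      obtain ⟨k', u', rfl⟩ := List.exists_cons_of_ne_nil hu.1
      by_contra d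
      rw [hn _ _ _ _ _ d] at this
      exact one_ne_zero this

/-- a closed window of a continuous family is a neighbourhood -/
theorem nb_window {Φ : Ultra BB → Prop} [Dec Φ] {b : MF → (Ω → ℝ → Prop) → BB} (hN : NbSys Φ b)
    {F : Ω → ℝ → ℝ} (hm : JM F) (hc : ∀ g, Continuous (F g)) {U : Ultra BB} (hU : Φ U) (x : MF)
    (p q : ℝ) (h : Ae U fun g => p < F g (x.1 g) ∧ F g (x.1 g) < q) :
    b x (fun g r => p ≤ F g r ∧ F g r ≤ q) ∈ U := by
  refine hN.eucl hU (fun p' q' => ⟨fun g => ∀ r : ℚ, p' ≤ r → r ≤ q' → p ≤ F g r ∧ F g r ≤ q,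
    Measurable.forall fun r => ?_, fun g a r c d => a r (by exact_mod_cast c) (by exact_mod_cast d),
    fun g a r c d => ?_⟩) (h.mono fun g a => ?_)
  · have : Measurable fun g => F g r := hm.comp (measurable_id.prodMk measurable_const)
    exact measurable_const.imp (measurable_const.imp
      ((measurableSet_le measurable_const this).mem.and (measurableSet_le this measurable_const).mem))
  · have cl : IsClosed {r | p ≤ F g r ∧ F g r ≤ q} :=
      (isClosed_le continuous_const (hc g)).inter (isClosed_le (hc g) continuous_const)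
    have : r ∈ closure (Ioo (p' : ℝ) q' ∩ range ((↑) : ℚ → ℝ)) :=
      Rat.denseRange_cast.open_subset_closure_inter isOpen_Ioo ⟨c, d⟩
    refine cl.closure_subset_iff.2 ?_ this
    rintro _ ⟨e, t, rfl⟩
    exact a t (by exact_mod_cast e.1.le) (by exact_mod_cast e.2.le)
  · exact (((hc g).continuousAt.eventually (lt_mem_nhds a.1)).and
      ((hc g).continuousAt.eventually (gt_mem_nhds a.2))).mono fun r c => ⟨c.1.le, c.2.le⟩

theorem treeMap {Φ : Ultra BB → Prop} [Dec Φ] {b : MF → (Ω → ℝ → Prop) → BB} (hN : NbSys Φ b)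
    {κ : Type} [Countable κ] {β : List κ → Ω → ℝ → ℝ} {w : List κ → ℚ} (h0 : w [] = 0)
    (hw : ∀ u, 0 ≤ w u ∧ w u ≤ 1) (hj : ∀ k u, |w (k :: u) - w u| ≤ 2 / 2 ^ u.length)
    (hm : ∀ k u, JM (β (k :: u))) (hc : ∀ k u g, Continuous (β (k :: u) g))
    (h01 : ∀ k u g s, 0 ≤ β (k :: u) g s ∧ β (k :: u) g s ≤ 1)
    (hr : ∀ k g s, β [k] g s ≠ 0 → 0 < s ∧ s < ln 0)
    (hn : ∀ k k' u g s, β (k :: k' :: u) g s ≠ 0 → β (k' :: u) g s = 1)
    (hd : ∀ k k' u g s, k ≠ k' → β (k :: u) g s = 0 ∨ β (k' :: u) g s = 0)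
    (hLF : ∀ U, Φ U → ∀ u (x : MF),
      ⨆ A : Finset κ, b x (fun g r => ∀ k ∉ A, β (k :: u) g r = 0) ∈ U) :
    ∃ φ, JM φ ∧ (∀ g r, 0 ≤ φ g r ∧ φ g r ≤ 1) ∧ (∀ g, φ g 0 = 0) ∧ (∀ g, φ g PP = 1) ∧
      (∀ U, Φ U → ∀ (x : MF) (p q : ℚ), (Ae U fun g => p < φ g (x.1 g) ∧ φ g (x.1 g) < q) →
        b x (fun g r => p < φ g r ∧ φ g r < q) ∈ U) ∧
      (∀ u g (s : ℝ), (u = [] → s ≤ ln 0) → (u ≠ [] → β u g s = 1) → (∀ k, β (k :: u) g s = 0) →
        φ g s = w u) ∧
      ∀ k u g s, β (k :: u) g s = 1 → |φ g s - w (k :: u)| ≤ 2 / 2 ^ u.length := by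
  classical
  have pw : ∀ g s, PW w fun v => β v g s := fun g s =>
    ⟨hj, fun k u => h01 k u g s, fun k k' u => hn k k' u g s, fun k k' u => hd k k' u g s⟩
  have mT : ∀ v, JM fun g s => tmT w (fun v => β v g s) v := fun v => by
    cases v with
    | nil => exact measurable_const
    | cons k u => exact (hm k u).mul_const _
  have cT : ∀ v g, Continuous fun s => tmT w (fun v => β v g s) v := fun v g => by
    cases v with
    | nil => exact continuous_const
    | cons k u => exact (hc k u g).mul continuous_const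
  have mS : JM fun g s => sumT w fun v => β v g s := by
    refine meas_tsum (fun n => meas_tsum (fun v => ?_) fun a => (pw _ _).lev_summable n)
      fun a => (pw _ _).summable
    split_ifs
    exacts [mT v, measurable_const]
  have mR : Measurable fun u : Ω × ℝ => clp (u.2 - ln 0) :=
    continuous_clp.measurable.comp (measurable_snd.sub_const _)
  have w0 : (w [] : ℝ) = 0 := by rw [h0, Rat.cast_zero]
  have ramp : ∀ v g s, v ≠ [] → β v g s ≠ 0 → clp (s - ln 0) = 0 := fun v g s a c =>
    let ⟨k, hk⟩ := (pw g s).root a c; clp_of_le (sub_nonpos.2 (hr k g s hk).2.le)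
  have hw' : ∀ u, clp (w u) = w u := fun u =>
    clp_of_mem (by exact_mod_cast (hw u).1) (by exact_mod_cast (hw u).2)
  have mφ : JM fun g s => clp ((sumT w fun v => β v g s) + clp (s - ln 0)) :=
    continuous_clp.measurable.comp (Measurable.add mS mR)
  refine ⟨fun g s => clp ((sumT w fun v => β v g s) + clp (s - ln 0)), mφ, fun g r => clp_mem _,
    fun g => ?_, fun g => ?_, fun U hU x p q h => ?_, fun u g s a c d => ?_, fun k u g s a => ?_⟩
  · beta_reduce
    rw [(pw g 0).stop [] (fun a => absurd rfl a) fun k => by_contra fun a => (hr k g 0 a).1.false,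
      clp_of_le (t := 0 - _) (by simp), sub_self, add_zero, clp_of_le le_rfl]
  · beta_reduce
    rw [(pw g PP).stop [] (fun a => absurd rfl a) fun k => by_contra fun a =>
      (hr k g PP a).2.not_gt (lt_add_one _), sub_self, zero_add, PP, add_sub_cancel_left,
      clp_of_mem zero_le_one le_rfl, clp_of_mem zero_le_one le_rfl]
  · have mx := (app _ mφ x).2
    revert hU
    refine wlog_ex (P := fun (t : ℕ × Finset (List κ)) g =>
      (p + 9 / 2 ^ t.1 < clp ((sumT w fun v => β v g (x.1 g)) + clp (x.1 g - ln 0)) ∧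
        clp ((sumT w fun v => β v g (x.1 g)) + clp (x.1 g - ln 0)) < q - 9 / 2 ^ t.1) ∧
        ∀ v ∉ t.2, v ≠ [] → v.length ≤ t.1 → β v g (x.1 g) = 0) (fun t => ?_) U
      (h.mono fun g a => ?_) ?_
    · refine ((measurable_const.lt mx).and (mx.lt measurable_const)).and
        (Measurable.forall fun v => measurable_const.imp ?_)
      cases v with
      | nil => simp
      | cons k u =>
        exact measurable_const.imp (measurable_const.imp ((app _ (hm k u) x).2.eq measurable_const))
    · have t0 : Tendsto (fun n : ℕ => (9 : ℝ) / 2 ^ n) atTop (𝓝 0) :=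
        tendsto_const_nhds.div_atTop (tendsto_pow_atTop_atTop_of_one_lt one_lt_two)
      obtain ⟨n, c, d⟩ := ((t0.eventually (gt_mem_nhds (sub_pos.2 a.1))).and
        (t0.eventually (gt_mem_nhds (sub_pos.2 a.2)))).exists
      obtain ⟨A, hA⟩ := (pw g (x.1 g)).fin n
      exact ⟨(n, A), ⟨by linarith, by linarith⟩, hA⟩
    · rintro U ⟨n, A⟩ h hU
      have h1 := nb_fin hN hn hLF x n U hU
      revert hU h
      refine wlog_sup _ U h1 fun U B h1 h hU => ?_
      have key : ∀ g r, (∀ v ∉ A ∪ B, v ≠ [] → v.length ≤ n → β v g r = 0) →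
          |clp ((sumT w fun v => β v g r) + clp (r - ln 0)) -
            clp ((∑ v ∈ A ∪ B, if v.length ≤ n then tmT w (fun v => β v g r) v else 0) +
              clp (r - ln 0))| ≤ 4 / 2 ^ n := fun g r a => by
        refine (clp_lip _ _).trans ?_
        rw [add_sub_add_right_eq_sub, ← part_fin (β := fun v => β v g r) a]
        exact (pw g r).tail n
      have e9 : (9 : ℝ) / 2 ^ n = 4 / 2 ^ n + 5 / 2 ^ n := by ring
      have e5 : (4 : ℝ) / 2 ^ n < 5 / 2 ^ n := by gcongr; norm_num
      have h2 := nb_window hN (F := fun g r => clp ((∑ v ∈ A ∪ B,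
        if v.length ≤ n then tmT w (fun v => β v g r) v else 0) + clp (r - ln 0))) ?_ ?_ hU x
        (p + 5 / 2 ^ n) (q - 5 / 2 ^ n) (h.mono fun g a => ?_)
      · refine hN.mono' (hN.inter U hU _ _ _ h1 h2) (Ae.of_all fun g r a => ?_)
        have := abs_le.1 (key g r fun v hv => a.1 v fun c => hv (Finset.mem_union_right _ c))
        have a1 := a.2.1
        have a2 := a.2.2
        exact ⟨by linarith [this.1], by linarith [this.2]⟩
      · refine continuous_clp.measurable.comp (Measurable.add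
          (Finset.measurable_sum _ fun v _ => ?_) mR)
        split_ifs
        exacts [mT v, measurable_const]
      · refine fun g => continuous_clp.comp (Continuous.add (continuous_finsetSum _ fun v _ => ?_)
          (continuous_clp.comp (continuous_id.sub continuous_const)))
        split_ifs
        exacts [cT v g, continuous_const]
      · have := abs_le.1 (key g (x.1 g) fun v hv => a.2 v fun c => hv (Finset.mem_union_left _ c))
        have a1 := a.1.1
        have a2 := a.1.2
        exact ⟨by linarith [this.2], by linarith [this.1]⟩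
  · have : clp (s - ln 0) = 0 := by
      by_cases e : u = []
      · exact clp_of_le (sub_nonpos.2 (a e))
      · exact ramp u g s e (by rw [c e]; exact one_ne_zero)
    beta_reduce
    rw [(pw g s).stop u c d, this, w0, sub_zero, add_zero, hw']
  · beta_reduce
    rw [ramp _ g s (List.cons_ne_nil k u) (by rw [a]; exact one_ne_zero), add_zero, ← hw']
    refine (clp_lip _ _).trans ?_
    have := (pw g s).near a
    rwa [w0, sub_zero] at this

end Pool.Agent.Lib.MP_5ffd28_gt.CR
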